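/-
ROW RotF. Rotation invariant functions. PROOF. rot_id: differentiate `f (rot θ x) = f x` in `θ` at `0`: `x₀ ∂₁ f - x₁ ∂₀ f = 0`. rot_pd2: `pd 2 f` is invariant.
rdr_zf: VRep_main (NS/VRep.lean) with `f := rdr f`, `g := Δ_h f = pd 0 (pd 0 f) + pd 1 (pd 1 f)`: `rdr f (sq 0 x) = 0`; and `rdr (rdr f) = rsq * Δ_h f`: `rdr (rdr f) = ∑ x_i x_j ∂_ij f + ∑ x_i ∂_i f` (i, j = 0, 1),
and applying `x₀ ∂₁ - x₁ ∂₀` to rot_id: `x₀² ∂₁₁ f - 2 x₀ x₁ ∂₀₁ f + x₁² ∂₀₀ f - x₀ ∂₀ f - x₁ ∂₁ f = 0`; add. zf_lap: `rdr (rsq Z) = 2 rsq Z + rsq rdr Z` (rdr_rsq) `= rsq Δ_h f`, off the axis, continuity.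
zf_DB: avk_DB, add_DB-type lemmas (Bds1). int_rdr: `∫ rdr h φ_n = - ∫ h (2 φ_n + rdr φ_n)` with `φ_n(x) = φ(x/n)` cut-offs, `φ_n → 1`, `|rdr φ_n| ≤ C` and `rdr φ_n → 0` pointwise, dominated convergence.
axis_sign: `Z = zf f`, `(2 / rsq) rdr f = 2 Z` off the axis (almost everywhere). For `κ > 0`: with cut-offs `φ_n`, `∫ (2/(rsq+κ)) rdr f f φ_n = ∫ (1/(rsq+κ)) rdr (f²) φ_n = - ∫ f² (2κ/(rsq+κ)²) φ_n - ∫ f² rdr φ_n/(rsq+κ)`
(the field `(x₀, x₁, 0)/(rsq+κ)` has divergence `2κ/(rsq+κ)²`), the last term tends to `0` as `n → ∞` (`|rdr φ_n| ≤ C rsq / n²`), so `∫ (2 rsq/(rsq+κ)) Z f ≤ 0`; let `κ → 0` (dominated by `2 |Z f|`).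
-/
import Pool.Agent.H87.NS.VRep
import Pool.Agent.H87.NS.Bds1
import Pool.Agent.H87.NS.IBP
import Pool.Agent.H87.NS.LevX
import Pool.Agent.H87.NS.S1
import Pool.Agent.H87.NS.Quot

set_option autoImplicit false

open Set Filter Topology MeasureTheory
open scoped ContDiff

namespace Pool.Agent.H87.NS

open Pool.Agent.H16

/-- Invariance under rotations. -/
def RotI (f : E3 → ℝ) : Prop := ∀ θ x, f (rot θ x) = f x

/-- `(∂_r f) / r`. -/
noncomputable def zf (f : E3 → ℝ) : E3 → ℝ := avk 1 (fun y => pd 0 (pd 0 f) y + pd 1 (pd 1 f) y)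

theorem RotF_rotGen (x : E3) : rotGen x = (- x 1) • e 0 + x 0 • e 1 := by
  apply ext3 <;> simp [e]

theorem rot_id {f : E3 → ℝ} (hf : ContDiff ℝ ∞ f) (hr : RotI f) (x : E3) : x 0 * pd 1 f x - x 1 * pd 0 f x = 0 := by
  have h1 : HasDerivAt (fun s => f (rot s x)) (fderiv ℝ f x (rotGen x)) 0 := by
    have := ((hf.differentiable (by simp)) (rot 0 x)).hasFDerivAt.comp_hasDerivAt (0:ℝ)
      (hasDerivAt_rot 0 x)
    simp only [rot_zero_angle] at this
    exact this
  have h2 : HasDerivAt (fun s => f (rot s x)) 0 0 := by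
    have h3 : (fun s => f (rot s x)) = fun _ => f x := by
      funext s
      exact hr s x
    rw [h3]
    exact hasDerivAt_const _ _
  have h4 := h1.unique h2
  rw [RotF_rotGen, map_add, map_smul, map_smul, smul_eq_mul, smul_eq_mul] at h4
  unfold pd
  linarith

theorem rot_pd2 {f : E3 → ℝ} (hf : ContDiff ℝ ∞ f) (hr : RotI f) : RotI (pd 2 f) := by
  intro θ x
  have h1 : HasFDerivAt (fun y => f (rotL θ y))
      ((fderiv ℝ f (rot θ x)).comp (rotL θ).toContinuousLinearEquiv.toContinuousLinearMap) x :=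
    ((hf.differentiable (by simp)) (rot θ x)).hasFDerivAt.comp x
      (rotL θ).toContinuousLinearEquiv.toContinuousLinearMap.hasFDerivAt
  have h3 : (fun y => f (rotL θ y)) = f := by
    funext y
    exact hr θ y
  rw [h3] at h1
  have h4 := h1.unique ((hf.differentiable (by simp)) x).hasFDerivAt
  have h5 := congrArg (fun L => L (e 2)) h4
  have h6 : rot θ (e 2) = e 2 := by
    apply ext3 <;> simp [e]
  simp only [ContinuousLinearMap.comp_apply] at h5
  have h7 : (rotL θ).toContinuousLinearEquiv.toContinuousLinearMap (e 2) = e 2 := h6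
  rw [h7] at h5
  exact h5

theorem RotF_lap_smooth {f : E3 → ℝ} (hf : ContDiff ℝ ∞ f) :
    ContDiff ℝ ∞ (fun y => pd 0 (pd 0 f) y + pd 1 (pd 1 f) y) :=
  (pd_smooth (pd_smooth hf 0) 0).add (pd_smooth (pd_smooth hf 1) 1)

theorem RotF_zf_smooth {f : E3 → ℝ} (hf : ContDiff ℝ ∞ f) : ContDiff ℝ ∞ (zf f) :=
  avk_smooth (RotF_lap_smooth hf) 1

theorem RotF_rdr_smooth {f : E3 → ℝ} (hf : ContDiff ℝ ∞ f) : ContDiff ℝ ∞ (rdr f) :=
  ((LevX_coord_cd 0).mul (pd_smooth hf 0)).add ((LevX_coord_cd 1).mul (pd_smooth hf 1))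

theorem RotF_dd {f : E3 → ℝ} (hf : ContDiff ℝ ∞ f) (x : E3) : DifferentiableAt ℝ f x :=
  (hf.differentiable (by simp)) x

theorem RotF_pd_xmul {f : E3 → ℝ} (hf : ContDiff ℝ ∞ f) (i k : Fin 3) (x : E3) :
    pd i (fun y => y k * f y) x = (if k = i then 1 else 0) * f x + x k * pd i f x := by
  rw [LevX_pd_mul (RotF_dd (LevX_coord_cd k) x) (RotF_dd hf x), LevX_pd_coord]

theorem RotF_rdr_rdr {f : E3 → ℝ} (hf : ContDiff ℝ ∞ f) (hr : RotI f) (x : E3) :
    rdr (rdr f) x = rsq x * (pd 0 (pd 0 f) x + pd 1 (pd 1 f) x) := by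
  have hs0 := pd_smooth hf 0
  have hs1 := pd_smooth hf 1
  have hx : ∀ k j : Fin 3, ContDiff ℝ ∞ (fun y : E3 => y k * pd j f y) := fun k j =>
    (LevX_coord_cd k).mul (pd_smooth hf j)
  have hA : ∀ i : Fin 3, pd i (rdr f) x = (if (0 : Fin 3) = i then 1 else 0) * pd 0 f x + x 0 * pd i (pd 0 f) x +
      ((if (1 : Fin 3) = i then 1 else 0) * pd 1 f x + x 1 * pd i (pd 1 f) x) := by
    intro i
    have : rdr f = fun y => y 0 * pd 0 f y + y 1 * pd 1 f y := rfl
    rw [this, LevX_pd_add (RotF_dd (hx 0 0) x) (RotF_dd (hx 1 1) x), RotF_pd_xmul hs0,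
      RotF_pd_xmul hs1]
  have hB : ∀ i : Fin 3, (if (0 : Fin 3) = i then 1 else 0) * pd 1 f x + x 0 * pd i (pd 1 f) x -
      ((if (1 : Fin 3) = i then 1 else 0) * pd 0 f x + x 1 * pd i (pd 0 f) x) = 0 := by
    intro i
    have h0 : (fun y => y 0 * pd 1 f y - y 1 * pd 0 f y) = fun _ => (0 : ℝ) := by
      funext y
      exact rot_id hf hr y
    rw [← RotF_pd_xmul hs1, ← RotF_pd_xmul hs0, ← LevX_pd_sub (RotF_dd (hx 0 1) x) (RotF_dd (hx 1 0) x),
      h0]
    unfold pd
    simp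
  have hB0 := hB 0
  have hB1 := hB 1
  unfold rdr at hA ⊢
  rw [hA 0, hA 1]
  simp only [Fin.isValue, Fin.reduceEq, if_false, if_true] at hB0 hB1 ⊢
  unfold rsq
  linear_combination x 1 * hB0 - x 0 * hB1

theorem rdr_zf {f : E3 → ℝ} (hf : ContDiff ℝ ∞ f) (hr : RotI f) (x : E3) : rdr f x = rsq x * zf f x := by
  refine VRep_main (RotF_rdr_smooth hf) (RotF_lap_smooth hf).continuous ?_
    (RotF_rdr_rdr hf hr) x
  intro y
  show (0 * y 0) * pd 0 f (sq 0 y) + (0 * y 1) * pd 1 f (sq 0 y) = 0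
  ring

theorem RotF_avk {g : E3 → ℝ} (hg : ContDiff ℝ ∞ g) (x : E3) : 2 * avk 1 g x + rdr (avk 1 g) x = g x := by
  have h1 : sq 1 x = x := by
    apply ext3
    · show 1 * x 0 = x 0
      ring
    · show 1 * x 1 = x 1
      ring
    · rfl
  have hd : ∀ s ∈ Set.uIcc (0 : ℝ) 1, HasDerivAt (fun s : ℝ => s ^ 2 * g (sq s x))
      (2 * (s ^ 1 * g (sq s x)) + (x 0 * (s ^ 2 * pd 0 g (sq s x)) + x 1 * (s ^ 2 * pd 1 g (sq s x)))) s := by
    intro s _
    have h2 := ((hg.differentiable (by simp)) (sq s x)).hasFDerivAt.comp_hasDerivAt s (VRep_sq_deriv x s)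
    have h3 := (hasDerivAt_pow 2 s).mul h2
    refine h3.congr_deriv ?_
    rw [VRep_hor]
    simp only [Function.comp]
    push_cast
    ring
  have hc0 : Continuous (fun s : ℝ => s ^ 1 * g (sq s x)) :=
    (continuous_id.pow 1).mul (hg.continuous.comp (VRep_sq_cont x))
  have hc1 : ∀ i : Fin 3, Continuous (fun s : ℝ => s ^ 2 * pd i g (sq s x)) := fun i =>
    (continuous_id.pow 2).mul ((pd_smooth hg i).continuous.comp (VRep_sq_cont x))
  have hc : Continuous (fun s : ℝ => 2 * (s ^ 1 * g (sq s x)) +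
      (x 0 * (s ^ 2 * pd 0 g (sq s x)) + x 1 * (s ^ 2 * pd 1 g (sq s x)))) :=
    (continuous_const.mul hc0).add ((continuous_const.mul (hc1 0)).add (continuous_const.mul (hc1 1)))
  have h5 := intervalIntegral.integral_eq_sub_of_hasDerivAt hd (hc.intervalIntegrable 0 1)
  have j0 : IntervalIntegrable (fun s : ℝ => 2 * (s ^ 1 * g (sq s x))) volume 0 1 :=
    (continuous_const.mul hc0).intervalIntegrable 0 1
  have j1 : IntervalIntegrable (fun s : ℝ => x 0 * (s ^ 2 * pd 0 g (sq s x))) volume 0 1 :=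
    (continuous_const.mul (hc1 0)).intervalIntegrable 0 1
  have j2 : IntervalIntegrable (fun s : ℝ => x 1 * (s ^ 2 * pd 1 g (sq s x))) volume 0 1 :=
    (continuous_const.mul (hc1 1)).intervalIntegrable 0 1
  have j3 : IntervalIntegrable (fun s : ℝ => x 0 * (s ^ 2 * pd 0 g (sq s x)) +
      x 1 * (s ^ 2 * pd 1 g (sq s x))) volume 0 1 := j1.add j2
  rw [intervalIntegral.integral_add j0 j3, intervalIntegral.integral_add j1 j2,
    intervalIntegral.integral_const_mul, intervalIntegral.integral_const_mul,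
    intervalIntegral.integral_const_mul, h1] at h5
  have h6 : rdr (avk 1 g) x = x 0 * (∫ s in (0:ℝ)..1, s ^ 2 * pd 0 g (sq s x)) +
      x 1 * (∫ s in (0:ℝ)..1, s ^ 2 * pd 1 g (sq s x)) := by
    unfold rdr
    rw [avk_pd_hor hg 1 (by decide : (0 : Fin 3) ≠ 2), avk_pd_hor hg 1 (by decide : (1 : Fin 3) ≠ 2)]
    rfl
  rw [h6]
  unfold avk
  rw [h5]
  ring

theorem zf_lap {f : E3 → ℝ} (hf : ContDiff ℝ ∞ f) (hr : RotI f) (x : E3) :
    pd 0 (pd 0 f) x + pd 1 (pd 1 f) x = 2 * zf f x + rdr (zf f) x := by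
  exact (RotF_avk (RotF_lap_smooth hf) x).symm

theorem zf_DB {f : E3 → ℝ} (hf : ContDiff ℝ ∞ f) {n : ℕ} {K : ℝ} (h : DB (n + 2) K f) : ∃ K', DB n K' (zf f) := by
  have h0 : DB n K (pd 0 (pd 0 f)) := DB_pd (DB_pd h 0) 0
  have h1 : DB n K (pd 1 (pd 1 f)) := DB_pd (DB_pd h 1) 1
  have hs0 := pd_smooth (pd_smooth hf 0) 0
  have hs1 := pd_smooth (pd_smooth hf 1) 1
  have h2 := Bds1_sub_DB hs0 hs1.neg h0 (Bds1_neg_DB h1)
  have h3 : (fun x => pd 0 (pd 0 f) x - - pd 1 (pd 1 f) x) =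
      fun y => pd 0 (pd 0 f) y + pd 1 (pd 1 f) y := by
    funext x
    ring
  have h2' : DB n (6 * K) (fun y => pd 0 (pd 0 f) y + pd 1 (pd 1 f) y) := by
    rw [← h3]
    exact h2
  exact ⟨_, avk_DB (RotF_lap_smooth hf) le_rfl h2'⟩

/-- cut-offs -/
theorem RotF_cut : ∃ (φ : ℕ → E3 → ℝ) (C : ℝ), 0 ≤ C ∧ (∀ n, ContDiff ℝ ∞ (φ n)) ∧
    (∀ n, HasCompactSupport (φ n)) ∧ (∀ n x, |φ n x| ≤ C) ∧ (∀ n x, |rdr (φ n) x| ≤ C) ∧
    (∀ x, Tendsto (fun n => φ n x) atTop (𝓝 1)) ∧ ∀ x, Tendsto (fun n => rdr (φ n) x) atTop (𝓝 0) := by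
  obtain ⟨b⟩ : Nonempty (ContDiffBump (0 : E3)) := ⟨⟨1, 2, one_pos, one_lt_two⟩⟩
  have hb : ContDiff ℝ ∞ (b : E3 → ℝ) := b.contDiff
  have hbc : HasCompactSupport (b : E3 → ℝ) := b.hasCompactSupport
  have hrs : Continuous (rdr (b : E3 → ℝ)) := (RotF_rdr_smooth hb).continuous
  have hrc : HasCompactSupport (rdr (b : E3 → ℝ)) := by
    have h0 : HasCompactSupport (pd 0 (b : E3 → ℝ)) := hbc.fderiv_apply ℝ (e 0)
    have h1 : HasCompactSupport (pd 1 (b : E3 → ℝ)) := hbc.fderiv_apply ℝ (e 1)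
    exact (h0.mul_left (f := fun x : E3 => x 0)).add (h1.mul_left (f := fun x : E3 => x 1))
  obtain ⟨C1, hC1⟩ := hrs.bounded_above_of_compact_support hrc
  have hn0 : ∀ n : ℕ, (0 : ℝ) < (n : ℝ) + 1 := fun n => by positivity
  have hsm : ∀ n : ℕ, ContDiff ℝ ∞ (fun x : E3 => ((n : ℝ) + 1)⁻¹ • x) := fun n => by
    fun_prop
  have hrd : ∀ (n : ℕ) (x : E3), rdr (fun y => b (((n : ℝ) + 1)⁻¹ • y)) x =
      rdr (b : E3 → ℝ) (((n : ℝ) + 1)⁻¹ • x) := by
    intro n x
    have hpd : ∀ i : Fin 3, pd i (fun y => b (((n : ℝ) + 1)⁻¹ • y)) x =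
        ((n : ℝ) + 1)⁻¹ * pd i (b : E3 → ℝ) (((n : ℝ) + 1)⁻¹ • x) := by
      intro i
      unfold pd
      have h1 : HasFDerivAt (fun y : E3 => ((n : ℝ) + 1)⁻¹ • y)
          (((n : ℝ) + 1)⁻¹ • ContinuousLinearMap.id ℝ E3) x :=
        (((n : ℝ) + 1)⁻¹ • ContinuousLinearMap.id ℝ E3).hasFDerivAt
      have h2 := ((hb.differentiable (by simp)) (((n : ℝ) + 1)⁻¹ • x)).hasFDerivAt.comp x h1
      have h3 := h2.fderiv
      have h4 : (fun y => b (((n : ℝ) + 1)⁻¹ • y)) = (b : E3 → ℝ) ∘ fun y => ((n : ℝ) + 1)⁻¹ • y := rfl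
      rw [h4, h3]
      simp
    unfold rdr
    rw [hpd 0, hpd 1]
    simp only [PiLp.smul_apply, smul_eq_mul]
    ring
  have hlim : ∀ x : E3, Tendsto (fun n : ℕ => ((n : ℝ) + 1)⁻¹ • x) atTop (𝓝 0) := by
    intro x
    have h1 : Tendsto (fun n : ℕ => ((n : ℝ) + 1)⁻¹) atTop (𝓝 0) := by
      have := tendsto_one_div_add_atTop_nhds_zero_nat (𝕜 := ℝ)
      simpa [one_div] using this
    have h2 := h1.smul_const x
    rwa [zero_smul] at h2
  refine ⟨fun n y => b (((n : ℝ) + 1)⁻¹ • y), max 1 C1, le_max_of_le_left zero_le_one,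
    fun n => hb.comp (hsm n), fun n => ?_, fun n x => ?_, fun n x => ?_, fun x => ?_, fun x => ?_⟩
  · have := hbc.comp_homeomorph (Homeomorph.smulOfNeZero (((n : ℝ) + 1)⁻¹) (inv_ne_zero (hn0 n).ne'))
    exact this
  · rw [abs_of_nonneg b.nonneg]
    exact b.le_one.trans (le_max_left _ _)
  · rw [hrd]
    have := hC1 (((n : ℝ) + 1)⁻¹ • x)
    rw [Real.norm_eq_abs] at this
    exact this.trans (le_max_right _ _)
  · have h1 := (hb.continuous.tendsto (0 : E3)).comp (hlim x)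
    have h2 : b (0 : E3) = 1 := b.one_of_mem_closedBall (by simp [b.rIn_pos.le])
    rw [h2] at h1
    exact h1
  · have h1 := (hrs.tendsto (0 : E3)).comp (hlim x)
    have h2 : rdr (b : E3 → ℝ) 0 = 0 := by
      unfold rdr
      simp
    rw [h2] at h1
    refine h1.congr fun n => ?_
    rw [hrd]
    rfl

theorem RotF_compact {h : E3 → ℝ} (hh : ContDiff ℝ 1 h) (hc : HasCompactSupport h) :
    ∫ x, rdr h x = -2 * ∫ x, h x := by
  have hx : ∀ k : Fin 3, ContDiff ℝ 1 (fun y : E3 => y k) := fun k => (LevX_coord_cd k).of_le (by simp)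
  have hxh : ∀ k : Fin 3, ContDiff ℝ 1 (fun y : E3 => y k * h y) := fun k => (hx k).mul hh
  have hxc : ∀ k : Fin 3, HasCompactSupport (fun y : E3 => y k * h y) := fun k => hc.mul_left
  have hpd : ∀ k : Fin 3, pd k (fun y : E3 => y k * h y) = fun x => h x + x k * pd k h x := by
    intro k
    funext x
    rw [LevX_pd_mul (((hx k).differentiable (by simp)) x) ((hh.differentiable (by simp)) x), LevX_pd_coord,
      if_pos rfl, one_mul]
  have h0 := LevX_int (hxh 0) (hxc 0) 0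
  have h1 := LevX_int (hxh 1) (hxc 1) 1
  rw [hpd 0] at h0
  rw [hpd 1] at h1
  have hi : Integrable h := hh.continuous.integrable_of_hasCompactSupport hc
  have hr : Integrable (rdr h) := by
    have h2 := (h0.1.sub hi).add (h1.1.sub hi)
    refine h2.congr (Filter.Eventually.of_forall fun x => ?_)
    simp only [Pi.add_apply, Pi.sub_apply]
    unfold rdr
    ring
  have h3 : ∫ x, (2 * h x + rdr h x) = 0 := by
    have h4 : ∀ x, 2 * h x + rdr h x = (h x + x 0 * pd 0 h x) + (h x + x 1 * pd 1 h x) := by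
      intro x
      unfold rdr
      ring
    simp only [h4]
    rw [integral_add h0.1 h1.1, h0.2, h1.2, add_zero]
  rw [integral_add (hi.const_mul 2) hr, integral_const_mul] at h3
  linarith

theorem int_rdr {h : E3 → ℝ} (hh : ContDiff ℝ 1 h) (h1 : Integrable h) (h2 : Integrable (rdr h)) :
    ∫ x, rdr h x = -2 * ∫ x, h x := by
  obtain ⟨φ, C, hC0, hs, hcs, hb1, hb2, hl1, hl2⟩ := RotF_cut
  have hrc : Continuous (rdr h) := by
    unfold rdr
    exact ((LevX_coord_cd 0).continuous.mul (pd_cont hh 0)).add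
      ((LevX_coord_cd 1).continuous.mul (pd_cont hh 1))
  have hrφ : ∀ n, Continuous (rdr (φ n)) := fun n => (RotF_rdr_smooth (hs n)).continuous
  have hmul : ∀ n x, rdr (fun y => h y * φ n y) x = rdr h x * φ n x + h x * rdr (φ n) x := by
    intro n x
    unfold rdr
    rw [LevX_pd_mul ((hh.differentiable (by simp)) x) (RotF_dd (hs n) x),
      LevX_pd_mul ((hh.differentiable (by simp)) x) (RotF_dd (hs n) x)]
    ring
  have i1 : ∀ n, Integrable (fun x => rdr h x * φ n x) := fun n =>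
    h2.mul_of_top_left (memLp_top_of_bound (hs n).continuous.aestronglyMeasurable C
      (Filter.Eventually.of_forall fun x => by rw [Real.norm_eq_abs]; exact hb1 n x))
  have i2 : ∀ n, Integrable (fun x => h x * rdr (φ n) x) := fun n =>
    h1.mul_of_top_left (memLp_top_of_bound (hrφ n).aestronglyMeasurable C
      (Filter.Eventually.of_forall fun x => by rw [Real.norm_eq_abs]; exact hb2 n x))
  have hkey : ∀ n, (∫ x, rdr h x * φ n x) + ∫ x, h x * rdr (φ n) x = -2 * ∫ x, h x * φ n x := by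
    intro n
    have h3 := RotF_compact (hh.mul ((hs n).of_le (by simp))) ((hcs n).mul_left (f := h))
    have h4 : (fun x => rdr (fun y => h y * φ n y) x) = fun x => rdr h x * φ n x + h x * rdr (φ n) x := by
      funext x
      exact hmul n x
    rw [← integral_add (i1 n) (i2 n), ← h4]
    exact h3
  have l1 : Tendsto (fun n => ∫ x, rdr h x * φ n x) atTop (𝓝 (∫ x, rdr h x * 1)) := by
    refine tendsto_integral_of_dominated_convergence (fun x => C * |rdr h x|)
      (fun n => (hrc.mul (hs n).continuous).aestronglyMeasurable) (h2.abs.const_mul C) ?_ ?_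
    · intro n
      refine Filter.Eventually.of_forall fun x => ?_
      rw [Real.norm_eq_abs, abs_mul, mul_comm]
      exact mul_le_mul_of_nonneg_right (hb1 n x) (abs_nonneg _)
    · exact Filter.Eventually.of_forall fun x => (hl1 x).const_mul _
  have l2 : Tendsto (fun n => ∫ x, h x * rdr (φ n) x) atTop (𝓝 (∫ x, h x * 0)) := by
    refine tendsto_integral_of_dominated_convergence (fun x => C * |h x|)
      (fun n => (hh.continuous.mul (hrφ n)).aestronglyMeasurable) (h1.abs.const_mul C) ?_ ?_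
    · intro n
      refine Filter.Eventually.of_forall fun x => ?_
      rw [Real.norm_eq_abs, abs_mul, mul_comm]
      exact mul_le_mul_of_nonneg_right (hb2 n x) (abs_nonneg _)
    · exact Filter.Eventually.of_forall fun x => (hl2 x).const_mul _
  have l3 : Tendsto (fun n => ∫ x, h x * φ n x) atTop (𝓝 (∫ x, h x * 1)) := by
    refine tendsto_integral_of_dominated_convergence (fun x => C * |h x|)
      (fun n => (hh.continuous.mul (hs n).continuous).aestronglyMeasurable) (h1.abs.const_mul C) ?_ ?_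
    · intro n
      refine Filter.Eventually.of_forall fun x => ?_
      rw [Real.norm_eq_abs, abs_mul, mul_comm]
      exact mul_le_mul_of_nonneg_right (hb1 n x) (abs_nonneg _)
    · exact Filter.Eventually.of_forall fun x => (hl1 x).const_mul _
  have l4 := l1.add l2
  have l5 := l3.const_mul (-2)
  have h6 := tendsto_nhds_unique (l4.congr hkey) l5
  simpa using h6

theorem axis_sign {f : E3 → ℝ} (hf : ContDiff ℝ ∞ f) (hr : RotI f) {K : ℝ} (h : DB 2 K f) :
    Integrable (fun x => zf f x * f x) ∧ ∫ x, zf f x * f x ≤ 0 := by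
  obtain ⟨K', hK'⟩ := zf_DB (n := 0) hf h
  have hZc : Continuous (zf f) := (RotF_zf_smooth hf).continuous
  have hint : Integrable (fun x => zf f x * f x) := BL_mul hZc hf.continuous hK' (DB_BL h)
  refine ⟨hint, ?_⟩
  have hrn : ∀ x : E3, 0 ≤ rsq x := fun x => by unfold rsq; positivity
  have hf2 : Integrable (fun x => f x ^ 2) := (DB_BL h).2.1
  -- the inequality for `κ > 0`
  have hκ : ∀ κ : ℝ, 0 < κ → ∫ x, rsq x / (rsq x + κ) * (zf f x * f x) ≤ 0 := by
    intro κ hκ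
    have hpos : ∀ x, 0 < rsq x + κ := fun x => by have := hrn x; linarith
    have hw : ContDiff ℝ ∞ (fun x => rsq x + κ) := LevX_rsq_cd.add contDiff_const
    have hwi : ContDiff ℝ ∞ (fun x => (rsq x + κ)⁻¹) := hw.inv fun x => (hpos x).ne'
    have hg : ContDiff ℝ ∞ (fun x => f x ^ 2 * (rsq x + κ)⁻¹) := (hf.pow 2).mul hwi
    have hwb : ∀ x, |(rsq x + κ)⁻¹| ≤ κ⁻¹ := by
      intro x
      rw [abs_of_pos (inv_pos.2 (hpos x))]
      exact inv_anti₀ hκ (by have := hrn x; linarith)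
    have hqb : ∀ x, |rsq x / (rsq x + κ)| ≤ 1 := by
      intro x
      rw [abs_of_nonneg (div_nonneg (hrn x) (hpos x).le), div_le_one (hpos x)]
      linarith
    have hqc : Continuous (fun x => rsq x / (rsq x + κ)) :=
      LevX_rsq_cd.continuous.div hw.continuous fun x => (hpos x).ne'
    have i1 : Integrable (fun x => f x ^ 2 * (rsq x + κ)⁻¹) :=
      hf2.mul_of_top_left (memLp_top_of_bound hwi.continuous.aestronglyMeasurable κ⁻¹
        (Filter.Eventually.of_forall fun x => by rw [Real.norm_eq_abs]; exact hwb x))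
    have i2 : Integrable (fun x => rsq x / (rsq x + κ) * (zf f x * f x)) :=
      hint.mul_of_top_right (memLp_top_of_bound hqc.aestronglyMeasurable 1
        (Filter.Eventually.of_forall fun x => by rw [Real.norm_eq_abs]; exact hqb x))
    have i3 : Integrable (fun x => rsq x / (rsq x + κ) * (f x ^ 2 * (rsq x + κ)⁻¹)) :=
      i1.mul_of_top_right (memLp_top_of_bound hqc.aestronglyMeasurable 1
        (Filter.Eventually.of_forall fun x => by rw [Real.norm_eq_abs]; exact hqb x))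
    have hrd : ∀ x, rdr (fun x => f x ^ 2 * (rsq x + κ)⁻¹) x =
        2 * (rsq x / (rsq x + κ) * (zf f x * f x)) -
          2 * (rsq x / (rsq x + κ) * (f x ^ 2 * (rsq x + κ)⁻¹)) := by
      intro x
      have e1 : ∀ i : Fin 3, pd i (fun x => f x ^ 2 * (rsq x + κ)⁻¹) x =
          2 * f x * pd i f x * (rsq x + κ)⁻¹ - f x ^ 2 * (pd i rsq x / (rsq x + κ) ^ 2) := by
        intro i
        have h1 : (fun x => f x ^ 2 * (rsq x + κ)⁻¹) = fun x => (f x * f x) / (rsq x + κ) := by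
          funext y
          rw [div_eq_mul_inv, pow_two]
        have hff : DifferentiableAt ℝ (fun y => f y * f y) x := (RotF_dd hf x).mul (RotF_dd hf x)
        rw [h1, LevX_pd_div hff (RotF_dd hw x) (hpos x).ne',
          LevX_pd_mul (RotF_dd hf x) (RotF_dd hf x),
          LevX_pd_add (RotF_dd LevX_rsq_cd x) (differentiableAt_const κ)]
        have h2 : pd i (fun _ : E3 => κ) x = 0 := by
          unfold pd
          simp
        rw [h2]
        have := (hpos x).ne'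
        field_simp
        ring
      have e2 := rdr_zf hf hr x
      have e3 : x 0 * pd 0 rsq x + x 1 * pd 1 rsq x = 2 * rsq x := by
        rw [LevX_pd_rsq, LevX_pd_rsq]
        simp only [Fin.isValue, Fin.reduceEq, if_false, if_true]
        unfold rsq
        ring
      unfold rdr at e2 ⊢
      rw [e1 0, e1 1]
      have := (hpos x).ne'
      have e4 : x 0 * (2 * f x * pd 0 f x * (rsq x + κ)⁻¹ - f x ^ 2 * (pd 0 rsq x / (rsq x + κ) ^ 2)) +
          x 1 * (2 * f x * pd 1 f x * (rsq x + κ)⁻¹ - f x ^ 2 * (pd 1 rsq x / (rsq x + κ) ^ 2)) =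
          2 * f x * (x 0 * pd 0 f x + x 1 * pd 1 f x) * (rsq x + κ)⁻¹ -
            f x ^ 2 * ((x 0 * pd 0 rsq x + x 1 * pd 1 rsq x) / (rsq x + κ) ^ 2) := by
        ring
      rw [e4, e2, e3]
      field_simp
    have h3 := int_rdr (hg.of_le (by simp)) i1 (by
      refine ((i2.const_mul 2).sub (i3.const_mul 2)).congr (Filter.Eventually.of_forall fun x => ?_)
      exact (hrd x).symm)
    simp only [hrd] at h3
    rw [integral_sub (i2.const_mul 2) (i3.const_mul 2), integral_const_mul, integral_const_mul] at h3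
    have h4 : ∫ x, rsq x / (rsq x + κ) * (f x ^ 2 * (rsq x + κ)⁻¹) ≤ ∫ x, f x ^ 2 * (rsq x + κ)⁻¹ := by
      refine integral_mono i3 i1 fun x => ?_
      have h5 : 0 ≤ f x ^ 2 * (rsq x + κ)⁻¹ := mul_nonneg (sq_nonneg _) (inv_pos.2 (hpos x)).le
      have h6 := (abs_le.1 (hqb x)).2
      exact mul_le_of_le_one_left h5 h6
    linarith
  -- the limit
  have hl : Tendsto (fun n : ℕ => ∫ x, rsq x / (rsq x + 1 / ((n : ℝ) + 1)) * (zf f x * f x)) atTop
      (𝓝 (∫ x, zf f x * f x)) := by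
    refine tendsto_integral_of_dominated_convergence (fun x => |zf f x * f x|) ?_ hint.abs ?_ ?_
    · intro n
      have hn : (0 : ℝ) < 1 / ((n : ℝ) + 1) := by positivity
      refine (Continuous.mul ?_ (hZc.mul hf.continuous)).aestronglyMeasurable
      exact LevX_rsq_cd.continuous.div (LevX_rsq_cd.continuous.add continuous_const) fun x => by
        have := hrn x
        positivity
    · intro n
      have hn : (0 : ℝ) < 1 / ((n : ℝ) + 1) := by positivity
      refine Filter.Eventually.of_forall fun x => ?_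
      rw [Real.norm_eq_abs, abs_mul]
      refine mul_le_of_le_one_left (abs_nonneg _) ?_
      have h5 := hrn x
      have h6 : 0 < rsq x + 1 / ((n : ℝ) + 1) := by linarith
      rw [abs_of_nonneg (div_nonneg h5 h6.le), div_le_one h6]
      linarith
    · filter_upwards [axis_null] with x hx
      have h5 : 0 < rsq x := by
        rw [← rad_sq']
        positivity
      have h6 : Tendsto (fun n : ℕ => rsq x + 1 / ((n : ℝ) + 1)) atTop (𝓝 (rsq x + 0)) :=
        tendsto_const_nhds.add (tendsto_one_div_add_atTop_nhds_zero_nat (𝕜 := ℝ))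
      rw [add_zero] at h6
      have h7 := (tendsto_const_nhds (x := rsq x)).div h6 h5.ne'
      rw [div_self h5.ne'] at h7
      have h8 := h7.mul_const (zf f x * f x)
      rwa [one_mul] at h8
  exact le_of_tendsto hl (Filter.Eventually.of_forall fun n => hκ _ (by positivity))

end Pool.Agent.H87.NS
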