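/-
ROW EL1. Identities for `V = sV v`, `W = sW v`, `Om = sO v`. PROOF.
rdr_sV: off the axis: `circ v = rsq * sV v` (circ_eq), `rdr (circ v) = rsq * curl v 2` (rdr_circ), `rdr (rsq f) = rsq rdr f + 2 rsq f` (rdr_rsq), divide by `rsq`; on the axis by continuity (or: `x 0 = x 1 = 0`, then
`rdr = 0`, `sq s x = x` and `sV v x = (1/2) curl v x 2`). rdr_sW: the same with `radFlux v = rsq * sW v` (flux_eq), rdr_radFlux.
lap_sW: `lap (radFlux v) = x₀ Δv₀ + x₁ Δv₁ + 2 (∂₀ v₀ + ∂₁ v₁)` and `∂₀ v₀ + ∂₁ v₁ = - ∂₂ v₂`, `x₀ Δv₀ + x₁ Δv₁ = - radFlux (curl (curl v))` (`curl (curl v) = - Δ v` for divergence free `v`)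
`= pd 2 (circ (curl v))` (sw_pd2 in NV/SwS.lean for the field `curl v`, curl_axF) `= rsq * pd 2 (sO v)` (om_eq; `rsq` does not depend on `x 2`). On the other hand `lap (rsq f) = rsq lap f + 4 rdr f + 4 f` (lap_rsq) with
`f = sW v`, and `2 rdr f + 4 f = 2 (- ∂₂ v₂)`. So `rsq lap f + 2 rdr f = rsq pd 2 (sO v)`.
-/
import Pool.Agent.H87.NV.SwS
import Pool.Agent.H87.NS.Quot
import Pool.Agent.H87.NS.VEq

set_option autoImplicit false

open Set Filter Topology MeasureTheory
open scoped ContDiff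

namespace Pool.Agent.H87.NS

open Pool.Agent.H16

theorem EL1_main {f g : E3 → ℝ} (hg : ContDiff ℝ ∞ g) (hf : ∀ x, f x = rsq x * avk 1 g x)
    (h : ∀ x, rdr f x = rsq x * g x) (x : E3) : rdr (avk 1 g) x = g x - 2 * avk 1 g x := by
  have hs := avk_smooth hg 1
  have hnn : 0 ≤ rad x := Real.sqrt_nonneg _
  rcases hnn.lt_or_eq with hr | hr
  · have hx := rsq_pos hr
    have h1 := h x
    have h2 : f = fun y => rsq y * avk 1 g y := funext hf
    rw [h2, rdr_rsq hs] at h1
    have h3 : rsq x * (rdr (avk 1 g) x + 2 * avk 1 g x) = rsq x * g x := by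
      rw [← h1]
      ring
    have h4 := mul_left_cancel₀ hx.ne' h3
    linarith
  · have hsum : x 0 ^ 2 + x 1 ^ 2 = 0 := by
      have := rad_sq' x
      rw [← hr] at this
      unfold rsq at this
      rw [← this]
      norm_num
    have hx0 : x 0 = 0 := by nlinarith [sq_nonneg (x 0), sq_nonneg (x 1)]
    have hx1 : x 1 = 0 := by nlinarith [sq_nonneg (x 0), sq_nonneg (x 1)]
    have h1 : avk 1 g x = g x / 2 := by
      unfold avk
      simp only [SwS_axis hr.symm]
      rw [intervalIntegral.integral_mul_const, integral_pow]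
      norm_num
      ring
    unfold rdr
    rw [h1, hx0, hx1]
    ring

theorem EL1_gW {v : E3 → E3} (hv : ContDiff ℝ ∞ v) : ContDiff ℝ ∞ (fun y => - fderiv ℝ v y (e 2) 2) := by
  rw [Bds1_div hv]
  exact (pd_smooth (Bds1_proj_smooth hv 2) 2).neg

theorem rdr_sV {v : E3 → E3} (hv : AxF v) (x : E3) : rdr (sV v) x = curl v x 2 - 2 * sV v x :=
  EL1_main (f := circ v) (Bds1_proj_smooth (curl_smooth hv.smooth) 2) (circ_eq hv) (rdr_circ hv) x

theorem rdr_sW {v : E3 → E3} (hv : AxF v) (x : E3) : rdr (sW v) x = - fderiv ℝ v x (e 2) 2 - 2 * sW v x :=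
  EL1_main (f := radFlux v) (EL1_gW hv.smooth) (flux_eq hv) (rdr_radFlux hv) x

theorem EL1_coord (k : Fin 3) (y : E3) :
    HasFDerivAt (fun y : E3 => y k) (EuclideanSpace.proj k : E3 →L[ℝ] ℝ) y :=
  (EuclideanSpace.proj k : E3 →L[ℝ] ℝ).hasFDerivAt

theorem EL1_smooth (k : Fin 3) : ContDiff ℝ ∞ (fun y : E3 => y k) :=
  (EuclideanSpace.proj k : E3 →L[ℝ] ℝ).contDiff

theorem EL1_pd_coord {f : E3 → ℝ} (hf : ContDiff ℝ ∞ f) (i k : Fin 3) :
    pd i (fun y : E3 => y k * f y) = fun y => e i k * f y + y k * pd i f y := by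
  funext y
  have h1 : HasFDerivAt f (fderiv ℝ f y) y := (hf.differentiable (by simp) y).hasFDerivAt
  have h2 : HasFDerivAt (fun y : E3 => y k * f y) _ y := (EL1_coord k y).mul h1
  unfold pd
  rw [h2.fderiv]
  change y k * fderiv ℝ f y (e i) + f y * e i k = _
  ring

theorem EL1_pd_add {f g : E3 → ℝ} (hf : ContDiff ℝ ∞ f) (hg : ContDiff ℝ ∞ g) (i : Fin 3) :
    pd i (fun x => f x + g x) = fun x => pd i f x + pd i g x := by
  funext x
  simp only [pd]
  rw [fderiv_fun_add (hf.differentiable (by simp) x) (hg.differentiable (by simp) x)]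
  rfl

theorem EL1_pd_const {f : E3 → ℝ} (hf : ContDiff ℝ ∞ f) (c : ℝ) (i : Fin 3) :
    pd i (fun x => c * f x) = fun x => c * pd i f x := by
  funext x
  simp only [pd]
  rw [fderiv_const_mul (hf.differentiable (by simp) x)]
  rfl

theorem EL1_pd_flux {v : E3 → E3} (hv : ContDiff ℝ ∞ v) (i : Fin 3) :
    pd i (radFlux v) = fun y => (e i 0 * v y 0 + y 0 * pd i (fun z => v z 0) y) +
      (e i 1 * v y 1 + y 1 * pd i (fun z => v z 1) y) := by
  have h0 := Bds1_proj_smooth hv 0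
  have h1 := Bds1_proj_smooth hv 1
  have hc : radFlux v = fun y => (fun y : E3 => y 0 * v y 0) y + (fun y : E3 => y 1 * v y 1) y := rfl
  rw [hc, EL1_pd_add ((EL1_smooth 0).mul h0) ((EL1_smooth 1).mul h1),
    EL1_pd_coord h0 i 0, EL1_pd_coord h1 i 1]

theorem EL1_pd_pd_flux {v : E3 → E3} (hv : ContDiff ℝ ∞ v) (i : Fin 3) (x : E3) :
    pd i (pd i (radFlux v)) x = (2 * e i 0 * pd i (fun z => v z 0) x +
        x 0 * pd i (pd i (fun z => v z 0)) x) +
      (2 * e i 1 * pd i (fun z => v z 1) x + x 1 * pd i (pd i (fun z => v z 1)) x) := by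
  have h0 := Bds1_proj_smooth hv 0
  have h1 := Bds1_proj_smooth hv 1
  have k0 := pd_smooth h0 i
  have k1 := pd_smooth h1 i
  have a0 : ContDiff ℝ ∞ (fun y : E3 => e i 0 * v y 0) := contDiff_const.mul h0
  have a1 : ContDiff ℝ ∞ (fun y : E3 => e i 1 * v y 1) := contDiff_const.mul h1
  have b0 : ContDiff ℝ ∞ (fun y : E3 => y 0 * pd i (fun z => v z 0) y) := (EL1_smooth 0).mul k0
  have b1 : ContDiff ℝ ∞ (fun y : E3 => y 1 * pd i (fun z => v z 1) y) := (EL1_smooth 1).mul k1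
  rw [EL1_pd_flux hv i, EL1_pd_add (a0.add b0) (a1.add b1), EL1_pd_add a0 b0, EL1_pd_add a1 b1,
    EL1_pd_const h0, EL1_pd_const h1, EL1_pd_coord k0 i 0, EL1_pd_coord k1 i 1]
  ring

theorem EL1_lap_flux {v : E3 → E3} (hv : ContDiff ℝ ∞ v) (x : E3) :
    lap (radFlux v) x = x 0 * lap (fun z => v z 0) x + x 1 * lap (fun z => v z 1) x +
      2 * (pd 0 (fun z => v z 0) x + pd 1 (fun z => v z 1) x) := by
  unfold lap
  simp only [EL1_pd_pd_flux hv, Fin.sum_univ_three, e_apply]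
  simp only [Fin.isValue, if_true, Fin.reduceEq, if_false]
  ring

/-- `curl (curl v) = - lap v` for the first two components, `v` divergence free. -/
theorem EL1_cc {v : E3 → E3} (hv : AxF v) (x : E3) :
    curl (curl v) x 0 = - lap (fun z => v z 0) x ∧ curl (curl v) x 1 = - lap (fun z => v z 1) x := by
  have hs := hv.smooth
  have g : ∀ j, ContDiff ℝ ∞ (fun z => v z j) := fun j => Bds1_proj_smooth hs j
  have gp : ∀ i j, ContDiff ℝ ∞ (pd i (fun z => v z j)) := fun i j => pd_smooth (g j) i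
  have hcs := curl_smooth hs
  have hdiv : (fun y => (pd 0 (fun z => v z 0) y + pd 1 (fun z => v z 1) y) +
      pd 2 (fun z => v z 2) y) = fun _ => (0 : ℝ) := by
    funext y
    rw [pd_comp hs, pd_comp hs, pd_comp hs]
    have := hv.div y
    rw [Fin.sum_univ_three] at this
    exact this
  have hdiv' : ∀ i : Fin 3, pd i (pd 0 (fun z => v z 0)) x + pd i (pd 1 (fun z => v z 1)) x +
      pd i (pd 2 (fun z => v z 2)) x = 0 := by
    intro i
    have h1 : pd i (fun y => (pd 0 (fun z => v z 0) y + pd 1 (fun z => v z 1) y) +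
      pd 2 (fun z => v z 2) y) x = 0 := by
      rw [hdiv]
      unfold pd
      simp
    rw [EL1_pd_add ((gp 0 0).add (gp 1 1)) (gp 2 2), EL1_pd_add (gp 0 0) (gp 1 1)] at h1
    exact h1
  have c0 : (fun y => curl v y 0) = fun y => pd 1 (fun z => v z 2) y - pd 2 (fun z => v z 1) y :=
    funext fun y => Bds1_curl hs 0 y
  have c1 : (fun y => curl v y 1) = fun y => pd 2 (fun z => v z 0) y - pd 0 (fun z => v z 2) y :=
    funext fun y => Bds1_curl hs 1 y
  have c2 : (fun y => curl v y 2) = fun y => pd 0 (fun z => v z 1) y - pd 1 (fun z => v z 0) y :=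
    funext fun y => Bds1_curl hs 2 y
  have d0 : curl (curl v) x 0 = pd 1 (fun z => curl v z 2) x - pd 2 (fun z => curl v z 1) x :=
    Bds1_curl hcs 0 x
  have d1 : curl (curl v) x 1 = pd 2 (fun z => curl v z 0) x - pd 0 (fun z => curl v z 2) x :=
    Bds1_curl hcs 1 x
  constructor
  · have e1 := hdiv' 0
    rw [Vort_comm (g 1) 0 1, Vort_comm (g 2) 0 2] at e1
    rw [d0, c2, c1, Bds1_pd_sub (gp 0 1) (gp 1 0), Bds1_pd_sub (gp 2 0) (gp 0 2)]
    unfold lap
    rw [Fin.sum_univ_three]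
    linarith
  · have e1 := hdiv' 1
    rw [Vort_comm (g 0) 1 0, Vort_comm (g 2) 1 2] at e1
    rw [d1, c0, c2, Bds1_pd_sub (gp 1 2) (gp 2 1), Bds1_pd_sub (gp 0 1) (gp 1 0)]
    unfold lap
    rw [Fin.sum_univ_three]
    linarith

theorem lap_sW {v : E3 → E3} (hv : AxF v) {x : E3} (hx : 0 < rsq x) :
    lap (sW v) x + 2 / rsq x * rdr (sW v) x = pd 2 (sO v) x := by
  have hs := hv.smooth
  have hW : ContDiff ℝ ∞ (sW v) := avk_smooth (EL1_gW hs) 1
  have hO : ContDiff ℝ ∞ (sO v) := avk_smooth (f := fun y => curl (curl v) y 2)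
      (Bds1_proj_smooth (curl_smooth (curl_smooth hs)) 2) 1
  have hcx := curl_axF hv
  have hF : radFlux v = fun y => rsq y * sW v y := funext (flux_eq hv)
  have hC : circ (curl v) = fun y => rsq y * sO v y := funext (om_eq hv)
  have h1 := EL1_lap_flux hs x
  rw [hF, lap_rsq hW] at h1
  obtain ⟨k0, k1⟩ := EL1_cc hv x
  have h2 := sw_pd2 hcx x
  have h2' : pd 2 (circ (curl v)) x = x 0 * lap (fun z => v z 0) x + x 1 * lap (fun z => v z 1) x := by
    rw [h2]
    unfold radFlux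
    rw [k0, k1]
    ring
  have hp2 : pd 2 (circ (curl v)) x = rsq x * pd 2 (sO v) x := by
    have h1 := adv_rsq hO (e 2) x
    rw [← hC] at h1
    have h2 : ∀ f : E3 → ℝ, adv (e 2) f x = pd 2 f x := by
      intro f
      unfold adv
      simp only [Fin.sum_univ_three, e_apply]
      simp only [Fin.isValue, if_true, Fin.reduceEq, if_false]
      ring
    rw [h2, h2] at h1
    rw [h1]
    simp only [e_apply]
    simp only [Fin.isValue, Fin.reduceEq, if_false]
    ring
  have h3 := rdr_sW hv x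
  have h4 : pd 0 (fun z => v z 0) x + pd 1 (fun z => v z 1) x = - fderiv ℝ v x (e 2) 2 := by
    rw [pd_comp hs, pd_comp hs]
    have := hv.div x
    rw [Fin.sum_univ_three] at this
    linarith
  have key : rsq x * (lap (sW v) x + 2 / rsq x * rdr (sW v) x) = rsq x * pd 2 (sO v) x := by
    have h5 : rsq x * (2 / rsq x * rdr (sW v) x) = 2 * rdr (sW v) x := by
      field_simp
    rw [mul_add, h5, ← hp2, h2']
    rw [h4] at h1
    linarith
  exact mul_left_cancel₀ hx.ne' key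

end Pool.Agent.H87.NS
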