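/-
ROW EL3. Elliptic estimates. PROOF. el2: off the axis (a.e.) `pd 2 H = lap F + 2 zf F` (rdr_zf). `∫ F lap F = - ∫ gsq F` (ibp three times, `pd i F` and `F` are `DB 1`), `∫ 2 zf F F ≤ 0` (axis_sign), so
`∫ F pd 2 H ≤ - ∫ gsq F`, `∫ gsq F ≤ - ∫ F pd 2 H = ∫ pd 2 F * H ≤ √(∫ gsq F) √(∫ H²)` (ibp, cs).
el3: apply el2 to `pd 2 F`, `pd 2 H` (differentiate the equation in `x 2`; `rsq`, `x 0`, `x 1` do not depend on `x 2`; rot_pd2): `∫ gsq (pd 2 F) ≤ ∫ (pd 2 H)²`. Let `Z = zf F`, `Q = pd 2 H - pd 2 (pd 2 F)`. Everywhere (by continuity)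
`Q = pd 0 (pd 0 F) + pd 1 (pd 1 F) + 2 Z = 4 Z + rdr Z` (zf_lap). `Q` is square integrable, so is `rdr Z`; `∫ Z rdr Z = (1/2) ∫ rdr (Z²) = - ∫ Z²` (int_rdr), so `∫ Q² = 16 ∫ Z² + 8 ∫ Z rdr Z + ∫ (rdr Z)² ≥ 8 ∫ Z²`.
`∫ Q² ≤ 2 ∫ (pd 2 H)² + 2 ∫ (pd 2 pd 2 F)² ≤ 4 ∫ (pd 2 H)²`. So `∫ Z² ≤ (1/2) ∫ (pd 2 H)²`, `lap F = pd 2 H - 2 Z` a.e., `∫ (lap F)² ≤ 2 ∫ (pd 2 H)² + 8 ∫ Z² ≤ 6 ∫ (pd 2 H)²`. Finally
`∑ i, ∫ gsq (pd i F) = ∑_{i,j} ∫ (pd j (pd i F))² = ∑_{i,j} ∫ pd i (pd i F) pd j (pd j F) = ∫ (lap F)²` (ibp twice, `F` is `DB 3`; partial derivatives commute: Vort_comm in NS/Vort.lean).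
-/
import Pool.Agent.H87.NB.RotF
import Pool.Agent.H87.NS.Vort

set_option autoImplicit false

open Set Filter Topology MeasureTheory
open scoped ContDiff

namespace Pool.Agent.H87.NS

open Pool.Agent.H16

theorem EL3_ext {f g : E3 → ℝ} (hf : Continuous f) (hg : Continuous g)
    (h : ∀ x, 0 < rsq x → f x = g x) (x : E3) : f x = g x := by
  by_cases hx : 0 < rsq x
  · exact h x hx
  · have hx0 : x 0 = 0 ∧ x 1 = 0 := by
      unfold rsq at hx
      have h0 := sq_nonneg (x 0)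
      have h1 := sq_nonneg (x 1)
      constructor
      · have : x 0 ^ 2 = 0 := by linarith
        exact pow_eq_zero_iff (two_ne_zero) |>.1 this
      · have : x 1 ^ 2 = 0 := by linarith
        exact pow_eq_zero_iff (two_ne_zero) |>.1 this
    have hc : Continuous (fun t : ℝ => x + t • e 0) := by fun_prop
    have hlim : Tendsto (fun t : ℝ => x + t • e 0) (𝓝[≠] 0) (𝓝 x) := by
      have h1 := hc.tendsto (0 : ℝ)
      rw [zero_smul, add_zero] at h1
      exact h1.mono_left nhdsWithin_le_nhds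
    refine tendsto_nhds_unique_of_eventuallyEq ((hf.tendsto x).comp hlim) ((hg.tendsto x).comp hlim) ?_
    filter_upwards [self_mem_nhdsWithin] with t ht
    refine h _ ?_
    unfold rsq
    have e0 : (x + t • e 0 : E3) 0 = t := by
      rw [PiLp.add_apply, PiLp.smul_apply, hx0.1, e_apply, if_pos rfl]
      simp
    have e1 : (x + t • e 0 : E3) 1 = 0 := by
      rw [PiLp.add_apply, PiLp.smul_apply, hx0.2, e_apply]
      simp
    rw [e0, e1]
    have : 0 < t ^ 2 := lt_of_le_of_ne (sq_nonneg t) (Ne.symm (pow_ne_zero 2 ht))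
    linarith [sq_nonneg (0 : ℝ)]

theorem EL3_zf_smooth {F : E3 → ℝ} (hF : ContDiff ℝ ∞ F) : ContDiff ℝ ∞ (zf F) :=
  avk_smooth ((pd_smooth (pd_smooth hF 0) 0).add (pd_smooth (pd_smooth hF 1) 1)) 1

theorem EL3_lap (F : E3 → ℝ) (x : E3) :
    lap F x = pd 0 (pd 0 F) x + pd 1 (pd 1 F) x + pd 2 (pd 2 F) x := by
  unfold lap
  rw [Fin.sum_univ_three]

theorem EL3_lap_smooth {F : E3 → ℝ} (hF : ContDiff ℝ ∞ F) : ContDiff ℝ ∞ (lap F) := by
  have h : lap F = fun x => pd 0 (pd 0 F) x + pd 1 (pd 1 F) x + pd 2 (pd 2 F) x :=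
    funext (EL3_lap F)
  rw [h]
  exact ((pd_smooth (pd_smooth hF 0) 0).add (pd_smooth (pd_smooth hF 1) 1)).add
    (pd_smooth (pd_smooth hF 2) 2)

/-- The equation, on the axis as well. -/
theorem EL3_eq {F H : E3 → ℝ} (hF : ContDiff ℝ ∞ F) (hH : ContDiff ℝ ∞ H) (hr : RotI F)
    (heq : ∀ x, 0 < rsq x → lap F x + 2 / rsq x * rdr F x = pd 2 H x) (x : E3) :
    lap F x + 2 * zf F x = pd 2 H x := by
  refine EL3_ext (f := fun x => lap F x + 2 * zf F x) (g := pd 2 H) ?_ (pd_smooth hH 2).continuous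
    (fun y hy => ?_) x
  · exact (EL3_lap_smooth hF).continuous.add (continuous_const.mul (EL3_zf_smooth hF).continuous)
  · rw [← heq y hy, rdr_zf hF hr]
    have : 2 / rsq y * (rsq y * zf F y) = 2 * zf F y := by
      field_simp
    rw [this]

/-- The differentiated equation. -/
theorem EL3_eq2 {F H : E3 → ℝ} (hF : ContDiff ℝ ∞ F) (hH : ContDiff ℝ ∞ H) (hr : RotI F)
    (heq : ∀ x, 0 < rsq x → lap F x + 2 / rsq x * rdr F x = pd 2 H x) (x : E3) (hx : 0 < rsq x) :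
    lap (pd 2 F) x + 2 / rsq x * rdr (pd 2 F) x = pd 2 (pd 2 H) x := by
  have h1 : pd 2 H = fun y => lap F y + 2 * zf F y := funext fun y => (EL3_eq hF hH hr heq y).symm
  have hd : ∀ f : E3 → ℝ, ContDiff ℝ ∞ f → ∀ y, DifferentiableAt ℝ f y := fun f hf y =>
    hf.differentiable (by simp) y
  have hzf : pd 2 (zf F) = zf (pd 2 F) := by
    unfold zf
    rw [avk_pd_two ((pd_smooth (pd_smooth hF 0) 0).add (pd_smooth (pd_smooth hF 1) 1))]
    congr 1
    funext y
    rw [LevX_pd_add (hd _ (pd_smooth (pd_smooth hF 0) 0) y) (hd _ (pd_smooth (pd_smooth hF 1) 1) y),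
      Vort_comm (pd_smooth hF 0) 2 0, Vort_comm (pd_smooth hF 1) 2 1, Vort_comm hF 2 0,
      Vort_comm hF 2 1]
  have hlap : pd 2 (lap F) x = lap (pd 2 F) x := by
    have h : lap F = fun x => pd 0 (pd 0 F) x + pd 1 (pd 1 F) x + pd 2 (pd 2 F) x :=
      funext (EL3_lap F)
    have hadd : DifferentiableAt ℝ (fun y => pd 0 (pd 0 F) y + pd 1 (pd 1 F) y) x :=
      (hd _ (pd_smooth (pd_smooth hF 0) 0) x).add (hd _ (pd_smooth (pd_smooth hF 1) 1) x)
    rw [h, LevX_pd_add hadd (hd _ (pd_smooth (pd_smooth hF 2) 2) x),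
      LevX_pd_add (hd _ (pd_smooth (pd_smooth hF 0) 0) x) (hd _ (pd_smooth (pd_smooth hF 1) 1) x),
      Vort_comm (pd_smooth hF 0) 2 0, Vort_comm (pd_smooth hF 1) 2 1, Vort_comm hF 2 0,
      Vort_comm hF 2 1, EL3_lap]
  have h2 : pd 2 (pd 2 H) x = pd 2 (lap F) x + 2 * pd 2 (zf F) x := by
    rw [h1, LevX_pd_add (hd _ (EL3_lap_smooth hF) x) ((hd _ (EL3_zf_smooth hF) x).const_mul 2)]
    congr 1
    have h3 := LevX_pd_mul (f := fun _ : E3 => (2 : ℝ)) (x := x) (differentiableAt_const 2)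
      (hd _ (EL3_zf_smooth hF) x) 2
    have h4 : pd 2 (fun _ : E3 => (2 : ℝ)) x = 0 := by
      unfold pd
      rw [fderiv_const_apply]
      rfl
    rw [h3, h4, zero_mul, zero_add]
  rw [h2, hlap, hzf, rdr_zf (pd_smooth hF 2) (rot_pd2 hF hr)]
  have : 2 / rsq x * (rsq x * zf (pd 2 F) x) = 2 * zf (pd 2 F) x := by
    field_simp
  rw [this]

theorem EL3_lap_int {F : E3 → ℝ} (hF : ContDiff ℝ ∞ F) {K : ℝ} (hK : DB 2 K F) :
    Integrable (fun x => F x * lap F x) ∧ ∫ x, F x * lap F x = - ∫ x, gsq F x := by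
  have hK1 : DB 1 K F := DB_mono hK (by norm_num) le_rfl
  have hi : ∀ i : Fin 3, Integrable (fun x => F x * pd i (pd i F) x) := fun i =>
    BL_mul hF.continuous (pd_smooth (pd_smooth hF i) i).continuous (DB_BL hK)
      (DB_BL (DB_pd (DB_pd hK i) i))
  have h1 : (fun x => F x * lap F x) = fun x => ∑ i, F x * pd i (pd i F) x := by
    funext x
    unfold lap
    rw [Finset.mul_sum]
  rw [h1]
  refine ⟨integrable_finsetSum _ fun i _ => hi i, ?_⟩
  rw [integral_finsetSum _ fun i _ => hi i]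
  have h2 : ∀ i : Fin 3, ∫ x, F x * pd i (pd i F) x = - ∫ x, pd i F x ^ 2 := by
    intro i
    rw [ibp (hF.of_le (by simp)) ((pd_smooth hF i).of_le (by simp)) hK1 (DB_pd hK i) i]
    congr 1
    refine integral_congr_ae (Eventually.of_forall fun x => ?_)
    simp only []
    ring
  have h3 : ∫ x, gsq F x = ∑ i, ∫ x, pd i F x ^ 2 := by
    unfold gsq
    exact integral_finsetSum _ fun i _ => (hK1.2 i).2.1
  rw [h3, ← Finset.sum_neg_distrib]
  exact Finset.sum_congr rfl fun i _ => h2 i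

theorem el2 {F H : E3 → ℝ} (hF : ContDiff ℝ ∞ F) (hH : ContDiff ℝ ∞ H) (hr : RotI F) {K K' : ℝ} (hK : DB 2 K F)
    (hK' : DB 1 K' H) (heq : ∀ x, 0 < rsq x → lap F x + 2 / rsq x * rdr F x = pd 2 H x) :
    ∫ x, gsq F x ≤ ∫ x, H x ^ 2 := by
  have hE := EL3_eq hF hH hr heq
  have hK1 : DB 1 K F := DB_mono hK (by norm_num) le_rfl
  obtain ⟨hl1, hl2⟩ := EL3_lap_int hF hK
  obtain ⟨ha1, ha2⟩ := axis_sign hF hr hK
  have hib := ibp (hF.of_le (by simp)) (hH.of_le (by simp)) hK1 hK' 2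
  have h1 : ∫ x, F x * pd 2 H x = (∫ x, F x * lap F x) + 2 * ∫ x, zf F x * F x := by
    rw [← integral_const_mul, ← integral_add hl1 (ha1.const_mul 2)]
    refine integral_congr_ae (Eventually.of_forall fun x => ?_)
    simp only []
    rw [← hE x]
    ring
  have h2 : ∫ x, gsq F x ≤ ∫ x, pd 2 F x * H x := by
    rw [hib, hl2] at h1
    linarith
  have hcs := cs (pd_smooth hF 2).continuous hH.continuous (hK1.2 2) (DB_BL hK')
  have hprod : Integrable (fun x => pd 2 F x * H x) :=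
    BL_mul (pd_smooth hF 2).continuous hH.continuous (hK1.2 2) (DB_BL hK')
  have h3 : ∫ x, pd 2 F x * H x ≤ ∫ x, |pd 2 F x| * |H x| := by
    refine integral_mono hprod ?_ fun x => ?_
    · refine hprod.abs.congr (Eventually.of_forall fun x => ?_)
      exact abs_mul _ _
    · rw [← abs_mul]
      exact le_abs_self _
  have h4 : √(∫ x, pd 2 F x ^ 2) ≤ √(∫ x, gsq F x) := by
    refine Real.sqrt_le_sqrt ?_
    refine integral_mono (hK1.2 2).2.1 (gsq_int hK1).1 fun x => ?_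
    exact Finset.single_le_sum (f := fun i => pd i F x ^ 2) (fun _ _ => sq_nonneg _)
      (Finset.mem_univ (2 : Fin 3))
  have hg0 : 0 ≤ ∫ x, gsq F x := integral_nonneg fun x => gsq_nonneg F x
  have hH0 : 0 ≤ ∫ x, H x ^ 2 := integral_nonneg fun x => sq_nonneg _
  set a := √(∫ x, gsq F x) with ha
  set b := √(∫ x, H x ^ 2) with hb
  have ha0 : 0 ≤ a := Real.sqrt_nonneg _
  have hb0 : 0 ≤ b := Real.sqrt_nonneg _
  have ha2' : a ^ 2 = ∫ x, gsq F x := Real.sq_sqrt hg0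
  have hb2' : b ^ 2 = ∫ x, H x ^ 2 := Real.sq_sqrt hH0
  have h5 : a ^ 2 ≤ a * b := by
    rw [ha2']
    refine (h2.trans h3).trans (hcs.trans ?_)
    exact mul_le_mul_of_nonneg_right h4 hb0
  rw [← ha2', ← hb2']
  rcases ha0.eq_or_lt with h6 | h6
  · rw [← h6]
    nlinarith [sq_nonneg b]
  · have h7 : a ≤ b := by
      rw [pow_two] at h5
      exact le_of_mul_le_mul_left h5 h6
    exact pow_le_pow_left₀ ha0 h7 2

theorem el3 {F H : E3 → ℝ} (hF : ContDiff ℝ ∞ F) (hH : ContDiff ℝ ∞ H) (hr : RotI F) {K K' : ℝ} (hK : DB 3 K F)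
    (hK' : DB 2 K' H) (heq : ∀ x, 0 < rsq x → lap F x + 2 / rsq x * rdr F x = pd 2 H x) :
    ∑ i, ∫ x, gsq (pd i F) x ≤ 6 * ∫ x, pd 2 H x ^ 2 := by
  have hE := EL3_eq hF hH hr heq
  have hK2 : DB 2 K F := DB_mono hK (by norm_num) le_rfl
  have hs : ∀ i, ContDiff ℝ ∞ (pd i F) := fun i => pd_smooth hF i
  have hss : ∀ i j, ContDiff ℝ ∞ (pd i (pd j F)) := fun i j => pd_smooth (hs j) i
  -- the derivative in the direction of the axis
  have hA := el2 (hs 2) (pd_smooth hH 2) (rot_pd2 hF hr) (DB_pd hK 2) (DB_pd hK' 2)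
    (EL3_eq2 hF hH hr heq)
  have hB : ∫ x, pd 2 (pd 2 F) x ^ 2 ≤ ∫ x, pd 2 H x ^ 2 := by
    refine le_trans ?_ hA
    have hd1 : DB 1 K (pd 2 F) := DB_mono (DB_pd hK 2) (by norm_num) le_rfl
    refine integral_mono (hd1.2 2).2.1 (gsq_int hd1).1 fun x => ?_
    exact Finset.single_le_sum (f := fun i => pd i (pd 2 F) x ^ 2) (fun _ _ => sq_nonneg _)
      (Finset.mem_univ (2 : Fin 3))
  -- the function Z
  obtain ⟨KZ, hZ⟩ := zf_DB hF (n := 1) hK
  set Z := zf F with hZdef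
  have hZs : ContDiff ℝ ∞ Z := EL3_zf_smooth hF
  have hZB : BL KZ Z := DB_BL hZ
  have hp2H : BL K' (pd 2 H) := DB_BL (DB_pd hK' 2)
  have hp22F : BL K (pd 2 (pd 2 F)) := DB_BL (DB_pd (DB_pd hK2 2) 2)
  have hmax1 : BL (max K K') (pd 2 H) := BL_mono hp2H (le_max_right _ _)
  have hmax2 : BL (max K K') (pd 2 (pd 2 F)) := BL_mono hp22F (le_max_left _ _)
  set Q : E3 → ℝ := fun x => pd 2 H x - pd 2 (pd 2 F) x with hQ
  have hQc : Continuous Q := (pd_smooth hH 2).continuous.sub (hss 2 2).continuous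
  have hQB : BL (6 * max K K') Q :=
    Bds1_sub_BL (pd_smooth hH 2).continuous (hss 2 2).continuous hmax1 hmax2
  have hrZ : ∀ x, rdr Z x = Q x - 4 * Z x := by
    intro x
    have h1 := zf_lap hF hr x
    have h2 := hE x
    rw [EL3_lap] at h2
    simp only [hQ]
    rw [← h2, h1]
    ring
  have hZZ : Integrable (fun x => Z x ^ 2) := hZB.2.1
  have hQQ : Integrable (fun x => Q x ^ 2) := hQB.2.1
  have hZQ : Integrable (fun x => Z x * Q x) := BL_mul hZs.continuous hQc hZB hQB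
  have hrd : ∀ x, rdr (fun y => Z y * Z y) x = 2 * (Z x * Q x) - 8 * Z x ^ 2 := by
    intro x
    have hd := hZs.differentiable (by simp) x
    have h1 : rdr (fun y => Z y * Z y) x = 2 * Z x * rdr Z x := by
      unfold rdr
      rw [LevX_pd_mul hd hd, LevX_pd_mul hd hd]
      ring
    rw [h1, hrZ]
    ring
  have hI := int_rdr (h := fun y => Z y * Z y) ((hZs.mul hZs).of_le (by simp))
    (BL_mul hZs.continuous hZs.continuous hZB hZB) (by
      have : rdr (fun y => Z y * Z y) = fun x => 2 * (Z x * Q x) - 8 * Z x ^ 2 := funext hrd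
      rw [this]
      exact (hZQ.const_mul 2).sub (hZZ.const_mul 8))
  have hI2 : 2 * (∫ x, Z x * Q x) - 8 * ∫ x, Z x ^ 2 = -2 * ∫ x, Z x ^ 2 := by
    rw [← integral_const_mul, ← integral_const_mul, ← integral_sub (hZQ.const_mul 2) (hZZ.const_mul 8)]
    have h1 : ∫ x, (2 * (Z x * Q x) - 8 * Z x ^ 2) = ∫ x, rdr (fun y => Z y * Z y) x :=
      integral_congr_ae (Eventually.of_forall fun x => (hrd x).symm)
    have h2 : ∫ x, Z x * Z x = ∫ x, Z x ^ 2 :=
      integral_congr_ae (Eventually.of_forall fun x => by simp only []; ring)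
    rw [h1, hI, h2]
  -- the square of rdr Z
  have hsq : 0 ≤ ∫ x, (Q x - 4 * Z x) ^ 2 := integral_nonneg fun x => sq_nonneg _
  have hsub : Integrable (fun x => Q x ^ 2 - 8 * (Z x * Q x)) := hQQ.sub (hZQ.const_mul 8)
  have hexp : ∫ x, (Q x - 4 * Z x) ^ 2 = (∫ x, Q x ^ 2) - 8 * (∫ x, Z x * Q x) + 16 * ∫ x, Z x ^ 2 := by
    rw [← integral_const_mul, ← integral_const_mul, ← integral_sub hQQ (hZQ.const_mul 8),
      ← integral_add hsub (hZZ.const_mul 16)]
    refine integral_congr_ae (Eventually.of_forall fun x => ?_)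
    simp only []
    ring
  have hQ8 : 8 * ∫ x, Z x ^ 2 ≤ ∫ x, Q x ^ 2 := by
    rw [hexp] at hsq
    linarith
  have hQ4 : ∫ x, Q x ^ 2 ≤ 4 * ∫ x, pd 2 H x ^ 2 := by
    have h1 : ∫ x, Q x ^ 2 ≤ ∫ x, (2 * pd 2 H x ^ 2 + 2 * pd 2 (pd 2 F) x ^ 2) := by
      refine integral_mono hQQ ((hp2H.2.1.const_mul 2).add (hp22F.2.1.const_mul 2)) fun x => ?_
      simp only [hQ]
      nlinarith [sq_nonneg (pd 2 H x + pd 2 (pd 2 F) x)]
    rw [integral_add (hp2H.2.1.const_mul 2) (hp22F.2.1.const_mul 2), integral_const_mul,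
      integral_const_mul] at h1
    linarith
  -- the Laplacian
  have hlapE : ∀ x, lap F x = pd 2 H x - 2 * Z x := fun x => by
    rw [← hE x]
    ring
  have haB : ∀ i j, BL K (pd i (pd j F)) := fun i j => DB_BL (DB_pd (DB_pd hK2 j) i)
  have hprod : ∀ i j, Integrable (fun x => pd i (pd i F) x * pd j (pd j F) x) := fun i j =>
    BL_mul (hss i i).continuous (hss j j).continuous (haB i i) (haB j j)
  have hlapsq : ∫ x, lap F x ^ 2 = ∑ i, ∑ j, ∫ x, pd i (pd i F) x * pd j (pd j F) x := by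
    have h1 : ∀ i, ∑ j, ∫ x, pd i (pd i F) x * pd j (pd j F) x =
        ∫ x, ∑ j, pd i (pd i F) x * pd j (pd j F) x := fun i =>
      (integral_finsetSum _ fun j _ => hprod i j).symm
    rw [Finset.sum_congr rfl fun i _ => h1 i, ← integral_finsetSum _ fun i _ =>
      integrable_finsetSum _ fun j _ => hprod i j]
    refine integral_congr_ae (Eventually.of_forall fun x => ?_)
    simp only []
    unfold lap
    rw [pow_two, Finset.sum_mul_sum]
  have hlapint : Integrable (fun x => lap F x ^ 2) := by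
    have h1 : (fun x => lap F x ^ 2) = fun x => ∑ i, ∑ j, pd i (pd i F) x * pd j (pd j F) x := by
      funext x
      unfold lap
      rw [pow_two, Finset.sum_mul_sum]
    rw [h1]
    exact integrable_finsetSum _ fun i _ => integrable_finsetSum _ fun j _ => hprod i j
  have hlap6 : ∫ x, lap F x ^ 2 ≤ 6 * ∫ x, pd 2 H x ^ 2 := by
    have h1 : ∫ x, lap F x ^ 2 ≤ ∫ x, (2 * pd 2 H x ^ 2 + 8 * Z x ^ 2) := by
      refine integral_mono hlapint ((hp2H.2.1.const_mul 2).add (hZZ.const_mul 8)) fun x => ?_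
      simp only []
      rw [hlapE]
      nlinarith [sq_nonneg (pd 2 H x + 2 * Z x)]
    rw [integral_add (hp2H.2.1.const_mul 2) (hZZ.const_mul 8), integral_const_mul,
      integral_const_mul] at h1
    linarith
  have hgs : ∀ i j, ∫ x, pd j (pd i F) x ^ 2 = ∫ x, pd i (pd i F) x * pd j (pd j F) x := by
    intro i j
    have hd1 : ∀ a b, DB 1 K (pd a (pd b F)) := fun a b => DB_pd (DB_pd hK b) a
    have hd0 : ∀ a, DB 1 K (pd a F) := fun a => DB_pd hK2 a
    have h1 := ibp ((hss j i).of_le (by simp)) ((hs i).of_le (by simp)) (hd1 j i) (hd0 i) j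
    have h2 := ibp ((hs i).of_le (by simp)) ((hss j j).of_le (by simp)) (hd0 i) (hd1 j j) i
    have h3 : pd j (pd j (pd i F)) = pd i (pd j (pd j F)) := by
      rw [Vort_comm hF j i, Vort_comm (hs j) j i]
    calc ∫ x, pd j (pd i F) x ^ 2 = ∫ x, pd j (pd i F) x * pd j (pd i F) x :=
          integral_congr_ae (Eventually.of_forall fun x => by simp only []; ring)
      _ = - ∫ x, pd j (pd j (pd i F)) x * pd i F x := h1
      _ = - ∫ x, pd i F x * pd i (pd j (pd j F)) x := by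
          rw [h3]
          congr 1
          exact integral_congr_ae (Eventually.of_forall fun x => by simp only []; ring)
      _ = ∫ x, pd i (pd i F) x * pd j (pd j F) x := by
          rw [h2, neg_neg]
  have hfin : ∑ i, ∫ x, gsq (pd i F) x = ∫ x, lap F x ^ 2 := by
    rw [hlapsq]
    refine Finset.sum_congr rfl fun i _ => ?_
    have h1 : ∫ x, gsq (pd i F) x = ∑ j, ∫ x, pd j (pd i F) x ^ 2 := by
      unfold gsq
      exact integral_finsetSum _ fun j _ => (haB j i).2.1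
    rw [h1]
    exact Finset.sum_congr rfl fun j _ => hgs i j
  rw [hfin]
  exact hlap6

end Pool.Agent.H87.NS
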