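/-
ROW Rf. Functions of `rsq`. PROOF. Chain rule; `pd i rsq = 2 x_i` for `i = 0, 1` and `0` for `i = 2` (LevX_pd_rsq). `lap = 4 F' + 4 rsq F''`. rf_adv: `x₀ v₀ + x₁ v₁ = radFlux v x = rsq * sW v x` (flux_eq).
hc: `Real.smoothTransition`: `hc τ = 1` for `τ ≤ 1/4`, `0` for `τ ≥ 1/2`. om_sq: `(rsq ^ (γ/2))² = rsq ^ γ`. om_cd: `Real.contDiff_rpow_const_of_le` for the exponent `γ/2 ≥ 2`, composed with `rsq`.
om_bd: `om` is supported in `rsq ≤ r₀²/2`, so `om`, its first derivatives and its Laplacian are bounded (functions of `rsq` on the compact interval `[0, r₀²]`, see Rf formulas; the derivatives of `ρ^(γ/2)` are `(γ/2) ρ^(γ/2-1)` etc., exponents `≥ 0`).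
om_lap, for `rsq x < r₀² / 4` (there `chi = 1` nearby): `om = rsq^(γ/2)`, `lap om = γ² rsq^(γ/2 - 1)` (`4 (γ/2) + 4 (γ/2)(γ/2-1) = γ²`), `w = om² = rsq^γ`, `lap w - 2/rsq rdr w = 4 rsq F'' = 4 γ (γ-1) rsq^(γ-1)`, `rdr w = 2 γ rsq^γ`.
-/
import Pool.Agent.H87.NB.EL1

set_option autoImplicit false

open Set Filter Topology MeasureTheory
open scoped ContDiff

namespace Pool.Agent.H87.NS

open Pool.Agent.H16

/-- A cut-off function of one variable. -/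
noncomputable def hc (τ : ℝ) : ℝ := Real.smoothTransition (2 - 4 * τ)

/-- A cut-off near the axis. -/
noncomputable def chi (r₀ : ℝ) (x : E3) : ℝ := hc (rsq x / r₀ ^ 2)

/-- The weight `rsq ^ (γ/2)` with cut-off. -/
noncomputable def om (γ r₀ : ℝ) (x : E3) : ℝ := rsq x ^ (γ / 2) * chi r₀ x

theorem Rf_coord (k : Fin 3) (x : E3) : HasFDerivAt (fun y : E3 => y k)
    (EuclideanSpace.proj (𝕜 := ℝ) k : E3 →L[ℝ] ℝ) x :=
  (EuclideanSpace.proj (𝕜 := ℝ) k : E3 →L[ℝ] ℝ).hasFDerivAt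

theorem Rf_coord_cd (k : Fin 3) {n : WithTop ℕ∞} : ContDiff ℝ n (fun y : E3 => y k) :=
  (EuclideanSpace.proj (𝕜 := ℝ) k : E3 →L[ℝ] ℝ).contDiff

theorem Rf_rsq_cd {n : WithTop ℕ∞} : ContDiff ℝ n (rsq : E3 → ℝ) := by
  unfold rsq
  exact ((Rf_coord_cd 0).pow 2).add ((Rf_coord_cd 1).pow 2)

theorem Rf_rsq_nonneg (x : E3) : 0 ≤ rsq x := by
  unfold rsq
  positivity

theorem Rf_rsq_fd (x : E3) : HasFDerivAt (rsq : E3 → ℝ)
    ((2 * x 0) • (EuclideanSpace.proj (𝕜 := ℝ) 0 : E3 →L[ℝ] ℝ) +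
      (2 * x 1) • (EuclideanSpace.proj (𝕜 := ℝ) 1 : E3 →L[ℝ] ℝ)) x := by
  have h := ((Rf_coord 0 x).pow 2).add ((Rf_coord 1 x).pow 2)
  have h1 : (rsq : E3 → ℝ) = (fun y : E3 => y 0) ^ 2 + (fun y : E3 => y 1) ^ 2 := by
    funext y
    rfl
  rw [h1]
  refine h.congr_fderiv ?_
  ext y
  simp

theorem Rf_pd {F : ℝ → ℝ} {x : E3} (hF : DifferentiableAt ℝ F (rsq x)) (i : Fin 3) :
    pd i (fun y => F (rsq y)) x = deriv F (rsq x) * (2 * x 0 * e i 0 + 2 * x 1 * e i 1) := by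
  have h : HasFDerivAt (fun y => F (rsq y)) _ x := hF.hasDerivAt.comp_hasFDerivAt x (Rf_rsq_fd x)
  unfold pd
  rw [h.fderiv]
  simp
  ring

theorem Rf_e (i j : Fin 3) : e i j = if j = i then 1 else 0 := by
  unfold e
  simp

theorem Rf_cd1 {F : ℝ → ℝ} (hF : ContDiff ℝ 2 F) : ContDiff ℝ 1 (deriv F) := by
  have h : ContDiff ℝ (1 + 1) F := by
    have : (1 + 1 : WithTop ℕ∞) = 2 := by norm_num
    rw [this]
    exact hF
  exact (contDiff_succ_iff_deriv.1 h).2.2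

theorem Rf_pd2 {F : ℝ → ℝ} (hF : ContDiff ℝ 2 F) (i : Fin 3) (x : E3) :
    pd i (pd i (fun y => F (rsq y))) x =
      deriv (deriv F) (rsq x) * (2 * x 0 * e i 0 + 2 * x 1 * e i 1) ^ 2 +
      deriv F (rsq x) * (2 * e i 0 ^ 2 + 2 * e i 1 ^ 2) := by
  have h1 : pd i (fun y => F (rsq y)) =
      fun y => deriv F (rsq y) * (2 * y 0 * e i 0 + 2 * y 1 * e i 1) := by
    funext y
    exact Rf_pd (hF.differentiable (by norm_num) _) i
  have hd : DifferentiableAt ℝ (deriv F) (rsq x) := (Rf_cd1 hF).differentiable (by norm_num) _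
  have ha : HasFDerivAt (fun y => deriv F (rsq y)) _ x :=
    hd.hasDerivAt.comp_hasFDerivAt x (Rf_rsq_fd x)
  have hb : HasFDerivAt (fun y : E3 => 2 * y 0 * e i 0 + 2 * y 1 * e i 1)
      ((2 * e i 0) • (EuclideanSpace.proj (𝕜 := ℝ) 0 : E3 →L[ℝ] ℝ) +
      (2 * e i 1) • (EuclideanSpace.proj (𝕜 := ℝ) 1 : E3 →L[ℝ] ℝ)) x := by
    have h := (((Rf_coord 0 x).const_mul 2).mul_const (e i 0)).add
      (((Rf_coord 1 x).const_mul 2).mul_const (e i 1))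
    refine h.congr_fderiv ?_
    ext y
    simp
    ring
  have hc := ha.mul hb
  have hc' : HasFDerivAt (fun y => deriv F (rsq y) * (2 * y 0 * e i 0 + 2 * y 1 * e i 1)) _ x := hc
  rw [h1]
  show fderiv ℝ (fun y => deriv F (rsq y) * (2 * y 0 * e i 0 + 2 * y 1 * e i 1)) x (e i) = _
  rw [hc'.fderiv]
  have he : ∀ k : Fin 3, (EuclideanSpace.proj (𝕜 := ℝ) k : E3 →L[ℝ] ℝ) (e i) = e i k := fun k => rfl
  simp only [ContinuousLinearMap.add_apply, ContinuousLinearMap.smul_apply, smul_eq_mul, he]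
  ring

theorem rf_pd {F : ℝ → ℝ} (hF : ContDiff ℝ 2 F) (x : E3) : pd 0 (fun y => F (rsq y)) x = 2 * x 0 * deriv F (rsq x) ∧
    pd 1 (fun y => F (rsq y)) x = 2 * x 1 * deriv F (rsq x) ∧ pd 2 (fun y => F (rsq y)) x = 0 := by
  have hd : DifferentiableAt ℝ F (rsq x) := hF.differentiable (by norm_num) _
  refine ⟨?_, ?_, ?_⟩
  · rw [Rf_pd hd, Rf_e, Rf_e]
    simp
    ring
  · rw [Rf_pd hd, Rf_e, Rf_e]
    simp
    ring
  · rw [Rf_pd hd, Rf_e, Rf_e]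
    simp

theorem rf_rdr {F : ℝ → ℝ} (hF : ContDiff ℝ 2 F) (x : E3) :
    rdr (fun y => F (rsq y)) x = 2 * rsq x * deriv F (rsq x) ∧
    lap (fun y => F (rsq y)) x = 4 * deriv F (rsq x) + 4 * rsq x * deriv (deriv F) (rsq x) := by
  obtain ⟨h0, h1, h2⟩ := rf_pd hF x
  have hr : rsq x = x 0 ^ 2 + x 1 ^ 2 := rfl
  constructor
  · unfold rdr
    rw [h0, h1]
    nth_rw 3 [hr]
    ring
  · unfold lap
    rw [Fin.sum_univ_three, Rf_pd2 hF, Rf_pd2 hF, Rf_pd2 hF]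
    simp only [Rf_e]
    simp
    nth_rw 6 [hr]
    ring

theorem rf_adv {v : E3 → E3} (hv : AxF v) {F : ℝ → ℝ} (hF : ContDiff ℝ 2 F) (x : E3) :
    adv (v x) (fun y => F (rsq y)) x = sW v x * rdr (fun y => F (rsq y)) x := by
  obtain ⟨h0, h1, h2⟩ := rf_pd hF x
  have hf := flux_eq hv x
  unfold radFlux at hf
  rw [(rf_rdr hF x).1]
  unfold adv
  rw [Fin.sum_univ_three, h0, h1, h2]
  calc v x 0 * (2 * x 0 * deriv F (rsq x)) + v x 1 * (2 * x 1 * deriv F (rsq x)) + v x 2 * 0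
      = 2 * deriv F (rsq x) * (x 0 * v x 0 + x 1 * v x 1) := by ring
    _ = sW v x * (2 * rsq x * deriv F (rsq x)) := by rw [hf]; ring

theorem hc_bd (τ : ℝ) : 0 ≤ hc τ ∧ hc τ ≤ 1 ∧ (τ ≤ 1 / 4 → hc τ = 1) ∧ (1 / 2 ≤ τ → hc τ = 0) := by
  refine ⟨Real.smoothTransition.nonneg _, Real.smoothTransition.le_one _, fun h => ?_, fun h => ?_⟩
  · exact Real.smoothTransition.one_of_one_le (by linarith)
  · exact Real.smoothTransition.zero_of_nonpos (by linarith)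

theorem hc_smooth : ContDiff ℝ ∞ hc := by
  unfold hc
  exact Real.smoothTransition.contDiff.comp (contDiff_const.sub (contDiff_const.mul contDiff_id))

/-- the profile of `om` -/
noncomputable def Rf_F (γ r₀ : ℝ) (ρ : ℝ) : ℝ := ρ ^ (γ / 2) * hc (ρ / r₀ ^ 2)

/-- the profile of `om ^ 2` -/
noncomputable def Rf_G (γ r₀ : ℝ) (ρ : ℝ) : ℝ := Rf_F γ r₀ ρ ^ 2

theorem Rf_F_cd {γ r₀ : ℝ} (hγ : 4 ≤ γ) : ContDiff ℝ 2 (Rf_F γ r₀) := by
  unfold Rf_F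
  refine ContDiff.mul ?_ ?_
  · have := Real.contDiff_rpow_const_of_le (p := γ / 2) (n := 2) (by norm_num; linarith)
    exact_mod_cast this
  · exact (contDiff_infty.1 hc_smooth 2).comp (contDiff_id.div_const _)

theorem Rf_G_cd {γ r₀ : ℝ} (hγ : 4 ≤ γ) : ContDiff ℝ 2 (Rf_G γ r₀) := (Rf_F_cd hγ).pow 2

theorem Rf_om (γ r₀ : ℝ) : om γ r₀ = fun y => Rf_F γ r₀ (rsq y) := rfl

theorem Rf_om2 (γ r₀ : ℝ) : (fun y => om γ r₀ y ^ 2) = fun y => Rf_G γ r₀ (rsq y) := rfl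

theorem om_cd {γ r₀ : ℝ} (hγ : 4 ≤ γ) (hr : 0 < r₀) : ContDiff ℝ 2 (om γ r₀) :=
  (Rf_F_cd hγ).comp Rf_rsq_cd

theorem om_sq {γ r₀ : ℝ} (hγ : 4 ≤ γ) (x : E3) : om γ r₀ x ^ 2 = rsq x ^ γ * chi r₀ x ^ 2 := by
  unfold om
  rw [mul_pow, ← Real.rpow_natCast (rsq x ^ (γ / 2)) 2, ← Real.rpow_mul (Rf_rsq_nonneg x)]
  norm_num

theorem Rf_tail {F : ℝ → ℝ} (hF : ContDiff ℝ 1 F) {a : ℝ} (h : ∀ ρ, a ≤ ρ → F ρ = 0) :
    ∀ ρ, a ≤ ρ → deriv F ρ = 0 := by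
  intro ρ hρ
  have h1 : HasDerivWithinAt F (deriv F ρ) (Ici ρ) ρ :=
    (hF.differentiable (by norm_num) ρ).hasDerivAt.hasDerivWithinAt
  have h2 : HasDerivWithinAt F 0 (Ici ρ) ρ :=
    (hasDerivWithinAt_const ρ (Ici ρ) (0 : ℝ)).congr (fun y hy => h y (hρ.trans hy)) (h ρ hρ)
  exact (uniqueDiffOn_Ici ρ ρ self_mem_Ici).eq_deriv _ h1 h2

theorem Rf_near {F : ℝ → ℝ} {b q : ℝ} (h : ∀ σ, 0 < σ → σ < b → F σ = σ ^ q) {ρ : ℝ} (h0 : 0 < ρ)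
    (hb : ρ < b) : deriv F ρ = q * ρ ^ (q - 1) ∧ deriv (deriv F) ρ = q * (q - 1) * ρ ^ (q - 2) := by
  have h1 : ∀ σ, 0 < σ → σ < b → deriv F σ = q * σ ^ (q - 1) := by
    intro σ hσ hσb
    have he : F =ᶠ[𝓝 σ] fun t => t ^ q := by
      filter_upwards [Ioo_mem_nhds hσ hσb] with t ht
      exact h t ht.1 ht.2
    rw [he.deriv_eq, (Real.hasDerivAt_rpow_const (Or.inl hσ.ne')).deriv]
  refine ⟨h1 ρ h0 hb, ?_⟩
  have he : deriv F =ᶠ[𝓝 ρ] fun t => q * t ^ (q - 1) := by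
    filter_upwards [Ioo_mem_nhds h0 hb] with t ht
    exact h1 t ht.1 ht.2
  rw [he.deriv_eq, deriv_const_mul _ (Real.differentiableAt_rpow_const_of_ne _ h0.ne'),
    (Real.hasDerivAt_rpow_const (Or.inl h0.ne')).deriv]
  have : q - 1 - 1 = q - 2 := by ring
  rw [this]
  ring

theorem Rf_F_tail {γ r₀ : ℝ} (hr : 0 < r₀) (ρ : ℝ) (h : r₀ ^ 2 / 2 ≤ ρ) : Rf_F γ r₀ ρ = 0 := by
  unfold Rf_F
  have h2 : (1 : ℝ) / 2 ≤ ρ / r₀ ^ 2 := by
    rw [le_div_iff₀ (by positivity)]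
    linarith
  rw [(hc_bd _).2.2.2 h2, mul_zero]

theorem Rf_G_tail {γ r₀ : ℝ} (hr : 0 < r₀) (ρ : ℝ) (h : r₀ ^ 2 / 2 ≤ ρ) : Rf_G γ r₀ ρ = 0 := by
  unfold Rf_G
  rw [Rf_F_tail hr ρ h]
  norm_num

/-- a `C²` function vanishing for large arguments is bounded on the half line with its derivatives -/
theorem Rf_bd {F : ℝ → ℝ} (hF : ContDiff ℝ 2 F) {a : ℝ} (h : ∀ ρ, a ≤ ρ → F ρ = 0) :
    ∃ K : ℝ, 0 ≤ K ∧ ∀ ρ, 0 ≤ ρ → |F ρ| ≤ K ∧ |deriv F ρ| ≤ K ∧ |deriv (deriv F) ρ| ≤ K := by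
  have h1 := Rf_tail (hF.of_le (by norm_num)) h
  have h2 := Rf_tail (Rf_cd1 hF) h1
  have c0 : Continuous F := hF.continuous
  have c1 : Continuous (deriv F) := (Rf_cd1 hF).continuous
  have c2 : Continuous (deriv (deriv F)) := by
    have := (Rf_cd1 hF).continuous_deriv (by norm_num)
    exact this
  obtain ⟨K0, hK0⟩ := (isCompact_Icc (a := 0) (b := a)).exists_bound_of_continuousOn c0.continuousOn
  obtain ⟨K1, hK1⟩ := (isCompact_Icc (a := 0) (b := a)).exists_bound_of_continuousOn c1.continuousOn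
  obtain ⟨K2, hK2⟩ := (isCompact_Icc (a := 0) (b := a)).exists_bound_of_continuousOn c2.continuousOn
  refine ⟨max 0 (max K0 (max K1 K2)), le_max_left _ _, fun ρ hρ => ?_⟩
  rcases le_total a ρ with hc | hc
  · rw [h ρ hc, h1 ρ hc, h2 ρ hc, abs_zero]
    exact ⟨le_max_left _ _, le_max_left _ _, le_max_left _ _⟩
  · have hm : ρ ∈ Icc 0 a := ⟨hρ, hc⟩
    refine ⟨(hK0 ρ hm).trans ?_, (hK1 ρ hm).trans ?_, (hK2 ρ hm).trans ?_⟩
    · exact (le_max_left _ _).trans (le_max_right _ _)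
    · exact ((le_max_left _ _).trans (le_max_right _ _)).trans (le_max_right _ _)
    · exact ((le_max_right _ _).trans (le_max_right _ _)).trans (le_max_right _ _)

theorem Rf_G0 {γ r₀ : ℝ} (hγ : 4 ≤ γ) : deriv (Rf_G γ r₀) 0 = 0 := by
  have hd : HasDerivAt (Rf_F γ r₀) (deriv (Rf_F γ r₀) 0) 0 :=
    ((Rf_F_cd hγ).differentiable (by norm_num) 0).hasDerivAt
  have h := hd.fun_pow 2
  have h0 : Rf_F γ r₀ 0 = 0 := by
    unfold Rf_F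
    rw [Real.zero_rpow (by linarith), zero_mul]
  have h1 : HasDerivAt (Rf_G γ r₀) _ 0 := h
  rw [h1.deriv, h0]
  norm_num

theorem om_bd {γ r₀ : ℝ} (hγ : 4 ≤ γ) (hr : 0 < r₀) : ∃ C : ℝ, 0 ≤ C ∧ ∀ x, |om γ r₀ x| ≤ C ∧ (∀ i, |pd i (om γ r₀) x| ≤ C) ∧
    |lap (om γ r₀) x| ≤ C ∧ |lap (fun y => om γ r₀ y ^ 2) x - 2 / rsq x * rdr (fun y => om γ r₀ y ^ 2) x| ≤ C ∧
    |rdr (fun y => om γ r₀ y ^ 2) x| ≤ C * rsq x ∧
    (r₀ ^ 2 / 2 ≤ rsq x → om γ r₀ x = 0 ∧ lap (om γ r₀) x = 0 ∧ lap (fun y => om γ r₀ y ^ 2) x = 0 ∧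
      rdr (fun y => om γ r₀ y ^ 2) x = 0) := by
  have hF := Rf_F_cd (r₀ := r₀) hγ
  have hG := Rf_G_cd (r₀ := r₀) hγ
  obtain ⟨K, hK0, hK⟩ := Rf_bd hF (Rf_F_tail hr)
  obtain ⟨L, hL0, hL⟩ := Rf_bd hG (Rf_G_tail hr)
  have f1 := Rf_tail (hF.of_le (by norm_num)) (Rf_F_tail hr)
  have f2 := Rf_tail (Rf_cd1 hF) f1
  have g1 := Rf_tail (hG.of_le (by norm_num)) (Rf_G_tail hr)
  have g2 := Rf_tail (Rf_cd1 hG) g1
  have hr2 : 0 < r₀ ^ 2 := by positivity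
  obtain ⟨C, hC⟩ : ∃ C, C = 4 * K + 4 * r₀ ^ 2 * K + 2 * r₀ * K + 4 * r₀ ^ 2 * L + 2 * L := ⟨_, rfl⟩
  have p1 : 0 ≤ 4 * r₀ ^ 2 * K := by positivity
  have p2 : 0 ≤ 2 * r₀ * K := by positivity
  have p3 : 0 ≤ 4 * r₀ ^ 2 * L := by positivity
  refine ⟨C, by rw [hC]; positivity, fun x => ?_⟩
  have hρ := Rf_rsq_nonneg x
  obtain ⟨k0, k1, k2⟩ := hK _ hρ
  obtain ⟨l0, l1, l2⟩ := hL _ hρ
  have e1 := (rf_rdr hF x).2
  have e2 := (rf_rdr hG x).2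
  have e3 := (rf_rdr hG x).1
  rw [Rf_om2]
  have m2 : |rsq x * deriv (deriv (Rf_F γ r₀)) (rsq x)| ≤ r₀ ^ 2 * K := by
    rcases le_total (r₀ ^ 2 / 2) (rsq x) with hc | hc
    · rw [f2 _ hc, mul_zero, abs_zero]
      positivity
    · rw [abs_mul, abs_of_nonneg hρ]
      exact mul_le_mul (by linarith) k2 (abs_nonneg _) hr2.le
  have n2 : |rsq x * deriv (deriv (Rf_G γ r₀)) (rsq x)| ≤ r₀ ^ 2 * L := by
    rcases le_total (r₀ ^ 2 / 2) (rsq x) with hc | hc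
    · rw [g2 _ hc, mul_zero, abs_zero]
      positivity
    · rw [abs_mul, abs_of_nonneg hρ]
      exact mul_le_mul (by linarith) l2 (abs_nonneg _) hr2.le
  refine ⟨?_, ?_, ?_, ?_, ?_, ?_⟩
  · show |Rf_F γ r₀ (rsq x)| ≤ C
    linarith
  · intro i
    have hq : |pd i (om γ r₀) x| ≤ 2 * r₀ * K := by
      rw [Rf_om, Rf_pd (hF.differentiable (by norm_num) _) i, abs_mul]
      rcases le_total (r₀ ^ 2 / 2) (rsq x) with hc | hc
      · rw [f1 _ hc, abs_zero, zero_mul]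
        positivity
      · have hx : ∀ k : Fin 3, k = 0 ∨ k = 1 → |x k| ≤ r₀ := by
          intro k hk
          have h2 : x k ^ 2 ≤ rsq x := by
            unfold rsq
            rcases hk with rfl | rfl
            · nlinarith [sq_nonneg (x 1)]
            · nlinarith [sq_nonneg (x 0)]
          exact abs_le_of_sq_le_sq (by linarith) hr.le
        have hq2 : |2 * x 0 * e i 0 + 2 * x 1 * e i 1| ≤ 2 * r₀ := by
          have x0 := hx 0 (Or.inl rfl)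
          have x1 := hx 1 (Or.inr rfl)
          rw [Rf_e, Rf_e]
          fin_cases i
          · simp [abs_mul]
            exact x0
          · simp [abs_mul]
            exact x1
          · simp
            exact hr.le
        calc |deriv (Rf_F γ r₀) (rsq x)| * |2 * x 0 * e i 0 + 2 * x 1 * e i 1|
            ≤ K * (2 * r₀) := mul_le_mul k1 hq2 (abs_nonneg _) hK0
          _ = 2 * r₀ * K := by ring
    linarith
  · rw [Rf_om, e1]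
    have h3 := abs_add_le (4 * deriv (Rf_F γ r₀) (rsq x)) (4 * rsq x * deriv (deriv (Rf_F γ r₀)) (rsq x))
    have h4 : |4 * rsq x * deriv (deriv (Rf_F γ r₀)) (rsq x)| =
        4 * |rsq x * deriv (deriv (Rf_F γ r₀)) (rsq x)| := by
      rw [mul_assoc, abs_mul, abs_of_pos (by norm_num : (0:ℝ) < 4)]
    have h5 : |4 * deriv (Rf_F γ r₀) (rsq x)| = 4 * |deriv (Rf_F γ r₀) (rsq x)| := by
      rw [abs_mul, abs_of_pos (by norm_num : (0:ℝ) < 4)]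
    rw [h4, h5] at h3
    linarith
  · rw [e2, e3]
    have h6 : 4 * deriv (Rf_G γ r₀) (rsq x) + 4 * rsq x * deriv (deriv (Rf_G γ r₀)) (rsq x) -
        2 / rsq x * (2 * rsq x * deriv (Rf_G γ r₀) (rsq x)) =
        4 * (rsq x * deriv (deriv (Rf_G γ r₀)) (rsq x)) := by
      rcases hρ.lt_or_eq with h | h
      · field_simp
        ring
      · rw [← h, Rf_G0 hγ]
        ring
    rw [h6, abs_mul, abs_of_pos (by norm_num : (0:ℝ) < 4)]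
    linarith
  · rw [e3, abs_mul, abs_mul, abs_of_nonneg hρ, abs_of_pos (by norm_num : (0:ℝ) < 2)]
    calc 2 * rsq x * |deriv (Rf_G γ r₀) (rsq x)| ≤ 2 * rsq x * L :=
          mul_le_mul_of_nonneg_left l1 (by positivity)
      _ = (2 * L) * rsq x := by ring
      _ ≤ C * rsq x := mul_le_mul_of_nonneg_right (by linarith) hρ
  · intro hc
    refine ⟨Rf_F_tail hr _ hc, ?_, ?_, ?_⟩
    · rw [Rf_om, e1, f1 _ hc, f2 _ hc]
      ring
    · rw [e2, g1 _ hc, g2 _ hc]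
      ring
    · rw [e3, g1 _ hc]
      ring

theorem om_near {γ r₀ : ℝ} (hγ : 4 ≤ γ) (hr : 0 < r₀) {x : E3} (hx0 : 0 < rsq x) (hx : rsq x < r₀ ^ 2 / 4) :
    om γ r₀ x = rsq x ^ (γ / 2) ∧ lap (om γ r₀) x = γ ^ 2 * rsq x ^ (γ / 2 - 1) ∧
    lap (fun y => om γ r₀ y ^ 2) x - 2 / rsq x * rdr (fun y => om γ r₀ y ^ 2) x = 4 * γ * (γ - 1) * rsq x ^ (γ - 1) ∧
    rdr (fun y => om γ r₀ y ^ 2) x = 2 * γ * rsq x ^ γ := by
  have hF := Rf_F_cd (r₀ := r₀) hγ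
  have hG := Rf_G_cd (r₀ := r₀) hγ
  have hFn : ∀ σ, 0 < σ → σ < r₀ ^ 2 / 4 → Rf_F γ r₀ σ = σ ^ (γ / 2) := by
    intro σ _ hσ
    unfold Rf_F
    have h2 : σ / r₀ ^ 2 ≤ 1 / 4 := by
      rw [div_le_iff₀ (by positivity)]
      linarith
    rw [(hc_bd _).2.2.1 h2, mul_one]
  have hGn : ∀ σ, 0 < σ → σ < r₀ ^ 2 / 4 → Rf_G γ r₀ σ = σ ^ γ := by
    intro σ h0 hσ
    unfold Rf_G
    rw [hFn σ h0 hσ, ← Real.rpow_natCast (σ ^ (γ / 2)) 2, ← Real.rpow_mul h0.le]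
    norm_num
  obtain ⟨f1, f2⟩ := Rf_near hFn hx0 hx
  obtain ⟨g1, g2⟩ := Rf_near hGn hx0 hx
  have r1 : rsq x * rsq x ^ (γ / 2 - 2) = rsq x ^ (γ / 2 - 1) := by
    rw [show γ / 2 - 1 = 1 + (γ / 2 - 2) by ring, Real.rpow_add hx0, Real.rpow_one]
  have r2 : rsq x * rsq x ^ (γ - 2) = rsq x ^ (γ - 1) := by
    rw [show γ - 1 = 1 + (γ - 2) by ring, Real.rpow_add hx0, Real.rpow_one]
  have r3 : rsq x * rsq x ^ (γ - 1) = rsq x ^ γ := by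
    have h := Real.rpow_add hx0 1 (γ - 1)
    rw [Real.rpow_one, show 1 + (γ - 1) = γ by ring] at h
    exact h.symm
  have e3 := (rf_rdr hG x).1
  refine ⟨hFn _ hx0 hx, ?_, ?_, ?_⟩
  · rw [Rf_om, (rf_rdr hF x).2, f1, f2]
    calc 4 * (γ / 2 * rsq x ^ (γ / 2 - 1)) + 4 * rsq x * (γ / 2 * (γ / 2 - 1) * rsq x ^ (γ / 2 - 2))
        = 2 * γ * rsq x ^ (γ / 2 - 1) + (γ ^ 2 - 2 * γ) * (rsq x * rsq x ^ (γ / 2 - 2)) := by ring
      _ = γ ^ 2 * rsq x ^ (γ / 2 - 1) := by rw [r1]; ring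
  · rw [Rf_om2, (rf_rdr hG x).2, e3, g2]
    have h6 : 4 * deriv (Rf_G γ r₀) (rsq x) + 4 * rsq x * (γ * (γ - 1) * rsq x ^ (γ - 2)) -
        2 / rsq x * (2 * rsq x * deriv (Rf_G γ r₀) (rsq x)) =
        4 * γ * (γ - 1) * (rsq x * rsq x ^ (γ - 2)) := by
      have hne := hx0.ne'
      have : 2 / rsq x * (2 * rsq x * deriv (Rf_G γ r₀) (rsq x)) = 4 * deriv (Rf_G γ r₀) (rsq x) := by
        field_simp
        ring
      rw [this]
      ring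
    rw [h6, r2]
  · rw [Rf_om2, e3, g1]
    calc 2 * rsq x * (γ * rsq x ^ (γ - 1)) = 2 * γ * (rsq x * rsq x ^ (γ - 1)) := by ring
      _ = 2 * γ * rsq x ^ γ := by rw [r3]

end Pool.Agent.H87.NS
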