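/-
ROW EvW. The energy inequality with the weight `om²`. Here `γ = 2m - s/2`, `4 ≤ m`, `3 ≤ s ≤ 4`, so `γ ≥ 6`. PROOF. For `κ ∈ (0, 1]` let `wk x = rsq^(2m) (rsq + κ)^(-s/2) chi²`: smooth (`rsq + κ > 0`, `chi` smooth), a function `F_κ(rsq)`,
`F_κ(ρ) = ρ^(2m) (ρ+κ)^(-s/2) hc(ρ/r₀²)²`, supported in `ρ ≤ r₀²/2`, with `|F_κ|, |F_κ'|, |F_κ''| ≤ B` on `[0, r₀²]` uniformly in `κ` (`ρ^(2m-j) (ρ+κ)^(-s/2-i) ≤ ρ^(2m-j-s/2-i)`, `i + j ≤ 2`, exponents `≥ 0`; `hc, hc', hc''` bounded) and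
`F_κ → F`, `F_κ' → F'`, `F_κ'' → F''` pointwise for `ρ > 0`, `F(ρ) = ρ^γ hc²`. `wk / (B + 1)` satisfies `Wg` (`pd i = 2 x_i F'`, `lap = 4 F' + 4 ρ F''`, `rdr = 2 ρ F'`); evg (NC/EVg.lean) with `j = s^(2m)` (pow_jfun),
`f = sV`, `G = -2 sW sV`, multiply by `B + 1`. As `κ = 1/(n+1) → 0` all terms converge by dominated convergence: the integrands `evJ` with `wk` are bounded by
`C (V^(2m-2) gsq V + |W| V^(2m) + V^(2m))`, integrable in `x` with bounded integral (`V` is `DB 1`, `W` bounded, on `[a, b]`), and they converge almost everywhere (`rsq x > 0`) to `evJ` with `om²`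
(the formulas of Rf: `adv = W rdr`, `lap - 2/rsq rdr = 4 ρ F''`).
-/
import Pool.Agent.H87.NB.Rf
import Pool.Agent.H87.NC.EVg
import Pool.Agent.H87.NS.FlowOf
import Pool.Agent.H87.NS.StepV4

set_option autoImplicit false

open Set Filter Topology MeasureTheory
open scoped ContDiff

namespace Pool.Agent.H87.NS

open Pool.Agent.H16

/-- The profile of the weight. -/
private noncomputable def EvW_F (γ r₀ ρ : ℝ) : ℝ := ρ ^ γ * hc (ρ / r₀ ^ 2) ^ 2

private theorem EvW_F_cd {γ r₀ : ℝ} (hγ : 2 ≤ γ) : ContDiff ℝ 2 (EvW_F γ r₀) := by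
  unfold EvW_F
  have h1 : ContDiff ℝ 2 (fun ρ : ℝ => ρ ^ γ) := by
    have := Real.contDiff_rpow_const_of_le (n := 2) (p := γ) (by exact_mod_cast hγ)
    exact_mod_cast this
  have h0 : ContDiff ℝ 2 hc := contDiff_infty.1 hc_smooth 2
  have h2 : ContDiff ℝ 2 (fun ρ : ℝ => hc (ρ / r₀ ^ 2) ^ 2) :=
    (h0.comp (contDiff_id.div_const _)).pow 2
  exact h1.mul h2

private theorem EvW_F_nonneg {γ r₀ ρ : ℝ} (hρ : 0 ≤ ρ) : 0 ≤ EvW_F γ r₀ ρ :=
  mul_nonneg (Real.rpow_nonneg hρ _) (sq_nonneg _)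

private theorem EvW_F_zero {γ r₀ ρ : ℝ} (hr : 0 < r₀) (hρ : r₀ ^ 2 / 2 ≤ ρ) : EvW_F γ r₀ ρ = 0 := by
  unfold EvW_F
  have h1 : 1 / 2 ≤ ρ / r₀ ^ 2 := by
    rw [le_div_iff₀ (by positivity)]
    linarith
  rw [(hc_bd _).2.2.2 h1]
  ring

private theorem EvW_dz {F : ℝ → ℝ} {R ρ : ℝ} (hF : ∀ y, R ≤ y → F y = 0) (h : R < ρ) :
    F ρ = 0 ∧ deriv F ρ = 0 ∧ deriv (deriv F) ρ = 0 := by
  have h1 : ∀ y, R < y → deriv F y = 0 := by
    intro y hy
    have e : F =ᶠ[𝓝 y] fun _ => 0 := by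
      filter_upwards [lt_mem_nhds hy] with z hz using hF z hz.le
    rw [e.deriv_eq, deriv_const]
  have h2 : deriv (deriv F) ρ = 0 := by
    have e : deriv F =ᶠ[𝓝 ρ] fun _ => 0 := by
      filter_upwards [lt_mem_nhds h] with z hz using h1 z hz
    rw [e.deriv_eq, deriv_const]
  exact ⟨hF ρ h.le, h1 ρ h, h2⟩

private theorem EvW_cs {g : ℝ → ℝ} {R : ℝ} (hg : Continuous g) (hz : ∀ y, R < y → g y = 0) :
    Continuous (fun y => g |y|) ∧ HasCompactSupport (fun y => g |y|) := by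
  refine ⟨hg.comp continuous_abs, ?_⟩
  refine HasCompactSupport.intro (isCompact_Icc (a := -R) (b := R)) fun y hy => ?_
  refine hz _ ?_
  by_contra hc
  push Not at hc
  exact hy (abs_le.1 hc)

/-- bounded on the positive half-line -/
private theorem EvW_bd {g : ℝ → ℝ} {R : ℝ} (hg : Continuous g) (hz : ∀ y, R < y → g y = 0) :
    ∃ B : ℝ, ∀ y, 0 ≤ y → |g y| ≤ B := by
  obtain ⟨h1, h2⟩ := EvW_cs hg hz
  obtain ⟨C, hC⟩ := h1.bounded_above_of_compact_support h2
  refine ⟨C, fun y hy => ?_⟩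
  have h3 := hC y
  rw [Real.norm_eq_abs] at h3
  simpa only [abs_of_nonneg hy] using h3

/-- uniformly continuous on the positive half-line -/
private theorem EvW_uc {g : ℝ → ℝ} {R : ℝ} (hg : Continuous g) (hz : ∀ y, R < y → g y = 0) {ε : ℝ}
    (hε : 0 < ε) : ∃ δ > 0, ∀ κ, 0 ≤ κ → κ < δ → ∀ y, 0 ≤ y → |g (y + κ) - g y| ≤ ε := by
  obtain ⟨h1, h2⟩ := EvW_cs hg hz
  have h3 := h2.uniformContinuous_of_continuous h1
  obtain ⟨δ, hδ, h4⟩ := Metric.uniformContinuous_iff.1 h3 ε hε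
  refine ⟨δ, hδ, fun κ hκ hκδ y hy => ?_⟩
  have h5 : dist (y + κ) y < δ := by
    rw [Real.dist_eq, add_sub_cancel_left, abs_of_nonneg hκ]
    exact hκδ
  have h6 := h4 h5
  rw [Real.dist_eq] at h6
  rw [abs_of_nonneg hy, abs_of_nonneg (by linarith : 0 ≤ y + κ)] at h6
  exact h6.le

/-- the shift of the profile is close to the profile -/
private theorem EvW_shift {F : ℝ → ℝ} {R : ℝ} (hF : ContDiff ℝ 2 F) (hz : ∀ y, R ≤ y → F y = 0) :
    ∃ B : ℝ, 0 ≤ B ∧ (∀ y, 0 ≤ y → |F y| ≤ B ∧ |deriv F y| ≤ B ∧ |deriv (deriv F) y| ≤ B) ∧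
      ∀ ε > 0, ∃ κ > 0, ∀ y, 0 ≤ y → |F (y + κ) - F y| ≤ ε ∧ |deriv F (y + κ) - deriv F y| ≤ ε ∧
        |deriv (deriv F) (y + κ) - deriv (deriv F) y| ≤ ε := by
  have c0 : Continuous F := hF.continuous
  have c1 : Continuous (deriv F) := hF.continuous_deriv (by norm_num)
  have c2 : Continuous (deriv (deriv F)) := by
    have h1 : ContDiff ℝ 1 (deriv F) := by
      have := (contDiff_succ_iff_deriv (n := 1)).1 hF
      exact this.2.2
    exact h1.continuous_deriv (by norm_num)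
  have z0 : ∀ y, R < y → F y = 0 := fun y hy => (EvW_dz hz hy).1
  have z1 : ∀ y, R < y → deriv F y = 0 := fun y hy => (EvW_dz hz hy).2.1
  have z2 : ∀ y, R < y → deriv (deriv F) y = 0 := fun y hy => (EvW_dz hz hy).2.2
  obtain ⟨B0, b0⟩ := EvW_bd c0 z0
  obtain ⟨B1, b1⟩ := EvW_bd c1 z1
  obtain ⟨B2, b2⟩ := EvW_bd c2 z2
  refine ⟨max B0 (max B1 B2), ((abs_nonneg _).trans (b0 0 le_rfl)).trans (le_max_left _ _),
    fun y hy => ⟨(b0 y hy).trans (le_max_left _ _),
      (b1 y hy).trans ((le_max_left _ _).trans (le_max_right _ _)),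
      (b2 y hy).trans ((le_max_right _ _).trans (le_max_right _ _))⟩, fun ε hε => ?_⟩
  obtain ⟨d0, p0, q0⟩ := EvW_uc c0 z0 hε
  obtain ⟨d1, p1, q1⟩ := EvW_uc c1 z1 hε
  obtain ⟨d2, p2, q2⟩ := EvW_uc c2 z2 hε
  have hm : 0 < min d0 (min d1 d2) := lt_min p0 (lt_min p1 p2)
  have hm2 : min d0 (min d1 d2) / 2 < min d0 (min d1 d2) := half_lt_self hm
  refine ⟨min d0 (min d1 d2) / 2, by positivity, fun y hy => ⟨?_, ?_, ?_⟩⟩
  · exact q0 _ (by positivity) (hm2.trans_le (min_le_left _ _)) y hy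
  · exact q1 _ (by positivity) (hm2.trans_le ((min_le_right _ _).trans (min_le_left _ _))) y hy
  · exact q2 _ (by positivity) (hm2.trans_le ((min_le_right _ _).trans (min_le_right _ _))) y hy

/-- the integrand of the energy inequality for a function of `rsq` -/
private noncomputable def EvW_Q (j : ℝ → ℝ) (w f G : E3 → ℝ) (H : ℝ → ℝ) (x : E3) : ℝ :=
  (deriv j (f x) * G x - deriv (deriv j) (f x) * gsq f x) * H (rsq x) +
    j (f x) * (w x * (2 * rsq x * deriv H (rsq x)) + 4 * rsq x * deriv (deriv H) (rsq x))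

private theorem EvW_evJ {j : ℝ → ℝ} {v : E3 → E3} (hv : AxF v) {f G : E3 → ℝ} {H : ℝ → ℝ}
    (hH : ContDiff ℝ 2 H) {x : E3} (hx : rsq x ≠ 0) :
    evJ j v f G (fun y => H (rsq y)) x = EvW_Q j (sW v) f G H x := by
  unfold evJ EvW_Q
  rw [rf_adv hv hH, (rf_rdr hH x).1, (rf_rdr hH x).2]
  field_simp
  ring

private theorem EvW_null : ∀ᵐ x : E3, rsq x ≠ 0 := by
  filter_upwards [axis_null] with x hx
  have h := rad_sq' x
  rw [← h]
  positivity

private theorem EvW_rsq_cont : Continuous (rsq : E3 → ℝ) := by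
  unfold rsq
  fun_prop

private theorem EvW_rsq_nonneg (x : E3) : 0 ≤ rsq x := by
  unfold rsq
  positivity

variable {T : ℝ} {u : ℝ → E3 → E3} {f G W : ℝ → E3 → ℝ}

private theorem EvW_Qjc (hf : Evo T u f G) (hW : JC T W) {j : ℝ → ℝ} (hj : JFun j) {H : ℝ → ℝ}
    (c0 : Continuous H) (c1 : Continuous (deriv H)) (c2 : Continuous (deriv (deriv H))) :
    JC T (fun t => EvW_Q j (W t) (f t) (G t) H) := by
  obtain ⟨h1, h2, h3, h4⟩ := evo_jc hf hj
  have hr := EvW_rsq_cont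
  have e1 : JC T (fun t x => (deriv j (f t x) * G t x - deriv (deriv j) (f t x) * gsq (f t) x)) :=
    ContinuousOn.sub h3 h2
  have e2 : JC T (fun _ x => H (rsq x)) := JC_const (c0.comp hr)
  have e3 : JC T (fun _ x => 2 * rsq x * deriv H (rsq x)) :=
    JC_const ((continuous_const.mul hr).mul (c1.comp hr))
  have e4 : JC T (fun _ x => 4 * rsq x * deriv (deriv H) (rsq x)) :=
    JC_const ((continuous_const.mul hr).mul (c2.comp hr))
  exact JC_add (JC_mul e1 e2) (JC_mul h1 (JC_add (JC_mul hW e3) e4))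

private theorem EvW_Qbd (hf : Evo T u f G) (hW : JC T W)
    (hWb : ∀ T' < T, ∃ K : ℝ, ∀ t ∈ Icc 0 T', BL K (W t)) {j : ℝ → ℝ} (hj : JFun j) {R : ℝ}
    (hR : 0 ≤ R) {b : ℝ} (hb : b < T) :
    ∃ C : ℝ, 0 ≤ C ∧ ∀ (H : ℝ → ℝ) (δ : ℝ), 0 ≤ δ → Continuous H → Continuous (deriv H) →
      Continuous (deriv (deriv H)) →
      (∀ y, 0 ≤ y → |H y| ≤ δ ∧ |deriv H y| ≤ δ ∧ |deriv (deriv H) y| ≤ δ) →
      (∀ y, R < y → deriv H y = 0 ∧ deriv (deriv H) y = 0) →
      ∀ t ∈ Icc 0 b, Integrable (EvW_Q j (W t) (f t) (G t) H) ∧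
        ∫ x, |EvW_Q j (W t) (f t) (G t) H x| ≤ C * δ := by
  obtain ⟨K', hK'⟩ := evo_bd hf hj hb
  obtain ⟨K, hK⟩ := hWb b hb
  refine ⟨|K'| + |K'| + (|K| * (2 * R) + 4 * R) * |K'|, by positivity, ?_⟩
  intro H δ hδ c0 c1 c2 hH hz t ht
  have ht' : t ∈ Ico 0 T := ⟨ht.1, ht.2.trans_lt hb⟩
  obtain ⟨⟨i1, b1⟩, ⟨i2, b2⟩, ⟨i3, b3⟩⟩ := hK' t ht
  have hQc : Continuous (EvW_Q j (W t) (f t) (G t) H) := by
    have h1 : Continuous (fun x : E3 => ((t, x) : ℝ × E3)) := by fun_prop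
    have h2 := (EvW_Qjc hf hW hj c0 c1 c2).comp_continuous h1 (fun x => ⟨ht', mem_univ x⟩)
    exact h2
  set c : ℝ := |K| * (2 * R) + 4 * R with hc
  have hc0 : 0 ≤ c := by positivity
  have hpt : ∀ x, |EvW_Q j (W t) (f t) (G t) H x| ≤
      ((|deriv j (f t x) * G t x| + |deriv (deriv j) (f t x) * gsq (f t) x|) +
        c * |j (f t x)|) * δ := by
    intro x
    have hx := EvW_rsq_nonneg x
    obtain ⟨a0, a1, a2⟩ := hH _ hx
    have hWx : |W t x| ≤ |K| := ((hK t ht).1 x).trans (le_abs_self K)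
    unfold EvW_Q
    refine (abs_add_le _ _).trans ?_
    rw [abs_mul, abs_mul]
    have g1 : |deriv j (f t x) * G t x - deriv (deriv j) (f t x) * gsq (f t) x| * |H (rsq x)| ≤
        (|deriv j (f t x) * G t x| + |deriv (deriv j) (f t x) * gsq (f t) x|) * δ :=
      mul_le_mul (abs_sub _ _) a0 (abs_nonneg _) (by positivity)
    have g2 : |W t x * (2 * rsq x * deriv H (rsq x)) + 4 * rsq x * deriv (deriv H) (rsq x)| ≤
        c * δ := by
      rcases lt_or_ge R (rsq x) with h | h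
      · rw [(hz _ h).1, (hz _ h).2]
        simp only [mul_zero, add_zero, abs_zero]
        positivity
      · refine (abs_add_le _ _).trans ?_
        rw [abs_mul, abs_mul, abs_mul (4 * rsq x), abs_of_nonneg (by positivity : 0 ≤ 2 * rsq x),
          abs_of_nonneg (by positivity : 0 ≤ 4 * rsq x)]
        have g3 : |W t x| * (2 * rsq x * |deriv H (rsq x)|) ≤ |K| * (2 * R * δ) := by
          refine mul_le_mul hWx ?_ (by positivity) (abs_nonneg _)
          exact mul_le_mul (by linarith) a1 (abs_nonneg _) (by positivity)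
        have g4 : 4 * rsq x * |deriv (deriv H) (rsq x)| ≤ 4 * R * δ :=
          mul_le_mul (by linarith) a2 (abs_nonneg _) (by positivity)
        rw [hc]
        nlinarith
    have g5 : |j (f t x)| * |W t x * (2 * rsq x * deriv H (rsq x)) +
        4 * rsq x * deriv (deriv H) (rsq x)| ≤ |j (f t x)| * (c * δ) :=
      mul_le_mul_of_nonneg_left g2 (abs_nonneg _)
    nlinarith
  have hgi : Integrable (fun x => ((|deriv j (f t x) * G t x| +
      |deriv (deriv j) (f t x) * gsq (f t) x|) + c * |j (f t x)|) * δ) :=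
    ((i3.abs.add i2.abs).add (i1.abs.const_mul c)).mul_const δ
  have hQi : Integrable (EvW_Q j (W t) (f t) (G t) H) := by
    refine hgi.mono' hQc.aestronglyMeasurable (Eventually.of_forall fun x => ?_)
    rw [Real.norm_eq_abs]
    exact hpt x
  refine ⟨hQi, (integral_mono hQi.abs hgi hpt).trans ?_⟩
  have e1 : ∫ x, ((|deriv j (f t x) * G t x| + |deriv (deriv j) (f t x) * gsq (f t) x|) +
      c * |j (f t x)|) * δ = ((∫ x, |deriv j (f t x) * G t x|) +
        (∫ x, |deriv (deriv j) (f t x) * gsq (f t) x|) + c * ∫ x, |j (f t x)|) * δ := by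
    rw [integral_mul_const]
    congr 1
    have h5 := integral_add (i3.abs.add i2.abs) (i1.abs.const_mul c)
    have h6 := integral_add i3.abs i2.abs
    simp only [Pi.add_apply] at h5 h6 ⊢
    rw [h5, h6, integral_const_mul]
  rw [e1]
  refine mul_le_mul_of_nonneg_right ?_ hδ
  have k1 : ∫ x, |j (f t x)| ≤ |K'| := b1.trans (le_abs_self _)
  have k2 := b2.trans (le_abs_self K')
  have k3 := b3.trans (le_abs_self K')
  have k4 := mul_le_mul_of_nonneg_left k1 hc0
  linarith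

private theorem EvW_Q_lin (j : ℝ → ℝ) (w f G : E3 → ℝ) {F : ℝ → ℝ} (hF : ContDiff ℝ 2 F) (κ : ℝ)
    (x : E3) : EvW_Q j w f G (fun y => F (y + κ) - F y) x =
      EvW_Q j w f G (fun y => F (y + κ)) x - EvW_Q j w f G F x := by
  have d1 : Differentiable ℝ F := hF.differentiable (by norm_num)
  have hF1 : ContDiff ℝ 1 (deriv F) := ((contDiff_succ_iff_deriv (n := 1)).1 hF).2.2
  have d2 : Differentiable ℝ (deriv F) := hF1.differentiable (by norm_num)
  have e1 : deriv (fun y => F (y + κ) - F y) = fun y => deriv F (y + κ) - deriv F y := by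
    funext y
    have h1 : DifferentiableAt ℝ (fun y => F (y + κ)) y :=
      (d1 (y + κ)).comp y (differentiableAt_id.add_const κ)
    rw [deriv_fun_sub h1 (d1 y), deriv_comp_add_const]
  have e2 : deriv (deriv (fun y => F (y + κ) - F y)) =
      fun y => deriv (deriv F) (y + κ) - deriv (deriv F) y := by
    rw [e1]
    funext y
    have h1 : DifferentiableAt ℝ (fun y => deriv F (y + κ)) y :=
      (d2 (y + κ)).comp y (differentiableAt_id.add_const κ)
    rw [deriv_fun_sub h1 (d2 y), deriv_comp_add_const]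
  have e3 : deriv (fun y => F (y + κ)) = fun y => deriv F (y + κ) :=
    funext fun y => deriv_comp_add_const _ _ _
  have e4 : deriv (fun y => deriv F (y + κ)) = fun y => deriv (deriv F) (y + κ) :=
    funext fun y => deriv_comp_add_const _ _ _
  unfold EvW_Q
  rw [e2, e1, e3, e4]
  ring

private theorem EvW_wg {γ r₀ κ B : ℝ} (hγ : 2 ≤ γ) (hr : 0 < r₀) (hκ : 0 < κ) (hB : 0 ≤ B)
    (hb : ∀ y, 0 ≤ y → |EvW_F γ r₀ y| ≤ B ∧ |deriv (EvW_F γ r₀) y| ≤ B ∧
      |deriv (deriv (EvW_F γ r₀)) y| ≤ B) :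
    Wg (fun x => (B + 1)⁻¹ * EvW_F γ r₀ (rsq x + κ)) := by
  have hF := EvW_F_cd (γ := γ) (r₀ := r₀) hγ
  have hB1 : 0 < B + 1 := by linarith
  have hB2 : (B + 1)⁻¹ * B ≤ 1 := by
    rw [inv_mul_le_iff₀ hB1]
    linarith
  have hi : 0 < (B + 1)⁻¹ := by positivity
  set H : ℝ → ℝ := fun y => (B + 1)⁻¹ * EvW_F γ r₀ (y + κ) with hH
  have hHc : ContDiff ℝ 2 H := contDiff_const.mul (hF.comp (contDiff_id.add contDiff_const))
  have e1 : deriv H = fun y => (B + 1)⁻¹ * deriv (EvW_F γ r₀) (y + κ) := by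
    funext y
    rw [hH, deriv_const_mul_field, deriv_comp_add_const]
  have e2 : deriv (deriv H) = fun y => (B + 1)⁻¹ * deriv (deriv (EvW_F γ r₀)) (y + κ) := by
    rw [e1]
    funext y
    rw [deriv_const_mul_field, deriv_comp_add_const]
  have hz : ∀ y, r₀ ^ 2 / 2 < y → deriv H y = 0 ∧ deriv (deriv H) y = 0 := by
    intro y hy
    obtain ⟨-, z1, z2⟩ := EvW_dz (F := EvW_F γ r₀) (fun y hy => EvW_F_zero hr hy)
      (by linarith : r₀ ^ 2 / 2 < y + κ)
    rw [e2, e1]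
    simp only [z1, z2, mul_zero, and_self]
  have hb1 : ∀ y, 0 ≤ y → |deriv H y| ≤ 1 := by
    intro y hy
    rw [e1]
    simp only
    rw [abs_mul, abs_of_pos hi]
    exact (mul_le_mul_of_nonneg_left (hb _ (by linarith)).2.1 hi.le).trans hB2
  have hb2 : ∀ y, 0 ≤ y → |deriv (deriv H) y| ≤ 1 := by
    intro y hy
    rw [e2]
    simp only
    rw [abs_mul, abs_of_pos hi]
    exact (mul_le_mul_of_nonneg_left (hb _ (by linarith)).2.2 hi.le).trans hB2
  refine ⟨?_, fun x => ?_, fun x => ?_, 4 + 4 * r₀ ^ 2, fun x => ⟨?_, ?_, ?_⟩⟩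
  · have hs : ContDiff ℝ ∞ (fun x : E3 => rsq x + κ) := by
      unfold rsq
      fun_prop
    have h1 : ContDiff ℝ ∞ (fun x : E3 => (rsq x + κ) ^ γ) :=
      hs.rpow_const_of_ne fun x => by
        have := EvW_rsq_nonneg x
        positivity
    have h2 : ContDiff ℝ ∞ (fun x : E3 => hc ((rsq x + κ) / r₀ ^ 2) ^ 2) :=
      (hc_smooth.comp (hs.div_const _)).pow 2
    exact contDiff_const.mul (h1.mul h2)
  · have := EvW_rsq_nonneg x
    exact mul_nonneg hi.le (EvW_F_nonneg (by positivity))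
  · have h1 := EvW_rsq_nonneg x
    have h2 := (hb (rsq x + κ) (by positivity)).1
    exact (mul_le_mul_of_nonneg_left ((le_abs_self _).trans h2) hi.le).trans hB2
  · have h1 := EvW_rsq_nonneg x
    have h2 : ∀ i : Fin 3, i ≠ 2 → |x i| ≤ 1 + rsq x := by
      intro i hi2
      have h3 : x i ^ 2 ≤ rsq x := by
        unfold rsq
        fin_cases i
        · simp only [Fin.zero_eta]
          nlinarith [sq_nonneg (x 1)]
        · simp only [Fin.mk_one]
          nlinarith [sq_nonneg (x 0)]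
        · exact absurd rfl hi2
      rw [← sq_abs] at h3
      nlinarith [sq_nonneg (|x i| - 1), abs_nonneg (x i)]
    have h4 : ∀ i : Fin 3, i ≠ 2 → |2 * x i * deriv H (rsq x)| ≤ 4 + 4 * r₀ ^ 2 := by
      intro i hi2
      rcases lt_or_ge (r₀ ^ 2 / 2) (rsq x) with h | h
      · rw [(hz _ h).1, mul_zero, abs_zero]
        positivity
      · rw [abs_mul, abs_mul, abs_two]
        have h5 : 2 * |x i| * |deriv H (rsq x)| ≤ 2 * (1 + rsq x) * 1 :=
          mul_le_mul (by linarith [h2 i hi2]) (hb1 _ h1) (abs_nonneg _) (by positivity)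
        nlinarith [sq_nonneg r₀]
    obtain ⟨p0, p1, p2⟩ := rf_pd hHc x
    intro i
    fin_cases i
    · exact (congrArg _ p0).trans_le (h4 0 (by decide))
    · exact (congrArg _ p1).trans_le (h4 1 (by decide))
    · refine (congrArg _ p2).trans_le ?_
      rw [abs_zero]
      positivity
  · have h1 := EvW_rsq_nonneg x
    refine (congrArg _ (rf_rdr hHc x).2).trans_le ?_
    rcases lt_or_ge (r₀ ^ 2 / 2) (rsq x) with h | h
    · rw [(hz _ h).1, (hz _ h).2]
      simp only [mul_zero, add_zero, abs_zero]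
      positivity
    · refine (abs_add_le _ _).trans ?_
      rw [abs_mul, abs_mul, abs_of_nonneg (by norm_num : (0 : ℝ) ≤ 4),
        abs_of_nonneg (by positivity : 0 ≤ 4 * rsq x)]
      have g1 := hb1 _ h1
      have g2 : 4 * rsq x * |deriv (deriv H) (rsq x)| ≤ 4 * rsq x * 1 :=
        mul_le_mul_of_nonneg_left (hb2 _ h1) (by positivity)
      nlinarith [sq_nonneg r₀]
  · have h1 := EvW_rsq_nonneg x
    refine (congrArg _ (rf_rdr hHc x).1).trans_le ?_
    rw [abs_mul, abs_of_nonneg (by positivity : 0 ≤ 2 * rsq x)]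
    have g2 : 2 * rsq x * |deriv H (rsq x)| ≤ 2 * rsq x * 1 :=
      mul_le_mul_of_nonneg_left (hb1 _ h1) (by positivity)
    nlinarith [mul_nonneg (sq_nonneg r₀) h1]

/-- the energy inequality for the shifted profile -/
private theorem EvW_evg (hu : Drift T u) (hax : ∀ t ∈ Ico 0 T, AxF (u t)) (hf : Evo T u f G)
    {j : ℝ → ℝ} (hj : JFun j) {γ r₀ κ B : ℝ} (hγ : 2 ≤ γ) (hr : 0 < r₀) (hκ : 0 < κ) (hB : 0 ≤ B)
    (hb : ∀ y, 0 ≤ y → |EvW_F γ r₀ y| ≤ B ∧ |deriv (EvW_F γ r₀) y| ≤ B ∧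
      |deriv (deriv (EvW_F γ r₀)) y| ≤ B) {a b : ℝ} (ha : 0 ≤ a) (hab : a ≤ b) (hbT : b < T) :
    ∫ x, j (f b x) * EvW_F γ r₀ (rsq x + κ) ≤ (∫ x, j (f a x) * EvW_F γ r₀ (rsq x + κ)) +
      ∫ t in a..b, ∫ x, EvW_Q j (sW (u t)) (f t) (G t) (fun y => EvW_F γ r₀ (y + κ)) x := by
  have hF := EvW_F_cd (γ := γ) (r₀ := r₀) hγ
  have hB1 : 0 < B + 1 := by linarith
  have h := evg hu hf hj (EvW_wg hγ hr hκ hB hb) ha hab hbT
  set H : ℝ → ℝ := fun y => (B + 1)⁻¹ * EvW_F γ r₀ (y + κ) with hH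
  have hHc : ContDiff ℝ 2 H := contDiff_const.mul (hF.comp (contDiff_id.add contDiff_const))
  have e1 : deriv H = fun y => (B + 1)⁻¹ * deriv (EvW_F γ r₀) (y + κ) := by
    funext y
    rw [hH, deriv_const_mul_field, deriv_comp_add_const]
  have e2 : deriv (deriv H) = fun y => (B + 1)⁻¹ * deriv (deriv (EvW_F γ r₀)) (y + κ) := by
    rw [e1]
    funext y
    rw [deriv_const_mul_field, deriv_comp_add_const]
  have e3 : deriv (fun y => EvW_F γ r₀ (y + κ)) = fun y => deriv (EvW_F γ r₀) (y + κ) :=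
    funext fun y => deriv_comp_add_const _ _ _
  have e4 : deriv (fun y => deriv (EvW_F γ r₀) (y + κ)) =
      fun y => deriv (deriv (EvW_F γ r₀)) (y + κ) :=
    funext fun y => deriv_comp_add_const _ _ _
  have hQ : ∀ t x, EvW_Q j (sW (u t)) (f t) (G t) H x =
      (B + 1)⁻¹ * EvW_Q j (sW (u t)) (f t) (G t) (fun y => EvW_F γ r₀ (y + κ)) x := by
    intro t x
    unfold EvW_Q
    rw [e2, e1, e3, e4, hH]
    ring
  have hin : ∀ t ∈ Icc a b, ∫ x, evJ j (u t) (f t) (G t)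
      (fun x => (B + 1)⁻¹ * EvW_F γ r₀ (rsq x + κ)) x =
      (B + 1)⁻¹ * ∫ x, EvW_Q j (sW (u t)) (f t) (G t) (fun y => EvW_F γ r₀ (y + κ)) x := by
    intro t ht
    rw [← integral_const_mul]
    refine integral_congr_ae ?_
    filter_upwards [EvW_null] with x hx
    rw [← hQ t x]
    exact EvW_evJ (hax t ⟨ha.trans ht.1, ht.2.trans_lt hbT⟩) hHc hx
  have huI : uIcc a b ⊆ Icc a b := by
    rw [uIcc_of_le hab]
  have h2 : ∫ t in a..b, ∫ x, evJ j (u t) (f t) (G t)
      (fun x => (B + 1)⁻¹ * EvW_F γ r₀ (rsq x + κ)) x =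
      (B + 1)⁻¹ * ∫ t in a..b, ∫ x, EvW_Q j (sW (u t)) (f t) (G t)
        (fun y => EvW_F γ r₀ (y + κ)) x := by
    rw [← intervalIntegral.integral_const_mul]
    exact intervalIntegral.integral_congr fun t ht => hin t (huI ht)
  rw [h2] at h
  have h3 : ∀ t, ∫ x, j (f t x) * ((B + 1)⁻¹ * EvW_F γ r₀ (rsq x + κ)) =
      (B + 1)⁻¹ * ∫ x, j (f t x) * EvW_F γ r₀ (rsq x + κ) := by
    intro t
    rw [← integral_const_mul]
    refine integral_congr_ae (Eventually.of_forall fun x => ?_)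
    ring
  rw [h3, h3, ← mul_add] at h
  exact le_of_mul_le_mul_left h (by positivity)

/-- the energy inequality for the profile -/
private theorem EvW_lim (hu : Drift T u) (hax : ∀ t ∈ Ico 0 T, AxF (u t)) (hf : Evo T u f G)
    (hW : JC T (fun t => sW (u t))) (hWb : ∀ T' < T, ∃ K : ℝ, ∀ t ∈ Icc 0 T', BL K (sW (u t)))
    {j : ℝ → ℝ} (hj : JFun j) {γ r₀ : ℝ} (hγ : 2 ≤ γ) (hr : 0 < r₀)
    {a b : ℝ} (ha : 0 ≤ a) (hab : a ≤ b) (hbT : b < T) :
    ∫ x, j (f b x) * EvW_F γ r₀ (rsq x) ≤ (∫ x, j (f a x) * EvW_F γ r₀ (rsq x)) +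
      ∫ t in a..b, ∫ x, EvW_Q j (sW (u t)) (f t) (G t) (EvW_F γ r₀) x := by
  set F : ℝ → ℝ := EvW_F γ r₀ with hFdef
  have hF : ContDiff ℝ 2 F := EvW_F_cd (γ := γ) (r₀ := r₀) hγ
  have hz0 : ∀ y, r₀ ^ 2 / 2 ≤ y → F y = 0 := fun y hy => EvW_F_zero hr hy
  obtain ⟨B, hB, hb, hsh⟩ := EvW_shift hF hz0
  obtain ⟨K', hK'⟩ := evo_bd hf hj hbT
  obtain ⟨C, hC, hQb⟩ := EvW_Qbd hf hW hWb hj (R := r₀ ^ 2 / 2) (by positivity) hbT
  have c0 : Continuous F := hF.continuous
  have c1 : Continuous (deriv F) := hF.continuous_deriv (by norm_num)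
  have hF1 : ContDiff ℝ 1 (deriv F) := ((contDiff_succ_iff_deriv (n := 1)).1 hF).2.2
  have c2 : Continuous (deriv (deriv F)) := hF1.continuous_deriv (by norm_num)
  have hzF : ∀ y, r₀ ^ 2 / 2 < y → deriv F y = 0 ∧ deriv (deriv F) y = 0 := fun y hy =>
    (EvW_dz hz0 hy).2
  have hQF := hQb F B hB c0 c1 c2 hb hzF
  have hiF : IntervalIntegrable (fun t => ∫ x, EvW_Q j (sW (u t)) (f t) (G t) F x) volume a b :=
    ti_int (EvW_Qjc hf hW hj c0 c1 c2) hbT hQF ha hab
  refine le_of_forall_pos_le_add fun ε hε => ?_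
  set D : ℝ := 2 * |K'| + C * (b - a) + 1 with hD
  have hba : 0 ≤ b - a := by linarith
  have hD0 : 0 < D := by positivity
  obtain ⟨κ, hκ, hs⟩ := hsh (ε / D) (by positivity)
  have hδ : 0 ≤ ε / D := by positivity
  have h := EvW_evg hu hax hf hj hγ hr hκ hB hb ha hab hbT
  rw [← hFdef] at h
  -- the shifted profile
  have e3 : deriv (fun y => F (y + κ)) = fun y => deriv F (y + κ) :=
    funext fun y => deriv_comp_add_const _ _ _
  have e4 : deriv (fun y => deriv F (y + κ)) = fun y => deriv (deriv F) (y + κ) :=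
    funext fun y => deriv_comp_add_const _ _ _
  have ca : Continuous (fun y : ℝ => y + κ) := by fun_prop
  have hQS : ∀ t ∈ Icc 0 b, Integrable (EvW_Q j (sW (u t)) (f t) (G t) (fun y => F (y + κ))) ∧
      ∫ x, |EvW_Q j (sW (u t)) (f t) (G t) (fun y => F (y + κ)) x| ≤ C * B := by
    refine hQb (fun y => F (y + κ)) B hB (c0.comp ca) ?_ ?_ ?_ ?_
    · rw [e3]
      exact c1.comp ca
    · rw [e3, e4]
      exact c2.comp ca
    · intro y hy
      rw [e3, e4]
      exact hb _ (by positivity)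
    · intro y hy
      rw [e3, e4]
      exact hzF _ (by linarith)
  have hiS : IntervalIntegrable (fun t => ∫ x, EvW_Q j (sW (u t)) (f t) (G t)
      (fun y => F (y + κ)) x) volume a b := by
    refine ti_int (EvW_Qjc hf hW hj (H := fun y => F (y + κ)) (c0.comp ca) ?_ ?_) hbT hQS ha hab
    · rw [e3]
      exact c1.comp ca
    · rw [e3, e4]
      exact c2.comp ca
  -- the difference
  have d1 : Differentiable ℝ F := hF.differentiable (by norm_num)
  have d2 : Differentiable ℝ (deriv F) := hF1.differentiable (by norm_num)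
  have f1 : deriv (fun y => F (y + κ) - F y) = fun y => deriv F (y + κ) - deriv F y := by
    funext y
    have h1 : DifferentiableAt ℝ (fun y => F (y + κ)) y :=
      (d1 (y + κ)).comp y (differentiableAt_id.add_const κ)
    rw [deriv_fun_sub h1 (d1 y), deriv_comp_add_const]
  have f2 : deriv (deriv (fun y => F (y + κ) - F y)) =
      fun y => deriv (deriv F) (y + κ) - deriv (deriv F) y := by
    rw [f1]
    funext y
    have h1 : DifferentiableAt ℝ (fun y => deriv F (y + κ)) y :=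
      (d2 (y + κ)).comp y (differentiableAt_id.add_const κ)
    rw [deriv_fun_sub h1 (d2 y), deriv_comp_add_const]
  have hQD : ∀ t ∈ Icc 0 b, Integrable (EvW_Q j (sW (u t)) (f t) (G t)
      (fun y => F (y + κ) - F y)) ∧
      ∫ x, |EvW_Q j (sW (u t)) (f t) (G t) (fun y => F (y + κ) - F y) x| ≤ C * (ε / D) := by
    refine hQb (fun y => F (y + κ) - F y) (ε / D) hδ ((c0.comp ca).sub c0) ?_ ?_ ?_ ?_
    · rw [f1]
      exact (c1.comp ca).sub c1
    · rw [f2]
      exact (c2.comp ca).sub c2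
    · intro y hy
      rw [f2, f1]
      exact hs y hy
    · intro y hy
      rw [f2, f1]
      simp only [(hzF _ hy).1, (hzF _ hy).2, (hzF _ (by linarith : r₀ ^ 2 / 2 < y + κ)).1,
        (hzF _ (by linarith : r₀ ^ 2 / 2 < y + κ)).2, sub_zero, and_self]
  have huI : uIoc a b ⊆ Icc 0 b := by
    rw [uIoc_of_le hab]
    intro t ht
    exact ⟨ha.trans ht.1.le, ht.2⟩
  have h5 : |(∫ t in a..b, ∫ x, EvW_Q j (sW (u t)) (f t) (G t) (fun y => F (y + κ)) x) -
      ∫ t in a..b, ∫ x, EvW_Q j (sW (u t)) (f t) (G t) F x| ≤ C * (ε / D) * (b - a) := by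
    rw [← intervalIntegral.integral_sub hiS hiF]
    have h6 := intervalIntegral.norm_integral_le_of_norm_le_const (a := a) (b := b)
      (C := C * (ε / D)) (f := fun t => (∫ x, EvW_Q j (sW (u t)) (f t) (G t)
        (fun y => F (y + κ)) x) - ∫ x, EvW_Q j (sW (u t)) (f t) (G t) F x) (fun t ht => by
        have ht' := huI ht
        rw [← integral_sub (hQS t ht').1 (hQF t ht').1]
        have e5 : (fun x => EvW_Q j (sW (u t)) (f t) (G t) (fun y => F (y + κ)) x -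
            EvW_Q j (sW (u t)) (f t) (G t) F x) =
            EvW_Q j (sW (u t)) (f t) (G t) (fun y => F (y + κ) - F y) :=
          funext fun x => (EvW_Q_lin j _ _ _ hF κ x).symm
        rw [e5]
        exact TI_bound (hQD t ht').2)
    rw [abs_of_nonneg hba] at h6
    exact h6
  -- the boundary terms
  have hr0 := EvW_rsq_cont
  have h7 : ∀ t ∈ Icc 0 b, |(∫ x, j (f t x) * F (rsq x + κ)) - ∫ x, j (f t x) * F (rsq x)| ≤
      |K'| * (ε / D) := by
    intro t ht
    obtain ⟨i1, b1⟩ := (hK' t ht).1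
    have cF : Continuous (fun x : E3 => F (rsq x)) := c0.comp hr0
    have cS : Continuous (fun x : E3 => F (rsq x + κ)) := c0.comp (hr0.add continuous_const)
    have iF : Integrable (fun x => j (f t x) * F (rsq x)) := by
      refine (i1.abs.mul_const B).mono' (i1.aestronglyMeasurable.mul cF.aestronglyMeasurable)
        (Eventually.of_forall fun x => ?_)
      rw [Real.norm_eq_abs, abs_mul]
      exact mul_le_mul_of_nonneg_left (hb _ (EvW_rsq_nonneg x)).1 (abs_nonneg _)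
    have iS : Integrable (fun x => j (f t x) * F (rsq x + κ)) := by
      refine (i1.abs.mul_const B).mono' (i1.aestronglyMeasurable.mul cS.aestronglyMeasurable)
        (Eventually.of_forall fun x => ?_)
      rw [Real.norm_eq_abs, abs_mul]
      have := EvW_rsq_nonneg x
      exact mul_le_mul_of_nonneg_left (hb _ (by positivity)).1 (abs_nonneg _)
    rw [← integral_sub iS iF]
    have h8 : ∫ x, |j (f t x) * F (rsq x + κ) - j (f t x) * F (rsq x)| ≤
        ∫ x, |j (f t x)| * (ε / D) := by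
      refine integral_mono (iS.sub iF).abs (i1.abs.mul_const _) fun x => ?_
      simp only
      rw [← mul_sub, abs_mul]
      exact mul_le_mul_of_nonneg_left (hs _ (EvW_rsq_nonneg x)).1 (abs_nonneg _)
    rw [integral_mul_const] at h8
    exact (TI_bound h8).trans (mul_le_mul_of_nonneg_right (b1.trans (le_abs_self _)) hδ)
  have hb1 := abs_le.1 (h7 b ⟨ha.trans hab, le_rfl⟩)
  have ha1 := abs_le.1 (h7 a ⟨ha, hab⟩)
  have h9 := abs_le.1 h5
  have h10 : (2 * |K'| + C * (b - a)) * (ε / D) ≤ ε := by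
    have h11 : D * (ε / D) = ε := by field_simp
    have h12 : (2 * |K'| + C * (b - a)) * (ε / D) ≤ D * (ε / D) :=
      mul_le_mul_of_nonneg_right (by rw [hD]; linarith) hδ
    linarith
  nlinarith [h10, h9.2, hb1.1, ha1.2]

theorem ev_om {T : ℝ} {u : ℝ → E3 → E3} {p : ℝ → E3 → ℝ} (h : IsHInfAxisymNS T u p) {m : ℕ} (hm : 4 ≤ m) {s r₀ : ℝ}
    (hs : 3 ≤ s) (hs4 : s ≤ 4) (hr : 0 < r₀) {a b : ℝ} (ha : 0 ≤ a) (hab : a ≤ b) (hb : b < T) :
    ∫ x, sV (u b) x ^ (2 * m) * om (2 * m - s / 2) r₀ x ^ 2 ≤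
      (∫ x, sV (u a) x ^ (2 * m) * om (2 * m - s / 2) r₀ x ^ 2) +
      ∫ t in a..b, ∫ x, evJ (fun s => s ^ (2 * m)) (u t) (sV (u t)) (fun y => -2 * sW (u t) y * sV (u t) y)
        (fun y => om (2 * m - s / 2) r₀ y ^ 2) x := by
  have _ := hs
  have hγ : (6 : ℝ) ≤ 2 * m - s / 2 := by
    have hm' : (4 : ℝ) ≤ m := by exact_mod_cast hm
    linarith
  have F := flow_of h
  have hns := h.ns
  have hl := EvW_lim F.drift (fun t ht => axF_of hns ht) F.evV F.wcont F.wbd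
    (pow_jfun (m := m) (by omega)) (γ := 2 * m - s / 2) (r₀ := r₀) (by linarith) hr ha hab hb
  have hw : ∀ x, om (2 * m - s / 2) r₀ x ^ 2 = EvW_F (2 * m - s / 2) r₀ (rsq x) := by
    intro x
    rw [om_sq (by linarith)]
    rfl
  simp only [hw]
  refine hl.trans (add_le_add le_rfl (le_of_eq ?_))
  refine intervalIntegral.integral_congr fun t ht => ?_
  rw [uIcc_of_le hab] at ht
  refine integral_congr_ae ?_
  filter_upwards [EvW_null] with x hx
  exact (EvW_evJ (axF_of hns ⟨ha.trans ht.1, ht.2.trans_lt hb⟩) (EvW_F_cd (by linarith)) hx).symm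

end Pool.Agent.H87.NS
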