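/-
ROW FEvf. The equation of `f = ∂_z V`. Let `GF v = rdr W * pd 2 V - pd 2 W * (rdr V + 2 V)`, `V = sV v`, `W = sW v`. PROOF. The fields of Evo: smooth: svw_smooth, pd_smooth. joint: jointV (NS/Bds2.lean), differentiate in the
direction `(0, e 2)` on the open set `Ioo 0 T ×ˢ {0 < rsq}`. cont, contd, contG: as in jcdV, jcW: `pd 2 (sV v) = avk 1 (pd 2 (curl v 2))` (avk_pd_two), `pd i` of it by avk_pd_hor, avk_pd_two; `rdr (sW v)`, `rdr (sV v)` by rdr_sV,
rdr_sW (EL1). bd: `DB 1` from svwDB (`sV` is `DB 2`); `GF`: products of bounded (`rdr V = curl 2 - 2 V`, `rdr W = - ∂₂ v₂ - 2 W`, `V`) and `BL` functions. eq: differentiate V_eq (NS/VEq.lean) in `x 2` at a point with `rsq > 0` (the equation holds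
on the open set): `pd 2 (deriv_t V) = deriv_t (pd 2 V)` (joint smoothness; see pd_deriv in NS/Vort.lean, here on the open set `Ioo 0 T ×ˢ {0 < rsq}`), `pd 2 (lap V) = lap (pd 2 V)`, `pd 2 (2/rsq rdr V) = 2/rsq rdr (pd 2 V)`,
`pd 2 (adv u V) = adv u (pd 2 V) + ∑ i, pd 2 u_i pd i V`. With `u_0 = W x₀ - V x₁`, `u_1 = W x₁ + V x₀` (from `circ v = rsq V`, `radFlux v = rsq W`), `x₀ ∂₁ V - x₁ ∂₀ V = 0` (rot_id, sV_rot), `pd 2 u_2 = - 2 W - rdr W` (rdr_sW):
`∑ i, pd 2 u_i pd i V = pd 2 W rdr V - (2 W + rdr W) pd 2 V`, so the source is `- (pd 2 W rdr V - (2 W + rdr W) pd 2 V) - 2 pd 2 (W V) = rdr W pd 2 V - pd 2 W (rdr V + 2 V)`.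
-/
import Pool.Agent.H87.NB.EL1
import Pool.Agent.H87.NB.RotF
import Pool.Agent.H87.NS.FlowOf

set_option autoImplicit false

open Set Filter Topology MeasureTheory
open scoped ContDiff

namespace Pool.Agent.H87.NS

open Pool.Agent.H16

/-- The source in the equation of `∂_z V`. -/
noncomputable def GF (v : E3 → E3) (x : E3) : ℝ :=
  rdr (sW v) x * pd 2 (sV v) x - pd 2 (sW v) x * (rdr (sV v) x + 2 * sV v x)

/-! ### auxiliary lemmas -/

private theorem FEvf_coord (x : E3) (τ : ℝ) :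
    (x + τ • e 2) 0 = x 0 ∧ (x + τ • e 2) 1 = x 1 := by
  constructor
  · simp [e_apply]
  · simp [e_apply]

private theorem FEvf_rsq (x : E3) (τ : ℝ) : rsq (x + τ • e 2) = rsq x := by
  obtain ⟨h0, h1⟩ := FEvf_coord x τ
  unfold rsq
  rw [h0, h1]

private theorem FEvf_path (x : E3) : HasDerivAt (fun τ : ℝ => x + τ • e 2) (e 2) 0 := by
  have h := ((hasDerivAt_id (0 : ℝ)).smul_const (e 2 : E3)).const_add x
  simpa using h

private theorem FEvf_line {f : E3 → ℝ} (hf : ContDiff ℝ ∞ f) (x : E3) :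
    HasDerivAt (fun τ : ℝ => f (x + τ • e 2)) (pd 2 f x) 0 := by
  have h0 : x + (0 : ℝ) • e 2 = x := by simp
  have h1 : HasFDerivAt f (fderiv ℝ f x) (x + (0 : ℝ) • e 2) := by
    rw [h0]
    exact (hf.differentiable (by simp) x).hasFDerivAt
  exact h1.comp_hasDerivAt (0 : ℝ) (FEvf_path x)

private theorem FEvf_open {T : ℝ} : IsOpen (Ioo 0 T ×ˢ {x : E3 | 0 < rsq x}) := by
  refine isOpen_Ioo.prod (isOpen_lt continuous_const ?_)
  unfold rsq
  exact ((continuous_coord 0).pow 2).add ((continuous_coord 1).pow 2)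

private theorem FEvf_space {T : ℝ} {s : ℝ → E3 → ℝ}
    (hs : ContDiffOn ℝ ∞ (fun q : ℝ × E3 => s q.1 q.2) (Ioo 0 T ×ˢ {x | 0 < rsq x}))
    {t : ℝ} {x : E3} (ht : t ∈ Ioo 0 T) (hx : 0 < rsq x) (i : Fin 3) :
    pd i (s t) x = fderiv ℝ (fun q : ℝ × E3 => s q.1 q.2) (t, x) (0, e i) := by
  have hc : ContDiffAt ℝ ∞ (fun q : ℝ × E3 => s q.1 q.2) (t, x) :=
    hs.contDiffAt (FEvf_open.mem_nhds ⟨ht, hx⟩)
  have h1 := (hc.differentiableAt (by simp)).hasFDerivAt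
  have h2 : HasFDerivAt (fun y : E3 => (t, y)) (ContinuousLinearMap.inr ℝ ℝ E3) x :=
    hasFDerivAt_prodMk_right t x
  have h3 : HasFDerivAt (s t) ((fderiv ℝ (fun q : ℝ × E3 => s q.1 q.2) (t, x)).comp
    (ContinuousLinearMap.inr ℝ ℝ E3)) x := HasFDerivAt.comp x h1 h2
  rw [pd, h3.fderiv]
  simp

private theorem FEvf_time {T : ℝ} {s : ℝ → E3 → ℝ}
    (hs : ContDiffOn ℝ ∞ (fun q : ℝ × E3 => s q.1 q.2) (Ioo 0 T ×ˢ {x | 0 < rsq x}))
    {t : ℝ} {x : E3} (ht : t ∈ Ioo 0 T) (hx : 0 < rsq x) :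
    deriv (fun r => s r x) t = fderiv ℝ (fun q : ℝ × E3 => s q.1 q.2) (t, x) (1, 0) := by
  have hc : ContDiffAt ℝ ∞ (fun q : ℝ × E3 => s q.1 q.2) (t, x) :=
    hs.contDiffAt (FEvf_open.mem_nhds ⟨ht, hx⟩)
  have h1 := (hc.differentiableAt (by simp)).hasFDerivAt
  exact (h1.comp_hasDerivAt t (Vort_line t x)).deriv

private theorem FEvf_joint {T : ℝ} {s : ℝ → E3 → ℝ}
    (hs : ContDiffOn ℝ ∞ (fun q : ℝ × E3 => s q.1 q.2) (Ioo 0 T ×ˢ {x | 0 < rsq x})) (i : Fin 3) :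
    ContDiffOn ℝ ∞ (fun q : ℝ × E3 => pd i (s q.1) q.2) (Ioo 0 T ×ˢ {x | 0 < rsq x}) := by
  have h1 : ContDiffOn ℝ ∞ (fderiv ℝ (fun q : ℝ × E3 => s q.1 q.2)) (Ioo 0 T ×ˢ {x | 0 < rsq x}) :=
    hs.fderiv_of_isOpen FEvf_open (m := ∞) (by norm_cast)
  have h2 : ContDiffOn ℝ ∞ (fun q : ℝ × E3 => fderiv ℝ (fun q : ℝ × E3 => s q.1 q.2) q (0, e i))
      (Ioo 0 T ×ˢ {x | 0 < rsq x}) := h1.clm_apply contDiffOn_const
  refine h2.congr ?_
  rintro ⟨t, x⟩ ⟨ht, hx⟩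
  exact FEvf_space hs ht hx i

/-- The time derivative, differentiated along the axis direction. -/
private theorem FEvf_mixed {T : ℝ} {s : ℝ → E3 → ℝ}
    (hs : ContDiffOn ℝ ∞ (fun q : ℝ × E3 => s q.1 q.2) (Ioo 0 T ×ˢ {x | 0 < rsq x}))
    {t : ℝ} {x : E3} (ht : t ∈ Ioo 0 T) (hx : 0 < rsq x) :
    HasDerivAt (fun τ : ℝ => deriv (fun r => s r (x + τ • e 2)) t)
      (deriv (fun r => pd 2 (s r) x) t) 0 := by
  set F : ℝ × E3 → ℝ := fun q => s q.1 q.2 with hF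
  have hc : ContDiffAt ℝ ∞ F (t, x) := hs.contDiffAt (FEvf_open.mem_nhds ⟨ht, hx⟩)
  have hc' : ContDiffAt ℝ ∞ (fderiv ℝ F) (t, x) := hc.fderiv_right (m := ∞) (by norm_cast)
  have hd : HasFDerivAt (fderiv ℝ F) (fderiv ℝ (fderiv ℝ F) (t, x)) (t, x) :=
    (hc'.differentiableAt (by simp)).hasFDerivAt
  have e1 : (fun τ : ℝ => deriv (fun r => s r (x + τ • e 2)) t) =
      fun τ : ℝ => fderiv ℝ F (t, x + τ • e 2) (1, 0) := by
    funext τ
    exact FEvf_time hs ht (by rw [FEvf_rsq]; exact hx)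
  have hp : HasDerivAt (fun τ : ℝ => ((t, x + τ • e 2) : ℝ × E3)) ((0 : ℝ), (e 2 : E3)) 0 :=
    (hasDerivAt_const (0 : ℝ) t).prodMk (FEvf_path x)
  have h0 : ((t, x + (0 : ℝ) • e 2) : ℝ × E3) = (t, x) := by simp
  have hd0 : HasFDerivAt (fderiv ℝ F) (fderiv ℝ (fderiv ℝ F) (t, x)) (t, x + (0 : ℝ) • e 2) := by
    rw [h0]; exact hd
  have h3 := hd0.comp_hasDerivAt (0 : ℝ) hp
  have h4 : HasDerivAt (fun τ : ℝ => fderiv ℝ F (t, x + τ • e 2) (1, 0))
      (fderiv ℝ (fderiv ℝ F) (t, x) (0, e 2) (1, 0)) 0 :=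
    (ContinuousLinearMap.apply ℝ ℝ ((1 : ℝ), (0 : E3))).hasFDerivAt.comp_hasDerivAt (0 : ℝ) h3
  have h6 := hd.comp_hasDerivAt t (Vort_line t x)
  have h7 : HasDerivAt (fun r : ℝ => fderiv ℝ F (r, x) (0, e 2))
      (fderiv ℝ (fderiv ℝ F) (t, x) (1, 0) (0, e 2)) t :=
    (ContinuousLinearMap.apply ℝ ℝ ((0 : ℝ), e 2)).hasFDerivAt.comp_hasDerivAt t h6
  have h8 : (fun r => pd 2 (s r) x) =ᶠ[𝓝 t] fun r => fderiv ℝ F (r, x) (0, e 2) := by
    filter_upwards [Ioo_mem_nhds ht.1 ht.2] with r hr using FEvf_space hs hr hx 2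
  rw [e1, (h7.congr_of_eventuallyEq h8).deriv]
  have h9 : fderiv ℝ (fderiv ℝ F) (t, x) (0, e 2) (1, 0) =
      fderiv ℝ (fderiv ℝ F) (t, x) (1, 0) (0, e 2) :=
    (hc.isSymmSndFDerivAt Vort_two_le) _ _
  rw [← h9]
  exact h4

private theorem FEvf_comps {v : E3 → E3} (hv : AxF v) {x : E3} (hx : 0 < rsq x) :
    v x 0 = x 0 * sW v x - x 1 * sV v x ∧ v x 1 = x 1 * sW v x + x 0 * sV v x := by
  have h1 : x 0 * v x 1 - x 1 * v x 0 = rsq x * sV v x := circ_eq hv x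
  have h2 : x 0 * v x 0 + x 1 * v x 1 = rsq x * sW v x := flux_eq hv x
  have hr : rsq x = x 0 ^ 2 + x 1 ^ 2 := rfl
  constructor
  · apply mul_left_cancel₀ hx.ne'
    rw [hr] at h1 h2 ⊢
    linear_combination x 0 * h2 - x 1 * h1
  · apply mul_left_cancel₀ hx.ne'
    rw [hr] at h1 h2 ⊢
    linear_combination x 1 * h2 + x 0 * h1

private theorem FEvf_GF {v : E3 → E3} (hv : AxF v) : GF v = fun x =>
    (- pd 2 (fun y => v y 2) x - 2 * sW v x) * pd 2 (sV v) x - pd 2 (sW v) x * curl v x 2 := by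
  funext x
  unfold GF
  rw [rdr_sV hv, rdr_sW hv, pd_comp hv.smooth]
  ring

private theorem FEvf_W {v : E3 → E3} (hv : ContDiff ℝ ∞ v) :
    pd 2 (sW v) = avk 1 (pd 2 (fun y => - pd 2 (fun z => v z 2) y)) := by
  have h1 : sW v = avk 1 (fun y => - pd 2 (fun z => v z 2) y) := by
    rw [← Bds1_div hv]
    rfl
  rw [h1]
  exact avk_pd_two (pd_smooth (Bds1_proj_smooth hv 2) 2).neg 1

private theorem FEvf_jcdW {T : ℝ} {u : ℝ → E3 → E3} {p : ℝ → E3 → ℝ} (h : IsAxisymNS T u p) :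
    JC T (fun t => pd 2 (sW (u t))) := by
  refine Bds2_JC_congr (g := fun t => avk 1 (pd 2 (fun y => - pd 2 (fun z => u t z 2) y)))
    (fun t ht x => congrFun (FEvf_W (h.slice ht)) x) (avk_JC ?_ 1)
  have h1 : (fun t => pd 2 (fun y => - pd 2 (fun z => u t z 2) y)) =
      fun t x => - pd 2 (pd 2 (fun z => u t z 2)) x := by
    funext t
    exact Bds1_pd_neg _ 2
  rw [h1]
  exact JC_comp (JS_JC (JS_pd (JS_pd (js_u h 2) 2) 2)) (H := fun s => - s) continuous_neg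

private theorem FEvf_eq {T : ℝ} {u : ℝ → E3 → E3} {p : ℝ → E3 → ℝ} (h : IsAxisymNS T u p) {t : ℝ}
    (ht : t ∈ Ioo 0 T) {x : E3} (hx : 0 < rsq x) :
    deriv (fun s => pd 2 (sV (u s)) x) t + adv (u t x) (pd 2 (sV (u t))) x =
      lap (pd 2 (sV (u t))) x + 2 / rsq x * rdr (pd 2 (sV (u t))) x + GF (u t) x := by
  have ht' : t ∈ Ico 0 T := ⟨ht.1.le, ht.2⟩
  have hax := axF_of h ht'
  have hv := h.slice ht'
  obtain ⟨sV', sW', -⟩ := svw_smooth h ht'
  set V := sV (u t) with hV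
  set W := sW (u t) with hW
  have hu : ∀ j : Fin 3, ContDiff ℝ ∞ (fun y => u t y j) := fun j => Bds1_proj_smooth hv j
  have hxτ : ∀ τ : ℝ, 0 < rsq (x + τ • e 2) := fun τ => by rw [FEvf_rsq]; exact hx
  -- derivatives along the line
  have dV := FEvf_line sV' x
  have dW := FEvf_line sW' x
  have dVi : ∀ i : Fin 3, HasDerivAt (fun τ : ℝ => pd i V (x + τ • e 2)) (pd i (pd 2 V) x) 0 := by
    intro i
    have h1 := FEvf_line (pd_smooth sV' i) x
    rw [Vort_comm sV' 2 i] at h1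
    exact h1
  have dVii : ∀ i : Fin 3, HasDerivAt (fun τ : ℝ => pd i (pd i V) (x + τ • e 2))
      (pd i (pd i (pd 2 V)) x) 0 := by
    intro i
    have h1 := FEvf_line (pd_smooth (pd_smooth sV' i) i) x
    rw [Vort_comm (pd_smooth sV' i) 2 i, Vort_comm sV' 2 i] at h1
    exact h1
  have dui : ∀ i : Fin 3, HasDerivAt (fun τ : ℝ => u t (x + τ • e 2) i)
      (pd 2 (fun y => u t y i) x) 0 := fun i => FEvf_line (hu i) x
  have dD := FEvf_mixed (s := fun r => sV (u r)) (jointV h) ht hx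
  -- the identity along the line
  have hid : ∀ τ : ℝ, deriv (fun s => sV (u s) (x + τ • e 2)) t +
      ∑ i, u t (x + τ • e 2) i * pd i V (x + τ • e 2) =
      (∑ i, pd i (pd i V) (x + τ • e 2)) + 2 / rsq x *
        (x 0 * pd 0 V (x + τ • e 2) + x 1 * pd 1 V (x + τ • e 2)) +
        -2 * W (x + τ • e 2) * V (x + τ • e 2) := by
    intro τ
    have h1 := V_eq h ht (x + τ • e 2) (hxτ τ)
    unfold adv lap rdr at h1
    obtain ⟨k0, k1⟩ := FEvf_coord x τ
    rw [FEvf_rsq, k0, k1] at h1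
    exact h1
  have dL : HasDerivAt (fun τ : ℝ => deriv (fun s => sV (u s) (x + τ • e 2)) t +
      ∑ i, u t (x + τ • e 2) i * pd i V (x + τ • e 2)) _ 0 :=
    dD.add (HasDerivAt.fun_sum (u := Finset.univ) (fun (i : Fin 3) _ => (dui i).mul (dVi i)))
  have dR : HasDerivAt (fun τ : ℝ => (∑ i, pd i (pd i V) (x + τ • e 2)) + 2 / rsq x *
        (x 0 * pd 0 V (x + τ • e 2) + x 1 * pd 1 V (x + τ • e 2)) +
        -2 * W (x + τ • e 2) * V (x + τ • e 2)) _ 0 :=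
    ((HasDerivAt.fun_sum (u := Finset.univ) (fun (i : Fin 3) _ => dVii i)).add
      ((((dVi 0).const_mul (x 0)).add ((dVi 1).const_mul (x 1))).const_mul (2 / rsq x))).add
      ((dW.const_mul (-2)).mul dV)
  have hun := dL.unique (dR.congr_of_eventuallyEq (Filter.Eventually.of_forall hid))
  -- the components of the velocity
  have c0 : pd 2 (fun y => u t y 0) x = x 0 * pd 2 W x - x 1 * pd 2 V x := by
    have h1 : HasDerivAt (fun τ : ℝ => u t (x + τ • e 2) 0) (x 0 * pd 2 W x - x 1 * pd 2 V x) 0 := by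
      have h2 := (dW.const_mul (x 0)).sub (dV.const_mul (x 1))
      refine h2.congr_of_eventuallyEq (Filter.Eventually.of_forall fun τ => ?_)
      obtain ⟨k0, k1⟩ := FEvf_coord x τ
      have h3 := (FEvf_comps hax (hxτ τ)).1
      rw [k0, k1] at h3
      exact h3
    exact (dui 0).unique h1
  have c1 : pd 2 (fun y => u t y 1) x = x 1 * pd 2 W x + x 0 * pd 2 V x := by
    have h1 : HasDerivAt (fun τ : ℝ => u t (x + τ • e 2) 1) (x 1 * pd 2 W x + x 0 * pd 2 V x) 0 := by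
      have h2 := (dW.const_mul (x 1)).add (dV.const_mul (x 0))
      refine h2.congr_of_eventuallyEq (Filter.Eventually.of_forall fun τ => ?_)
      obtain ⟨k0, k1⟩ := FEvf_coord x τ
      have h3 := (FEvf_comps hax (hxτ τ)).2
      rw [k0, k1] at h3
      exact h3
    exact (dui 1).unique h1
  have c2 : pd 2 (fun y => u t y 2) x = - rdr W x - 2 * W x := by
    have h1 := rdr_sW hax x
    rw [← pd_comp hv] at h1
    rw [← hW] at h1
    linarith
  have hrot : x 0 * pd 1 V x - x 1 * pd 0 V x = 0 :=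
    rot_id sV' (fun θ y => sV_rot hax θ y) x
  have h0 : x + (0 : ℝ) • e 2 = x := by simp
  unfold GF adv lap
  rw [← hV, ← hW]
  simp only [Fin.sum_univ_three, h0, c0, c1, c2] at hun ⊢
  have hrV : rdr V x = x 0 * pd 0 V x + x 1 * pd 1 V x := rfl
  have hrV2 : rdr (pd 2 V) x = x 0 * pd 0 (pd 2 V) x + x 1 * pd 1 (pd 2 V) x := rfl
  rw [hrV, hrV2]
  linear_combination hun - pd 2 V x * hrot

theorem evo_f {T : ℝ} {u : ℝ → E3 → E3} {p : ℝ → E3 → ℝ} (h : IsHInfAxisymNS T u p) :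
    Evo T u (fun t => pd 2 (sV (u t))) (fun t => GF (u t)) := by
  have hns := h.ns
  refine ⟨fun t ht => pd_smooth (svw_smooth hns ht).1 2, FEvf_joint (s := fun r => sV (u r)) (jointV hns) 2, jcdV hns 2,
    fun i => ?_, ?_, ?_, fun t ht x hx => FEvf_eq hns ht hx⟩
  · by_cases hi : i = 2
    · subst hi
      refine Bds2_JC_congr (g := fun t => avk 1 (pd 2 (pd 2 (fun y => curl (u t) y 2))))
        (fun t ht x => ?_) (avk_JC (JS_JC (JS_pd (JS_pd (js_curl hns 2) 2) 2)) 1)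
      have hc := Bds1_proj_smooth (curl_smooth (hns.slice ht)) 2
      have h1 : pd 2 (sV (u t)) = avk 1 (pd 2 (fun y => curl (u t) y 2)) := avk_pd_two hc 1
      rw [h1]
      exact congrFun (avk_pd_two (pd_smooth hc 2) 1) x
    · refine Bds2_JC_congr (g := fun t => avk 2 (pd i (pd 2 (fun y => curl (u t) y 2))))
        (fun t ht x => ?_) (avk_JC (JS_JC (JS_pd (JS_pd (js_curl hns 2) 2) i)) 2)
      have hc := Bds1_proj_smooth (curl_smooth (hns.slice ht)) 2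
      have h1 : pd 2 (sV (u t)) = avk 1 (pd 2 (fun y => curl (u t) y 2)) := avk_pd_two hc 1
      rw [h1]
      exact congrFun (avk_pd_hor (pd_smooth hc 2) 1 hi) x
  · have j1 : JC T (fun t x => - pd 2 (fun y => u t y 2) x + -2 * sW (u t) x) :=
      JC_add (JC_comp (JS_JC (JS_pd (js_u hns 2) 2)) (H := fun s => - s) continuous_neg)
        (JC_comp (jcW hns) (H := fun s => -2 * s) (continuous_const.mul continuous_id))
    have j2 := JC_mul j1 (jcdV hns 2)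
    have j3 := JC_mul (FEvf_jcdW hns) (JS_JC (js_curl hns 2))
    have j4 := JC_add j2 (JC_comp j3 (H := fun s => - s) continuous_neg)
    refine Bds2_JC_congr (fun t ht x => ?_) j4
    rw [FEvf_GF (axF_of hns ht)]
    ring
  · intro T' hT'
    obtain ⟨K, hK⟩ := svwDB h hT'
    obtain ⟨K1, hK1⟩ := uDB h hT'
    obtain ⟨K2, hK2⟩ := curlDB h hT'
    set M := max K (max K1 K2) with hM
    have mK : K ≤ M := le_max_left _ _
    have mK1 : K1 ≤ M := (le_max_left _ _).trans (le_max_right _ _)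
    have mK2 : K2 ≤ M := (le_max_right _ _).trans (le_max_right _ _)
    refine ⟨max M (6 * (3 * M * M + (3 * M) ^ 2 * M)), fun t ht => ?_⟩
    have ht' : t ∈ Ico 0 T := ⟨ht.1, lt_of_le_of_lt ht.2 hT'⟩
    obtain ⟨hVb, hWb, -⟩ := hK t ht
    obtain ⟨sV', sW', -⟩ := svw_smooth hns ht'
    have hv := hns.slice ht'
    have hu2 := Bds1_proj_smooth hv 2
    have hc2 := Bds1_proj_smooth (curl_smooth hv) 2
    have hM0 : 0 ≤ M := (BL_nonneg (DB_BL hVb)).trans mK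
    refine ⟨DB_mono (DB_pd hVb 2) le_rfl (mK.trans (le_max_left _ _)), ?_⟩
    rw [FEvf_GF (axF_of hns ht')]
    have a1 : BL (3 * M * M + (3 * M) ^ 2 * M)
        (fun x => (- pd 2 (fun y => u t y 2) x - 2 * sW (u t) x) * pd 2 (sV (u t)) x) := by
      refine mul_BL (pd_smooth sV' 2).continuous
        ((pd_smooth hu2 2).continuous.neg.sub (continuous_const.mul sW'.continuous))
        (BL_mono (DB_BL (DB_pd hVb 2)) mK) fun x => ?_
      have b1 : |pd 2 (fun y => u t y 2) x| ≤ M := ((DB_BL (DB_pd (hK1 t ht 2) 2)).1 x).trans mK1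
      have b2 : |sW (u t) x| ≤ M := ((DB_BL hWb).1 x).trans mK
      rw [abs_le] at b1 b2 ⊢
      constructor <;> linarith [b1.1, b1.2, b2.1, b2.2]
    have a2 : BL (3 * M * M + (3 * M) ^ 2 * M)
        (fun x => pd 2 (sW (u t)) x * curl (u t) x 2) := by
      refine mul_BL hc2.continuous (pd_smooth sW' 2).continuous
        (BL_mono (DB_BL (hK2 t ht 2).1) mK2) fun x => ?_
      have b1 : |pd 2 (sW (u t)) x| ≤ M := ((DB_BL (DB_pd hWb 2)).1 x).trans mK
      linarith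
    refine BL_mono (Bds1_sub_BL ?_ ?_ a1 a2) (le_max_right _ _)
    · exact (((pd_smooth hu2 2).continuous.neg.sub (continuous_const.mul sW'.continuous))).mul
        (pd_smooth sV' 2).continuous
    · exact (pd_smooth sW' 2).continuous.mul hc2.continuous

end Pool.Agent.H87.NS
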