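/-
ROW FIbp. PROOF. `f = pd 2 V`, `Y = f V (rdr W e₂ - pd 2 W (x₀, x₁, 0))`: `div Y = f (pd 2 V rdr W - pd 2 W rdr V - 2 V pd 2 W) + V (pd 2 f rdr W - pd 2 W rdr f) = f GF v + V (rdr W pd 2 f - pd 2 W rdr f)`
(the second derivatives of `W` cancel), and `∫ div Y = 0` (`Y` and `div Y` integrable: `|Y| ≤` products of two `BL` functions and a bounded one; use `rdr W = - ∂₂ v₂ - 2 W` bounded; for the horizontal component use
cut-offs, or write `x_i V = ± v_j ...`; it may be convenient to multiply by a cut-off `φ_n(x) = φ(x/n)` with `‖x‖ |∇φ_n| ≤ C`, and dominated convergence).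
Pointwise: `|rdr W pd 2 f - pd 2 W rdr f|² ≤ ((rdr W)² + rsq (pd 2 W)²)((pd 2 f)² + (rdr f)²/rsq) ≤ rsq gsq W gsq f` (Cauchy-Schwarz twice; `(rdr W)² ≤ rsq ((pd 0 W)² + (pd 1 W)²)`), so
`2 |V| |rdr W pd 2 f - pd 2 W rdr f| ≤ gsq f + V² rsq gsq W`.
f_int: `V² rsq = ‖(v_0, v_1)‖² - rsq W²  ≤ ‖v‖²` is bounded, `gsq W` integrable.
f_energy: ev1 for evo_f with `j = s²` (pow_jfun 1), `deriv j f G = 2 f GF`, `deriv (deriv j) = 2`, and f_ibp at each time. O_energy: ev1 for `F.evO`, `j = s²`: `2 Om (2 V pd 2 V)`.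
-/
import Pool.Agent.H87.NB.FEvf
import Pool.Agent.H87.NS.StepV4

set_option autoImplicit false

open Set Filter Topology MeasureTheory
open scoped ContDiff

namespace Pool.Agent.H87.NS

open Pool.Agent.H16

variable {T : ℝ} {u : ℝ → E3 → E3} {p : ℝ → E3 → ℝ}

theorem FIbp_rsq_nonneg (x : E3) : 0 ≤ rsq x := by
  unfold rsq
  positivity

theorem FIbp_V {v : E3 → E3} (hv : AxF v) (x : E3) : sV v x ^ 2 * rsq x ≤ v x 0 ^ 2 + v x 1 ^ 2 := by
  rcases (FIbp_rsq_nonneg x).eq_or_lt with h | h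
  · rw [← h, mul_zero]
    positivity
  · have h1 : circ v x ^ 2 ≤ rsq x * (v x 0 ^ 2 + v x 1 ^ 2) := by
      have h2 : rsq x * (v x 0 ^ 2 + v x 1 ^ 2) - circ v x ^ 2 = radFlux v x ^ 2 := by
        unfold circ radFlux rsq
        ring
      nlinarith [sq_nonneg (radFlux v x)]
    rw [circ_eq hv] at h1
    have h3 : rsq x * (sV v x ^ 2 * rsq x) ≤ rsq x * (v x 0 ^ 2 + v x 1 ^ 2) := by
      refine le_trans (le_of_eq ?_) h1
      ring
    exact le_of_mul_le_mul_left h3 h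

theorem FIbp_norm (w : E3) : w 0 ^ 2 + w 1 ^ 2 ≤ ‖w‖ ^ 2 := by
  rw [EuclideanSpace.norm_sq_eq, Fin.sum_univ_three]
  simp only [Real.norm_eq_abs, sq_abs]
  nlinarith [sq_nonneg (w 2)]

theorem FIbp_gsq_cont {V : E3 → ℝ} (hV : ContDiff ℝ ∞ V) : Continuous (gsq V) := by
  unfold gsq
  exact continuous_finsetSum _ fun i _ => (pd_smooth hV i).continuous.pow 2

theorem FIbp_rsq_cont : Continuous (rsq : E3 → ℝ) := LevX_rsq_cd.continuous

theorem FIbp_jcdW (h : IsAxisymNS T u p) (i : Fin 3) : JC T (fun t => pd i (sW (u t))) := by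
  have hW : ∀ t ∈ Ico 0 T, sW (u t) = avk 1 (fun y => - pd 2 (fun z => u t z 2) y) := by
    intro t ht
    rw [← Bds1_div (h.slice ht)]
    rfl
  have hn : ∀ t ∈ Ico 0 T, ∀ x, pd i (fun y => - pd 2 (fun z => u t z 2) y) x =
      - pd i (pd 2 (fun z => u t z 2)) x := fun t ht x => congrFun (Bds1_pd_neg _ i) x
  have hJ : JC T (fun t => pd i (fun y => - pd 2 (fun z => u t z 2) y)) := by
    refine Bds2_JC_congr (g := fun t x => - pd i (pd 2 (fun z => u t z 2)) x) (fun t ht x => hn t ht x) ?_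
    exact JC_comp (JS_JC (JS_pd (JS_pd (js_u h 2) 2) i)) (H := fun s => - s) continuous_neg
  by_cases hi : i = 2
  · subst hi
    refine Bds2_JC_congr (g := fun t => avk 1 (pd 2 (fun y => - pd 2 (fun z => u t z 2) y)))
      (fun t ht x => ?_) (avk_JC hJ 1)
    rw [hW t ht]
    exact congrFun (avk_pd_two (pd_smooth (Bds1_proj_smooth (h.slice ht) 2) 2).neg 1) x
  · refine Bds2_JC_congr (g := fun t => avk 2 (pd i (fun y => - pd 2 (fun z => u t z 2) y)))
      (fun t ht x => ?_) (avk_JC hJ 2)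
    rw [hW t ht]
    exact congrFun (avk_pd_hor (pd_smooth (Bds1_proj_smooth (h.slice ht) 2) 2).neg 1 hi) x

theorem FIbp_jcgW (h : IsAxisymNS T u p) : JC T (fun t => gsq (sW (u t))) := by
  have h0 : ∀ i : Fin 3, JC T (fun t x => pd i (sW (u t)) x * pd i (sW (u t)) x) :=
    fun i => JC_mul (FIbp_jcdW h i) (FIbp_jcdW h i)
  have h1 := JC_add (JC_add (h0 0) (h0 1)) (h0 2)
  have h2 : (fun t => gsq (sW (u t))) = fun t x => pd 0 (sW (u t)) x * pd 0 (sW (u t)) x +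
      pd 1 (sW (u t)) x * pd 1 (sW (u t)) x + pd 2 (sW (u t)) x * pd 2 (sW (u t)) x := by
    funext t x
    simp only [gsq, Fin.sum_univ_three, pow_two]
  rw [h2]
  exact h1

theorem FIbp_i3 {K K' K'' : ℝ} {f g w : E3 → ℝ} (hf : Continuous f) (hg : Continuous g)
    (hw : Continuous w) (h : BL K f) (h' : BL K' g) (h'' : ∀ x, |w x| ≤ K'') :
    Integrable (fun x => w x * f x * g x) :=
  BL_mul (hw.mul hf) hg (mul_BL hf hw h h'') h'

theorem FIbp_hor {F : E3 → ℝ} (hF : ContDiff ℝ ∞ F) (hr : RotI F) (x : E3) {i : Fin 3} (hi : i ≠ 2) :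
    |x i * pd i F x| ≤ |rdr F x| := by
  have h1 := rot_id hF hr x
  rcases (FIbp_rsq_nonneg x).eq_or_lt with h | h
  · have h2 : x 0 ^ 2 + x 1 ^ 2 = 0 := h.symm
    have h3 : x 0 = 0 := by nlinarith [sq_nonneg (x 0), sq_nonneg (x 1)]
    have h4 : x 1 = 0 := by nlinarith [sq_nonneg (x 0), sq_nonneg (x 1)]
    have h5 : x i = 0 := by
      fin_cases i
      · exact h3
      · exact h4
      · exact absurd rfl hi
    rw [h5, zero_mul, abs_zero]
    exact abs_nonneg _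
  · have h2 : rsq x * (x i * pd i F x) = x i ^ 2 * rdr F x := by
      unfold rsq rdr
      fin_cases i
      · show (x 0 ^ 2 + x 1 ^ 2) * (x 0 * pd 0 F x) = x 0 ^ 2 * (x 0 * pd 0 F x + x 1 * pd 1 F x)
        linear_combination (- (x 0 * x 1)) * h1
      · show (x 0 ^ 2 + x 1 ^ 2) * (x 1 * pd 1 F x) = x 1 ^ 2 * (x 0 * pd 0 F x + x 1 * pd 1 F x)
        linear_combination (x 0 * x 1) * h1
      · exact absurd rfl hi
    have h3 : x i ^ 2 ≤ rsq x := by
      unfold rsq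
      fin_cases i
      · show x 0 ^ 2 ≤ x 0 ^ 2 + x 1 ^ 2
        nlinarith [sq_nonneg (x 1)]
      · show x 1 ^ 2 ≤ x 0 ^ 2 + x 1 ^ 2
        nlinarith [sq_nonneg (x 0)]
      · exact absurd rfl hi
    have h4 : rsq x * |x i * pd i F x| = x i ^ 2 * |rdr F x| := by
      rw [← abs_of_pos h, ← abs_mul, h2, abs_mul, abs_of_nonneg (sq_nonneg (x i))]
    have h5 : rsq x * |x i * pd i F x| ≤ rsq x * |rdr F x| := by
      rw [h4]
      exact mul_le_mul_of_nonneg_right h3 (abs_nonneg _)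
    exact le_of_mul_le_mul_left h5 h

theorem FIbp_xV {v : E3 → E3} (hv : AxF v) {K : ℝ} (hK : ∀ x, ‖v x‖ ≤ K) (x : E3) {i : Fin 3}
    (hi : i ≠ 2) : |x i * sV v x| ≤ K := by
  have h0 : 0 ≤ K := (norm_nonneg _).trans (hK x)
  have h1 := FIbp_V hv x
  have h2 := FIbp_norm (v x)
  have h3 : ‖v x‖ ^ 2 ≤ K ^ 2 := pow_le_pow_left₀ (norm_nonneg _) (hK x) 2
  have h4 : x i ^ 2 ≤ rsq x := by
    unfold rsq
    fin_cases i
    · show x 0 ^ 2 ≤ x 0 ^ 2 + x 1 ^ 2
      nlinarith [sq_nonneg (x 1)]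
    · show x 1 ^ 2 ≤ x 0 ^ 2 + x 1 ^ 2
      nlinarith [sq_nonneg (x 0)]
    · exact absurd rfl hi
  have h5 := mul_le_mul_of_nonneg_left h4 (sq_nonneg (sV v x))
  refine abs_le_of_sq_le_sq ?_ h0
  rw [mul_pow]
  linarith

theorem FIbp_pt (x0 x1 V w0 w1 c f0 f1 d : ℝ) :
    2 * -(V * (d * (x0 * w0 + x1 * w1) - c * (x0 * f0 + x1 * f1))) ≤
      (f0 ^ 2 + f1 ^ 2 + d ^ 2) + V ^ 2 * (x0 ^ 2 + x1 ^ 2) * (w0 ^ 2 + w1 ^ 2 + c ^ 2) := by
  have h : (f0 ^ 2 + f1 ^ 2 + d ^ 2) + V ^ 2 * (x0 ^ 2 + x1 ^ 2) * (w0 ^ 2 + w1 ^ 2 + c ^ 2) -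
      2 * -(V * (d * (x0 * w0 + x1 * w1) - c * (x0 * f0 + x1 * f1))) =
      (f0 - V * c * x0) ^ 2 + (f1 - V * c * x1) ^ 2 + (d + V * (x0 * w0 + x1 * w1)) ^ 2 +
        (V * (x0 * w1 - x1 * w0)) ^ 2 := by ring
  have h1 := sq_nonneg (f0 - V * c * x0)
  have h2 := sq_nonneg (f1 - V * c * x1)
  have h3 := sq_nonneg (d + V * (x0 * w0 + x1 * w1))
  have h4 := sq_nonneg (V * (x0 * w1 - x1 * w0))
  linarith

/-- data of one time slice -/
structure FIbp_D (v : E3 → E3) (K : ℝ) : Prop where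
  ax : AxF v
  sv : ContDiff ℝ ∞ (sV v)
  sw : ContDiff ℝ ∞ (sW v)
  dv : DB 2 K (sV v)
  dw : DB 2 K (sW v)
  du : DB 4 K (fun x => v x 2)
  dc : DB 3 K (fun x => curl v x 2)
  bd : ∀ x, ‖v x‖ ≤ K

theorem FIbp_data (h : IsHInfAxisymNS T u p) {b : ℝ} (hb : b < T) :
    ∃ K : ℝ, 0 ≤ K ∧ ∀ t ∈ Icc 0 b, FIbp_D (u t) K := by
  obtain ⟨K1, hK1⟩ := uDB h hb
  obtain ⟨K2, hK2⟩ := curlDB h hb
  obtain ⟨K3, hK3⟩ := svwDB h hb
  obtain ⟨K4, hK4⟩ := (drift_of h.ns).bd b hb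
  have hm1 : K1 ≤ max (max K1 K2) (max (max K3 K4) 0) := (le_max_left _ _).trans (le_max_left _ _)
  have hm2 : K2 ≤ max (max K1 K2) (max (max K3 K4) 0) := (le_max_right _ _).trans (le_max_left _ _)
  have hm3 : K3 ≤ max (max K1 K2) (max (max K3 K4) 0) :=
    ((le_max_left _ _).trans (le_max_left _ _)).trans (le_max_right _ _)
  have hm4 : K4 ≤ max (max K1 K2) (max (max K3 K4) 0) :=
    ((le_max_right _ _).trans (le_max_left _ _)).trans (le_max_right _ _)
  refine ⟨max (max K1 K2) (max (max K3 K4) 0), (le_max_right _ _).trans (le_max_right _ _),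
    fun t ht => ?_⟩
  have ht' : t ∈ Ico 0 T := ⟨ht.1, lt_of_le_of_lt ht.2 hb⟩
  obtain ⟨hs1, hs2, -⟩ := svw_smooth h.ns ht'
  exact ⟨axF_of h.ns ht', hs1, hs2, DB_mono (hK3 t ht).1 le_rfl hm3, DB_mono (hK3 t ht).2.1 le_rfl hm3,
    DB_mono (hK1 t ht 2) le_rfl hm1, DB_mono (hK2 t ht 2).1 le_rfl hm2,
    fun x => (hK4 t ht x).trans hm4⟩

theorem FIbp_int {v : E3 → E3} {K : ℝ} (h : FIbp_D v K) :
    Integrable (fun x => sV v x ^ 2 * rsq x * gsq (sW v) x) ∧
    (∀ x, 0 ≤ sV v x ^ 2 * rsq x * gsq (sW v) x) ∧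
    ∫ x, sV v x ^ 2 * rsq x * gsq (sW v) x ≤ K ^ 2 * (3 * K) := by
  have h1 : DB 1 K (sW v) := DB_mono h.dw (by norm_num) le_rfl
  obtain ⟨h2, h3⟩ := gsq_int h1
  have h4 : ∀ x, sV v x ^ 2 * rsq x ≤ K ^ 2 := fun x =>
    ((FIbp_V h.ax x).trans (FIbp_norm (v x))).trans (pow_le_pow_left₀ (norm_nonneg _) (h.bd x) 2)
  have h5 : ∀ x, 0 ≤ sV v x ^ 2 * rsq x * gsq (sW v) x := fun x =>
    mul_nonneg (mul_nonneg (sq_nonneg _) (FIbp_rsq_nonneg x)) (gsq_nonneg _ _)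
  have h6 : ∀ x, sV v x ^ 2 * rsq x * gsq (sW v) x ≤ K ^ 2 * gsq (sW v) x := fun x =>
    mul_le_mul_of_nonneg_right (h4 x) (gsq_nonneg _ _)
  have hc : Continuous (fun x => sV v x ^ 2 * rsq x * gsq (sW v) x) :=
    ((h.sv.continuous.pow 2).mul FIbp_rsq_cont).mul (FIbp_gsq_cont h.sw)
  have h7 : Integrable (fun x => sV v x ^ 2 * rsq x * gsq (sW v) x) := by
    refine Integrable.mono' (h2.const_mul (K ^ 2)) hc.aestronglyMeasurable ?_
    refine Eventually.of_forall fun x => ?_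
    rw [Real.norm_eq_abs, abs_of_nonneg (h5 x)]
    exact h6 x
  refine ⟨h7, h5, ?_⟩
  have h8 := integral_mono h7 (h2.const_mul (K ^ 2)) h6
  rw [integral_const_mul] at h8
  exact h8.trans (mul_le_mul_of_nonneg_left h3 (sq_nonneg K))

theorem f_int (h : IsHInfAxisymNS T u p) {b : ℝ} (hb : b < T) : ∃ K : ℝ, ∀ t ∈ Icc 0 b,
    Integrable (fun x => sV (u t) x ^ 2 * rsq x * gsq (sW (u t)) x) ∧
    ∫ x, sV (u t) x ^ 2 * rsq x * gsq (sW (u t)) x ≤ K := by
  obtain ⟨K, hK0, hK⟩ := FIbp_data h hb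
  refine ⟨K ^ 2 * (3 * K), fun t ht => ?_⟩
  obtain ⟨h1, -, h3⟩ := FIbp_int (hK t ht)
  exact ⟨h1, h3⟩

theorem f_ii (h : IsHInfAxisymNS T u p) {a b : ℝ} (ha : 0 ≤ a) (hab : a ≤ b) (hb : b < T) :
    IntervalIntegrable (fun t => ∫ x, sV (u t) x ^ 2 * rsq x * gsq (sW (u t)) x) volume a b ∧
    IntervalIntegrable (fun t => ∫ x, gsq (pd 2 (sV (u t))) x) volume a b ∧
    IntervalIntegrable (fun t => ∫ x, |sV (u t) x| * |pd 2 (sV (u t)) x| * |sO (u t) x|) volume a b := by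
  obtain ⟨K, hK0, hK⟩ := FIbp_data h hb
  obtain ⟨K2, hK2⟩ := svwDB h hb
  refine ⟨?_, ?_, ?_⟩
  · refine ti_int (T := T) (K := K ^ 2 * (3 * K)) ?_ hb (fun t ht => ?_) ha hab
    · have h1 := JC_mul (JC_mul (JC_mul (jcV h.ns) (jcV h.ns)) (JC_const (T := T) FIbp_rsq_cont)) (FIbp_jcgW h.ns)
      refine Bds2_JC_congr (fun t ht x => ?_) h1
      ring
    · obtain ⟨h1, h2, h3⟩ := FIbp_int (hK t ht)
      refine ⟨h1, ?_⟩
      refine le_trans (le_of_eq ?_) h3
      exact integral_congr_ae (Eventually.of_forall fun x => abs_of_nonneg (h2 x))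
  · have hj : JFun (fun s : ℝ => s ^ (2 * 1)) := pow_jfun (m := 1) le_rfl
    obtain ⟨-, hi2, -⟩ := evo_ii (evo_f h) hj ha hab hb
    have e0 : ∀ s : ℝ, deriv (deriv (fun s : ℝ => s ^ (2 * 1))) s = 2 := by
      intro s
      rw [pow_deriv2]
      norm_num
    simp only [e0, integral_const_mul] at hi2
    have h5 := hi2.const_mul (1 / 2)
    refine h5.congr ?_
    intro t _
    simp only
    ring
  · refine ti_int (T := T) (K := K * (K + K2)) ?_ hb (fun t ht => ?_) ha hab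
    · exact JC_mul (JC_mul (JC_comp (jcV h.ns) (H := fun s => |s|) continuous_abs)
        (JC_comp (jcdV h.ns 2) (H := fun s => |s|) continuous_abs))
        (JC_comp (jcO h.ns) (H := fun s => |s|) continuous_abs)
    · have hD := hK t ht
      have ht' : t ∈ Ico 0 T := ⟨ht.1, lt_of_le_of_lt ht.2 hb⟩
      have h1 : BL K (pd 2 (sV (u t))) := DB_BL (DB_pd hD.dv 2)
      have h2 : BL K2 (sO (u t)) := DB_BL (hK2 t ht).2.2
      have hc1 := hD.sv.continuous
      have hc2 := (pd_smooth hD.sv 2).continuous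
      have hc3 := (svw_smooth h.ns ht').2.2.continuous
      have hi := FIbp_i3 (w := fun x => |sV (u t) x|) (f := fun x => |pd 2 (sV (u t)) x|)
        (g := fun x => |sO (u t) x|) (K := K) (K' := K2) (K'' := K) hc2.abs hc3.abs hc1.abs
        ⟨fun x => by rw [abs_abs]; exact h1.1 x, by simp only [sq_abs]; exact h1.2.1,
          by simp only [sq_abs]; exact h1.2.2⟩
        ⟨fun x => by rw [abs_abs]; exact h2.1 x, by simp only [sq_abs]; exact h2.2.1,
          by simp only [sq_abs]; exact h2.2.2⟩ (fun x => by rw [abs_abs]; exact (DB_BL hD.dv).1 x)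
      refine ⟨hi, ?_⟩
      have hb' : ∀ x, |(|sV (u t) x| * |pd 2 (sV (u t)) x| * |sO (u t) x|)| ≤
          K * (pd 2 (sV (u t)) x ^ 2 + sO (u t) x ^ 2) := by
        intro x
        rw [abs_mul, abs_mul, abs_abs, abs_abs, abs_abs, mul_assoc]
        have a1 : |pd 2 (sV (u t)) x| * |sO (u t) x| ≤ pd 2 (sV (u t)) x ^ 2 + sO (u t) x ^ 2 := by
          have b1 := sq_nonneg (|pd 2 (sV (u t)) x| - |sO (u t) x|)
          have b2 : 0 ≤ |pd 2 (sV (u t)) x| * |sO (u t) x| := by positivity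
          nlinarith [sq_abs (pd 2 (sV (u t)) x), sq_abs (sO (u t) x)]
        exact mul_le_mul ((DB_BL hD.dv).1 x) a1 (by positivity) hK0
      have h5 := integral_mono hi.abs ((h1.2.1.add h2.2.1).const_mul K) hb'
      refine h5.trans ?_
      rw [integral_const_mul]
      have h6 : ∫ x, (((fun x => pd 2 (sV (u t)) x ^ 2) + fun x => sO (u t) x ^ 2) : E3 → ℝ) x =
          (∫ x, pd 2 (sV (u t)) x ^ 2) + ∫ x, sO (u t) x ^ 2 := integral_add h1.2.1 h2.2.1
      rw [h6]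
      exact mul_le_mul_of_nonneg_left (add_le_add h1.2.2 h2.2.2) hK0

theorem FIbp_slice {v : E3 → E3} {K : ℝ} (h : FIbp_D v K) :
    ∫ x, pd 2 (sV v) x * GF v x =
      ∫ x, -(sV v x * (pd 2 (pd 2 (sV v)) x * rdr (sW v) x - pd 2 (sW v) x * rdr (pd 2 (sV v)) x)) ∧
    Integrable (fun x => -(sV v x * (pd 2 (pd 2 (sV v)) x * rdr (sW v) x -
      pd 2 (sW v) x * rdr (pd 2 (sV v)) x))) := by
  have hK0 : 0 ≤ K := BL_nonneg (DB_BL h.dv)
  -- smoothness
  have sV' := h.sv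
  have sW' := h.sw
  have sf : ContDiff ℝ ∞ (pd 2 (sV v)) := pd_smooth sV' 2
  have su : ContDiff ℝ ∞ (fun x => v x 2) := Bds1_proj_smooth h.ax.smooth 2
  have eR : rdr (sW v) = fun x => - pd 2 (fun y => v y 2) x - 2 * sW v x := by
    funext x
    rw [rdr_sW h.ax, pd_comp h.ax.smooth]
  have sR : ContDiff ℝ ∞ (rdr (sW v)) := by
    rw [eR]
    exact (pd_smooth su 2).neg.sub (contDiff_const.mul sW')
  have eRV : ∀ x, rdr (sV v) x = curl v x 2 - 2 * sV v x := rdr_sV h.ax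
  have hrV : RotI (sV v) := fun θ x => sV_rot h.ax θ x
  -- bounds
  have bV := DB_BL h.dv
  have bW := DB_BL h.dw
  have bf : BL K (pd 2 (sV v)) := DB_BL (DB_pd h.dv 2)
  have bdf : ∀ i, BL K (pd i (pd 2 (sV v))) := fun i => DB_pd (DB_pd h.dv 2) i
  have bcV : ∀ i, BL K (pd i (sV v)) := fun i => DB_BL (DB_pd h.dv i)
  have bcW : ∀ i, BL K (pd i (sW v)) := fun i => DB_BL (DB_pd h.dw i)
  have bcW2 : ∀ i, BL K (pd i (pd 2 (sW v))) := fun i => DB_pd (DB_pd h.dw 2) i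
  have bR : ∀ x, |rdr (sW v) x| ≤ 3 * K := by
    intro x
    rw [eR]
    have a1 := (DB_BL (DB_pd h.du 2)).1 x
    have a2 := bW.1 x
    rw [abs_le] at a1 a2 ⊢
    constructor <;> linarith [a1.1, a1.2, a2.1, a2.2]
  have bR2 : ∀ x, |pd 2 (rdr (sW v)) x| ≤ 3 * K := by
    intro x
    have e1 : pd 2 (rdr (sW v)) x = - pd 2 (pd 2 (fun y => v y 2)) x - 2 * pd 2 (sW v) x := by
      rw [eR]
      have d1 : DifferentiableAt ℝ (fun x => - pd 2 (fun y => v y 2) x) x :=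
        ((pd_smooth su 2).neg.differentiable (by simp)) x
      have d2 : DifferentiableAt ℝ (fun x => 2 * sW v x) x :=
        ((contDiff_const.mul sW').differentiable (by simp : (∞ : WithTop ℕ∞) ≠ 0)) x
      rw [LevX_pd_sub d1 d2 2, congrFun (Bds1_pd_neg _ 2) x]
      have e2 : pd 2 (fun x => 2 * sW v x) x = 2 * pd 2 (sW v) x := by
        have := comp_pd (f := sW v) (H := fun s => 2 * s) (sW'.of_le (by exact_mod_cast le_top))
          (contDiff_const.mul contDiff_id) 2 x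
        rw [this]
        simp
      rw [e2]
    rw [e1]
    have a1 := (DB_BL (DB_pd (DB_pd h.du 2) 2)).1 x
    have a2 := (bcW 2).1 x
    rw [abs_le] at a1 a2 ⊢
    constructor <;> linarith [a1.1, a1.2, a2.1, a2.2]
  have bRV : ∀ x, |rdr (sV v) x| ≤ 3 * K := by
    intro x
    rw [eRV]
    have a1 := (DB_BL h.dc).1 x
    have a2 := bV.1 x
    rw [abs_le] at a1 a2 ⊢
    constructor <;> linarith [a1.1, a1.2, a2.1, a2.2]
  have bxV : ∀ i : Fin 3, i ≠ 2 → ∀ x, |x i * sV v x| ≤ K := fun i hi x => FIbp_xV h.ax h.bd x hi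
  have bxdV : ∀ i : Fin 3, i ≠ 2 → ∀ x, |x i * pd i (sV v) x| ≤ 3 * K := fun i hi x =>
    (FIbp_hor sV' hrV x hi).trans (bRV x)
  -- continuity
  have cV := sV'.continuous
  have cf := sf.continuous
  have cR := sR.continuous
  have cdf : ∀ i, Continuous (pd i (pd 2 (sV v))) := fun i => (pd_smooth sf i).continuous
  have cdV : ∀ i, Continuous (pd i (sV v)) := fun i => (pd_smooth sV' i).continuous
  have cdW : ∀ i, Continuous (pd i (sW v)) := fun i => (pd_smooth sW' i).continuous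
  have cdW2 : ∀ i, Continuous (pd i (pd 2 (sW v))) := fun i =>
    (pd_smooth (pd_smooth sW' 2) i).continuous
  have cdR : Continuous (pd 2 (rdr (sW v))) := (pd_smooth sR 2).continuous
  have cx : ∀ i : Fin 3, Continuous (fun x : E3 => x i) := fun i => (LevX_coord_cd i).continuous
  have df : Differentiable ℝ (pd 2 (sV v)) := sf.differentiable (by simp)
  have dV : Differentiable ℝ (sV v) := sV'.differentiable (by simp)
  have dR : Differentiable ℝ (rdr (sW v)) := sR.differentiable (by simp)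
  have dW2 : Differentiable ℝ (pd 2 (sW v)) := (pd_smooth sW' 2).differentiable (by simp)
  have dx : ∀ i : Fin 3, Differentiable ℝ (fun x : E3 => x i) := fun i =>
    (LevX_coord_cd i).differentiable (by simp)
  -- vertical part
  have A : ∫ x, pd 2 (sV v) x * pd 2 (fun y => sV v y * rdr (sW v) y) x =
      - ∫ x, pd 2 (pd 2 (sV v)) x * (sV v x * rdr (sW v) x) := by
    have g1 : Integrable (fun x => pd 2 (pd 2 (sV v)) x * (sV v x * rdr (sW v) x)) := by
      refine (FIbp_i3 (cdf 2) cV cR (bdf 2) bV bR).congr (Eventually.of_forall fun x => ?_)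
      ring
    have g2 : Integrable (fun x => pd 2 (sV v) x * pd 2 (fun y => sV v y * rdr (sW v) y) x) := by
      have i1 := FIbp_i3 cf (cdV 2) cR bf (bcV 2) bR
      have i2 := FIbp_i3 cf cV cdR bf bV bR2
      refine (i1.add i2).congr (Eventually.of_forall fun x => ?_)
      simp only [Pi.add_apply]
      rw [LevX_pd_mul (dV x) (dR x) 2]
      ring
    have g3 : Integrable (fun x => pd 2 (sV v) x * (sV v x * rdr (sW v) x)) := by
      refine (FIbp_i3 cf cV cR bf bV bR).congr (Eventually.of_forall fun x => ?_)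
      ring
    exact integral_mul_fderiv_eq_neg_fderiv_mul_of_integrable (v := e 2) g1 g2 g3
      (fun x _ => df x) (fun x _ => (dV x).mul (dR x))
  have Aint1 : Integrable (fun x => pd 2 (sV v) x * pd 2 (fun y => sV v y * rdr (sW v) y) x) := by
    have i1 := FIbp_i3 cf (cdV 2) cR bf (bcV 2) bR
    have i2 := FIbp_i3 cf cV cdR bf bV bR2
    refine (i1.add i2).congr (Eventually.of_forall fun x => ?_)
    simp only [Pi.add_apply]
    rw [LevX_pd_mul (dV x) (dR x) 2]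
    ring
  have Aint2 : Integrable (fun x => pd 2 (pd 2 (sV v)) x * (sV v x * rdr (sW v) x)) := by
    refine (FIbp_i3 (cdf 2) cV cR (bdf 2) bV bR).congr (Eventually.of_forall fun x => ?_)
    ring
  -- horizontal parts
  have hpd : ∀ i : Fin 3, i ≠ 2 → ∀ x : E3, pd i (fun y => y i * sV v y * pd 2 (sW v) y) x =
      (sV v x + x i * pd i (sV v) x) * pd 2 (sW v) x + x i * sV v x * pd i (pd 2 (sW v)) x := by
    intro i hi x
    rw [LevX_pd_mul (f := fun y : E3 => y i * sV v y) ((dx i x).mul (dV x)) (dW2 x) i,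
      LevX_pd_mul (f := fun y : E3 => y i) (dx i x) (dV x) i, LevX_pd_coord, if_pos rfl, one_mul]
  have Bint1 : ∀ i : Fin 3, i ≠ 2 →
      Integrable (fun x => pd 2 (sV v) x * pd i (fun y => y i * sV v y * pd 2 (sW v) y) x) := by
    intro i hi
    have i1 := FIbp_i3 cf (cdW 2) cV bf (bcW 2) bV.1
    have i2 := FIbp_i3 (w := fun x => x i * pd i (sV v) x) cf (cdW 2) ((cx i).mul (cdV i)) bf (bcW 2) (bxdV i hi)
    have i3 := FIbp_i3 (w := fun x => x i * sV v x) cf (cdW2 i) ((cx i).mul cV) bf (bcW2 i) (bxV i hi)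
    refine ((i1.add i2).add i3).congr (Eventually.of_forall fun x => ?_)
    simp only [Pi.add_apply]
    rw [hpd i hi]
    ring
  have Bint2 : ∀ i : Fin 3, i ≠ 2 →
      Integrable (fun x => pd i (pd 2 (sV v)) x * (x i * sV v x * pd 2 (sW v) x)) := by
    intro i hi
    refine (FIbp_i3 (w := fun x => x i * sV v x) (cdf i) (cdW 2) ((cx i).mul cV) (bdf i) (bcW 2)
      (bxV i hi)).congr (Eventually.of_forall fun x => ?_)
    ring
  have B : ∀ i : Fin 3, i ≠ 2 →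
      ∫ x, pd 2 (sV v) x * pd i (fun y => y i * sV v y * pd 2 (sW v) y) x =
        - ∫ x, pd i (pd 2 (sV v)) x * (x i * sV v x * pd 2 (sW v) x) := by
    intro i hi
    have g3 : Integrable (fun x => pd 2 (sV v) x * (x i * sV v x * pd 2 (sW v) x)) := by
      refine (FIbp_i3 (w := fun x => x i * sV v x) cf (cdW 2) ((cx i).mul cV) bf (bcW 2)
        (bxV i hi)).congr (Eventually.of_forall fun x => ?_)
      ring
    exact integral_mul_fderiv_eq_neg_fderiv_mul_of_integrable (v := e i) (Bint2 i hi) (Bint1 i hi) g3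
      (fun x _ => df x) (fun x _ => ((dx i x).mul (dV x)).mul (dW2 x))
  have h02 : (0 : Fin 3) ≠ 2 := by decide
  have h12 : (1 : Fin 3) ≠ 2 := by decide
  -- the commutation
  have hcomm : ∀ x, pd 2 (rdr (sW v)) x = rdr (pd 2 (sW v)) x := by
    intro x
    have d0 : DifferentiableAt ℝ (fun y : E3 => y 0 * pd 0 (sW v) y) x :=
      (dx 0 x).mul (((pd_smooth sW' 0).differentiable (by simp)) x)
    have d1 : DifferentiableAt ℝ (fun y : E3 => y 1 * pd 1 (sW v) y) x :=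
      (dx 1 x).mul (((pd_smooth sW' 1).differentiable (by simp)) x)
    have e1 : rdr (sW v) = fun y => y 0 * pd 0 (sW v) y + y 1 * pd 1 (sW v) y := rfl
    rw [e1, LevX_pd_add d0 d1 2,
      LevX_pd_mul (dx 0 x) (((pd_smooth sW' 0).differentiable (by simp)) x) 2,
      LevX_pd_mul (dx 1 x) (((pd_smooth sW' 1).differentiable (by simp)) x) 2,
      LevX_pd_coord, LevX_pd_coord, if_neg h02, if_neg h12, Vort_comm sW' 2 0, Vort_comm sW' 2 1]
    unfold rdr
    ring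
  have hG : ∀ x, pd 2 (sV v) x * GF v x =
      pd 2 (sV v) x * pd 2 (fun y => sV v y * rdr (sW v) y) x -
      pd 2 (sV v) x * pd 0 (fun y => y 0 * sV v y * pd 2 (sW v) y) x -
      pd 2 (sV v) x * pd 1 (fun y => y 1 * sV v y * pd 2 (sW v) y) x := by
    intro x
    rw [hpd 0 h02, hpd 1 h12, LevX_pd_mul (dV x) (dR x) 2, hcomm]
    unfold GF rdr
    ring
  have hR : ∀ x, -(sV v x * (pd 2 (pd 2 (sV v)) x * rdr (sW v) x -
      pd 2 (sW v) x * rdr (pd 2 (sV v)) x)) =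
      -(pd 2 (pd 2 (sV v)) x * (sV v x * rdr (sW v) x)) +
      pd 0 (pd 2 (sV v)) x * (x 0 * sV v x * pd 2 (sW v) x) +
      pd 1 (pd 2 (sV v)) x * (x 1 * sV v x * pd 2 (sW v) x) := by
    intro x
    unfold rdr
    ring
  have k1 : Integrable (fun x => pd 2 (sV v) x * pd 2 (fun y => sV v y * rdr (sW v) y) x -
      pd 2 (sV v) x * pd 0 (fun y => y 0 * sV v y * pd 2 (sW v) y) x) := Aint1.sub (Bint1 0 h02)
  have k2 : Integrable (fun x => -(pd 2 (pd 2 (sV v)) x * (sV v x * rdr (sW v) x))) := Aint2.neg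
  have k3 : Integrable (fun x => -(pd 2 (pd 2 (sV v)) x * (sV v x * rdr (sW v) x)) +
      pd 0 (pd 2 (sV v)) x * (x 0 * sV v x * pd 2 (sW v) x)) := k2.add (Bint2 0 h02)
  have k4 : Integrable (fun x => -(pd 2 (pd 2 (sV v)) x * (sV v x * rdr (sW v) x)) +
      pd 0 (pd 2 (sV v)) x * (x 0 * sV v x * pd 2 (sW v) x) +
      pd 1 (pd 2 (sV v)) x * (x 1 * sV v x * pd 2 (sW v) x)) := k3.add (Bint2 1 h12)
  constructor
  · simp only [hG, hR]
    rw [integral_sub k1 (Bint1 1 h12), integral_sub Aint1 (Bint1 0 h02), integral_add k3 (Bint2 1 h12),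
      integral_add k2 (Bint2 0 h02), integral_neg, A, B 0 h02, B 1 h12]
    ring
  · simp only [hR]
    exact k4

theorem f_ibp (h : IsHInfAxisymNS T u p) {t : ℝ} (ht : t ∈ Ico 0 T) :
    2 * ∫ x, pd 2 (sV (u t)) x * GF (u t) x ≤
      (∫ x, gsq (pd 2 (sV (u t))) x) + ∫ x, sV (u t) x ^ 2 * rsq x * gsq (sW (u t)) x := by
  obtain ⟨K, hK0, hK⟩ := FIbp_data h (b := t) ht.2
  have hD := hK t ⟨ht.1, le_rfl⟩
  obtain ⟨h1, h2⟩ := FIbp_slice hD
  obtain ⟨h3, -, -⟩ := FIbp_int hD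
  have hf : DB 1 K (pd 2 (sV (u t))) := DB_pd hD.dv 2
  obtain ⟨h4, -⟩ := gsq_int hf
  rw [h1, ← integral_const_mul, ← integral_add h4 h3]
  refine integral_mono (h2.const_mul 2) (h4.add h3) fun x => ?_
  have h5 := FIbp_pt (x 0) (x 1) (sV (u t) x) (pd 0 (sW (u t)) x) (pd 1 (sW (u t)) x)
    (pd 2 (sW (u t)) x) (pd 0 (pd 2 (sV (u t))) x) (pd 1 (pd 2 (sV (u t))) x)
    (pd 2 (pd 2 (sV (u t))) x)
  simp only [gsq, Fin.sum_univ_three]
  exact h5

theorem f_energy (h : IsHInfAxisymNS T u p) {a b : ℝ} (ha : 0 ≤ a) (hab : a ≤ b) (hb : b < T) :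
    (∫ x, pd 2 (sV (u b)) x ^ 2) + (∫ t in a..b, ∫ x, gsq (pd 2 (sV (u t))) x) ≤
      (∫ x, pd 2 (sV (u a)) x ^ 2) + ∫ t in a..b, ∫ x, sV (u t) x ^ 2 * rsq x * gsq (sW (u t)) x := by
  have hj : JFun (fun s : ℝ => s ^ (2 * 1)) := pow_jfun (m := 1) le_rfl
  have h0 := ev1 (drift_of h.ns) (evo_f h) hj ha hab hb
  obtain ⟨-, hi2, hi3⟩ := evo_ii (evo_f h) hj ha hab hb
  obtain ⟨hi4, hg, -⟩ := f_ii h ha hab hb
  have e0 : ∀ s : ℝ, deriv (deriv (fun s : ℝ => s ^ (2 * 1))) s = 2 := by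
    intro s
    rw [pow_deriv2]
    norm_num
  have e1 : ∀ s : ℝ, deriv (fun s : ℝ => s ^ (2 * 1)) s = 2 * s := by
    intro s
    rw [pow_deriv]
    norm_num
  simp only [e0, e1] at h0 hi3
  simp only [integral_const_mul] at h0
  rw [intervalIntegral.integral_const_mul] at h0
  have e2 : (2 * 1 : ℕ) = 2 := by norm_num
  simp only [e2] at h0
  have hmono : ∫ t in a..b, ∫ x, 2 * pd 2 (sV (u t)) x * GF (u t) x ≤
      ∫ t in a..b, ((∫ x, gsq (pd 2 (sV (u t))) x) + ∫ x, sV (u t) x ^ 2 * rsq x * gsq (sW (u t)) x) := by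
    refine intervalIntegral.integral_mono_on hab hi3 (hg.add hi4) (fun t ht => ?_)
    have h5 := f_ibp h (t := t) ⟨ha.trans ht.1, ht.2.trans_lt hb⟩
    rw [← integral_const_mul] at h5
    refine le_trans (le_of_eq ?_) h5
    refine integral_congr_ae (Eventually.of_forall fun x => ?_)
    ring
  rw [intervalIntegral.integral_add hg hi4] at hmono
  linarith

theorem O_energy (h : IsHInfAxisymNS T u p) {a b : ℝ} (ha : 0 ≤ a) (hab : a ≤ b) (hb : b < T) :
    (∫ x, sO (u b) x ^ 2) + 2 * (∫ t in a..b, ∫ x, gsq (sO (u t)) x) ≤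
      (∫ x, sO (u a) x ^ 2) + 4 * ∫ t in a..b, ∫ x, |sV (u t) x| * |pd 2 (sV (u t)) x| * |sO (u t) x| := by
  have F := flow_of h
  have hj : JFun (fun s : ℝ => s ^ (2 * 1)) := pow_jfun (m := 1) le_rfl
  have h0 := ev1 F.drift F.evO hj ha hab hb
  obtain ⟨-, hi2, hi3⟩ := evo_ii F.evO hj ha hab hb
  obtain ⟨-, -, hi4⟩ := f_ii h ha hab hb
  have e0 : ∀ s : ℝ, deriv (deriv (fun s : ℝ => s ^ (2 * 1))) s = 2 := by
    intro s
    rw [pow_deriv2]
    norm_num
  have e1 : ∀ s : ℝ, deriv (fun s : ℝ => s ^ (2 * 1)) s = 2 * s := by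
    intro s
    rw [pow_deriv]
    norm_num
  simp only [e0, e1] at h0 hi3
  simp only [integral_const_mul] at h0
  rw [intervalIntegral.integral_const_mul] at h0
  have e2 : (2 * 1 : ℕ) = 2 := by norm_num
  simp only [e2] at h0
  have hmono : ∫ t in a..b, ∫ x, 2 * sO (u t) x * (2 * sV (u t) x * pd 2 (sV (u t)) x) ≤
      ∫ t in a..b, 4 * ∫ x, |sV (u t) x| * |pd 2 (sV (u t)) x| * |sO (u t) x| := by
    refine intervalIntegral.integral_mono_on hab hi3 (hi4.const_mul 4) (fun t ht => ?_)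
    have ht' : t ∈ Ico 0 T := ⟨ha.trans ht.1, ht.2.trans_lt hb⟩
    rw [← integral_const_mul]
    obtain ⟨-, -, g1⟩ := evo_int F.evO hj ht'
    simp only [e1] at g1
    refine integral_mono g1 ?_ fun x => ?_
    · refine (g1.abs.const_mul 1).congr (Eventually.of_forall fun x => ?_)
      simp only [abs_mul, abs_two]
      ring
    · have a1 := le_abs_self (2 * sO (u t) x * (2 * sV (u t) x * pd 2 (sV (u t)) x))
      refine a1.trans (le_of_eq ?_)
      simp only [abs_mul, abs_two]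
      ring
  rw [intervalIntegral.integral_const_mul] at hmono
  linarith

end Pool.Agent.H87.NS
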