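/-
ROW KEY. Hardy inequality with a gain and the key lemma. The proof below uses the explicit cut-off `KEY_u` and the field `g² (x₀,x₁,0) KEY_F(rsq)` instead of `η`. PROOF. hardy_delta: let `η(x) = smoothTransition((4 r₁² - rsq x)/(3 r₁²))` (`1` for `rad ≤ r₁`, `0` for `rad ≥ 2 r₁`, `|∇η| ≤ C₀/r₁`), `G = g η` (`DB 1`). For `κ > 0` let
`X = (x₀, x₁, 0) (rsq+κ)^(-1+δ/2)`: `div X = (rsq+κ)^(-2+δ/2) (2κ + δ rsq) ≥ δ (rsq+κ)^(-1+δ/2)` (`δ ≤ 2`). `δ ∫ G² (rsq+κ)^(-1+δ/2) ≤ ∫ G² div X = - 2 ∫ G ∇G·X ≤ 2 ∫ |G| |∇G| rsq^(1/2) (rsq+κ)^(-1+δ/2)`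
`≤ 2 √(∫ G² (rsq+κ)^(-1+δ/2)) √(∫ gsq G rsq^(δ/2))` (`rsq (rsq+κ)^(-1+δ/2) ≤ rsq^(δ/2)`). So `∫ G² (rsq+κ)^(-1+δ/2) ≤ (4/δ²) (2 r₁)^δ ∫ gsq G ≤ (4/δ²) 4 r₁^δ · 2 (∫ gsq g + C₀² r₁⁻² ∫ g²)`; `κ → 0`: Fatou.
(The integration by parts: for fixed `κ` the field `G² X` is `C¹`, integrable with integrable divergence; `rad ≤ 2 r₁` on its support.) On `rad < r₁`: `G = g`.
key: all integrals over `D = {rad x < r₁}`, as lintegrals of nonnegative functions: `h rsq⁻¹ g² = (h^n rad^(-s))^(1/n) (g² rad^(-2+δ))^(1 - 3/(2n)) (g⁶)^(1/(2n))` for `rad x > 0` with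
`δ = (s-3)/(n - 3/2) ∈ (0, 2]`: powers of `g`: `2 - 3/n + 3/n`, powers of `rad`: `-s/n + (-2+δ)(1 - 3/(2n)) = -2`. Hölder with three factors (`ENNReal.lintegral_prod_norm_pow_le`, exponents sum to `1`):
`≤ M₁^(1/n) (C δ⁻² r₁^δ Y)^(1-3/(2n)) ((∫ g⁶)^(1/3))^(3/(2n)) ≤ M₁^(1/n) C' r₁^((s-3)/n) Y`, `Y = ∫ gsq g + r₁⁻² ∫ g²` (SB_spec: `(∫ g⁶)^(1/3) ≤ SB ∫ gsq g ≤ SB Y`). Choose `r₁ < r₂` with
`(M₁+1)^(1/n) C' r₁^((s-3)/n) ≤ ν`, and the constant of `∫ g²` is `ν r₁⁻²`.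
-/
import Pool.Agent.H87.NS.Sob
import Pool.Agent.H87.NS.IBP
import Pool.Agent.H87.NS.S1
import Pool.Agent.H87.NS.LevX

set_option autoImplicit false

open Set Filter Topology MeasureTheory
open scoped ContDiff

namespace Pool.Agent.H87.NS

open Pool.Agent.H16

/-! ### the profile -/

theorem KEY_T (t : ℝ) : HasDerivAt (fun t : ℝ => (max t 0) ^ 2) (2 * max t 0) t := by
  rcases lt_trichotomy t 0 with h | h | h
  · have h1 : (fun t : ℝ => (max t 0) ^ 2) =ᶠ[𝓝 t] fun _ => (0 : ℝ) := by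
      filter_upwards [Iio_mem_nhds h] with y hy
      rw [max_eq_right (le_of_lt hy)]
      norm_num
    rw [max_eq_right h.le, mul_zero]
    exact (hasDerivAt_const t (0 : ℝ)).congr_of_eventuallyEq h1
  · subst h
    rw [max_self, mul_zero, hasDerivAt_iff_isLittleO_nhds_zero]
    have h1 : (fun h : ℝ => (max (0 + h) 0) ^ 2 - (max (0 : ℝ) 0) ^ 2 - h • (0 : ℝ)) =O[𝓝 0] fun h : ℝ => h ^ 2 := by
      refine Asymptotics.IsBigO.of_bound 1 (Eventually.of_forall fun y => ?_)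
      simp only [zero_add, max_self, smul_eq_mul, mul_zero, sub_zero, Real.norm_eq_abs, one_mul,
        ne_eq, OfNat.ofNat_ne_zero, not_false_eq_true, zero_pow]
      rw [abs_of_nonneg (sq_nonneg _), abs_of_nonneg (sq_nonneg _)]
      rcases le_total y 0 with hy | hy
      · rw [max_eq_right hy]
        nlinarith [sq_nonneg y]
      · rw [max_eq_left hy]
    refine h1.trans_isLittleO ?_
    simpa using Asymptotics.isLittleO_pow_id (𝕜 := ℝ) (n := 2) (by norm_num)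
  · have h1 : (fun t : ℝ => (max t 0) ^ 2) =ᶠ[𝓝 t] fun t => t ^ 2 := by
      filter_upwards [Ioi_mem_nhds h] with y hy
      rw [max_eq_left (le_of_lt hy)]
    rw [max_eq_left h.le]
    simpa using (hasDerivAt_pow 2 t).congr_of_eventuallyEq h1

/-- the cut-off -/
noncomputable def KEY_u (A ρ : ℝ) : ℝ := max (1 - ρ / (4 * A)) 0

/-- the profile of the vector field -/
noncomputable def KEY_F (δ κ A ρ : ℝ) : ℝ := (ρ + κ) ^ (-1 + δ / 2) * KEY_u A ρ ^ 2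

/-- its derivative -/
noncomputable def KEY_D (δ κ A ρ : ℝ) : ℝ :=
  (-1 + δ / 2) * (ρ + κ) ^ (-1 + δ / 2 - 1) * KEY_u A ρ ^ 2 + (ρ + κ) ^ (-1 + δ / 2) * (-(KEY_u A ρ / (2 * A)))

theorem KEY_u_nonneg (A ρ : ℝ) : 0 ≤ KEY_u A ρ := le_max_right _ _

theorem KEY_u_le {A ρ : ℝ} (hA : 0 < A) (hρ : 0 ≤ ρ) : KEY_u A ρ ≤ 1 := by
  unfold KEY_u
  refine max_le ?_ zero_le_one
  have : 0 ≤ ρ / (4 * A) := by positivity
  linarith

theorem KEY_u_zero {A ρ : ℝ} (hA : 0 < A) (hρ : 4 * A ≤ ρ) : KEY_u A ρ = 0 := by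
  unfold KEY_u
  refine max_eq_right ?_
  have : 1 ≤ ρ / (4 * A) := (one_le_div (by positivity)).2 hρ
  linarith

theorem KEY_u_ge {A ρ : ℝ} (hA : 0 < A) (hρ : ρ ≤ A) : 3 / 4 ≤ KEY_u A ρ := by
  unfold KEY_u
  refine le_trans ?_ (le_max_left _ _)
  have : ρ / (4 * A) ≤ 1 / 4 := by
    rw [div_le_div_iff₀ (by positivity) (by norm_num)]
    linarith
  linarith

theorem KEY_u_deriv {A : ℝ} (hA : 0 < A) (ρ : ℝ) :
    HasDerivAt (fun ρ => KEY_u A ρ ^ 2) (-(KEY_u A ρ / (2 * A))) ρ := by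
  have h1 : HasDerivAt (fun ρ : ℝ => 1 - ρ / (4 * A)) (-(1 / (4 * A))) ρ :=
    ((hasDerivAt_id ρ).div_const (4 * A)).const_sub 1
  have h2 := (KEY_T (1 - ρ / (4 * A))).comp ρ h1
  refine HasDerivAt.congr_deriv h2 ?_
  unfold KEY_u
  field_simp
  ring

theorem KEY_F_deriv {δ κ A : ℝ} (hA : 0 < A) {ρ : ℝ} (hρ : 0 < ρ + κ) :
    HasDerivAt (KEY_F δ κ A) (KEY_D δ κ A ρ) ρ := by
  have h1 : HasDerivAt (fun ρ : ℝ => ρ + κ) 1 ρ := (hasDerivAt_id ρ).add_const κ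
  have h2 := h1.rpow_const (p := -1 + δ / 2) (Or.inl hρ.ne')
  have h3 := h2.mul (KEY_u_deriv hA ρ)
  refine HasDerivAt.congr_deriv h3 ?_
  unfold KEY_D
  ring

theorem KEY_F_nonneg {δ κ A ρ : ℝ} (hρ : 0 < ρ + κ) : 0 ≤ KEY_F δ κ A ρ := by
  unfold KEY_F
  positivity

/-- `ρ P u ≤ 5 A ^ (δ/2)` -/
theorem KEY_Pu {δ κ A ρ : ℝ} (hδ : 0 < δ) (hδ2 : δ ≤ 2) (hA : 0 < A) (hκ : 0 < κ) (hκA : κ ≤ A) (hρ : 0 ≤ ρ) :
    ρ * (ρ + κ) ^ (-1 + δ / 2) * KEY_u A ρ ≤ 5 * A ^ (δ / 2) := by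
  have hA2 : 0 ≤ 5 * A ^ (δ / 2) := by positivity
  rcases le_total (4 * A) ρ with h | h
  · rw [KEY_u_zero hA h, mul_zero]
    exact hA2
  · have hpos : 0 < ρ + κ := by linarith
    have h1 : 0 ≤ (ρ + κ) ^ (-1 + δ / 2) := by positivity
    have h2 : ρ * (ρ + κ) ^ (-1 + δ / 2) ≤ (ρ + κ) ^ (δ / 2) := by
      have h3 : (ρ + κ) ^ (δ / 2) = (ρ + κ) * (ρ + κ) ^ (-1 + δ / 2) := by
        rw [← Real.rpow_one_add' hpos.le (by linarith)]
        congr 1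
        ring
      rw [h3]
      exact mul_le_mul_of_nonneg_right (by linarith) h1
    have h3 : (ρ + κ) ^ (δ / 2) ≤ 5 * A ^ (δ / 2) := by
      calc (ρ + κ) ^ (δ / 2) ≤ (5 * A) ^ (δ / 2) :=
            Real.rpow_le_rpow hpos.le (by linarith) (by linarith)
        _ = 5 ^ (δ / 2) * A ^ (δ / 2) := Real.mul_rpow (by norm_num) hA.le
        _ ≤ 5 * A ^ (δ / 2) := by
            refine mul_le_mul_of_nonneg_right ?_ (by positivity)
            calc (5 : ℝ) ^ (δ / 2) ≤ 5 ^ (1 : ℝ) :=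
                  Real.rpow_le_rpow_of_exponent_le (by norm_num) (by linarith)
              _ = 5 := Real.rpow_one 5
    have h4 := KEY_u_le hA hρ
    have h5 := KEY_u_nonneg A ρ
    have h6 : 0 ≤ ρ * (ρ + κ) ^ (-1 + δ / 2) := by positivity
    calc ρ * (ρ + κ) ^ (-1 + δ / 2) * KEY_u A ρ ≤ ρ * (ρ + κ) ^ (-1 + δ / 2) * 1 :=
          mul_le_mul_of_nonneg_left h4 h6
      _ ≤ 5 * A ^ (δ / 2) := by
          rw [mul_one]
          exact h2.trans h3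

theorem KEY_rF {δ κ A ρ : ℝ} (hδ : 0 < δ) (hδ2 : δ ≤ 2) (hA : 0 < A) (hκ : 0 < κ) (hκA : κ ≤ A) (hρ : 0 ≤ ρ) :
    ρ * KEY_F δ κ A ρ ≤ 5 * A ^ (δ / 2) := by
  have h1 := KEY_Pu hδ hδ2 hA hκ hκA hρ
  have h4 := KEY_u_le hA hρ
  have h5 := KEY_u_nonneg A ρ
  have hpos : 0 < ρ + κ := by linarith
  have h6 : 0 ≤ ρ * (ρ + κ) ^ (-1 + δ / 2) * KEY_u A ρ := by positivity
  calc ρ * KEY_F δ κ A ρ = ρ * (ρ + κ) ^ (-1 + δ / 2) * KEY_u A ρ * KEY_u A ρ := by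
        unfold KEY_F
        ring
    _ ≤ ρ * (ρ + κ) ^ (-1 + δ / 2) * KEY_u A ρ * 1 := mul_le_mul_of_nonneg_left h4 h6
    _ ≤ 5 * A ^ (δ / 2) := by
        rw [mul_one]
        exact h1

/-- the lower bound of the divergence -/
theorem KEY_div {δ κ A ρ : ℝ} (hδ : 0 < δ) (hδ2 : δ ≤ 2) (hA : 0 < A) (hκ : 0 < κ) (hκA : κ ≤ A) (hρ : 0 ≤ ρ) :
    δ * KEY_F δ κ A ρ ≤ 2 * KEY_F δ κ A ρ + 2 * ρ * KEY_D δ κ A ρ + 5 * A ^ (δ / 2) / A := by
  have hpos : 0 < ρ + κ := by linarith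
  set P : ℝ := (ρ + κ) ^ (-1 + δ / 2) with hP
  set Q : ℝ := (ρ + κ) ^ (-1 + δ / 2 - 1) with hQ
  set u : ℝ := KEY_u A ρ with hu
  have hQ0 : 0 ≤ Q := by positivity
  have hPQ : P = (ρ + κ) * Q := by
    rw [hP, hQ]
    have h2 := Real.rpow_add hpos 1 (-1 + δ / 2 - 1)
    rw [Real.rpow_one] at h2
    rw [← h2]
    congr 1
    ring
  have h1 : ρ * Q ≤ P := by
    rw [hPQ]
    exact mul_le_mul_of_nonneg_right (by linarith) hQ0
  have h2 : (2 - δ) * (ρ * Q) * u ^ 2 ≤ (2 - δ) * P * u ^ 2 := by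
    refine mul_le_mul_of_nonneg_right (mul_le_mul_of_nonneg_left h1 (by linarith)) (sq_nonneg _)
  have h3 : ρ * P * u / A ≤ 5 * A ^ (δ / 2) / A :=
    div_le_div_of_nonneg_right (KEY_Pu hδ hδ2 hA hκ hκA hρ) hA.le
  have h4 : 2 * ρ * KEY_D δ κ A ρ = -((2 - δ) * (ρ * Q) * u ^ 2) - ρ * P * u / A := by
    unfold KEY_D
    rw [← hP, ← hQ, ← hu]
    field_simp
    ring
  have h5 : KEY_F δ κ A ρ = P * u ^ 2 := rfl
  rw [h4, h5]
  linarith

/-! ### the vector field -/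

/-- the vector field -/
noncomputable def KEY_Y (δ κ A : ℝ) (i : Fin 3) (x : E3) : ℝ := x i * KEY_F δ κ A (rsq x)

theorem KEY_rsq_nonneg (x : E3) : 0 ≤ rsq x := by
  unfold rsq
  positivity

theorem KEY_Fr_fd {δ κ A : ℝ} (hA : 0 < A) (hκ : 0 < κ) (x : E3) :
    HasFDerivAt (fun x : E3 => KEY_F δ κ A (rsq x)) (KEY_D δ κ A (rsq x) • fderiv ℝ rsq x) x := by
  have h1 : HasFDerivAt rsq (fderiv ℝ rsq x) x := ((LevX_rsq_cd.differentiable (by simp)) x).hasFDerivAt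
  have h2 : 0 < rsq x + κ := by
    have := KEY_rsq_nonneg x
    linarith
  exact (KEY_F_deriv hA h2).comp_hasFDerivAt x h1

theorem KEY_Y_fd {δ κ A : ℝ} (hA : 0 < A) (hκ : 0 < κ) (i : Fin 3) (x : E3) :
    HasFDerivAt (KEY_Y δ κ A i) (x i • (KEY_D δ κ A (rsq x) • fderiv ℝ rsq x) +
      KEY_F δ κ A (rsq x) • (EuclideanSpace.proj i : E3 →L[ℝ] ℝ)) x :=
  ((EuclideanSpace.proj i : E3 →L[ℝ] ℝ).hasFDerivAt).mul (KEY_Fr_fd hA hκ x)

theorem KEY_Y_pd0 {δ κ A : ℝ} (hA : 0 < A) (hκ : 0 < κ) (x : E3) :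
    fderiv ℝ (KEY_Y δ κ A 0) x (e 0) = KEY_F δ κ A (rsq x) + 2 * x 0 ^ 2 * KEY_D δ κ A (rsq x) := by
  rw [(KEY_Y_fd hA hκ 0 x).fderiv]
  have h1 : fderiv ℝ rsq x (e 0) = 2 * x 0 := by
    have h := LevX_pd_rsq 0 x
    unfold pd at h
    rw [h]
    simp
  have hpe : (EuclideanSpace.proj 0 : E3 →L[ℝ] ℝ) (e 0) = 1 := by simp [e]
  rw [_root_.add_apply, _root_.smul_apply, _root_.smul_apply, _root_.smul_apply, h1, hpe]
  simp only [smul_eq_mul]
  ring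

theorem KEY_Y_pd1 {δ κ A : ℝ} (hA : 0 < A) (hκ : 0 < κ) (x : E3) :
    fderiv ℝ (KEY_Y δ κ A 1) x (e 1) = KEY_F δ κ A (rsq x) + 2 * x 1 ^ 2 * KEY_D δ κ A (rsq x) := by
  rw [(KEY_Y_fd hA hκ 1 x).fderiv]
  have h1 : fderiv ℝ rsq x (e 1) = 2 * x 1 := by
    have h := LevX_pd_rsq 1 x
    unfold pd at h
    rw [h]
    simp
  have hpe : (EuclideanSpace.proj 1 : E3 →L[ℝ] ℝ) (e 1) = 1 := by simp [e]
  rw [_root_.add_apply, _root_.smul_apply, _root_.smul_apply, _root_.smul_apply, h1, hpe]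
  simp only [smul_eq_mul]
  ring

theorem KEY_u_cont (A : ℝ) : Continuous (KEY_u A) := by
  unfold KEY_u
  fun_prop

theorem KEY_F_contOn {δ κ A : ℝ} (hκ : 0 < κ) : ContinuousOn (KEY_F δ κ A) (Ici 0) := by
  unfold KEY_F
  refine ContinuousOn.mul ?_ ((KEY_u_cont A).pow 2).continuousOn
  refine ContinuousOn.rpow_const (by fun_prop) fun ρ hρ => Or.inl ?_
  have : (0 : ℝ) ≤ ρ := hρ
  linarith

theorem KEY_D_contOn {δ κ A : ℝ} (hκ : 0 < κ) : ContinuousOn (KEY_D δ κ A) (Ici 0) := by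
  unfold KEY_D
  have h : ∀ p : ℝ, ContinuousOn (fun ρ : ℝ => (ρ + κ) ^ p) (Ici 0) := by
    intro p
    refine ContinuousOn.rpow_const (by fun_prop) fun ρ hρ => Or.inl ?_
    have : (0 : ℝ) ≤ ρ := hρ
    linarith
  refine ContinuousOn.add (ContinuousOn.mul ((h _).const_mul _) ((KEY_u_cont A).pow 2).continuousOn)
    (ContinuousOn.mul (h _) ((KEY_u_cont A).div_const _).neg.continuousOn)

theorem KEY_rsq_cont : Continuous rsq := LevX_rsq_cd.continuous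

theorem KEY_Fr_cont {δ κ A : ℝ} (hκ : 0 < κ) : Continuous (fun x : E3 => KEY_F δ κ A (rsq x)) :=
  (KEY_F_contOn hκ).comp_continuous KEY_rsq_cont fun x => KEY_rsq_nonneg x

theorem KEY_Dr_cont {δ κ A : ℝ} (hκ : 0 < κ) : Continuous (fun x : E3 => KEY_D δ κ A (rsq x)) :=
  (KEY_D_contOn hκ).comp_continuous KEY_rsq_cont fun x => KEY_rsq_nonneg x

theorem KEY_bdd {δ κ A : ℝ} (hA : 0 < A) (hκ : 0 < κ) : ∃ B : ℝ, 0 ≤ B ∧ ∀ x : E3,
    |KEY_F δ κ A (rsq x)| ≤ B ∧ (1 + rsq x) * |KEY_F δ κ A (rsq x)| ≤ B ∧ rsq x * |KEY_D δ κ A (rsq x)| ≤ B := by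
  have hsub : Icc 0 (4 * A) ⊆ Ici (0 : ℝ) := fun t ht => ht.1
  obtain ⟨B1, hB1⟩ := isCompact_Icc.exists_bound_of_continuousOn ((KEY_F_contOn (δ := δ) (A := A) hκ).mono hsub)
  obtain ⟨B2, hB2⟩ := isCompact_Icc.exists_bound_of_continuousOn ((KEY_D_contOn (δ := δ) (A := A) hκ).mono hsub)
  have h0 : (0 : ℝ) ∈ Icc 0 (4 * A) := ⟨le_rfl, by positivity⟩
  have hB10 : 0 ≤ B1 := (norm_nonneg _).trans (hB1 0 h0)
  have hB20 : 0 ≤ B2 := (norm_nonneg _).trans (hB2 0 h0)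
  refine ⟨(1 + 4 * A) * B1 + 4 * A * B2, by positivity, fun x => ?_⟩
  have hr := KEY_rsq_nonneg x
  have hAB1 : 0 ≤ A * B1 := by positivity
  have hAB2 : 0 ≤ A * B2 := by positivity
  rcases le_total (4 * A) (rsq x) with h | h
  · have hF : KEY_F δ κ A (rsq x) = 0 := by
      unfold KEY_F
      rw [KEY_u_zero hA h]
      ring
    have hD : KEY_D δ κ A (rsq x) = 0 := by
      unfold KEY_D
      rw [KEY_u_zero hA h]
      ring
    rw [hF, hD, abs_zero]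
    refine ⟨by positivity, ?_, ?_⟩
    · rw [mul_zero]
      positivity
    · rw [mul_zero]
      positivity
  · have h1 := hB1 (rsq x) ⟨hr, h⟩
    have h2 := hB2 (rsq x) ⟨hr, h⟩
    rw [Real.norm_eq_abs] at h1 h2
    refine ⟨?_, ?_, ?_⟩
    · nlinarith
    · have h3 := mul_le_mul (show 1 + rsq x ≤ 1 + 4 * A by linarith) h1 (abs_nonneg _) (by positivity)
      nlinarith
    · have h3 := mul_le_mul h h2 (abs_nonneg _) (by positivity)
      nlinarith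

theorem KEY_eps {δ κ A : ℝ} (hδ : 0 < δ) (hδ2 : δ ≤ 2) (hA : 0 < A) (hκ : 0 < κ) (hκA : κ ≤ A)
    {g : E3 → ℝ} {K : ℝ} (hg : ContDiff ℝ 1 g) (hK : DB 1 K g) :
    Integrable (fun x => g x ^ 2 * KEY_F δ κ A (rsq x)) ∧
    ∫ x, g x ^ 2 * KEY_F δ κ A (rsq x) ≤ 20 / δ ^ 2 * A ^ (δ / 2) * ((∫ x, gsq g x) + (∫ x, g x ^ 2) / A) := by
  obtain ⟨B, hB0, hB⟩ := KEY_bdd (δ := δ) hA hκ
  have hgc : Continuous g := hg.continuous
  have hBL : BL K g := hK.1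
  have hBLi : ∀ i, BL K (pd i g) := fun i => hK.2 i
  have hgi : ∀ i, Continuous (pd i g) := fun i => pd_cont hg i
  have hg2 : Integrable (fun x => g x ^ 2) := hBL.2.1
  have hFc : Continuous (fun x : E3 => KEY_F δ κ A (rsq x)) := KEY_Fr_cont hκ
  have hDc : Continuous (fun x : E3 => KEY_D δ κ A (rsq x)) := KEY_Dr_cont hκ
  have hxc : ∀ i : Fin 3, Continuous (fun x : E3 => x i) := fun i => (LevX_coord_cd i).continuous
  have hYc : ∀ i, Continuous (KEY_Y δ κ A i) := fun i => (hxc i).mul hFc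
  have hYb : ∀ i : Fin 3, i ≠ 2 → ∀ x, |KEY_Y δ κ A i x| ≤ B := by
    intro i hi x
    refine le_trans ?_ (hB x).2.1
    unfold KEY_Y
    rw [abs_mul]
    refine mul_le_mul_of_nonneg_right ?_ (abs_nonneg _)
    have h1 : x i ^ 2 ≤ rsq x := by
      unfold rsq
      fin_cases i
      · have := sq_nonneg (x 1)
        simp only [Fin.zero_eta, Fin.isValue]
        linarith
      · have := sq_nonneg (x 0)
        simp only [Fin.mk_one, Fin.isValue]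
        linarith
      · exact absurd rfl hi
    have h2 : |x i| ≤ 1 + x i ^ 2 := by
      rw [← sq_abs]
      nlinarith [sq_nonneg (|x i| - 1), abs_nonneg (x i)]
    linarith
  have hFn : ∀ x : E3, 0 ≤ KEY_F δ κ A (rsq x) := fun x =>
    KEY_F_nonneg (by have := KEY_rsq_nonneg x; linarith)
  have hgF : Integrable (fun x => g x ^ 2 * KEY_F δ κ A (rsq x)) := by
    refine (hg2.mul_const B).mono' ((hgc.pow 2).mul hFc).aestronglyMeasurable (ae_of_all _ fun x => ?_)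
    rw [Real.norm_eq_abs, abs_mul, abs_of_nonneg (sq_nonneg (g x))]
    exact mul_le_mul_of_nonneg_left (hB x).1 (sq_nonneg _)
  have hgD : ∀ i : Fin 3, i ≠ 2 → Integrable (fun x => g x ^ 2 * (KEY_F δ κ A (rsq x) + 2 * x i ^ 2 * KEY_D δ κ A (rsq x))) := by
    intro i hi
    refine (hg2.mul_const (3 * B)).mono'
      ((hgc.pow 2).mul (hFc.add ((continuous_const.mul ((hxc i).pow 2)).mul hDc))).aestronglyMeasurable
      (ae_of_all _ fun x => ?_)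
    rw [Real.norm_eq_abs, abs_mul, abs_of_nonneg (sq_nonneg (g x))]
    refine mul_le_mul_of_nonneg_left ?_ (sq_nonneg _)
    have h1 : x i ^ 2 ≤ rsq x := by
      unfold rsq
      fin_cases i
      · have := sq_nonneg (x 1)
        simp only [Fin.zero_eta, Fin.isValue]
        linarith
      · have := sq_nonneg (x 0)
        simp only [Fin.mk_one, Fin.isValue]
        linarith
      · exact absurd rfl hi
    have h2 : |2 * x i ^ 2 * KEY_D δ κ A (rsq x)| = 2 * (x i ^ 2 * |KEY_D δ κ A (rsq x)|) := by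
      rw [abs_mul, abs_of_nonneg (by positivity)]
      ring
    have h3 := mul_le_mul_of_nonneg_right h1 (abs_nonneg (KEY_D δ κ A (rsq x)))
    have h4 := abs_add_le (KEY_F δ κ A (rsq x)) (2 * x i ^ 2 * KEY_D δ κ A (rsq x))
    have h5 := hB x
    linarith [h5.1, h5.2.2]
  have hfd : ∀ i x, fderiv ℝ (fun z => g z ^ 2) x (e i) = 2 * g x * pd i g x := by
    intro i x
    have h1 : HasFDerivAt g (fderiv ℝ g x) x := (hg.differentiable (by norm_num) x).hasFDerivAt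
    have h2 := h1.pow 2
    have h3 : fderiv ℝ (fun z => g z ^ 2) x = (2 * g x) • fderiv ℝ g x := by
      have := h2.fderiv
      simpa using this
    rw [h3]
    simp [pd]
  have hI2 : ∀ i : Fin 3, i ≠ 2 → Integrable (fun x => g x ^ 2 * KEY_Y δ κ A i x) := by
    intro i hi
    refine (hg2.mul_const B).mono' ((hgc.pow 2).mul (hYc i)).aestronglyMeasurable (ae_of_all _ fun x => ?_)
    rw [Real.norm_eq_abs, abs_mul, abs_of_nonneg (sq_nonneg (g x))]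
    exact mul_le_mul_of_nonneg_left (hYb i hi x) (sq_nonneg _)
  have hI3 : ∀ i : Fin 3, i ≠ 2 → Integrable (fun x => 2 * g x * pd i g x * KEY_Y δ κ A i x) := by
    intro i hi
    have h1 := (BL_mul hgc (hgi i) hBL (hBLi i)).norm.mul_const (2 * B)
    refine h1.mono' (((continuous_const.mul hgc).mul (hgi i)).mul (hYc i)).aestronglyMeasurable
      (ae_of_all _ fun x => ?_)
    rw [Real.norm_eq_abs, Real.norm_eq_abs, abs_mul]
    have h2 : |2 * g x * pd i g x| = 2 * |g x * pd i g x| := by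
      rw [mul_assoc, abs_mul]; simp
    rw [h2]
    have h3 := mul_le_mul_of_nonneg_left (hYb i hi x) (show 0 ≤ 2 * |g x * pd i g x| by positivity)
    linarith
  have h02 : (0 : Fin 3) ≠ 2 := by decide
  have h12 : (1 : Fin 3) ≠ 2 := by decide
  have hIBP0 : ∫ x, g x ^ 2 * (KEY_F δ κ A (rsq x) + 2 * x 0 ^ 2 * KEY_D δ κ A (rsq x)) =
      - ∫ x, 2 * g x * pd 0 g x * KEY_Y δ κ A 0 x := by
    have h1 : Integrable (fun x => fderiv ℝ (fun z => g z ^ 2) x (e 0) * KEY_Y δ κ A 0 x) := by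
      refine (hI3 0 h02).congr (ae_of_all _ fun x => ?_)
      simp only [hfd 0 x]
    have h2 : Integrable (fun x => g x ^ 2 * fderiv ℝ (KEY_Y δ κ A 0) x (e 0)) := by
      refine (hgD 0 h02).congr (ae_of_all _ fun x => ?_)
      simp only [KEY_Y_pd0 hA hκ x]
    have h3 := integral_mul_fderiv_eq_neg_fderiv_mul_of_integrable h1 h2 (hI2 0 h02)
      (fun x _ => (hg.pow 2).differentiable (by norm_num) x)
      (fun x _ => (KEY_Y_fd hA hκ 0 x).differentiableAt)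
    simp only [hfd, KEY_Y_pd0 hA hκ] at h3
    exact h3
  have hIBP1 : ∫ x, g x ^ 2 * (KEY_F δ κ A (rsq x) + 2 * x 1 ^ 2 * KEY_D δ κ A (rsq x)) =
      - ∫ x, 2 * g x * pd 1 g x * KEY_Y δ κ A 1 x := by
    have h1 : Integrable (fun x => fderiv ℝ (fun z => g z ^ 2) x (e 1) * KEY_Y δ κ A 1 x) := by
      refine (hI3 1 h12).congr (ae_of_all _ fun x => ?_)
      simp only [hfd 1 x]
    have h2 : Integrable (fun x => g x ^ 2 * fderiv ℝ (KEY_Y δ κ A 1) x (e 1)) := by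
      refine (hgD 1 h12).congr (ae_of_all _ fun x => ?_)
      simp only [KEY_Y_pd1 hA hκ x]
    have h3 := integral_mul_fderiv_eq_neg_fderiv_mul_of_integrable h1 h2 (hI2 1 h12)
      (fun x _ => (hg.pow 2).differentiable (by norm_num) x)
      (fun x _ => (KEY_Y_fd hA hκ 1 x).differentiableAt)
    simp only [hfd, KEY_Y_pd1 hA hκ] at h3
    exact h3
  refine ⟨hgF, ?_⟩
  set S : ℝ := A ^ (δ / 2) with hS
  have hS0 : 0 ≤ S := by positivity
  set I : ℝ := ∫ x, g x ^ 2 * KEY_F δ κ A (rsq x) with hI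
  set G1 : ℝ := ∫ x, gsq g x with hG1
  set G2 : ℝ := ∫ x, g x ^ 2 with hG2
  have hG10 : 0 ≤ G1 := integral_nonneg fun x => gsq_nonneg g x
  have hG20 : 0 ≤ G2 := integral_nonneg fun x => sq_nonneg _
  have hstep1 : δ * I ≤ (∫ x, g x ^ 2 * (KEY_F δ κ A (rsq x) + 2 * x 0 ^ 2 * KEY_D δ κ A (rsq x))) +
      (∫ x, g x ^ 2 * (KEY_F δ κ A (rsq x) + 2 * x 1 ^ 2 * KEY_D δ κ A (rsq x))) + 5 * S / A * G2 := by
    have hA01 : Integrable (fun x => g x ^ 2 * (KEY_F δ κ A (rsq x) + 2 * x 0 ^ 2 * KEY_D δ κ A (rsq x)) +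
        g x ^ 2 * (KEY_F δ κ A (rsq x) + 2 * x 1 ^ 2 * KEY_D δ κ A (rsq x))) := (hgD 0 h02).add (hgD 1 h12)
    rw [hI, hG2, ← integral_const_mul, ← integral_const_mul, ← integral_add (hgD 0 h02) (hgD 1 h12),
      ← integral_add hA01 (hg2.const_mul _)]
    refine integral_mono (hgF.const_mul _) (hA01.add (hg2.const_mul _)) fun x => ?_
    have h1 := KEY_div hδ hδ2 hA hκ hκA (KEY_rsq_nonneg x)
    have h2 := mul_le_mul_of_nonneg_left h1 (sq_nonneg (g x))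
    have h3 : rsq x = x 0 ^ 2 + x 1 ^ 2 := rfl
    rw [← hS] at h2
    calc δ * (g x ^ 2 * KEY_F δ κ A (rsq x)) = g x ^ 2 * (δ * KEY_F δ κ A (rsq x)) := by ring
      _ ≤ _ := h2
      _ = g x ^ 2 * (KEY_F δ κ A (rsq x) + 2 * x 0 ^ 2 * KEY_D δ κ A (rsq x)) +
          g x ^ 2 * (KEY_F δ κ A (rsq x) + 2 * x 1 ^ 2 * KEY_D δ κ A (rsq x)) + 5 * S / A * g x ^ 2 := by
          generalize KEY_F δ κ A (rsq x) = a
          generalize KEY_D δ κ A (rsq x) = b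
          rw [h3]
          ring
  have hstep2 : -(∫ x, 2 * g x * pd 0 g x * KEY_Y δ κ A 0 x) + -(∫ x, 2 * g x * pd 1 g x * KEY_Y δ κ A 1 x) ≤
      δ / 2 * I + 10 / δ * S * G1 := by
    have hN0 : Integrable (fun x => -(2 * g x * pd 0 g x * KEY_Y δ κ A 0 x)) := (hI3 0 h02).neg
    have hN1 : Integrable (fun x => -(2 * g x * pd 1 g x * KEY_Y δ κ A 1 x)) := (hI3 1 h12).neg
    rw [hI, hG1, ← integral_const_mul, ← integral_const_mul, ← integral_neg, ← integral_neg,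
      ← integral_add hN0 hN1,
      ← integral_add (hgF.const_mul _) ((gsq_int hK).1.const_mul _)]
    refine integral_mono (hN0.add hN1)
      ((hgF.const_mul _).add ((gsq_int hK).1.const_mul _)) fun x => ?_
    beta_reduce
    have h1 := KEY_rF hδ hδ2 hA hκ hκA (KEY_rsq_nonneg x)
    rw [← hS] at h1
    have h2 : (x 0 * pd 0 g x + x 1 * pd 1 g x) ^ 2 ≤ rsq x * gsq g x := by
      unfold rsq gsq
      rw [Fin.sum_univ_three]
      nlinarith [sq_nonneg (x 0 * pd 1 g x - x 1 * pd 0 g x), sq_nonneg (x 0 * pd 2 g x),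
        sq_nonneg (x 1 * pd 2 g x)]
    have hF := hFn x
    set F := KEY_F δ κ A (rsq x) with hFd
    set w := x 0 * pd 0 g x + x 1 * pd 1 g x with hw
    have h3 : -(2 * g x * pd 0 g x * KEY_Y δ κ A 0 x) + -(2 * g x * pd 1 g x * KEY_Y δ κ A 1 x) =
        -(2 * g x * w * F) := by
      rw [hw]
      unfold KEY_Y
      rw [← hFd]
      ring
    rw [h3]
    have h4 : -(2 * g x * w) ≤ δ / 2 * g x ^ 2 + 2 / δ * w ^ 2 := by
      have h5 : 0 ≤ (δ / 2) * (g x + 2 / δ * w) ^ 2 := by positivity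
      have h6 : (δ / 2) * (g x + 2 / δ * w) ^ 2 = δ / 2 * g x ^ 2 + 2 * g x * w + 2 / δ * w ^ 2 := by
        field_simp
        ring
      linarith
    have h5 := mul_le_mul_of_nonneg_right h4 hF
    have h6 := mul_le_mul_of_nonneg_right h2 hF
    have h7 := mul_le_mul_of_nonneg_right h1 (gsq_nonneg g x)
    have h8 : 0 < 2 / δ := by positivity
    have h9 : w ^ 2 * F ≤ 5 * S * gsq g x := by nlinarith
    have h10 := mul_le_mul_of_nonneg_left h9 h8.le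
    calc -(2 * g x * w * F) = -(2 * g x * w) * F := by ring
      _ ≤ (δ / 2 * g x ^ 2 + 2 / δ * w ^ 2) * F := h5
      _ = δ / 2 * (g x ^ 2 * F) + 2 / δ * (w ^ 2 * F) := by ring
      _ ≤ δ / 2 * (g x ^ 2 * F) + 2 / δ * (5 * S * gsq g x) := by linarith
      _ = δ / 2 * (g x ^ 2 * F) + 10 / δ * S * gsq g x := by ring
  rw [hIBP0, hIBP1] at hstep1
  have h1 : δ / 2 * I ≤ 10 / δ * S * G1 + 5 * S / A * G2 := by linarith
  have h2 : I ≤ 20 / δ ^ 2 * S * G1 + 10 / δ * S / A * G2 := by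
    have h3 : 0 < 2 / δ := by positivity
    have h4 := mul_le_mul_of_nonneg_left h1 h3.le
    have h5 : 2 / δ * (δ / 2 * I) = I := by
      field_simp
    have h6 : 2 / δ * (10 / δ * S * G1 + 5 * S / A * G2) = 20 / δ ^ 2 * S * G1 + 10 / δ * S / A * G2 := by
      field_simp
      ring
    rw [h5, h6] at h4
    exact h4
  refine h2.trans ?_
  have h3 : 10 / δ ≤ 20 / δ ^ 2 := by
    rw [div_le_div_iff₀ hδ (by positivity)]
    nlinarith
  have h4 : 0 ≤ S / A * G2 := by positivity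
  have h5 := mul_le_mul_of_nonneg_right h3 h4
  calc 20 / δ ^ 2 * S * G1 + 10 / δ * S / A * G2 = 20 / δ ^ 2 * S * G1 + 10 / δ * (S / A * G2) := by ring
    _ ≤ 20 / δ ^ 2 * S * G1 + 20 / δ ^ 2 * (S / A * G2) := by linarith
    _ = 20 / δ ^ 2 * S * (G1 + G2 / A) := by ring

/-! ### Hardy with a gain -/

theorem KEY_rad_rpow {δ : ℝ} {x : E3} (hx : 0 < rad x) : rad x ^ (-2 + δ) = rsq x ^ (-1 + δ / 2) := by
  rw [← rad_sq', ← Real.rpow_natCast, ← Real.rpow_mul hx.le]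
  congr 1
  push_cast
  ring

theorem KEY_rsq_le {r₁ : ℝ} {x : E3} (hx : rad x < r₁) : rsq x ≤ r₁ ^ 2 := by
  rw [← rad_sq']
  exact pow_le_pow_left₀ (rad_nonneg x) hx.le 2

theorem KEY_lint {δ r₁ : ℝ} (hδ : 0 < δ) (hδ2 : δ ≤ 2) (hr : 0 < r₁) {g : E3 → ℝ} {K : ℝ}
    (hg : ContDiff ℝ 1 g) (hK : DB 1 K g) :
    ∫⁻ x in {x | rad x < r₁}, ENNReal.ofReal (g x ^ 2 * rad x ^ (-2 + δ)) ≤
      ENNReal.ofReal (36 / δ ^ 2 * r₁ ^ δ * ((∫ x, gsq g x) + (∫ x, g x ^ 2) / r₁ ^ 2)) := by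
  set A : ℝ := r₁ ^ 2 with hA
  have hA0 : 0 < A := by positivity
  have hAS : A ^ (δ / 2) = r₁ ^ δ := by
    rw [hA, ← Real.rpow_natCast, ← Real.rpow_mul hr.le]
    congr 1
    push_cast
    ring
  set D : Set E3 := {x | rad x < r₁} with hD
  have hDm : MeasurableSet D := measurableSet_lt continuous_rad.measurable measurable_const
  set G1 : ℝ := ∫ x, gsq g x with hG1
  set G2 : ℝ := ∫ x, g x ^ 2 with hG2
  have hG10 : 0 ≤ G1 := integral_nonneg fun x => gsq_nonneg g x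
  have hG20 : 0 ≤ G2 := integral_nonneg fun x => sq_nonneg _
  have hgc : Continuous g := hg.continuous
  have hκ0 : ∀ n : ℕ, 0 < A / ((n : ℝ) + 1) := fun n => by positivity
  have hκA : ∀ n : ℕ, A / ((n : ℝ) + 1) ≤ A := fun n => by
    refine div_le_self hA0.le ?_
    have : (0 : ℝ) ≤ n := Nat.cast_nonneg n
    linarith
  have hn : ∀ n : ℕ, ∫⁻ x in D, ENNReal.ofReal (g x ^ 2 * (rsq x + A / ((n : ℝ) + 1)) ^ (-1 + δ / 2)) ≤
      ENNReal.ofReal (36 / δ ^ 2 * r₁ ^ δ * (G1 + G2 / A)) := by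
    intro n
    have h := KEY_eps hδ hδ2 hA0 (hκ0 n) (hκA n) hg hK
    rw [hAS, ← hG1, ← hG2] at h
    have hpos : ∀ x : E3, 0 < rsq x + A / ((n : ℝ) + 1) := fun x => by
      have := KEY_rsq_nonneg x
      have := hκ0 n
      linarith
    have hFn : ∀ x : E3, 0 ≤ KEY_F δ (A / ((n : ℝ) + 1)) A (rsq x) := fun x => KEY_F_nonneg (hpos x)
    calc ∫⁻ x in D, ENNReal.ofReal (g x ^ 2 * (rsq x + A / ((n : ℝ) + 1)) ^ (-1 + δ / 2))
        ≤ ∫⁻ x in D, ENNReal.ofReal (16 / 9 * (g x ^ 2 * KEY_F δ (A / ((n : ℝ) + 1)) A (rsq x))) := by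
          refine setLIntegral_mono' hDm fun x hx => ENNReal.ofReal_le_ofReal ?_
          have hu : 3 / 4 ≤ KEY_u A (rsq x) := KEY_u_ge hA0 (KEY_rsq_le hx)
          have hu2 : 1 ≤ 16 / 9 * KEY_u A (rsq x) ^ 2 := by nlinarith
          have h1 : 0 ≤ g x ^ 2 * (rsq x + A / ((n : ℝ) + 1)) ^ (-1 + δ / 2) := by
            have := (hpos x).le
            positivity
          have h2 := mul_le_mul_of_nonneg_left hu2 h1
          unfold KEY_F
          linarith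
      _ ≤ ∫⁻ x, ENNReal.ofReal (16 / 9 * (g x ^ 2 * KEY_F δ (A / ((n : ℝ) + 1)) A (rsq x))) :=
          setLIntegral_le_lintegral _ _
      _ = ENNReal.ofReal (∫ x, 16 / 9 * (g x ^ 2 * KEY_F δ (A / ((n : ℝ) + 1)) A (rsq x))) := by
          rw [ofReal_integral_eq_lintegral_ofReal (h.1.const_mul _)]
          refine ae_of_all _ fun x => ?_
          have := hFn x
          positivity
      _ ≤ ENNReal.ofReal (36 / δ ^ 2 * r₁ ^ δ * (G1 + G2 / A)) := by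
          refine ENNReal.ofReal_le_ofReal ?_
          rw [integral_const_mul]
          have h2 := h.2
          have h3 : 0 ≤ 1 / δ ^ 2 * r₁ ^ δ * (G1 + G2 / A) := by positivity
          have h4 : 20 / δ ^ 2 * r₁ ^ δ * (G1 + G2 / A) = 20 * (1 / δ ^ 2 * r₁ ^ δ * (G1 + G2 / A)) := by ring
          have h5 : 36 / δ ^ 2 * r₁ ^ δ * (G1 + G2 / A) = 36 * (1 / δ ^ 2 * r₁ ^ δ * (G1 + G2 / A)) := by ring
          rw [h4] at h2
          rw [h5]
          linarith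
  have hlim : ∀ᵐ x : E3 ∂(volume.restrict D), Tendsto
      (fun n : ℕ => ENNReal.ofReal (g x ^ 2 * (rsq x + A / ((n : ℝ) + 1)) ^ (-1 + δ / 2))) atTop
      (𝓝 (ENNReal.ofReal (g x ^ 2 * rad x ^ (-2 + δ)))) := by
    filter_upwards [ae_restrict_of_ae axis_null] with x hx
    refine (ENNReal.continuous_ofReal.tendsto _).comp ?_
    rw [KEY_rad_rpow hx]
    have h1 : Tendsto (fun n : ℕ => A / ((n : ℝ) + 1)) atTop (𝓝 0) := by
      have h := (tendsto_one_div_add_atTop_nhds_zero_nat (𝕜 := ℝ)).const_mul A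
      simpa [div_eq_mul_inv] using h
    have h2 : Tendsto (fun n : ℕ => rsq x + A / ((n : ℝ) + 1)) atTop (𝓝 (rsq x)) := by
      simpa using h1.const_add (rsq x)
    have h3 : ContinuousAt (fun t : ℝ => t ^ (-1 + δ / 2)) (rsq x) :=
      Real.continuousAt_rpow_const _ _ (Or.inl (rsq_pos hx).ne')
    exact (h3.tendsto.comp h2).const_mul (g x ^ 2)
  have h1 : ∫⁻ x in D, ENNReal.ofReal (g x ^ 2 * rad x ^ (-2 + δ)) =
      ∫⁻ x in D, liminf (fun n : ℕ => ENNReal.ofReal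
        (g x ^ 2 * (rsq x + A / ((n : ℝ) + 1)) ^ (-1 + δ / 2))) atTop := by
    refine lintegral_congr_ae ?_
    filter_upwards [hlim] with x hx using hx.liminf_eq.symm
  rw [h1]
  refine (lintegral_liminf_le fun n => ?_).trans ?_
  · exact ENNReal.measurable_ofReal.comp ((hgc.pow 2).measurable.mul
      ((KEY_rsq_cont.measurable.add_const _).pow_const _))
  · exact liminf_le_of_frequently_le' (Frequently.of_forall fun n => hn n)

theorem hardy_delta : ∃ C : ℝ, 0 < C ∧ ∀ (δ r₁ : ℝ), 0 < δ → δ ≤ 2 → 0 < r₁ → ∀ (g : E3 → ℝ) (K : ℝ), ContDiff ℝ 1 g → DB 1 K g →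
    IntegrableOn (fun x => g x ^ 2 * rad x ^ (-2 + δ)) {x | rad x < r₁} ∧
    ∫ x in {x | rad x < r₁}, g x ^ 2 * rad x ^ (-2 + δ) ≤ C / δ ^ 2 * r₁ ^ δ * ((∫ x, gsq g x) + (∫ x, g x ^ 2) / r₁ ^ 2) := by
  refine ⟨36, by norm_num, fun δ r₁ hδ hδ2 hr g K hg hK => ?_⟩
  have hl := KEY_lint hδ hδ2 hr hg hK
  have hmeas : Measurable (fun x => g x ^ 2 * rad x ^ (-2 + δ)) :=
    (hg.continuous.pow 2).measurable.mul (continuous_rad.measurable.pow_const _)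
  have hnn : ∀ x, 0 ≤ g x ^ 2 * rad x ^ (-2 + δ) := fun x => by
    have := rad_nonneg x
    positivity
  have hB : 0 ≤ 36 / δ ^ 2 * r₁ ^ δ * ((∫ x, gsq g x) + (∫ x, g x ^ 2) / r₁ ^ 2) := by
    have h1 : 0 ≤ ∫ x, gsq g x := integral_nonneg fun x => gsq_nonneg g x
    have h2 : 0 ≤ ∫ x, g x ^ 2 := integral_nonneg fun x => sq_nonneg _
    positivity
  refine ⟨⟨hmeas.aestronglyMeasurable, (hasFiniteIntegral_iff_ofReal (ae_of_all _ hnn)).2
      (lt_of_le_of_lt hl ENNReal.ofReal_lt_top)⟩, ?_⟩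
  rw [integral_eq_lintegral_of_nonneg_ae (ae_of_all _ hnn) hmeas.aestronglyMeasurable]
  exact ENNReal.toReal_le_of_le_ofReal hB hl

/-! ### the key lemma -/

/-- the pointwise factorisation -/
theorem KEY_pt {n s δ : ℝ} (hn : 3 ≤ n) (hδ : δ * (n - 3 / 2) = s - 3) {h g ρ : ℝ} (hh : 0 ≤ h) (hρ : 0 < ρ) :
    (h ^ n * ρ ^ (-s)) ^ (1 / n) * (g ^ 2 * ρ ^ (-2 + δ)) ^ (1 - 3 / (2 * n)) * (g ^ 6) ^ (1 / (2 * n)) =
      h / ρ ^ 2 * g ^ 2 := by
  have hn0 : 0 < n := by linarith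
  have hb : 0 ≤ 1 - 3 / (2 * n) := by
    have : 3 / (2 * n) ≤ 1 := (div_le_one (by positivity)).2 (by linarith)
    linarith
  have hc : 0 ≤ 1 / (2 * n) := by positivity
  have h1 : (h ^ n * ρ ^ (-s)) ^ (1 / n) = h * ρ ^ (-s * (1 / n)) := by
    rw [Real.mul_rpow (by positivity) (by positivity), ← Real.rpow_mul hh, ← Real.rpow_mul hρ.le]
    congr 1
    rw [mul_one_div_cancel hn0.ne', Real.rpow_one]
  have h2 : (g ^ 2 * ρ ^ (-2 + δ)) ^ (1 - 3 / (2 * n)) =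
      |g| ^ (2 * (1 - 3 / (2 * n))) * ρ ^ ((-2 + δ) * (1 - 3 / (2 * n))) := by
    rw [Real.mul_rpow (by positivity) (by positivity), ← Real.rpow_mul hρ.le, ← sq_abs g,
      ← Real.rpow_natCast |g| 2, ← Real.rpow_mul (abs_nonneg g)]
    norm_num
  have h3 : (g ^ 6) ^ (1 / (2 * n)) = |g| ^ (6 * (1 / (2 * n))) := by
    have h4 : g ^ 6 = |g| ^ 6 := by
      have h5 : g ^ 6 = (g ^ 2) ^ 3 := by ring
      rw [h5, ← sq_abs g]
      ring
    rw [h4, ← Real.rpow_natCast |g| 6, ← Real.rpow_mul (abs_nonneg g)]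
    norm_num
  rw [h1, h2, h3]
  have h4 : |g| ^ (2 * (1 - 3 / (2 * n))) * |g| ^ (6 * (1 / (2 * n))) = g ^ 2 := by
    rw [← Real.rpow_add_of_nonneg (abs_nonneg g) (by positivity) (by positivity)]
    have h5 : 2 * (1 - 3 / (2 * n)) + 6 * (1 / (2 * n)) = 2 := by
      field_simp
      ring
    rw [h5, Real.rpow_two, sq_abs]
  have h5 : ρ ^ (-s * (1 / n)) * ρ ^ ((-2 + δ) * (1 - 3 / (2 * n))) = 1 / ρ ^ 2 := by
    rw [← Real.rpow_add hρ]
    have h6 : -s * (1 / n) + (-2 + δ) * (1 - 3 / (2 * n)) = -2 := by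
      have h7 : δ * (1 - 3 / (2 * n)) = (s - 3) / n := by
        rw [← hδ]
        field_simp
      have h8 : (-2 + δ) * (1 - 3 / (2 * n)) = -2 * (1 - 3 / (2 * n)) + δ * (1 - 3 / (2 * n)) := by ring
      rw [h8, h7]
      field_simp
      ring
    rw [h6, Real.rpow_neg hρ.le, Real.rpow_two, one_div]
  calc h * ρ ^ (-s * (1 / n)) * (|g| ^ (2 * (1 - 3 / (2 * n))) * ρ ^ ((-2 + δ) * (1 - 3 / (2 * n)))) *
        |g| ^ (6 * (1 / (2 * n)))
      = h * (ρ ^ (-s * (1 / n)) * ρ ^ ((-2 + δ) * (1 - 3 / (2 * n)))) *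
        (|g| ^ (2 * (1 - 3 / (2 * n))) * |g| ^ (6 * (1 / (2 * n)))) := by ring
    _ = h / ρ ^ 2 * g ^ 2 := by
        rw [h4, h5]
        ring

theorem key {n s M₁ r₂ ν : ℝ} (hn : 3 ≤ n) (hs : 3 < s) (hs4 : s ≤ 4) (hM : 0 ≤ M₁) (hr : 0 < r₂) (hν : 0 < ν) :
    ∃ r₁ C : ℝ, 0 < r₁ ∧ r₁ < r₂ ∧ 0 ≤ C ∧ ∀ (h g : E3 → ℝ) (K : ℝ), Continuous h → (∀ x, 0 ≤ h x) →
    IntegrableOn (fun x => h x ^ n * rad x ^ (-s)) {x | rad x < r₂} →
    ∫ x in {x | rad x < r₂}, h x ^ n * rad x ^ (-s) ≤ M₁ → ContDiff ℝ 1 g → DB 1 K g →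
    ∫ x in {x | rad x < r₁}, h x / rsq x * g x ^ 2 ≤ ν * (∫ x, gsq g x) + C * ∫ x, g x ^ 2 := by
  obtain ⟨C₀, hC₀, hH⟩ := hardy_delta
  have hn0 : 0 < n := by linarith
  have hn32 : 0 < n - 3 / 2 := by linarith
  obtain ⟨δ, hδ⟩ : ∃ δ : ℝ, δ = (s - 3) / (n - 3 / 2) := ⟨_, rfl⟩
  have hδ0 : 0 < δ := by
    rw [hδ]
    exact div_pos (by linarith) hn32
  have hδ2 : δ ≤ 2 := by
    rw [hδ, div_le_iff₀ hn32]
    linarith
  have hδm : δ * (n - 3 / 2) = s - 3 := by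
    rw [hδ]
    exact div_mul_cancel₀ _ hn32.ne'
  obtain ⟨a, ha⟩ : ∃ a : ℝ, a = 1 / n := ⟨_, rfl⟩
  obtain ⟨b, hb⟩ : ∃ b : ℝ, b = 1 - 3 / (2 * n) := ⟨_, rfl⟩
  obtain ⟨c, hc⟩ : ∃ c : ℝ, c = 1 / (2 * n) := ⟨_, rfl⟩
  have ha0 : 0 ≤ a := by rw [ha]; positivity
  have hb0 : 0 < b := by
    have h1 : 3 / (2 * n) ≤ 1 / 2 := by
      rw [div_le_div_iff₀ (by positivity) (by norm_num)]
      linarith
    rw [hb]
    linarith
  have hc0 : 0 ≤ c := by rw [hc]; positivity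
  have habc : a + b + c = 1 := by
    rw [ha, hb, hc]
    field_simp
    ring
  have hbc : b + 3 * c = 1 := by
    rw [hb, hc]
    field_simp
    ring
  have hSB := SB_pos
  obtain ⟨C', hC'⟩ : ∃ C' : ℝ, C' = M₁ ^ a * (C₀ / δ ^ 2) ^ b * SB ^ (3 * c) := ⟨_, rfl⟩
  have hC'0 : 0 ≤ C' := by rw [hC']; positivity
  have hδb : 0 < δ * b := by positivity
  set t : ℝ := (ν / (C' + 1)) ^ (1 / (δ * b)) with ht
  have ht0 : 0 < t := by positivity
  set r₁ : ℝ := min (r₂ / 2) t with hr₁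
  have hr₁0 : 0 < r₁ := lt_min (by positivity) ht0
  have hr₁2 : r₁ < r₂ := (min_le_left _ _).trans_lt (by linarith)
  have hr₁t : r₁ ^ (δ * b) ≤ ν / (C' + 1) := by
    calc r₁ ^ (δ * b) ≤ t ^ (δ * b) := Real.rpow_le_rpow hr₁0.le (min_le_right _ _) hδb.le
      _ = ν / (C' + 1) := by
          rw [ht, ← Real.rpow_mul (by positivity), one_div_mul_cancel hδb.ne', Real.rpow_one]
  have hCr : C' * r₁ ^ (δ * b) ≤ ν := by
    calc C' * r₁ ^ (δ * b) ≤ C' * (ν / (C' + 1)) := mul_le_mul_of_nonneg_left hr₁t hC'0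
      _ = ν * (C' / (C' + 1)) := by ring
      _ ≤ ν * 1 := by
          refine mul_le_mul_of_nonneg_left ?_ hν.le
          rw [div_le_one (by linarith)]
          linarith
      _ = ν := mul_one ν
  refine ⟨r₁, ν / r₁ ^ 2, hr₁0, hr₁2, by positivity, ?_⟩
  intro h g K hhc hh0 hhi hhM hg hK
  set D₁ : Set E3 := {x | rad x < r₁} with hD₁
  set D₂ : Set E3 := {x | rad x < r₂} with hD₂
  have hD₁m : MeasurableSet D₁ := measurableSet_lt continuous_rad.measurable measurable_const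
  have hD₂m : MeasurableSet D₂ := measurableSet_lt continuous_rad.measurable measurable_const
  have hD12 : D₁ ⊆ D₂ := fun x hx => lt_trans hx hr₁2
  have hgc : Continuous g := hg.continuous
  have hradm : Measurable rad := continuous_rad.measurable
  set G1 : ℝ := ∫ x, gsq g x with hG1
  set G2 : ℝ := ∫ x, g x ^ 2 with hG2
  have hG10 : 0 ≤ G1 := integral_nonneg fun x => gsq_nonneg g x
  have hG20 : 0 ≤ G2 := integral_nonneg fun x => sq_nonneg _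
  set Y : ℝ := G1 + G2 / r₁ ^ 2 with hY
  have hY0 : 0 ≤ Y := by positivity
  have hf1 : ∀ x, 0 ≤ h x ^ n * rad x ^ (-s) := fun x => by
    have := rad_nonneg x
    have := hh0 x
    positivity
  have hf2 : ∀ x, 0 ≤ g x ^ 2 * rad x ^ (-2 + δ) := fun x => by
    have := rad_nonneg x
    positivity
  have hf3 : ∀ x, 0 ≤ g x ^ 6 := fun x => by positivity
  have hm1 : Measurable fun x => h x ^ n * rad x ^ (-s) :=
    (hhc.measurable.pow_const _).mul (hradm.pow_const _)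
  have hm2 : Measurable fun x => g x ^ 2 * rad x ^ (-2 + δ) :=
    (hgc.pow 2).measurable.mul (hradm.pow_const _)
  have hm3 : Measurable fun x => g x ^ 6 := (hgc.pow 6).measurable
  have hI1 : ∫⁻ x in D₁, ENNReal.ofReal (h x ^ n * rad x ^ (-s)) ≤ ENNReal.ofReal M₁ := by
    calc ∫⁻ x in D₁, ENNReal.ofReal (h x ^ n * rad x ^ (-s))
        ≤ ∫⁻ x in D₂, ENNReal.ofReal (h x ^ n * rad x ^ (-s)) := lintegral_mono_set hD12
      _ = ENNReal.ofReal (∫ x in D₂, h x ^ n * rad x ^ (-s)) := by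
          rw [ofReal_integral_eq_lintegral_ofReal hhi (ae_of_all _ hf1)]
      _ ≤ ENNReal.ofReal M₁ := ENNReal.ofReal_le_ofReal hhM
  have hI2 : ∫⁻ x in D₁, ENNReal.ofReal (g x ^ 2 * rad x ^ (-2 + δ)) ≤
      ENNReal.ofReal (C₀ / δ ^ 2 * r₁ ^ δ * Y) := by
    have h1 := hH δ r₁ hδ0 hδ2 hr₁0 g K hg hK
    rw [← ofReal_integral_eq_lintegral_ofReal h1.1 (ae_of_all _ hf2)]
    exact ENNReal.ofReal_le_ofReal h1.2
  have hI3 : ∫⁻ x in D₁, ENNReal.ofReal (g x ^ 6) ≤ ENNReal.ofReal ((SB * Y) ^ 3) := by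
    have h1 := SB_spec hg hK
    refine (setLIntegral_le_lintegral _ _).trans ?_
    rw [← ofReal_integral_eq_lintegral_ofReal h1.1 (ae_of_all _ hf3)]
    refine ENNReal.ofReal_le_ofReal ?_
    have h2 : 0 ≤ ∫ x, g x ^ 6 := integral_nonneg hf3
    have h3 : (∫ x, g x ^ 6) = ((∫ x, g x ^ 6) ^ (1 / 3 : ℝ)) ^ 3 := by
      rw [← Real.rpow_natCast, ← Real.rpow_mul h2]
      norm_num
    rw [h3]
    refine pow_le_pow_left₀ (by positivity) (h1.2.trans ?_) 3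
    refine mul_le_mul_of_nonneg_left ?_ hSB.le
    rw [← hG1, hY]
    have : 0 ≤ G2 / r₁ ^ 2 := by positivity
    linarith
  have hHol : ∫⁻ x in D₁, ENNReal.ofReal (h x / rsq x * g x ^ 2) ≤
      (∫⁻ x in D₁, ENNReal.ofReal (h x ^ n * rad x ^ (-s))) ^ a *
      (∫⁻ x in D₁, ENNReal.ofReal (g x ^ 2 * rad x ^ (-2 + δ))) ^ b *
      (∫⁻ x in D₁, ENNReal.ofReal (g x ^ 6)) ^ c := by
    have h1 := ENNReal.lintegral_prod_norm_pow_le (μ := volume.restrict D₁) (Finset.univ : Finset (Fin 3))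
      (f := ![fun x => ENNReal.ofReal (h x ^ n * rad x ^ (-s)),
        fun x => ENNReal.ofReal (g x ^ 2 * rad x ^ (-2 + δ)), fun x => ENNReal.ofReal (g x ^ 6)])
      (by
        intro i _
        fin_cases i
        · exact (ENNReal.measurable_ofReal.comp hm1).aemeasurable
        · exact (ENNReal.measurable_ofReal.comp hm2).aemeasurable
        · exact (ENNReal.measurable_ofReal.comp hm3).aemeasurable)
      (p := ![a, b, c])
      (by
        rw [Fin.sum_univ_three]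
        exact habc)
      (by
        intro i _
        fin_cases i
        · exact ha0
        · exact hb0.le
        · exact hc0)
    simp only [Fin.prod_univ_three, Matrix.cons_val_zero, Matrix.cons_val_one, Matrix.cons_val_two,
      Matrix.head_cons, Matrix.tail_cons] at h1
    refine le_trans (le_of_eq ?_) h1
    refine lintegral_congr_ae ?_
    filter_upwards [ae_restrict_of_ae axis_null] with x hx
    rw [ENNReal.ofReal_rpow_of_nonneg (hf1 x) ha0, ENNReal.ofReal_rpow_of_nonneg (hf2 x) hb0.le,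
      ENNReal.ofReal_rpow_of_nonneg (hf3 x) hc0, ← ENNReal.ofReal_mul (Real.rpow_nonneg (hf1 x) _),
      ← ENNReal.ofReal_mul (mul_nonneg (Real.rpow_nonneg (hf1 x) _) (Real.rpow_nonneg (hf2 x) _))]
    congr 1
    rw [ha, hb, hc, KEY_pt hn hδm (hh0 x) hx, rad_sq']
  have hfin : ∫⁻ x in D₁, ENNReal.ofReal (h x / rsq x * g x ^ 2) ≤ ENNReal.ofReal (ν * Y) := by
    have hp1 : 0 ≤ M₁ ^ a := by positivity
    have hp2 : 0 ≤ C₀ / δ ^ 2 * r₁ ^ δ * Y := by positivity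
    have hp3 : 0 ≤ (SB * Y) ^ 3 := by positivity
    refine hHol.trans ?_
    refine (mul_le_mul' (mul_le_mul' (ENNReal.rpow_le_rpow hI1 ha0) (ENNReal.rpow_le_rpow hI2 hb0.le))
      (ENNReal.rpow_le_rpow hI3 hc0)).trans ?_
    rw [ENNReal.ofReal_rpow_of_nonneg hM ha0, ENNReal.ofReal_rpow_of_nonneg hp2 hb0.le,
      ENNReal.ofReal_rpow_of_nonneg hp3 hc0, ← ENNReal.ofReal_mul hp1,
      ← ENNReal.ofReal_mul (mul_nonneg hp1 (Real.rpow_nonneg hp2 _))]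
    refine ENNReal.ofReal_le_ofReal ?_
    have e1 : (C₀ / δ ^ 2 * r₁ ^ δ * Y) ^ b = (C₀ / δ ^ 2) ^ b * r₁ ^ (δ * b) * Y ^ b := by
      rw [Real.mul_rpow (by positivity) hY0, Real.mul_rpow (by positivity) (by positivity),
        ← Real.rpow_mul hr₁0.le]
    have e2 : ((SB * Y) ^ 3) ^ c = SB ^ (3 * c) * Y ^ (3 * c) := by
      rw [← Real.rpow_natCast, ← Real.rpow_mul (by positivity), Real.mul_rpow hSB.le hY0]
      norm_num
    have e3 : Y ^ b * Y ^ (3 * c) = Y := by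
      rw [← Real.rpow_add_of_nonneg hY0 hb0.le (by positivity), hbc, Real.rpow_one]
    rw [e1, e2]
    calc M₁ ^ a * ((C₀ / δ ^ 2) ^ b * r₁ ^ (δ * b) * Y ^ b) * (SB ^ (3 * c) * Y ^ (3 * c))
        = (M₁ ^ a * (C₀ / δ ^ 2) ^ b * SB ^ (3 * c)) * r₁ ^ (δ * b) * (Y ^ b * Y ^ (3 * c)) := by ring
      _ = C' * r₁ ^ (δ * b) * Y := by rw [e3, ← hC']
      _ ≤ ν * Y := mul_le_mul_of_nonneg_right hCr hY0
  have hfn : ∀ x, 0 ≤ h x / rsq x * g x ^ 2 := fun x => by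
    have := hh0 x
    have := KEY_rsq_nonneg x
    positivity
  have hfm : Measurable fun x => h x / rsq x * g x ^ 2 :=
    (hhc.measurable.div KEY_rsq_cont.measurable).mul (hgc.pow 2).measurable
  rw [integral_eq_lintegral_of_nonneg_ae (ae_of_all _ hfn) hfm.aestronglyMeasurable]
  refine (ENNReal.toReal_le_of_le_ofReal (by positivity) hfin).trans (le_of_eq ?_)
  rw [hY]
  ring

end Pool.Agent.H87.NS
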