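/-
ROW GCl. The criterion for the circulation. PROOF. `γ t x = circ (u t) x`, `|γ| ≤ M` (circ_max), `γ = rsq V`, `γ² / rsq = V² rsq`, `|γ| / rsq = |V|` off the axis. Let `ν = 1/48`, apply key twice: `h = γ²`, `n = m`, and `h = |γ|`, `n = 2m`
(`(γ²)^m = |γ|^(2m) = γ^(2m)`; natural and real powers), to get `r₁`, `C` (the smaller `r₁`; note: if the estimate holds with `r₁` it holds with a smaller one).
For `t ∈ [a, T)`: `∫ V² rsq gsq W = ∑ i, ∫ V² rsq (pd i W)² ≤ ∑ i (ν ∫ gsq (pd i W) + C ∫ (pd i W)²) + (M²/r₁²) ∫ gsq W ≤ 6 ν ∫ gsq Om + C' ∫ Om²` (outside `rad < r₁`: `V² rsq = γ²/rsq ≤ M²/r₁²`; el3 and el2 with `F = sW`, `H = sO`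
(lap_sW, sW_rot); `sW (u t)` is `DB 3`: `sW v = avk 1 (- pd 2 v_2)`, uDB, avk_DB).
`4 ∫ |V| |f| |Om| ≤ 2 ∫ |V| (f² + Om²) ≤ 2 ν (∫ gsq f + ∫ gsq Om) + C'' (∫ f² + ∫ Om²)`, `f = pd 2 V`. Add f_energy and O_energy: with `X = ∫ f² + ∫ Om²`, `D = ∫ gsq f + ∫ gsq Om`:
`X(b) + (1/2) ∫_a'^b D ≤ X(a') + C₃ ∫_a'^b X` for `a ≤ a' ≤ b < T`. gron (NS/Wb.lean) with `w = 1`, `l = C₃`, `Q = T`: `X(b) ≤ X(a) exp (2 C₃ T + 1)`, then `∫_a^b D ≤ C₄`. So
`∫_a^b ww Om ≤ CW ∫ (√∫Om² + √∫gsq Om) ≤ C₅` (`√y ≤ 1 + y`), bounded_of_int.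
-/
import Pool.Agent.H87.NB.FIbp
import Pool.Agent.H87.NB.EL3
import Pool.Agent.H87.NB.KEY
import Pool.Agent.H87.NS.ThmA

set_option autoImplicit false

open Set Filter Topology MeasureTheory
open scoped ContDiff

namespace Pool.Agent.H87.NS

open Pool.Agent.H16

theorem GCl_split {Φ g : E3 → ℝ} {r₁ c₁ A : ℝ} (hi : Integrable (fun x => Φ x * g x ^ 2))
    (hg : Integrable (fun x => g x ^ 2)) (h1 : ∫ x in {x | rad x < r₁}, Φ x * g x ^ 2 ≤ A)
    (h2 : ∀ x, r₁ ≤ rad x → Φ x ≤ c₁) (hc : 0 ≤ c₁) :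
    ∫ x, Φ x * g x ^ 2 ≤ A + c₁ * ∫ x, g x ^ 2 := by
  have hm : MeasurableSet {x : E3 | rad x < r₁} :=
    measurableSet_lt Init_rad_cont.measurable measurable_const
  rw [← integral_add_compl hm hi]
  refine add_le_add h1 ?_
  have h3 : ∫ x in {x : E3 | rad x < r₁}ᶜ, Φ x * g x ^ 2 ≤ ∫ x in {x : E3 | rad x < r₁}ᶜ, c₁ * g x ^ 2 := by
    refine setIntegral_mono_on hi.integrableOn (hg.const_mul c₁).integrableOn hm.compl fun x hx => ?_
    have hx' : r₁ ≤ rad x := not_lt.1 hx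
    exact mul_le_mul_of_nonneg_right (h2 x hx') (sq_nonneg _)
  refine h3.trans ?_
  rw [integral_const_mul]
  refine mul_le_mul_of_nonneg_left ?_ hc
  exact setIntegral_le_integral hg (Eventually.of_forall fun x => sq_nonneg _)

variable {T : ℝ} {u : ℝ → E3 → E3} {p : ℝ → E3 → ℝ}

theorem GCl_circ_cont (h : IsHInfAxisymNS T u p) {t : ℝ} (ht : t ∈ Ico 0 T) : Continuous (circ (u t)) := by
  have h1 : circ (u t) = fun x => rsq x * sV (u t) x := funext fun x => circ_eq (axF_of h.ns ht) x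
  rw [h1]
  exact LevX_rsq_cd.continuous.mul (svw_smooth h.ns ht).1.continuous

theorem GCl_int (h : IsHInfAxisymNS T u p) {m : ℕ} {s r₂ : ℝ} (hm : 4 ≤ m) (hs : 3 < s) (hs4 : s ≤ 4) (hr : 0 < r₂)
    {t : ℝ} (ht : t ∈ Ico 0 T) :
    IntegrableOn (fun x => circ (u t) x ^ (2 * m) * rad x ^ (-s)) {x | rad x < r₂} := by
  obtain ⟨K, hK⟩ := svwDB h ht.2
  have hV := DB_BL (hK t ⟨ht.1, le_rfl⟩).1
  have hK0 : 0 ≤ K := BL_nonneg hV
  have hms : MeasurableSet {x : E3 | rad x < r₂} :=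
    measurableSet_lt Init_rad_cont.measurable measurable_const
  have hmr : (4 : ℝ) ≤ m := by exact_mod_cast hm
  refine Integrable.mono' (g := fun x => r₂ ^ (4 * (m : ℝ) - s) * K ^ (2 * m - 2) * sV (u t) x ^ 2)
    (hV.2.1.const_mul _).integrableOn ?_ ?_
  · refine Measurable.aestronglyMeasurable ?_
    exact ((GCl_circ_cont h ht).measurable.pow_const _).mul (Init_rad_cont.measurable.pow_const _)
  · refine ae_restrict_of_forall_mem hms fun x hx => ?_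
    have hx' : rad x < r₂ := hx
    have hr0 : 0 ≤ rad x := rad_nonneg x
    have hR : 0 ≤ r₂ ^ (4 * (m : ℝ) - s) * K ^ (2 * m - 2) * sV (u t) x ^ 2 := by positivity
    rcases hr0.lt_or_eq with h0 | h0
    · rw [circ_eq (axF_of h.ns ht) x, ← rad_sq' x, norm_mul, norm_pow, Real.norm_eq_abs, Real.norm_eq_abs, abs_mul,
        abs_of_nonneg (sq_nonneg (rad x)), abs_of_nonneg (Real.rpow_nonneg hr0 _), mul_pow]
      have e1 : (rad x ^ 2) ^ (2 * m) * rad x ^ (-s) = rad x ^ (4 * (m : ℝ) - s) := by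
        rw [← pow_mul, ← Real.rpow_natCast, ← Real.rpow_add h0]
        congr 1
        push_cast
        ring
      have e2 : |sV (u t) x| ^ (2 * m) = |sV (u t) x| ^ (2 * m - 2) * sV (u t) x ^ 2 := by
        rw [← sq_abs (sV (u t) x), ← pow_add]
        congr 1
        omega
      calc (rad x ^ 2) ^ (2 * m) * |sV (u t) x| ^ (2 * m) * rad x ^ (-s)
          = ((rad x ^ 2) ^ (2 * m) * rad x ^ (-s)) * |sV (u t) x| ^ (2 * m) := by ring
        _ = rad x ^ (4 * (m : ℝ) - s) * (|sV (u t) x| ^ (2 * m - 2) * sV (u t) x ^ 2) := by rw [e1, e2]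
        _ ≤ r₂ ^ (4 * (m : ℝ) - s) * (K ^ (2 * m - 2) * sV (u t) x ^ 2) := by
            refine mul_le_mul ?_ ?_ (by positivity) (by positivity)
            · exact Real.rpow_le_rpow hr0 hx'.le (by linarith)
            · exact mul_le_mul_of_nonneg_right (pow_le_pow_left₀ (abs_nonneg _) (hV.1 x) _) (sq_nonneg _)
        _ = _ := by ring
    · rw [← h0, Real.zero_rpow (by linarith), mul_zero, norm_zero]
      exact hR

theorem GCl_pos {M r₁ : ℝ} (hr : 0 < r₁) {x : E3} (hx : r₁ ≤ rad x) : 0 < rsq x ∧ r₁ ^ 2 ≤ rsq x := by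
  have h1 : 0 < rad x := hr.trans_le hx
  refine ⟨rsq_pos h1, ?_⟩
  rw [← rad_sq' x]
  exact pow_le_pow_left₀ hr.le hx 2

theorem GCl_A (h : IsHInfAxisymNS T u p) {t : ℝ} (ht : t ∈ Ico 0 T) {M r₁ C ν : ℝ} (hr : 0 < r₁) (hC : 0 ≤ C) (hν : 0 ≤ ν)
    (hM : ∀ x, |circ (u t) x| ≤ M)
    (hk : ∀ (g : E3 → ℝ) (K : ℝ), ContDiff ℝ 1 g → DB 1 K g →
      ∫ x in {x | rad x < r₁}, circ (u t) x ^ 2 / rsq x * g x ^ 2 ≤ ν * (∫ x, gsq g x) + C * ∫ x, g x ^ 2) :
    ∫ x, sV (u t) x ^ 2 * rsq x * gsq (sW (u t)) x ≤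
      6 * ν * (∫ x, gsq (sO (u t)) x) + (C + M ^ 2 / r₁ ^ 2) * ∫ x, sO (u t) x ^ 2 := by
  have hv : AxF (u t) := axF_of h.ns ht
  have htt : t ∈ Icc 0 t := ⟨ht.1, le_rfl⟩
  obtain ⟨hsV, hsW, hsO⟩ := svw_smooth h.ns ht
  obtain ⟨K0, hK0⟩ := uDB h ht.2
  obtain ⟨K1, hK1⟩ := svwDB h ht.2
  obtain ⟨K2, hK2⟩ := f_int h ht.2
  have hs := h.ns.slice ht
  have hW3 : DB 3 (2 * K0) (sW (u t)) := by
    have h1 : sW (u t) = avk 1 (fun y => - pd 2 (fun z => u t z 2) y) := by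
      rw [← Bds1_div hs]
      rfl
    rw [h1]
    exact avk_DB (pd_smooth (Bds1_proj_smooth hs 2) 2).neg (k := 1) le_rfl
      (Bds1_neg_DB (DB_pd (hK0 t htt 2) 2))
  have hW2 : DB 2 (2 * K0) (sW (u t)) := DB_mono hW3 (by norm_num) le_rfl
  have hO2 : DB 2 K1 (sO (u t)) := (hK1 t htt).2.2
  have hO1 : DB 1 K1 (sO (u t)) := DB_mono hO2 (by norm_num) le_rfl
  have hrot : RotI (sW (u t)) := fun θ x => sW_rot hv θ x
  have e2 := el2 hsW hsO hrot hW2 hO1 (fun x hx => lap_sW hv hx)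
  have e3 := el3 hsW hsO hrot hW3 hO2 (fun x hx => lap_sW hv hx)
  have hc0 : 0 ≤ M ^ 2 / r₁ ^ 2 := by positivity
  obtain ⟨hIi, -⟩ := hK2 t htt
  have hii : ∀ i : Fin 3, Integrable (fun x => (sV (u t) x ^ 2 * rsq x) * pd i (sW (u t)) x ^ 2) := by
    intro i
    refine Integrable.mono' hIi ?_ (Eventually.of_forall fun x => ?_)
    · exact (((hsV.continuous.pow 2).mul LevX_rsq_cd.continuous).mul
        ((pd_smooth hsW i).continuous.pow 2)).aestronglyMeasurable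
    · have h0 : 0 ≤ sV (u t) x ^ 2 * rsq x := mul_nonneg (sq_nonneg _) (EVe_rsq_nonneg x)
      rw [Real.norm_of_nonneg (mul_nonneg h0 (sq_nonneg _))]
      refine mul_le_mul_of_nonneg_left ?_ h0
      unfold gsq
      exact Finset.single_le_sum (f := fun i => pd i (sW (u t)) x ^ 2) (fun _ _ => sq_nonneg _)
        (Finset.mem_univ i)
  have hpi : ∀ i : Fin 3, Integrable (fun x => pd i (sW (u t)) x ^ 2) := fun i => (DB_BL (DB_pd hW3 i)).2.1
  have hone : ∀ i : Fin 3, ∫ x, (sV (u t) x ^ 2 * rsq x) * pd i (sW (u t)) x ^ 2 ≤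
      (ν * (∫ x, gsq (pd i (sW (u t))) x) + C * ∫ x, pd i (sW (u t)) x ^ 2) +
        M ^ 2 / r₁ ^ 2 * ∫ x, pd i (sW (u t)) x ^ 2 := by
    intro i
    have hpd1 : ContDiff ℝ 1 (pd i (sW (u t))) := (pd_smooth hsW i).of_le (by exact_mod_cast le_top)
    have h1 := hk (pd i (sW (u t))) (2 * K0) hpd1 (DB_mono (DB_pd hW3 i) (by norm_num) le_rfl)
    have heq : ∀ x, circ (u t) x ^ 2 / rsq x = sV (u t) x ^ 2 * rsq x := by
      intro x
      rw [circ_eq hv x]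
      rcases (EVe_rsq_nonneg x).lt_or_eq with h0 | h0
      · field_simp
      · rw [← h0]
        simp
    simp only [heq] at h1
    refine GCl_split (hii i) (hpi i) h1 (fun x hx => ?_) hc0
    obtain ⟨h2, h3⟩ := GCl_pos (M := M) hr hx
    rw [← heq x]
    have h4 : circ (u t) x ^ 2 ≤ M ^ 2 := by
      rw [← sq_abs]
      exact pow_le_pow_left₀ (abs_nonneg _) (hM x) 2
    exact div_le_div₀ (sq_nonneg _) h4 (by positivity) h3
  have hsum : ∫ x, sV (u t) x ^ 2 * rsq x * gsq (sW (u t)) x =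
      ∑ i : Fin 3, ∫ x, (sV (u t) x ^ 2 * rsq x) * pd i (sW (u t)) x ^ 2 := by
    rw [← integral_finsetSum _ fun i _ => hii i]
    refine integral_congr_ae (Eventually.of_forall fun x => ?_)
    simp only [gsq, Finset.mul_sum]
  have hgW : ∫ x, gsq (sW (u t)) x = ∑ i : Fin 3, ∫ x, pd i (sW (u t)) x ^ 2 := by
    rw [← integral_finsetSum _ fun i _ => hpi i]
    rfl
  have hp2 : ∫ x, pd 2 (sO (u t)) x ^ 2 ≤ ∫ x, gsq (sO (u t)) x := by
    refine integral_mono (DB_BL (DB_pd hO2 2)).2.1 (gsq_int hO1).1 fun x => ?_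
    simp only [gsq]
    exact Finset.single_le_sum (f := fun i => pd i (sO (u t)) x ^ 2) (fun _ _ => sq_nonneg _)
      (Finset.mem_univ 2)
  rw [hsum]
  refine (Finset.sum_le_sum fun i _ => hone i).trans ?_
  rw [Finset.sum_add_distrib, Finset.sum_add_distrib, ← Finset.mul_sum, ← Finset.mul_sum, ← Finset.mul_sum, ← hgW]
  have h5 : ν * ∑ i : Fin 3, ∫ x, gsq (pd i (sW (u t))) x ≤ ν * (6 * ∫ x, gsq (sO (u t)) x) :=
    mul_le_mul_of_nonneg_left (e3.trans (by linarith)) hν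
  have h6 : (C + M ^ 2 / r₁ ^ 2) * ∫ x, gsq (sW (u t)) x ≤ (C + M ^ 2 / r₁ ^ 2) * ∫ x, sO (u t) x ^ 2 :=
    mul_le_mul_of_nonneg_left e2 (by linarith)
  linarith

theorem GCl_B1 (h : IsHInfAxisymNS T u p) {t : ℝ} (ht : t ∈ Ico 0 T) {M r₁ C ν K : ℝ} (hr : 0 < r₁)
    (hM : ∀ x, |circ (u t) x| ≤ M)
    (hk : ∀ (g : E3 → ℝ) (K : ℝ), ContDiff ℝ 1 g → DB 1 K g →
      ∫ x in {x | rad x < r₁}, |circ (u t) x| / rsq x * g x ^ 2 ≤ ν * (∫ x, gsq g x) + C * ∫ x, g x ^ 2)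
    {g : E3 → ℝ} (hg : ContDiff ℝ 1 g) (hgD : DB 1 K g) :
    Integrable (fun x => |sV (u t) x| * g x ^ 2) ∧
    ∫ x, |sV (u t) x| * g x ^ 2 ≤ ν * (∫ x, gsq g x) + (C + M / r₁ ^ 2) * ∫ x, g x ^ 2 := by
  have hv : AxF (u t) := axF_of h.ns ht
  have htt : t ∈ Icc 0 t := ⟨ht.1, le_rfl⟩
  have hM0 : 0 ≤ M := (abs_nonneg _).trans (hM 0)
  obtain ⟨hsV, -, -⟩ := svw_smooth h.ns ht
  obtain ⟨K1, hK1⟩ := svwDB h ht.2
  have hV := DB_BL (hK1 t htt).1
  have hi : Integrable (fun x => |sV (u t) x| * g x ^ 2) := by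
    refine Integrable.mono' ((DB_BL hgD).2.1.const_mul K1) ?_ (Eventually.of_forall fun x => ?_)
    · exact (hsV.continuous.abs.mul (hg.continuous.pow 2)).aestronglyMeasurable
    · rw [Real.norm_of_nonneg (mul_nonneg (abs_nonneg _) (sq_nonneg _))]
      exact mul_le_mul_of_nonneg_right (hV.1 x) (sq_nonneg _)
  refine ⟨hi, ?_⟩
  have h1 := hk g K hg hgD
  have heq : ∀ x, 0 < rsq x → |circ (u t) x| / rsq x = |sV (u t) x| := by
    intro x hx
    rw [circ_eq hv x, abs_mul, abs_of_pos hx]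
    field_simp
  have h2 : ∫ x in {x | rad x < r₁}, |circ (u t) x| / rsq x * g x ^ 2 =
      ∫ x in {x | rad x < r₁}, |sV (u t) x| * g x ^ 2 := by
    refine integral_congr_ae ?_
    refine ae_restrict_of_ae ?_
    filter_upwards [axis_null] with x hx
    rw [heq x (rsq_pos hx)]
  rw [h2] at h1
  have h3 := GCl_split (c₁ := M / r₁ ^ 2) hi (DB_BL hgD).2.1 h1 (fun x hx => ?_) (by positivity)
  · linarith
  · obtain ⟨h4, h5⟩ := GCl_pos (M := M) hr hx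
    rw [← heq x h4]
    exact div_le_div₀ hM0 (hM x) (by positivity) h5

theorem GCl_B (h : IsHInfAxisymNS T u p) {t : ℝ} (ht : t ∈ Ico 0 T) {M r₁ C ν : ℝ} (hr : 0 < r₁)
    (hM : ∀ x, |circ (u t) x| ≤ M)
    (hk : ∀ (g : E3 → ℝ) (K : ℝ), ContDiff ℝ 1 g → DB 1 K g →
      ∫ x in {x | rad x < r₁}, |circ (u t) x| / rsq x * g x ^ 2 ≤ ν * (∫ x, gsq g x) + C * ∫ x, g x ^ 2) :
    2 * ∫ x, |sV (u t) x| * |pd 2 (sV (u t)) x| * |sO (u t) x| ≤
      ν * ((∫ x, gsq (pd 2 (sV (u t))) x) + ∫ x, gsq (sO (u t)) x) +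
        (C + M / r₁ ^ 2) * ((∫ x, pd 2 (sV (u t)) x ^ 2) + ∫ x, sO (u t) x ^ 2) := by
  have htt : t ∈ Icc 0 t := ⟨ht.1, le_rfl⟩
  obtain ⟨hsV, -, hsO⟩ := svw_smooth h.ns ht
  obtain ⟨K1, hK1⟩ := svwDB h ht.2
  have h1 := GCl_B1 h ht hr hM hk ((pd_smooth hsV 2).of_le (by exact_mod_cast le_top)) (DB_pd (hK1 t htt).1 2)
  have h2 := GCl_B1 h ht hr hM hk (hsO.of_le (by exact_mod_cast le_top))
    (DB_mono (hK1 t htt).2.2 (by norm_num) le_rfl)
  have h3 : 2 * ∫ x, |sV (u t) x| * |pd 2 (sV (u t)) x| * |sO (u t) x| ≤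
      (∫ x, |sV (u t) x| * pd 2 (sV (u t)) x ^ 2) + ∫ x, |sV (u t) x| * sO (u t) x ^ 2 := by
    rw [← integral_const_mul, ← integral_add h1.1 h2.1]
    refine integral_mono_of_nonneg (Eventually.of_forall fun x => by positivity) (h1.1.add h2.1)
      (Eventually.of_forall fun x => ?_)
    show 2 * (|sV (u t) x| * |pd 2 (sV (u t)) x| * |sO (u t) x|) ≤
      |sV (u t) x| * pd 2 (sV (u t)) x ^ 2 + |sV (u t) x| * sO (u t) x ^ 2
    rw [← sq_abs (pd 2 (sV (u t)) x), ← sq_abs (sO (u t) x)]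
    nlinarith [mul_nonneg (abs_nonneg (sV (u t) x)) (sq_nonneg (|pd 2 (sV (u t)) x| - |sO (u t) x|))]
  have h4 := h1.2
  have h5 := h2.2
  linarith

private theorem GCl_sqrt {z : ℝ} (hz : 0 ≤ z) : √z ≤ 1 + z := by
  rw [Real.sqrt_le_left (by linarith)]
  nlinarith

private theorem GCl_ww {f : E3 → ℝ} : ww f ≤ CW * (2 + (∫ x, f x ^ 2) + ∫ x, gsq f x) := by
  unfold ww
  refine mul_le_mul_of_nonneg_left ?_ CW_pos.le
  have h1 := GCl_sqrt (z := ∫ x, f x ^ 2) (integral_nonneg fun x => sq_nonneg _)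
  have h2 := GCl_sqrt (z := ∫ x, gsq f x) (integral_nonneg fun x => gsq_nonneg f x)
  linarith

theorem GCl_end (h : IsHInfAxisymNS T u p) {a C₁ C₂ : ℝ} (ha : 0 ≤ a) (haT : a < T) (hC₁ : 0 ≤ C₁) (hC₂ : 0 ≤ C₂)
    (hA : ∀ t ∈ Ico a T, ∫ x, sV (u t) x ^ 2 * rsq x * gsq (sW (u t)) x ≤
      1 / 8 * (∫ x, gsq (sO (u t)) x) + C₁ * ∫ x, sO (u t) x ^ 2)
    (hB : ∀ t ∈ Ico a T, 4 * ∫ x, |sV (u t) x| * |pd 2 (sV (u t)) x| * |sO (u t) x| ≤
      1 / 24 * ((∫ x, gsq (pd 2 (sV (u t))) x) + ∫ x, gsq (sO (u t)) x) +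
        C₂ * ((∫ x, pd 2 (sV (u t)) x ^ 2) + ∫ x, sO (u t) x ^ 2)) :
    ∃ C : ℝ, ∀ t ∈ Ico 0 T, ∀ x, |sV (u t) x| ≤ C := by
  have F := flow_of h
  have hf := evo_f h
  have hj : JFun (fun s : ℝ => s ^ (2 * 1)) := pow_jfun (m := 1) le_rfl
  obtain ⟨X, hX⟩ : ∃ X : ℝ → ℝ, X = fun t => (∫ x, pd 2 (sV (u t)) x ^ 2) + ∫ x, sO (u t) x ^ 2 := ⟨_, rfl⟩
  obtain ⟨D, hD⟩ : ∃ D : ℝ → ℝ, D = fun t => (∫ x, gsq (pd 2 (sV (u t))) x) + ∫ x, gsq (sO (u t)) x := ⟨_, rfl⟩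
  have hX0 : ∀ t, 0 ≤ X t := fun t => by
    rw [hX]
    exact add_nonneg (integral_nonneg fun x => sq_nonneg _) (integral_nonneg fun x => sq_nonneg _)
  have hD0 : ∀ t, 0 ≤ D t := fun t => by
    rw [hD]
    exact add_nonneg (integral_nonneg fun x => gsq_nonneg _ x) (integral_nonneg fun x => gsq_nonneg _ x)
  have e21 : (2 * 1 : ℕ) = 2 := by norm_num
  have iif : ∀ s t, 0 ≤ s → s ≤ t → t < T → IntervalIntegrable (fun r => ∫ x, pd 2 (sV (u r)) x ^ 2) volume s t := by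
    intro s t h0 h1 h2
    have := (evo_ii hf hj h0 h1 h2).1
    simpa only [e21] using this
  have iiO : ∀ s t, 0 ≤ s → s ≤ t → t < T → IntervalIntegrable (fun r => ∫ x, sO (u r) x ^ 2) volume s t := by
    intro s t h0 h1 h2
    have := (evo_ii F.evO hj h0 h1 h2).1
    simpa only [e21] using this
  have iig : ∀ s t, 0 ≤ s → s ≤ t → t < T → IntervalIntegrable (fun r => ∫ x, gsq (pd 2 (sV (u r))) x) volume s t :=
    fun s t h0 h1 h2 => (f_ii h h0 h1 h2).2.1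
  have iiG : ∀ s t, 0 ≤ s → s ≤ t → t < T → IntervalIntegrable (fun r => ∫ x, gsq (sO (u r)) x) volume s t := by
    intro s t h0 h1 h2
    have h3 := (evo_ii F.evO hj h0 h1 h2).2.1
    have h4 : ∀ s : ℝ, deriv (deriv (fun s : ℝ => s ^ (2 * 1))) s = 2 := by
      intro s
      rw [pow_deriv2]
      norm_num
    simp only [h4] at h3
    refine (h3.const_mul (1 / 2)).congr ?_
    intro r _
    simp only [integral_const_mul]
    ring
  have iiX : ∀ s t, 0 ≤ s → s ≤ t → t < T → IntervalIntegrable X volume s t := by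
    intro s t h0 h1 h2
    rw [hX]
    exact (iif s t h0 h1 h2).add (iiO s t h0 h1 h2)
  have iiD : ∀ s t, 0 ≤ s → s ≤ t → t < T → IntervalIntegrable D volume s t := by
    intro s t h0 h1 h2
    rw [hD]
    exact (iig s t h0 h1 h2).add (iiG s t h0 h1 h2)
  obtain ⟨C₃, hC₃⟩ : ∃ C₃ : ℝ, C₃ = C₁ + C₂ := ⟨_, rfl⟩
  have hC₃0 : 0 ≤ C₃ := by rw [hC₃]; linarith
  have hen : ∀ s t, a ≤ s → s ≤ t → t < T → X t + 1 / 2 * ∫ r in s..t, D r ≤ X s + C₃ * ∫ r in s..t, X r := by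
    intro s t has hst htT
    have h0s : 0 ≤ s := ha.trans has
    have h1 := f_energy h h0s hst htT
    have h2 := O_energy h h0s hst htT
    obtain ⟨iA, -, iB⟩ := f_ii h h0s hst htT
    have h3 : ∫ r in s..t, ((∫ x, sV (u r) x ^ 2 * rsq x * gsq (sW (u r)) x) +
        4 * ∫ x, |sV (u r) x| * |pd 2 (sV (u r)) x| * |sO (u r) x|) ≤
        ∫ r in s..t, (1 / 6 * D r + C₃ * X r) := by
      refine intervalIntegral.integral_mono_on hst (iA.add (iB.const_mul 4))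
        (((iiD s t h0s hst htT).const_mul _).add ((iiX s t h0s hst htT).const_mul _)) fun r hr => ?_
      have hr' : r ∈ Ico a T := ⟨has.trans hr.1, hr.2.trans_lt htT⟩
      have h4 := hA r hr'
      have h5 := hB r hr'
      have h6 : 0 ≤ ∫ x, gsq (pd 2 (sV (u r))) x := integral_nonneg fun x => gsq_nonneg _ x
      have h7 : 0 ≤ ∫ x, pd 2 (sV (u r)) x ^ 2 := integral_nonneg fun x => sq_nonneg _
      have h8 := mul_nonneg hC₁ h7
      rw [hX, hD, hC₃]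
      simp only
      linarith
    rw [intervalIntegral.integral_add iA (iB.const_mul 4), intervalIntegral.integral_const_mul,
      intervalIntegral.integral_add ((iiD s t h0s hst htT).const_mul _) ((iiX s t h0s hst htT).const_mul _),
      intervalIntegral.integral_const_mul, intervalIntegral.integral_const_mul] at h3
    have h9 : ∫ r in s..t, D r = (∫ r in s..t, ∫ x, gsq (pd 2 (sV (u r))) x) +
        ∫ r in s..t, ∫ x, gsq (sO (u r)) x := by
      rw [hD]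
      exact intervalIntegral.integral_add (iig s t h0s hst htT) (iiG s t h0s hst htT)
    have h10 : 0 ≤ ∫ r in s..t, ∫ x, gsq (pd 2 (sV (u r))) x :=
      intervalIntegral.integral_nonneg hst fun r _ => integral_nonneg fun x => gsq_nonneg _ x
    have h11 : 0 ≤ ∫ r in s..t, ∫ x, gsq (sO (u r)) x :=
      intervalIntegral.integral_nonneg hst fun r _ => integral_nonneg fun x => gsq_nonneg _ x
    have h12 : X t = (∫ x, pd 2 (sV (u t)) x ^ 2) + ∫ x, sO (u t) x ^ 2 := by rw [hX]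
    have h13 : X s = (∫ x, pd 2 (sV (u s)) x ^ 2) + ∫ x, sO (u s) x ^ 2 := by rw [hX]
    rw [h12, h13]
    rw [h9] at h3 ⊢
    linarith
  have hT0 : 0 ≤ T := ha.trans haT.le
  obtain ⟨XX, hXX⟩ : ∃ XX : ℝ, XX = X a * Real.exp (2 * C₃ * T + 1) := ⟨_, rfl⟩
  have hXX0 : 0 ≤ XX := by
    rw [hXX]
    exact mul_nonneg (hX0 a) (Real.exp_pos _).le
  have hgr : ∀ b ∈ Ico a T, X b ≤ XX := by
    intro b hb
    obtain ⟨K1, hK1⟩ := evo_bd hf hj hb.2
    obtain ⟨K2, hK2⟩ := evo_bd F.evO hj hb.2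
    rw [hXX]
    refine gron (y := X) (w := fun _ => 1) (l := C₃) (Q := T) (Y := K1 + K2) hb.1 intervalIntegrable_const
      (fun _ _ => zero_le_one) ?_ (fun t _ => hX0 t) (fun t ht => ?_) ?_ hC₃0 ?_
    · rw [intervalIntegral.integral_const, smul_eq_mul, mul_one]
      linarith [hb.2]
    · have ht' : t ∈ Icc 0 b := ⟨ha.trans ht.1, ht.2⟩
      have h1 := (hK1 t ht').1.2
      have h2 := (hK2 t ht').1.2
      rw [e21] at h1 h2
      rw [hX]
      refine add_le_add ?_ ?_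
      · exact (le_abs_self _).trans (TI_bound h1)
      · exact (le_abs_self _).trans (TI_bound h2)
    · simp only [one_mul]
      exact iiX a b ha hb.1 hb.2
    · intro s t has hst htb
      have h1 := hen s t has hst (htb.trans_lt hb.2)
      have h2 : 0 ≤ ∫ r in s..t, D r := intervalIntegral.integral_nonneg hst fun r _ => hD0 r
      simp only [one_mul]
      linarith
  refine bounded_of_int F (Q := CW * ((2 + XX) * T + 2 * (X a + C₃ * (XX * T)))) ha haT fun b hb => ?_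
  have h1 := hen a b le_rfl hb.1 hb.2
  have h2 : ∫ r in a..b, X r ≤ XX * T := by
    have h3 : ∫ r in a..b, X r ≤ ∫ r in a..b, XX := by
      refine intervalIntegral.integral_mono_on hb.1 (iiX a b ha hb.1 hb.2) intervalIntegrable_const fun r hr => ?_
      exact hgr r ⟨hr.1, hr.2.trans_lt hb.2⟩
    rw [intervalIntegral.integral_const, smul_eq_mul] at h3
    refine h3.trans ?_
    rw [mul_comm]
    exact mul_le_mul_of_nonneg_left (by linarith [hb.2]) hXX0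
  have h4 : ∫ r in a..b, D r ≤ 2 * (X a + C₃ * (XX * T)) := by
    have h5 := mul_le_mul_of_nonneg_left h2 hC₃0
    have h6 := hX0 b
    linarith
  have h7 : ∫ t in a..b, ww (sO (u t)) ≤ ∫ t in a..b, CW * ((2 + XX) + D t) := by
    refine intervalIntegral.integral_mono_on hb.1 (ww_ii F ha hb.1 hb.2)
      ((intervalIntegrable_const.add (iiD a b ha hb.1 hb.2)).const_mul CW) fun t ht => ?_
    refine GCl_ww.trans (mul_le_mul_of_nonneg_left ?_ CW_pos.le)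
    have h8 := hgr t ⟨ht.1, ht.2.trans_lt hb.2⟩
    have h9 : 0 ≤ ∫ x, gsq (pd 2 (sV (u t))) x := integral_nonneg fun x => gsq_nonneg _ x
    have h10 : 0 ≤ ∫ x, pd 2 (sV (u t)) x ^ 2 := integral_nonneg fun x => sq_nonneg _
    rw [hX] at h8
    simp only at h8
    rw [hD]
    simp only
    linarith
  refine h7.trans ?_
  rw [intervalIntegral.integral_const_mul,
    intervalIntegral.integral_add intervalIntegrable_const (iiD a b ha hb.1 hb.2), intervalIntegral.integral_const,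
    smul_eq_mul]
  refine mul_le_mul_of_nonneg_left ?_ CW_pos.le
  have h10 : (b - a) * (2 + XX) ≤ (2 + XX) * T := by
    rw [mul_comm]
    exact mul_le_mul_of_nonneg_left (by linarith [hb.2]) (by linarith)
  linarith

theorem gam_crit {T : ℝ} {u : ℝ → E3 → E3} {p : ℝ → E3 → ℝ} (h : IsHInfAxisymNS T u p) {M M₁ r₂ s a : ℝ} {m : ℕ}
    (hm : 4 ≤ m) (hs : 3 < s) (hs4 : s ≤ 4) (h0 : ∀ x, |circ (u 0) x| ≤ M) (hr : 0 < r₂) (ha : 0 ≤ a) (haT : a < T)
    (hA : ∀ t ∈ Ico a T, ∫ x in {x | rad x < r₂}, circ (u t) x ^ (2 * m) * rad x ^ (-s) ≤ M₁) :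
    ∃ C : ℝ, ∀ t ∈ Ico 0 T, ∀ x, |sV (u t) x| ≤ C := by
  have hms : MeasurableSet {x : E3 | rad x < r₂} :=
    measurableSet_lt Init_rad_cont.measurable measurable_const
  have hM₁ : 0 ≤ M₁ := by
    refine le_trans ?_ (hA a ⟨le_rfl, haT⟩)
    refine setIntegral_nonneg hms fun x _ => ?_
    refine mul_nonneg ?_ (Real.rpow_nonneg (rad_nonneg x) _)
    rw [pow_mul]
    positivity
  have hcm := h.ns.circ_max h0
  have hM0 : 0 ≤ M := (abs_nonneg _).trans (h0 0)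
  have hmr : (4 : ℝ) ≤ m := by exact_mod_cast hm
  obtain ⟨r₁, C, hr₁, -, hC, hk⟩ := key (n := (m : ℝ)) (s := s) (M₁ := M₁) (r₂ := r₂) (ν := 1 / 48)
    (by linarith) hs hs4 hM₁ hr (by norm_num)
  obtain ⟨r₁', C', hr₁', -, hC', hk'⟩ := key (n := ((2 * m : ℕ) : ℝ)) (s := s) (M₁ := M₁) (r₂ := r₂) (ν := 1 / 48)
    (by push_cast; linarith) hs hs4 hM₁ hr (by norm_num)
  refine GCl_end h ha haT (C₁ := C + M ^ 2 / r₁ ^ 2) (C₂ := 2 * (C' + M / r₁' ^ 2)) (by positivity) (by positivity)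
    (fun t ht => ?_) (fun t ht => ?_)
  · have ht' : t ∈ Ico 0 T := ⟨ha.trans ht.1, ht.2⟩
    have e1 : ∀ x, (circ (u t) x ^ 2) ^ (m : ℝ) * rad x ^ (-s) = circ (u t) x ^ (2 * m) * rad x ^ (-s) := by
      intro x
      rw [Real.rpow_natCast, ← pow_mul]
    have h1 := GCl_A h ht' hr₁ hC (by norm_num : (0 : ℝ) ≤ 1 / 48) (hcm t ht') (fun g K hg hgD =>
      hk (fun x => circ (u t) x ^ 2) g K ((GCl_circ_cont h ht').pow 2) (fun x => sq_nonneg _)
        (by simp only [e1]; exact GCl_int h hm hs hs4 hr ht') (by simp only [e1]; exact hA t ht) hg hgD)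
    linarith
  · have ht' : t ∈ Ico 0 T := ⟨ha.trans ht.1, ht.2⟩
    have e1 : ∀ x, |circ (u t) x| ^ ((2 * m : ℕ) : ℝ) * rad x ^ (-s) = circ (u t) x ^ (2 * m) * rad x ^ (-s) := by
      intro x
      rw [Real.rpow_natCast, Even.pow_abs ⟨m, by ring⟩]
    have h1 := GCl_B h ht' hr₁' (hcm t ht') (fun g K hg hgD =>
      hk' (fun x => |circ (u t) x|) g K (GCl_circ_cont h ht').abs (fun x => abs_nonneg _)
        (by simp only [e1]; exact GCl_int h hm hs hs4 hr ht') (by simp only [e1]; exact hA t ht) hg hgD)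
    linarith

end Pool.Agent.H87.NS
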