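/-
ROW RG. `G = V^m om`. PROOF. rg_id: pointwise `gsq (f q) = q² gsq f + 2 f q ∇f·∇q + f² gsq q` and `div (f² q ∇q) = 2 f q ∇f·∇q + f² (gsq q + q lap q)`, so `q² gsq f = gsq (f q) + f² q lap q - div (f² q ∇q)`, and the
integral of the divergence vanishes (`f², f ∇f` integrable, `q, ∇q, lap q` bounded; cut-offs, or ibp applied to `f² q`-type products).
gm_int: `Gm`, `Hm`: `V^m om` with `V` (DB 2, uniformly on `[0, b]`, svwDB) bounded and square integrable, `om` and its first derivatives bounded (om_bd), `om` of class C² (om_cd); `Hm ≤ C V²` (exponent `γ - 1 ≥ 0`, `rsq ≤ r₀²/2` on the support of `chi`);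
`W` bounded by svwDB. gm_ii: measurability in time of the space integrals (joint measurability / continuity as in NS/StepV4.lean, NS/EnG or NC files) and the bounds of gm_int.
-/
import Pool.Agent.H87.NB.EvW
import Pool.Agent.H87.NS.Pig
import Pool.Agent.H87.NS.Sob

set_option autoImplicit false

open Set Filter Topology MeasureTheory
open scoped ContDiff

namespace Pool.Agent.H87.NS

open Pool.Agent.H16

/-- `|circ|^m r^(-s/2)` with cut-off, up to sign. -/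
noncomputable def Gm (m : ℕ) (s r₀ : ℝ) (v : E3 → E3) (x : E3) : ℝ := sV v x ^ m * om (2 * m - s / 2) r₀ x

/-- `Gm ^ 2 / rsq`. -/
noncomputable def Hm (m : ℕ) (s r₀ : ℝ) (v : E3 → E3) (x : E3) : ℝ :=
  sV v x ^ (2 * m) * (rsq x ^ (2 * m - s / 2 - 1 : ℝ) * chi r₀ x ^ 2)

/-- the cut-off functions -/
theorem RG_cut : ∃ (φ : ℕ → E3 → ℝ) (κ : ℕ → ℝ), (∀ n, ContDiff ℝ 1 (φ n)) ∧
    (∀ n, HasCompactSupport (φ n)) ∧ (∀ n x, |φ n x| ≤ 1) ∧
    (∀ x, Tendsto (fun n => φ n x) atTop (𝓝 1)) ∧ (∀ n i x, |pd i (φ n) x| ≤ κ n) ∧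
    Tendsto κ atTop (𝓝 0) := by
  obtain ⟨C, hC0, hC⟩ := Sob_C1
  have hc : ∀ n : ℕ, ((n : ℝ) + 1)⁻¹ ≠ 0 := fun n => by positivity
  have hlim : Tendsto (fun n : ℕ => ((n : ℝ) + 1)⁻¹) atTop (𝓝 0) := by
    have := tendsto_one_div_add_atTop_nhds_zero_nat (𝕜 := ℝ)
    simpa using this
  refine ⟨fun n y => Sob_bump (((n : ℝ) + 1)⁻¹ • y), fun n => ((n : ℝ) + 1)⁻¹ * (C * ‖e 0‖ + C * ‖e 1‖ + C * ‖e 2‖),
    fun n => (Sob_bump.contDiff (n := 1)).comp (contDiff_const_smul _), fun n => ?_, fun n x => ?_, fun x => ?_,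
    fun n i x => ?_, ?_⟩
  · exact Sob_bump.hasCompactSupport.comp_homeomorph (Homeomorph.smulOfNeZero _ (hc n))
  · rw [abs_of_nonneg Sob_bump.nonneg]
    exact Sob_bump.le_one
  · have h1 : Tendsto (fun n : ℕ => ((n : ℝ) + 1)⁻¹ • x) atTop (𝓝 ((0 : ℝ) • x)) := hlim.smul_const x
    rw [zero_smul] at h1
    refine Tendsto.congr' ?_ tendsto_const_nhds
    have h2 : ∀ᶠ y in 𝓝 (0 : E3), (Sob_bump : E3 → ℝ) y = 1 := Sob_bump.eventuallyEq_one
    filter_upwards [h1.eventually h2] with n hn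
    exact hn.symm
  · have hφ : HasFDerivAt (fun y : E3 => Sob_bump (((n : ℝ) + 1)⁻¹ • y))
        (((n : ℝ) + 1)⁻¹ • fderiv ℝ (Sob_bump : E3 → ℝ) (((n : ℝ) + 1)⁻¹ • x)) x := by
      have h1 : HasFDerivAt (Sob_bump : E3 → ℝ) (fderiv ℝ (Sob_bump : E3 → ℝ) (((n : ℝ) + 1)⁻¹ • x))
          (((n : ℝ) + 1)⁻¹ • x) :=
        ((Sob_bump.contDiff (n := 1)).differentiable (by norm_num) _).hasFDerivAt
      have h2 : HasFDerivAt (fun y : E3 => ((n : ℝ) + 1)⁻¹ • y) (((n : ℝ) + 1)⁻¹ • ContinuousLinearMap.id ℝ E3) x :=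
        (hasFDerivAt_id x).const_smul (((n : ℝ) + 1)⁻¹)
      have h3 := h1.comp x h2
      rw [ContinuousLinearMap.comp_smul, ContinuousLinearMap.comp_id] at h3
      exact h3
    unfold pd
    rw [hφ.fderiv]
    simp only [_root_.smul_apply, smul_eq_mul, abs_mul]
    rw [abs_of_nonneg (by positivity : (0 : ℝ) ≤ ((n : ℝ) + 1)⁻¹)]
    refine mul_le_mul_of_nonneg_left ?_ (by positivity)
    have h4 : |fderiv ℝ (Sob_bump : E3 → ℝ) (((n : ℝ) + 1)⁻¹ • x) (e i)| ≤ C * ‖e i‖ := by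
      rw [← Real.norm_eq_abs]
      refine (ContinuousLinearMap.le_opNorm _ _).trans ?_
      exact mul_le_mul_of_nonneg_right (hC _) (norm_nonneg _)
    refine h4.trans ?_
    have n0 := norm_nonneg (e 0)
    have n1 := norm_nonneg (e 1)
    have n2 := norm_nonneg (e 2)
    have m0 := mul_nonneg hC0 n0
    have m1 := mul_nonneg hC0 n1
    have m2 := mul_nonneg hC0 n2
    fin_cases i
    · show C * ‖e 0‖ ≤ _
      linarith
    · show C * ‖e 1‖ ≤ _
      linarith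
    · show C * ‖e 2‖ ≤ _
      linarith
  · have := hlim.mul_const (C * ‖e 0‖ + C * ‖e 1‖ + C * ‖e 2‖)
    simpa using this

/-- the divergence theorem -/
theorem RG_div {F : Fin 3 → E3 → ℝ} (hF : ∀ i, ContDiff ℝ 1 (F i)) (hi : ∀ i, Integrable (F i))
    (hd : Integrable (fun x => ∑ i, pd i (F i) x)) : ∫ x, ∑ i, pd i (F i) x = 0 := by
  obtain ⟨φ, κ, h1, h2, h3, h4, h5, h6⟩ := RG_cut
  have hb1 : ∀ n i, Integrable (fun x => pd i (φ n) x * F i x) := fun n i => by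
    refine Integrable.bdd_mul (c := κ n) (hi i) (pd_cont (h1 n) i).aestronglyMeasurable
      (Eventually.of_forall fun x => ?_)
    exact h5 n i x
  have hb2 : ∀ n, Integrable (fun x => φ n x * ∑ i, pd i (F i) x) := fun n => by
    refine Integrable.bdd_mul (c := 1) hd (h1 n).continuous.aestronglyMeasurable
      (Eventually.of_forall fun x => ?_)
    exact h3 n x
  have hid : ∀ n, ∫ x, φ n x * ∑ i, pd i (F i) x = - ∫ x, ∑ i, pd i (φ n) x * F i x := by
    intro n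
    have e1 : ∀ i, ∫ x, pd i (fun y => φ n y * F i y) x = 0 := fun i =>
      (LevX_int ((h1 n).mul (hF i)) (h2 n).mul_right i).2
    have e1' : ∀ i ∈ (Finset.univ : Finset (Fin 3)), Integrable (fun x => pd i (fun y => φ n y * F i y) x) := fun i _ =>
      (LevX_int ((h1 n).mul (hF i)) (h2 n).mul_right i).1
    have e2 : ∫ x, ∑ i, pd i (fun y => φ n y * F i y) x = 0 := by
      rw [integral_finsetSum _ e1']
      exact Finset.sum_eq_zero fun i _ => e1 i
    have e3 : ∀ x, ∑ i, pd i (fun y => φ n y * F i y) x =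
        (φ n x * ∑ i, pd i (F i) x) + ∑ i, pd i (φ n) x * F i x := by
      intro x
      rw [Finset.mul_sum, ← Finset.sum_add_distrib]
      refine Finset.sum_congr rfl fun i _ => ?_
      rw [LevX_pd_mul ((h1 n).differentiable one_ne_zero x) ((hF i).differentiable one_ne_zero x)]
      ring
    simp only [e3] at e2
    rw [integral_add (hb2 n) (integrable_finsetSum _ fun i _ => hb1 n i)] at e2
    linarith
  have hl1 : Tendsto (fun n => ∫ x, φ n x * ∑ i, pd i (F i) x) atTop (𝓝 (∫ x, ∑ i, pd i (F i) x)) := by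
    refine tendsto_integral_of_dominated_convergence (fun x => |∑ i, pd i (F i) x|) (fun n => (hb2 n).aestronglyMeasurable)
      hd.abs (fun n => Eventually.of_forall fun x => ?_) (Eventually.of_forall fun x => ?_)
    · rw [Real.norm_eq_abs, abs_mul]
      exact mul_le_of_le_one_left (abs_nonneg _) (h3 n x)
    · have := (h4 x).mul_const (∑ i, pd i (F i) x)
      rwa [one_mul] at this
  have hl2 : Tendsto (fun n => - ∫ x, ∑ i, pd i (φ n) x * F i x) atTop (𝓝 0) := by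
    have hJ : Integrable (fun x => ∑ i, |F i x|) := integrable_finsetSum _ fun i _ => (hi i).abs
    refine squeeze_zero_norm (a := fun n => κ n * ∫ x, ∑ i, |F i x|) (fun n => ?_) ?_
    · rw [norm_neg]
      refine (norm_integral_le_integral_norm _).trans ?_
      rw [← integral_const_mul]
      refine integral_mono (integrable_finsetSum _ fun i _ => hb1 n i).norm (hJ.const_mul _) fun x => ?_
      show ‖∑ i, pd i (φ n) x * F i x‖ ≤ κ n * ∑ i, |F i x|
      refine (norm_sum_le _ _).trans ?_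
      rw [Finset.mul_sum]
      refine Finset.sum_le_sum fun i _ => ?_
      rw [Real.norm_eq_abs, abs_mul]
      exact mul_le_mul_of_nonneg_right (h5 n i x) (abs_nonneg _)
    · have := h6.mul_const (∫ x, ∑ i, |F i x|)
      rwa [zero_mul] at this
  simp only [hid] at hl1
  exact tendsto_nhds_unique hl1 hl2

theorem rg_id {f q : E3 → ℝ} (hf : ContDiff ℝ ∞ f) {K : ℝ} (hK : DB 1 K f) (hq : ContDiff ℝ 2 q) {C : ℝ}
    (hC : ∀ x, |q x| ≤ C ∧ (∀ i, |pd i q x| ≤ C) ∧ |lap q x| ≤ C) :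
    ∫ x, q x ^ 2 * gsq f x = (∫ x, gsq (fun y => f y * q y) x) + ∫ x, f x ^ 2 * (q x * lap q x) := by
  have hf1 : ContDiff ℝ 1 f := hf.of_le (by simp)
  have hq1 : ContDiff ℝ 1 q := hq.of_le (by norm_num)
  have hC0 : 0 ≤ C := (abs_nonneg _).trans (hC 0).1
  have hpq : ∀ i, ContDiff ℝ 1 (pd i q) := fun i => by
    unfold pd
    exact (hq.fderiv_right (m := 1) (by norm_num)).clm_apply contDiff_const
  have hlapc : Continuous (lap q) := by
    have : lap q = fun x => ∑ i, pd i (pd i q) x := rfl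
    rw [this]
    exact continuous_finsetSum _ fun i _ => pd_cont (hpq i) i
  have hqc := hq.continuous
  have hf2 : Integrable (fun x => f x ^ 2) := (DB_BL hK).2.1
  have hbd : ∀ (g : E3 → ℝ), Continuous g → ∀ B : ℝ, (∀ x, |g x| ≤ B) → Integrable (fun x => f x ^ 2 * g x) := by
    intro g hg B hB
    have h1 := Integrable.bdd_mul (c := B) hf2 hg.aestronglyMeasurable (Eventually.of_forall hB)
    refine h1.congr (Eventually.of_forall fun x => ?_)
    exact mul_comm _ _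
  have hqq : ∀ i x, |q x * pd i q x| ≤ C * C := fun i x => by
    rw [abs_mul]
    exact mul_le_mul (hC x).1 ((hC x).2.1 i) (abs_nonneg _) hC0
  have hgq : ∀ x, |gsq q x| ≤ 3 * C ^ 2 := fun x => by
    rw [abs_of_nonneg (gsq_nonneg q x)]
    unfold gsq
    have h1 : ∀ i, pd i q x ^ 2 ≤ C ^ 2 := fun i => sq_le_sq' (by linarith [(abs_le.1 ((hC x).2.1 i)).1])
      (abs_le.1 ((hC x).2.1 i)).2
    have h2 := Finset.sum_le_card_nsmul (Finset.univ : Finset (Fin 3)) (fun i => pd i q x ^ 2) _ fun i _ => h1 i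
    simpa using h2
  have hgc : Continuous (gsq q) := by
    have : gsq q = fun x => ∑ i, pd i q x ^ 2 := rfl
    rw [this]
    exact continuous_finsetSum _ fun i _ => (pd_cont hq1 i).pow 2
  set F : Fin 3 → E3 → ℝ := fun i x => f x ^ 2 * (q x * pd i q x) with hF
  have hFc : ∀ i, ContDiff ℝ 1 (F i) := fun i => (hf1.pow 2).mul (hq1.mul (hpq i))
  have hFi : ∀ i, Integrable (F i) := fun i => hbd _ (hqc.mul (pd_cont hq1 i)) _ (hqq i)
  have hpd : ∀ i x, pd i (F i) x = 2 * (f x * pd i f x * (q x * pd i q x)) +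
      f x ^ 2 * (pd i q x ^ 2 + q x * pd i (pd i q) x) := by
    intro i x
    have d1 := hf1.differentiable one_ne_zero x
    have d2 := hq1.differentiable one_ne_zero x
    have d3 := (hpq i).differentiable one_ne_zero x
    have e1 : pd i (fun y => f y ^ 2) x = 2 * (f x * pd i f x) := by
      have : (fun y => f y ^ 2) = fun y => f y * f y := by funext y; ring
      rw [this, LevX_pd_mul d1 d1]
      ring
    have e2 : pd i (fun y => q y * pd i q y) x = pd i q x ^ 2 + q x * pd i (pd i q) x := by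
      rw [LevX_pd_mul d2 d3]
      ring
    have e3 := LevX_pd_mul (f := fun y => f y ^ 2) (g := fun y => q y * pd i q y) (d1.pow 2) (d2.mul d3) i
    show pd i (fun y => f y ^ 2 * (q y * pd i q y)) x = _
    rw [e3, e1, e2]
    ring
  have hsum : ∀ x, ∑ i, pd i (F i) x = 2 * (∑ i, f x * pd i f x * (q x * pd i q x)) +
      (f x ^ 2 * gsq q x + f x ^ 2 * (q x * lap q x)) := by
    intro x
    simp only [hpd]
    unfold gsq lap
    rw [Finset.sum_add_distrib, ← Finset.mul_sum, ← Finset.mul_sum, Finset.sum_add_distrib, ← Finset.mul_sum]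
    ring
  have hI1 : Integrable (fun x => ∑ i, f x * pd i f x * (q x * pd i q x)) := by
    refine integrable_finsetSum _ fun i _ => ?_
    have h1 := BL_mul hf1.continuous (pd_cont hf1 i) (DB_BL hK) (hK.2 i)
    have h2 := Integrable.bdd_mul (c := C * C) h1 (hqc.mul (pd_cont hq1 i)).aestronglyMeasurable
      (Eventually.of_forall (hqq i))
    refine h2.congr (Eventually.of_forall fun x => ?_)
    exact mul_comm _ _
  have hI2 : Integrable (fun x => f x ^ 2 * gsq q x) := hbd _ hgc _ hgq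
  have hI3 : Integrable (fun x => f x ^ 2 * (q x * lap q x)) := hbd _ (hqc.mul hlapc) (C * C) fun x => by
    rw [abs_mul]
    exact mul_le_mul (hC x).1 (hC x).2.2 (abs_nonneg _) hC0
  have hI4 : Integrable (fun x => q x ^ 2 * gsq f x) := by
    refine Integrable.bdd_mul (c := C ^ 2) (gsq_int hK).1 (hqc.pow 2).aestronglyMeasurable
      (Eventually.of_forall fun x => ?_)
    rw [Real.norm_eq_abs, abs_pow]
    exact pow_le_pow_left₀ (abs_nonneg _) (hC x).1 2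
  have hI5 : Integrable (fun x => ∑ i, pd i (F i) x) := by
    simp only [hsum]
    exact (hI1.const_mul 2).add (hI2.add hI3)
  have hz := RG_div hFc hFi hI5
  have hg : ∀ x, gsq (fun y => f y * q y) x = q x ^ 2 * gsq f x - f x ^ 2 * (q x * lap q x) + ∑ i, pd i (F i) x := by
    intro x
    rw [hsum]
    have e1 : ∀ i, pd i (fun y => f y * q y) x = pd i f x * q x + f x * pd i q x := fun i => by
      rw [LevX_pd_mul (hf1.differentiable one_ne_zero x) (hq1.differentiable one_ne_zero x)]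
    unfold gsq
    simp only [e1, Fin.sum_univ_three]
    ring
  simp only [hg]
  have hI45 : Integrable (fun x => q x ^ 2 * gsq f x - f x ^ 2 * (q x * lap q x)) := hI4.sub hI3
  rw [integral_add hI45 hI5, integral_sub hI4 hI3, hz]
  ring

theorem RG_dom {K C₁ C₂ : ℝ} {f₁ f₂ g : E3 → ℝ} (hC₁ : 0 ≤ C₁) (hC₂ : 0 ≤ C₂) (hg : Continuous g)
    (h1 : BL K f₁) (h2 : BL K f₂) (h : ∀ x, |g x| ≤ C₁ * |f₁ x| + C₂ * |f₂ x|) :
    BL ((C₁ + C₂) * K + 2 * (C₁ ^ 2 + C₂ ^ 2) * K) g := by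
  have hK := BL_nonneg h1
  have hsq : ∀ x, g x ^ 2 ≤ 2 * C₁ ^ 2 * f₁ x ^ 2 + 2 * C₂ ^ 2 * f₂ x ^ 2 := by
    intro x
    have a1 := pow_le_pow_left₀ (abs_nonneg _) (h x) 2
    rw [sq_abs] at a1
    have a2 := sq_nonneg (C₁ * |f₁ x| - C₂ * |f₂ x|)
    have a3 := sq_abs (f₁ x)
    have a4 := sq_abs (f₂ x)
    have a5 : (C₁ * |f₁ x| + C₂ * |f₂ x|) ^ 2 ≤ 2 * (C₁ * |f₁ x|) ^ 2 + 2 * (C₂ * |f₂ x|) ^ 2 := by nlinarith
    rw [mul_pow, mul_pow, a3, a4] at a5
    linarith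
  have hi : Integrable (fun x => 2 * C₁ ^ 2 * f₁ x ^ 2 + 2 * C₂ ^ 2 * f₂ x ^ 2) :=
    (h1.2.1.const_mul _).add (h2.2.1.const_mul _)
  have hint : Integrable (fun x => g x ^ 2) := by
    refine Integrable.mono' hi (hg.pow 2).aestronglyMeasurable (Eventually.of_forall fun x => ?_)
    rw [Real.norm_eq_abs, abs_of_nonneg (sq_nonneg _)]
    exact hsq x
  refine ⟨fun x => ?_, hint, ?_⟩
  · have a1 := mul_le_mul_of_nonneg_left (h1.1 x) hC₁
    have a2 := mul_le_mul_of_nonneg_left (h2.1 x) hC₂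
    have a3 : 0 ≤ 2 * (C₁ ^ 2 + C₂ ^ 2) * K := by positivity
    have := h x
    linarith
  · have a1 : ∫ x, g x ^ 2 ≤ ∫ x, (2 * C₁ ^ 2 * f₁ x ^ 2 + 2 * C₂ ^ 2 * f₂ x ^ 2) := integral_mono hint hi hsq
    rw [integral_add (h1.2.1.const_mul _) (h2.2.1.const_mul _), integral_const_mul, integral_const_mul] at a1
    have a2 := mul_le_mul_of_nonneg_left h1.2.2 (by positivity : 0 ≤ 2 * C₁ ^ 2)
    have a3 := mul_le_mul_of_nonneg_left h2.2.2 (by positivity : 0 ≤ 2 * C₂ ^ 2)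
    have a4 : 0 ≤ (C₁ + C₂) * K := by positivity
    linarith

theorem RG_rsq_cont : Continuous rsq := by
  have : rsq = fun x : E3 => x 0 ^ 2 + x 1 ^ 2 := rfl
  rw [this]
  fun_prop

theorem RG_rsq_nonneg (x : E3) : 0 ≤ rsq x := by
  unfold rsq
  positivity

theorem RG_chi_cont (r₀ : ℝ) : Continuous (chi r₀) := by
  have : chi r₀ = fun x => hc (rsq x / r₀ ^ 2) := rfl
  rw [this]
  exact hc_smooth.continuous.comp (RG_rsq_cont.div_const _)

theorem RG_w0 {γ r₀ : ℝ} (hγ : 4 ≤ γ) (hr : 0 < r₀) : Continuous (fun x : E3 => rsq x ^ (γ - 1) * chi r₀ x ^ 2) ∧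
    ∃ C : ℝ, 0 ≤ C ∧ ∀ x : E3, 0 ≤ rsq x ^ (γ - 1) * chi r₀ x ^ 2 ∧ rsq x ^ (γ - 1) * chi r₀ x ^ 2 ≤ C := by
  constructor
  · refine Continuous.mul ?_ ((RG_chi_cont r₀).pow 2)
    exact RG_rsq_cont.rpow_const fun x => Or.inr (by linarith)
  · refine ⟨(r₀ ^ 2 / 2) ^ (γ - 1), by positivity, fun x => ⟨?_, ?_⟩⟩
    · exact mul_nonneg (Real.rpow_nonneg (RG_rsq_nonneg x) _) (sq_nonneg _)
    · obtain ⟨b0, b1, -, b3⟩ := hc_bd (rsq x / r₀ ^ 2)
      by_cases hx : 1 / 2 ≤ rsq x / r₀ ^ 2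
      · have h1 : chi r₀ x = 0 := b3 hx
        rw [h1]
        simp only [ne_eq, OfNat.ofNat_ne_zero, not_false_eq_true, zero_pow, mul_zero]
        positivity
      · push Not at hx
        rw [div_lt_iff₀ (by positivity)] at hx
        have h2 : chi r₀ x ^ 2 ≤ 1 := pow_le_one₀ b0 b1
        have h3 : rsq x ^ (γ - 1) ≤ (r₀ ^ 2 / 2) ^ (γ - 1) :=
          Real.rpow_le_rpow (RG_rsq_nonneg x) (by linarith) (by linarith)
        calc rsq x ^ (γ - 1) * chi r₀ x ^ 2 ≤ rsq x ^ (γ - 1) * 1 :=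
              mul_le_mul_of_nonneg_left h2 (Real.rpow_nonneg (RG_rsq_nonneg x) _)
          _ ≤ _ := by rw [mul_one]; exact h3

theorem RG_pdG {m : ℕ} {γ r₀ : ℝ} (hγ : 4 ≤ γ) (hr : 0 < r₀) {V : E3 → ℝ} (hV : ContDiff ℝ ∞ V) (i : Fin 3) (x : E3) :
    pd i (fun y => V y ^ (m + 1) * om γ r₀ y) x =
      ((m + 1 : ℕ) : ℝ) * V x ^ m * pd i V x * om γ r₀ x + V x ^ (m + 1) * pd i (om γ r₀) x := by
  have hV1 : ContDiff ℝ 1 V := hV.of_le (by simp)
  have ho : ContDiff ℝ 1 (om γ r₀) := (om_cd hγ hr).of_le (by norm_num)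
  have e1 : pd i (fun y => V y ^ (m + 1)) x = ((m + 1 : ℕ) : ℝ) * V x ^ m * pd i V x := by
    rw [comp_pd (H := fun s => s ^ (m + 1)) hV1 (contDiff_id.pow _) i x]
    congr 1
    simp
  rw [LevX_pd_mul ((hV1.pow _).differentiable one_ne_zero x) (ho.differentiable one_ne_zero x), e1]

theorem gm_int {T : ℝ} {u : ℝ → E3 → E3} {p : ℝ → E3 → ℝ} (h : IsHInfAxisymNS T u p) {m : ℕ} (hm : 4 ≤ m) {s r₀ : ℝ}
    (hs : 3 ≤ s) (hs4 : s ≤ 4) (hr : 0 < r₀) {b : ℝ} (hb : b < T) : ∃ K : ℝ, ∀ t ∈ Icc 0 b,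
    ContDiff ℝ 1 (Gm m s r₀ (u t)) ∧ DB 1 K (Gm m s r₀ (u t)) ∧ Integrable (Hm m s r₀ (u t)) ∧
    ∫ x, Hm m s r₀ (u t) x ≤ K ∧ (∀ x, Gm m s r₀ (u t) x ^ 2 ≤ K * sV (u t) x ^ 2) ∧ (∀ x, |sW (u t) x| ≤ K) := by
  obtain ⟨n, rfl⟩ : ∃ n, m = n + 1 := ⟨m - 1, by omega⟩
  have hmr : (4 : ℝ) ≤ ((n + 1 : ℕ) : ℝ) := by exact_mod_cast hm
  obtain ⟨γ, hγ⟩ : ∃ γ : ℝ, γ = 2 * ((n + 1 : ℕ) : ℝ) - s / 2 := ⟨_, rfl⟩
  have hγ4 : 4 ≤ γ := by rw [hγ]; linarith
  obtain ⟨C, hC0, hC⟩ := om_bd hγ4 hr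
  obtain ⟨hw, Cw, hCw0, hCw⟩ := RG_w0 hγ4 hr
  obtain ⟨K, hK⟩ := svwDB h hb
  have ho : ContDiff ℝ 1 (om γ r₀) := (om_cd hγ4 hr).of_le (by norm_num)
  set P : ℝ := |K| ^ n with hP
  have hP0 : 0 ≤ P := by positivity
  set C1 : ℝ := P * C with hC1
  set C2 : ℝ := ((n + 1 : ℕ) : ℝ) * P * C with hC2
  have hC10 : 0 ≤ C1 := by positivity
  have hC20 : 0 ≤ C2 := by positivity
  set L1 : ℝ := (C1 + 0) * K + 2 * (C1 ^ 2 + 0 ^ 2) * K with hL1
  set L2 : ℝ := (C2 + C1) * K + 2 * (C2 ^ 2 + C1 ^ 2) * K with hL2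
  refine ⟨max (max L1 L2) (max (P ^ 2 * Cw * K) (max (C1 ^ 2) K)), fun t ht => ?_⟩
  set M : ℝ := max (max L1 L2) (max (P ^ 2 * Cw * K) (max (C1 ^ 2) K)) with hM
  have hM1 : L1 ≤ M := (le_max_left _ _).trans (le_max_left _ _)
  have hM2 : L2 ≤ M := (le_max_right _ _).trans (le_max_left _ _)
  have hM3 : P ^ 2 * Cw * K ≤ M := (le_max_left _ _).trans (le_max_right _ _)
  have hM4 : C1 ^ 2 ≤ M := (le_max_left _ _).trans ((le_max_right _ _).trans (le_max_right _ _))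
  have hM5 : K ≤ M := (le_max_right _ _).trans ((le_max_right _ _).trans (le_max_right _ _))
  have ht' : t ∈ Ico 0 T := ⟨ht.1, ht.2.trans_lt hb⟩
  obtain ⟨hVs, -, -⟩ := svw_smooth h.ns ht'
  obtain ⟨hDV, hDW, -⟩ := hK t ht
  have hBV := DB_BL hDV
  have hK0 : 0 ≤ K := BL_nonneg hBV
  have hVn : ∀ x, |sV (u t) x| ^ n ≤ P := fun x =>
    pow_le_pow_left₀ (abs_nonneg _) ((hBV.1 x).trans (le_abs_self K)) n
  have hGeq : Gm (n + 1) s r₀ (u t) = fun y => sV (u t) y ^ (n + 1) * om γ r₀ y := by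
    funext y
    unfold Gm
    rw [hγ]
  have hVm : ∀ x, |sV (u t) x ^ (n + 1)| ≤ P * |sV (u t) x| := fun x => by
    rw [abs_pow, pow_succ]
    exact mul_le_mul_of_nonneg_right (hVn x) (abs_nonneg _)
  have hGb : ∀ x, |Gm (n + 1) s r₀ (u t) x| ≤ C1 * |sV (u t) x| := fun x => by
    rw [hGeq]
    show |sV (u t) x ^ (n + 1) * om γ r₀ x| ≤ _
    rw [abs_mul]
    calc |sV (u t) x ^ (n + 1)| * |om γ r₀ x| ≤ (P * |sV (u t) x|) * C :=
          mul_le_mul (hVm x) (hC x).1 (abs_nonneg _) (by positivity)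
      _ = C1 * |sV (u t) x| := by rw [hC1]; ring
  have hV1 : ContDiff ℝ 1 (sV (u t)) := hVs.of_le (by simp)
  have hGc : ContDiff ℝ 1 (Gm (n + 1) s r₀ (u t)) := by
    rw [hGeq]
    exact (hV1.pow _).mul ho
  refine ⟨hGc, ⟨?_, fun i => ?_⟩, ?_, ?_, ?_, ?_⟩
  · refine BL_mono ?_ hM1
    refine RG_dom hC10 le_rfl hGc.continuous hBV hBV fun x => ?_
    rw [zero_mul, add_zero]
    exact hGb x
  · refine BL_mono ?_ hM2
    refine RG_dom hC20 hC10 (pd_cont hGc i) (DB_BL (hDV.2 i)) hBV fun x => ?_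
    rw [hGeq, RG_pdG hγ4 hr hVs]
    refine (abs_add_le _ _).trans (add_le_add ?_ ?_)
    · rw [abs_mul, abs_mul, abs_mul, abs_pow, Nat.abs_cast]
      calc ((n + 1 : ℕ) : ℝ) * |sV (u t) x| ^ n * |pd i (sV (u t)) x| * |om γ r₀ x|
          ≤ ((n + 1 : ℕ) : ℝ) * P * |pd i (sV (u t)) x| * C := by
            refine mul_le_mul (mul_le_mul_of_nonneg_right (mul_le_mul_of_nonneg_left (hVn x) (by positivity))
              (abs_nonneg _)) (hC x).1 (abs_nonneg _) (by positivity)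
        _ = C2 * |pd i (sV (u t)) x| := by rw [hC2]; ring
    · rw [abs_mul]
      calc |sV (u t) x ^ (n + 1)| * |pd i (om γ r₀) x| ≤ (P * |sV (u t) x|) * C :=
            mul_le_mul (hVm x) ((hC x).2.1 i) (abs_nonneg _) (by positivity)
        _ = C1 * |sV (u t) x| := by rw [hC1]; ring
  all_goals
    have hHeq : Hm (n + 1) s r₀ (u t) = fun x => sV (u t) x ^ (2 * (n + 1)) * (rsq x ^ (γ - 1) * chi r₀ x ^ 2) := by
      funext x
      unfold Hm
      rw [hγ]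
    have hHb : ∀ x, 0 ≤ Hm (n + 1) s r₀ (u t) x ∧ Hm (n + 1) s r₀ (u t) x ≤ P ^ 2 * Cw * sV (u t) x ^ 2 := fun x => by
      rw [hHeq]
      show 0 ≤ sV (u t) x ^ (2 * (n + 1)) * (rsq x ^ (γ - 1) * chi r₀ x ^ 2) ∧
        sV (u t) x ^ (2 * (n + 1)) * (rsq x ^ (γ - 1) * chi r₀ x ^ 2) ≤ _
      have e1 : sV (u t) x ^ (2 * (n + 1)) = |sV (u t) x ^ (n + 1)| ^ 2 := by
        rw [sq_abs, ← pow_mul, mul_comm]
      rw [e1]
      have e2 : |sV (u t) x ^ (n + 1)| ^ 2 ≤ (P * |sV (u t) x|) ^ 2 := pow_le_pow_left₀ (abs_nonneg _) (hVm x) 2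
      refine ⟨mul_nonneg (by positivity) (hCw x).1, ?_⟩
      calc |sV (u t) x ^ (n + 1)| ^ 2 * (rsq x ^ (γ - 1) * chi r₀ x ^ 2) ≤ (P * |sV (u t) x|) ^ 2 * Cw :=
            mul_le_mul e2 (hCw x).2 (hCw x).1 (by positivity)
        _ = P ^ 2 * Cw * sV (u t) x ^ 2 := by rw [mul_pow, sq_abs]; ring
    have hHc : Continuous (Hm (n + 1) s r₀ (u t)) := by
      rw [hHeq]
      exact (hV1.continuous.pow _).mul hw
    have hHi : Integrable (Hm (n + 1) s r₀ (u t)) := by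
      refine Integrable.mono' (hBV.2.1.const_mul (P ^ 2 * Cw)) hHc.aestronglyMeasurable (Eventually.of_forall fun x => ?_)
      rw [Real.norm_eq_abs, abs_of_nonneg (hHb x).1]
      exact (hHb x).2
  · exact hHi
  · refine (integral_mono hHi (hBV.2.1.const_mul (P ^ 2 * Cw)) fun x => (hHb x).2).trans ?_
    rw [integral_const_mul]
    exact (mul_le_mul_of_nonneg_left hBV.2.2 (by positivity)).trans hM3
  · intro x
    have a1 := pow_le_pow_left₀ (abs_nonneg _) (hGb x) 2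
    rw [sq_abs, mul_pow, sq_abs] at a1
    exact a1.trans (mul_le_mul_of_nonneg_right hM4 (sq_nonneg _))
  · intro x
    exact ((DB_BL hDW).1 x).trans hM5

theorem gm_ii {T : ℝ} {u : ℝ → E3 → E3} {p : ℝ → E3 → ℝ} (h : IsHInfAxisymNS T u p) {m : ℕ} (hm : 4 ≤ m) {s r₀ : ℝ}
    (hs : 3 ≤ s) (hs4 : s ≤ 4) (hr : 0 < r₀) {a b : ℝ} (ha : 0 ≤ a) (hab : a ≤ b) (hb : b < T) :
    IntervalIntegrable (fun t => ∫ x, Gm m s r₀ (u t) x ^ 2) volume a b ∧
    IntervalIntegrable (fun t => ∫ x, gsq (Gm m s r₀ (u t)) x) volume a b ∧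
    IntervalIntegrable (fun t => ∫ x, Hm m s r₀ (u t) x) volume a b ∧
    IntervalIntegrable (fun t => ∫ x, max (- sW (u t) x) 0 * Gm m s r₀ (u t) x ^ 2) volume a b := by
  obtain ⟨K, hK⟩ := gm_int h hm hs hs4 hr hb
  obtain ⟨n, rfl⟩ : ∃ n, m = n + 1 := ⟨m - 1, by omega⟩
  have hmr : (4 : ℝ) ≤ ((n + 1 : ℕ) : ℝ) := by exact_mod_cast hm
  obtain ⟨γ, hγ⟩ : ∃ γ : ℝ, γ = 2 * ((n + 1 : ℕ) : ℝ) - s / 2 := ⟨_, rfl⟩
  have hγ4 : 4 ≤ γ := by rw [hγ]; linarith
  obtain ⟨hw, Cw, hCw0, hCw⟩ := RG_w0 hγ4 hr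
  have ho : ContDiff ℝ 1 (om γ r₀) := (om_cd hγ4 hr).of_le (by norm_num)
  have F := flow_of h
  have jV : JC T (fun t => sV (u t)) := F.evV.cont
  have jd : ∀ i, JC T (fun t => pd i (sV (u t))) := F.evV.contd
  have jW : JC T (fun t => sW (u t)) := F.wcont
  have hGeq : ∀ v : E3 → E3, Gm (n + 1) s r₀ v = fun y => sV v y ^ (n + 1) * om γ r₀ y := by
    intro v
    funext y
    unfold Gm
    rw [hγ]
  have jG : JC T (fun t => Gm (n + 1) s r₀ (u t)) := by
    have h1 := JC_mul (JC_comp jV (continuous_pow (n + 1))) (JC_const ho.continuous)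
    simp only [hGeq]
    exact h1
  have jG2 : JC T (fun t x => Gm (n + 1) s r₀ (u t) x ^ 2) := JC_comp jG (continuous_pow 2)
  have jdG : ∀ i, JC T (fun t => pd i (Gm (n + 1) s r₀ (u t))) := by
    intro i
    have h1 : JC T (fun t x => ((n + 1 : ℕ) : ℝ) * sV (u t) x ^ n * pd i (sV (u t)) x * om γ r₀ x +
        sV (u t) x ^ (n + 1) * pd i (om γ r₀) x) := by
      refine JC_add (JC_mul (JC_mul ?_ (jd i)) (JC_const ho.continuous)) (JC_mul (JC_comp jV (continuous_pow (n + 1)))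
        (JC_const (pd_cont ho i)))
      exact JC_comp jV (H := fun y => ((n + 1 : ℕ) : ℝ) * y ^ n) (continuous_const.mul (continuous_pow n))
    refine ContinuousOn.congr h1 ?_
    rintro ⟨t, x⟩ ⟨ht, -⟩
    obtain ⟨hVs, -, -⟩ := svw_smooth h.ns ht
    show pd i (Gm (n + 1) s r₀ (u t)) x = _
    rw [hGeq, RG_pdG hγ4 hr hVs]
  have jg : JC T (fun t => gsq (Gm (n + 1) s r₀ (u t))) := by
    have h1 := JC_add (JC_add (JC_comp (jdG 0) (continuous_pow 2)) (JC_comp (jdG 1) (continuous_pow 2)))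
      (JC_comp (jdG 2) (continuous_pow 2))
    refine ContinuousOn.congr h1 ?_
    rintro ⟨t, x⟩ -
    show gsq (Gm (n + 1) s r₀ (u t)) x = _
    unfold gsq
    rw [Fin.sum_univ_three]
  have jH : JC T (fun t => Hm (n + 1) s r₀ (u t)) := by
    have h1 := JC_mul (JC_comp jV (continuous_pow (2 * (n + 1)))) (JC_const hw)
    refine ContinuousOn.congr h1 ?_
    rintro ⟨t, x⟩ -
    show Hm (n + 1) s r₀ (u t) x = _
    unfold Hm
    rw [hγ]
  have jM : JC T (fun t x => max (- sW (u t) x) 0 * Gm (n + 1) s r₀ (u t) x ^ 2) :=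
    JC_mul (JC_comp jW (H := fun y => max (-y) 0) (by fun_prop)) jG2
  refine ⟨?_, ?_, ?_, ?_⟩
  · refine ti_int jG2 hb (K := K) (fun t ht => ?_) ha hab
    obtain ⟨-, hD, -⟩ := hK t ht
    refine ⟨(DB_BL hD).2.1, ?_⟩
    have e : (fun x => |Gm (n + 1) s r₀ (u t) x ^ 2|) = fun x => Gm (n + 1) s r₀ (u t) x ^ 2 :=
      funext fun x => abs_of_nonneg (sq_nonneg _)
    rw [e]
    exact (DB_BL hD).2.2
  · refine ti_int jg hb (K := 3 * K) (fun t ht => ?_) ha hab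
    obtain ⟨-, hD, -⟩ := hK t ht
    refine ⟨(gsq_int hD).1, ?_⟩
    have e : (fun x => |gsq (Gm (n + 1) s r₀ (u t)) x|) = fun x => gsq (Gm (n + 1) s r₀ (u t)) x :=
      funext fun x => abs_of_nonneg (gsq_nonneg _ x)
    rw [e]
    exact (gsq_int hD).2
  · refine ti_int jH hb (K := K) (fun t ht => ?_) ha hab
    obtain ⟨-, -, hH1, hH2, -⟩ := hK t ht
    refine ⟨hH1, ?_⟩
    have e : (fun x => |Hm (n + 1) s r₀ (u t) x|) = fun x => Hm (n + 1) s r₀ (u t) x := by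
      funext x
      refine abs_of_nonneg ?_
      unfold Hm
      refine mul_nonneg ?_ (mul_nonneg (Real.rpow_nonneg (RG_rsq_nonneg x) _) (sq_nonneg _))
      rw [pow_mul]
      exact pow_nonneg (sq_nonneg _) _
    rw [e]
    exact hH2
  · refine ti_int jM hb (K := K * K) (fun t ht => ?_) ha hab
    obtain ⟨hG, hD, -, -, -, hW⟩ := hK t ht
    have ht' : t ∈ Ico 0 T := ⟨ht.1, ht.2.trans_lt hb⟩
    have hK0 : 0 ≤ K := BL_nonneg (DB_BL hD)
    obtain ⟨-, hWs, -⟩ := svw_smooth h.ns ht'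
    have hm0 : ∀ x, 0 ≤ max (- sW (u t) x) 0 * Gm (n + 1) s r₀ (u t) x ^ 2 := fun x =>
      mul_nonneg (le_max_right _ _) (sq_nonneg _)
    have hmK : ∀ x, max (- sW (u t) x) 0 * Gm (n + 1) s r₀ (u t) x ^ 2 ≤ K * Gm (n + 1) s r₀ (u t) x ^ 2 := fun x => by
      refine mul_le_mul_of_nonneg_right (max_le ?_ hK0) (sq_nonneg _)
      exact (neg_le_abs _).trans (hW x)
    have hc : Continuous (fun x => max (- sW (u t) x) 0 * Gm (n + 1) s r₀ (u t) x ^ 2) :=
      (hWs.continuous.neg.max continuous_const).mul (hG.continuous.pow 2)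
    have hi : Integrable (fun x => max (- sW (u t) x) 0 * Gm (n + 1) s r₀ (u t) x ^ 2) := by
      refine Integrable.mono' ((DB_BL hD).2.1.const_mul K) hc.aestronglyMeasurable (Eventually.of_forall fun x => ?_)
      rw [Real.norm_eq_abs, abs_of_nonneg (hm0 x)]
      exact hmK x
    refine ⟨hi, ?_⟩
    have e : (fun x => |max (- sW (u t) x) 0 * Gm (n + 1) s r₀ (u t) x ^ 2|) =
        fun x => max (- sW (u t) x) 0 * Gm (n + 1) s r₀ (u t) x ^ 2 := funext fun x => abs_of_nonneg (hm0 x)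
    rw [e]
    refine (integral_mono hi ((DB_BL hD).2.1.const_mul K) hmK).trans ?_
    rw [integral_const_mul]
    exact mul_le_mul_of_nonneg_left (DB_BL hD).2.2 hK0

end Pool.Agent.H87.NS
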