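/-
ROW RGe. The energy inequality in terms of `G = V^m om`. PROOF. (rg_id, proved in RG.lean: pointwise `gsq (f q) = q² gsq f + 2 f q ∇f·∇q + f² gsq q` and `div (f² q ∇q) = 2 f q ∇f·∇q + f² (gsq q + q lap q)`, so `q² gsq f = gsq (f q) + f² q lap q - div (f² q ∇q)`, and the
integral of the divergence vanishes (`f², f ∇f` integrable, `q, ∇q, lap q` bounded; cut-offs, or ibp applied to `f² q`-type products).)
ev_G: let `γ = 2m - s/2`, `w = om²`, `α = 4 - 2/m`, `c = 2s - s²/(2m)`. In ev_om the integrand is `- 2m(2m-1) V^(2m-2) gsq V w - 4m W V^(2m) w + V^(2m) (W rdr w + N)`, `N = lap w - 2/rsq rdr w`.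
`2m(2m-1) V^(2m-2) gsq V = α gsq (V^m)` (`gsq (V^m) = m² V^(2m-2) gsq V`), rg_id with `f = V^m`, `q = om`: `∫ gsq (V^m) w = ∫ gsq G + ∫ V^(2m) om lap om`. So the space integral is
`- α ∫ gsq G + ∫ V^(2m) (N - α om lap om) + ∫ V^(2m) W (rdr w - 4m w)`. For `0 < rsq < r₀²/4` (om_near): `N - α om lap om = (4γ(γ-1) - α γ²) rsq^(γ-1) = - c rsq^(γ-1)` (computation: `4γ² - 4γ - 4γ² + (2/m) γ² = (2/m) γ² - 4γ`, with
`γ = 2m - s/2` it is `-2s + s²/(2m)`), `rdr w - 4m w = (2γ - 4m) w = - s w`. For `rsq ≥ r₀²/2` both vanish. In the shell `r₀²/4 ≤ rsq ≤ r₀²/2` (om_bd): `|N - α om lap om + c rsq^(γ-1) chi²| ≤ C`, `|rdr w - 4m w + s w| ≤ C`.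
Therefore the space integral is `≤ - α ∫ gsq G - c ∫ Hm + s ∫ W⁻ G² + C ∫_shell V^(2m) (1 + |W|)`. In the shell `|V| = |circ| / rsq ≤ 4 M / r₀²` (circ_max: `|circ (u t)| ≤ M`), `|V| ≤ ‖u‖/rad`, `|W| ≤ ‖u‖/rad` (circ_le, radFlux_le), so
`V^(2m) ≤ C V² ≤ C ‖u‖²`, `V^(2m) |W| ≤ C |V| |W| ≤ C ‖u‖²`, and `∫ ‖u t‖² ≤ ∫ ‖u 0‖²` (energy1). The constant `C` depends on the solution, not on `a, b`.
-/
import Pool.Agent.H87.NB.RG

set_option autoImplicit false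

open Set Filter Topology MeasureTheory
open scoped ContDiff

namespace Pool.Agent.H87.NS

open Pool.Agent.H16

private theorem RGe_rsq_cont : Continuous (rsq : E3 → ℝ) := by
  unfold rsq
  fun_prop

private theorem RGe_rsq_nonneg (x : E3) : 0 ≤ rsq x := by
  unfold rsq
  positivity

private theorem RGe_pow_sq (a : ℝ) (m : ℕ) : (a ^ m) ^ 2 = a ^ (2 * m) := by
  rw [← pow_mul, mul_comm]

private theorem RGe_om_pow_cd {γ r₀ : ℝ} (hγ : 4 ≤ γ) (hr : 0 < r₀) :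
    ContDiff ℝ 2 (fun y => om γ r₀ y ^ 2) := (om_cd hγ hr).pow 2

private theorem RGe_adv {v : E3 → E3} (hv : AxF v) {γ r₀ : ℝ} (hγ : 4 ≤ γ) (x : E3) :
    adv (v x) (fun y => om γ r₀ y ^ 2) x = sW v x * rdr (fun y => om γ r₀ y ^ 2) x := by
  have hF : ContDiff ℝ 2 (fun ρ : ℝ => ρ ^ γ * hc (ρ / r₀ ^ 2) ^ 2) := by
    have h2 : ContDiff ℝ 2 hc := contDiff_infty.1 hc_smooth 2
    refine (Real.contDiff_rpow_const_of_le ?_).mul ((ContDiff.comp h2 ?_).pow 2)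
    · have : ((2 : ℕ) : ℝ) ≤ γ := by norm_num; linarith
      exact this
    · fun_prop
  have h1 : (fun y => om γ r₀ y ^ 2) = fun y => (fun ρ : ℝ => ρ ^ γ * hc (ρ / r₀ ^ 2) ^ 2) (rsq y) := by
    funext y
    rw [om_sq hγ]
    rfl
  rw [h1]
  exact rf_adv hv hF x

private theorem RGe_evJ {v : E3 → E3} (hv : AxF v) {m : ℕ} (hm : 4 ≤ m) {γ r₀ : ℝ} (hγ : 4 ≤ γ) (x : E3) :
    evJ (fun s => s ^ (2 * m)) v (sV v) (fun y => -2 * sW v y * sV v y) (fun y => om γ r₀ y ^ 2) x =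
      -(4 - 2 / (m : ℝ)) * (om γ r₀ x ^ 2 * gsq (fun y => sV v y ^ m) x) +
      sV v x ^ (2 * m) * (sW v x * (rdr (fun y => om γ r₀ y ^ 2) x - 4 * m * om γ r₀ x ^ 2) +
        (lap (fun y => om γ r₀ y ^ 2) x - 2 / rsq x * rdr (fun y => om γ r₀ y ^ 2) x)) := by
  have hs : ContDiff ℝ 1 (sV v) := by
    have : ContDiff ℝ ∞ (sV v) := avk_smooth (VRep_coord (curl_smooth hv.smooth) 2) 1
    exact this.of_le (by exact_mod_cast le_top)
  have hg : gsq (fun y => sV v y ^ m) x = ((m : ℝ) * sV v x ^ (m - 1)) ^ 2 * gsq (sV v) x := by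
    have h1 := comp_gsq hs (H := fun s : ℝ => s ^ m) (contDiff_id.pow m) x
    rw [(hasDerivAt_pow m (sV v x)).deriv] at h1
    exact h1
  unfold evJ
  rw [pow_deriv, pow_deriv2, hg, RGe_adv hv hγ]
  obtain ⟨n, rfl⟩ : ∃ n, m = n + 1 := ⟨m - 1, by omega⟩
  have e1 : 2 * (n + 1) - 2 = 2 * n := by omega
  have e2 : 2 * (n + 1) - 1 = 2 * n + 1 := by omega
  have e3 : n + 1 - 1 = n := by omega
  rw [e1, e2, e3]
  have hn : ((n + 1 : ℕ) : ℝ) ≠ 0 := by positivity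
  push_cast at hn ⊢
  field_simp
  ring

private theorem RGe_cc {m : ℕ} (hm : 4 ≤ m) (s : ℝ) :
    4 * (2 * (m : ℝ) - s / 2) * (2 * (m : ℝ) - s / 2 - 1) - (4 - 2 / (m : ℝ)) * (2 * (m : ℝ) - s / 2) ^ 2 =
      -(2 * s - s ^ 2 / (2 * m)) := by
  have hm0 : (m : ℝ) ≠ 0 := by
    have : 0 < m := by omega
    positivity
  field_simp
  ring

private theorem RGe_pt {m : ℕ} (hm : 4 ≤ m) {s r₀ M : ℝ} (hs : 3 ≤ s) (hs4 : s ≤ 4) (hr : 0 < r₀) (hM0 : 0 ≤ M) :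
    ∃ C' : ℝ, 0 ≤ C' ∧ ∀ v : E3 → E3, AxF v → (∀ x, |circ v x| ≤ M) → ∀ x, 0 < rad x →
      sV v x ^ (2 * m) * (sW v x * (rdr (fun y => om (2 * m - s / 2) r₀ y ^ 2) x -
          4 * m * om (2 * m - s / 2) r₀ x ^ 2) +
        (lap (fun y => om (2 * m - s / 2) r₀ y ^ 2) x - 2 / rsq x * rdr (fun y => om (2 * m - s / 2) r₀ y ^ 2) x) -
        (4 - 2 / (m : ℝ)) * (om (2 * m - s / 2) r₀ x * lap (om (2 * m - s / 2) r₀) x)) ≤
      -(2 * s - s ^ 2 / (2 * m)) * Hm m s r₀ v x + s * (max (- sW v x) 0 * Gm m s r₀ v x ^ 2) + C' * ‖v x‖ ^ 2 := by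
  have hm4 : (4 : ℝ) ≤ m := by exact_mod_cast hm
  obtain ⟨γ, hγd⟩ : ∃ γ : ℝ, γ = 2 * m - s / 2 := ⟨_, rfl⟩
  have hγ : 4 ≤ γ := by
    rw [hγd]
    linarith
  obtain ⟨C, hC0, hC⟩ := om_bd hγ hr
  have hα0 : 0 ≤ 4 - 2 / (m : ℝ) := by
    have : 2 / (m : ℝ) ≤ 2 / 4 := by gcongr
    linarith
  have hα1 : 4 - 2 / (m : ℝ) ≤ 4 := by
    have : 0 ≤ 2 / (m : ℝ) := by positivity
    linarith
  have hc0 : 0 ≤ 2 * s - s ^ 2 / (2 * m) := by
    have h1 : s ^ 2 / (2 * m) ≤ s := by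
      rw [div_le_iff₀ (by positivity)]
      nlinarith
    linarith
  have hc1 : 2 * s - s ^ 2 / (2 * m) ≤ 8 := by
    have h1 : 0 ≤ s ^ 2 / (2 * m) := by positivity
    linarith
  obtain ⟨V0, hV0⟩ : ∃ V0 : ℝ, V0 = 4 * M / r₀ ^ 2 := ⟨_, rfl⟩
  have hV00 : 0 ≤ V0 := by
    rw [hV0]
    positivity
  obtain ⟨R1, hR1⟩ : ∃ R1 : ℝ, R1 = (r₀ ^ 2 / 2) ^ (γ - 1) := ⟨_, rfl⟩
  have hR10 : 0 ≤ R1 := by
    rw [hR1]
    positivity
  obtain ⟨A1, hA1⟩ : ∃ A1 : ℝ, A1 = C + 4 * C ^ 2 + 8 * R1 := ⟨_, rfl⟩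
  obtain ⟨A2, hA2⟩ : ∃ A2 : ℝ, A2 = C * (r₀ ^ 2 / 2) + 4 * m * C ^ 2 := ⟨_, rfl⟩
  have hA10 : 0 ≤ A1 := by
    rw [hA1]
    positivity
  have hA20 : 0 ≤ A2 := by
    rw [hA2]
    positivity
  refine ⟨4 / r₀ ^ 2 * ((V0 ^ 2) ^ (m - 1) * A1 + V0 ^ (2 * m - 1) * A2), by positivity,
    fun v hv hM x hx => ?_⟩
  rw [← hγd]
  have hrs := rsq_pos hx
  obtain ⟨V, hV⟩ : ∃ V, V = sV v x := ⟨_, rfl⟩
  obtain ⟨W, hW⟩ : ∃ W, W = sW v x := ⟨_, rfl⟩
  have hG : Gm m s r₀ v x ^ 2 = V ^ (2 * m) * om γ r₀ x ^ 2 := by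
    unfold Gm
    rw [mul_pow, RGe_pow_sq, ← hγd, hV]
  have hH : Hm m s r₀ v x = V ^ (2 * m) * (rsq x ^ (γ - 1) * chi r₀ x ^ 2) := by
    unfold Hm
    rw [← hγd, hV]
  rw [hG, hH, ← hV, ← hW]
  have hV2m : 0 ≤ V ^ (2 * m) := by
    rw [pow_mul]
    positivity
  have hCc : 0 ≤ 4 / r₀ ^ 2 * ((V0 ^ 2) ^ (m - 1) * A1 + V0 ^ (2 * m - 1) * A2) * ‖v x‖ ^ 2 := by positivity
  have hmaxW : -W ≤ max (-W) 0 := le_max_left _ _
  have hmax0 : 0 ≤ max (-W) 0 := le_max_right _ _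
  rcases lt_or_ge (rsq x) (r₀ ^ 2 / 4) with h1 | h1
  · obtain ⟨o1, o2, o3, o4⟩ := om_near hγ hr hrs h1
    have hchi : chi r₀ x = 1 := by
      unfold chi
      refine (hc_bd _).2.2.1 ?_
      rw [div_le_iff₀ (by positivity)]
      linarith
    have hom2 : om γ r₀ x ^ 2 = rsq x ^ γ := by
      rw [om_sq hγ, hchi]
      ring
    have holap : om γ r₀ x * lap (om γ r₀) x = γ ^ 2 * rsq x ^ (γ - 1) := by
      rw [o1, o2]
      have : rsq x ^ (γ / 2) * rsq x ^ (γ / 2 - 1) = rsq x ^ (γ - 1) := by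
        rw [← Real.rpow_add hrs]
        congr 1
        ring
      rw [← this]
      ring
    rw [o3, o4, holap, hom2, hchi]
    have hcc := RGe_cc hm s
    rw [← hγd] at hcc
    have hP : 0 ≤ V ^ (2 * m) * rsq x ^ γ := mul_nonneg hV2m (Real.rpow_nonneg hrs.le _)
    have key : V ^ (2 * m) * (W * (2 * γ * rsq x ^ γ - 4 * m * rsq x ^ γ) + 4 * γ * (γ - 1) * rsq x ^ (γ - 1) -
        (4 - 2 / (m : ℝ)) * (γ ^ 2 * rsq x ^ (γ - 1))) =
        -(2 * s - s ^ 2 / (2 * m)) * (V ^ (2 * m) * rsq x ^ (γ - 1)) + s * (-W * (V ^ (2 * m) * rsq x ^ γ)) := by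
      rw [← hcc, hγd]
      ring
    rw [key]
    have h2 : s * (-W * (V ^ (2 * m) * rsq x ^ γ)) ≤ s * (max (-W) 0 * (V ^ (2 * m) * rsq x ^ γ)) :=
      mul_le_mul_of_nonneg_left (mul_le_mul_of_nonneg_right hmaxW hP) (by linarith)
    have h3 : -(2 * s - s ^ 2 / (2 * m)) * (V ^ (2 * m) * (rsq x ^ (γ - 1) * 1 ^ 2)) =
        -(2 * s - s ^ 2 / (2 * m)) * (V ^ (2 * m) * rsq x ^ (γ - 1)) := by ring
    rw [h3]
    linarith
  obtain ⟨b1, b2, b3, b4, b5, b6⟩ := hC x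
  rcases le_or_gt (r₀ ^ 2 / 2) (rsq x) with h2 | h2
  · obtain ⟨o1, o2, o3, o4⟩ := b6 h2
    have hchi : chi r₀ x = 0 := by
      unfold chi
      refine (hc_bd _).2.2.2 ?_
      rw [le_div_iff₀ (by positivity)]
      linarith
    rw [o1, o2, o3, o4, hchi]
    simp only [mul_zero, sub_zero, add_zero, ne_eq, OfNat.ofNat_ne_zero, not_false_eq_true,
      zero_pow, zero_add]
    exact hCc
  -- the shell
  have hVrs : |V| * rsq x ≤ M := by
    have h3 := hM x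
    rw [circ_eq hv, abs_mul, abs_of_pos hrs, ← hV] at h3
    linarith
  have hVb : |V| ≤ V0 := by
    rw [hV0, le_div_iff₀ (by positivity)]
    nlinarith [abs_nonneg V]
  have hrV : rad x * |V| ≤ ‖v x‖ := by
    rw [hV]
    exact Init_off hv hx
  have hrW : rad x * |W| ≤ ‖v x‖ := by
    have h3 := radFlux_le v x
    rw [flux_eq hv x, abs_mul, abs_of_pos hrs, ← rad_sq', pow_two, mul_assoc, ← hW] at h3
    exact le_of_mul_le_mul_left h3 hx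
  have hn0 := norm_nonneg (v x)
  have hVV : V ^ 2 ≤ 4 / r₀ ^ 2 * ‖v x‖ ^ 2 := by
    have h3 : (rad x * |V|) ^ 2 ≤ ‖v x‖ ^ 2 := pow_le_pow_left₀ (by positivity) hrV 2
    rw [mul_pow, rad_sq', sq_abs] at h3
    have h4 : r₀ ^ 2 / 4 * V ^ 2 ≤ ‖v x‖ ^ 2 := le_trans (mul_le_mul_of_nonneg_right h1 (sq_nonneg V)) h3
    calc V ^ 2 = 4 / r₀ ^ 2 * (r₀ ^ 2 / 4 * V ^ 2) := by field_simp
      _ ≤ 4 / r₀ ^ 2 * ‖v x‖ ^ 2 := mul_le_mul_of_nonneg_left h4 (by positivity)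
  have hWV : |W| * |V| ≤ 4 / r₀ ^ 2 * ‖v x‖ ^ 2 := by
    have h3 : (rad x * |W|) * (rad x * |V|) ≤ ‖v x‖ * ‖v x‖ := mul_le_mul hrW hrV (by positivity) hn0
    have h5 : (rad x * |W|) * (rad x * |V|) = rsq x * (|W| * |V|) := by
      rw [← rad_sq']
      ring
    rw [h5, ← pow_two] at h3
    have h4 : r₀ ^ 2 / 4 * (|W| * |V|) ≤ ‖v x‖ ^ 2 :=
      le_trans (mul_le_mul_of_nonneg_right h1 (by positivity)) h3
    calc |W| * |V| = 4 / r₀ ^ 2 * (r₀ ^ 2 / 4 * (|W| * |V|)) := by field_simp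
      _ ≤ 4 / r₀ ^ 2 * ‖v x‖ ^ 2 := mul_le_mul_of_nonneg_left h4 (by positivity)
  have hP1 : V ^ (2 * m) ≤ 4 / r₀ ^ 2 * ‖v x‖ ^ 2 * (V0 ^ 2) ^ (m - 1) := by
    have h3 : V ^ (2 * m) = V ^ 2 * (V ^ 2) ^ (m - 1) := by
      rw [pow_mul]
      obtain ⟨n, rfl⟩ : ∃ n, m = n + 1 := ⟨m - 1, by omega⟩
      rw [Nat.add_sub_cancel, pow_succ]
      ring
    rw [h3]
    have h4 : V ^ 2 ≤ V0 ^ 2 := by
      rw [← sq_abs]
      exact pow_le_pow_left₀ (abs_nonneg _) hVb 2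
    exact mul_le_mul hVV (pow_le_pow_left₀ (sq_nonneg _) h4 _) (by positivity) (by positivity)
  have hP2 : |W| * V ^ (2 * m) ≤ 4 / r₀ ^ 2 * ‖v x‖ ^ 2 * V0 ^ (2 * m - 1) := by
    have h3 : |W| * V ^ (2 * m) = |W| * |V| * |V| ^ (2 * m - 1) := by
      have h4 : V ^ (2 * m) = |V| ^ (2 * m) := by
        rw [pow_mul, pow_mul, sq_abs]
      rw [h4]
      obtain ⟨n, hn⟩ : ∃ n, 2 * m = n + 1 := ⟨2 * m - 1, by omega⟩
      rw [hn, Nat.add_sub_cancel, pow_succ]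
      ring
    rw [h3]
    exact mul_le_mul hWV (pow_le_pow_left₀ (abs_nonneg _) hVb _) (by positivity) (by positivity)
  have hchi2 : chi r₀ x ^ 2 ≤ 1 := by
    unfold chi
    obtain ⟨k1, k2, -, -⟩ := hc_bd (rsq x / r₀ ^ 2)
    exact pow_le_one₀ k1 k2
  have hrp : rsq x ^ (γ - 1) ≤ R1 := by
    rw [hR1]
    exact Real.rpow_le_rpow hrs.le h2.le (by linarith)
  have hHb : rsq x ^ (γ - 1) * chi r₀ x ^ 2 ≤ R1 := by
    calc rsq x ^ (γ - 1) * chi r₀ x ^ 2 ≤ R1 * 1 := mul_le_mul hrp hchi2 (sq_nonneg _) hR10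
      _ = R1 := mul_one _
  have hHb0 : 0 ≤ rsq x ^ (γ - 1) * chi r₀ x ^ 2 := mul_nonneg (Real.rpow_nonneg hrs.le _) (sq_nonneg _)
  have hom2 : om γ r₀ x ^ 2 ≤ C ^ 2 := by
    rw [← sq_abs]
    exact pow_le_pow_left₀ (abs_nonneg _) b1 2
  have hol : |om γ r₀ x * lap (om γ r₀) x| ≤ C ^ 2 := by
    rw [abs_mul, pow_two]
    exact mul_le_mul b1 b3 (abs_nonneg _) hC0
  have hX1 : (lap (fun y => om γ r₀ y ^ 2) x - 2 / rsq x * rdr (fun y => om γ r₀ y ^ 2) x) -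
        (4 - 2 / (m : ℝ)) * (om γ r₀ x * lap (om γ r₀) x) +
        (2 * s - s ^ 2 / (2 * m)) * (rsq x ^ (γ - 1) * chi r₀ x ^ 2) ≤ A1 := by
    have k1 := (abs_le.1 b4).2
    have k2 : -((4 - 2 / (m : ℝ)) * (om γ r₀ x * lap (om γ r₀) x)) ≤ 4 * C ^ 2 := by
      have k3 := (abs_le.1 hol).1
      have k4 : (4 - 2 / (m : ℝ)) * (-(om γ r₀ x * lap (om γ r₀) x)) ≤ 4 * C ^ 2 :=
        mul_le_mul_of_nonneg hα1 (by linarith) hα0 (sq_nonneg C)
      linarith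
    have k5 : (2 * s - s ^ 2 / (2 * m)) * (rsq x ^ (γ - 1) * chi r₀ x ^ 2) ≤ 8 * R1 :=
      mul_le_mul hc1 hHb hHb0 (by norm_num)
    rw [hA1]
    linarith
  have hX2 : W * (rdr (fun y => om γ r₀ y ^ 2) x - 4 * m * om γ r₀ x ^ 2) ≤ |W| * A2 := by
    have k1 : |rdr (fun y => om γ r₀ y ^ 2) x - 4 * m * om γ r₀ x ^ 2| ≤ A2 := by
      have k2 : |rdr (fun y => om γ r₀ y ^ 2) x| ≤ C * (r₀ ^ 2 / 2) :=
        b5.trans (mul_le_mul_of_nonneg_left h2.le hC0)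
      have k3 : |4 * m * om γ r₀ x ^ 2| ≤ 4 * m * C ^ 2 := by
        rw [abs_of_nonneg (by positivity)]
        exact mul_le_mul_of_nonneg_left hom2 (by positivity)
      rw [hA2]
      exact (abs_sub _ _).trans (add_le_add k2 k3)
    calc W * (rdr (fun y => om γ r₀ y ^ 2) x - 4 * m * om γ r₀ x ^ 2) ≤
          |W * (rdr (fun y => om γ r₀ y ^ 2) x - 4 * m * om γ r₀ x ^ 2)| := le_abs_self _
      _ ≤ |W| * A2 := by
          rw [abs_mul]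
          exact mul_le_mul_of_nonneg_left k1 (abs_nonneg _)
  have hY1 : V ^ (2 * m) * ((lap (fun y => om γ r₀ y ^ 2) x - 2 / rsq x * rdr (fun y => om γ r₀ y ^ 2) x) -
        (4 - 2 / (m : ℝ)) * (om γ r₀ x * lap (om γ r₀) x) +
        (2 * s - s ^ 2 / (2 * m)) * (rsq x ^ (γ - 1) * chi r₀ x ^ 2)) ≤
      4 / r₀ ^ 2 * ‖v x‖ ^ 2 * (V0 ^ 2) ^ (m - 1) * A1 :=
    (mul_le_mul_of_nonneg_left hX1 hV2m).trans (mul_le_mul_of_nonneg_right hP1 hA10)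
  have hY2 : V ^ (2 * m) * (W * (rdr (fun y => om γ r₀ y ^ 2) x - 4 * m * om γ r₀ x ^ 2)) ≤
      4 / r₀ ^ 2 * ‖v x‖ ^ 2 * V0 ^ (2 * m - 1) * A2 := by
    calc V ^ (2 * m) * (W * (rdr (fun y => om γ r₀ y ^ 2) x - 4 * m * om γ r₀ x ^ 2)) ≤
          V ^ (2 * m) * (|W| * A2) := mul_le_mul_of_nonneg_left hX2 hV2m
      _ = |W| * V ^ (2 * m) * A2 := by ring
      _ ≤ 4 / r₀ ^ 2 * ‖v x‖ ^ 2 * V0 ^ (2 * m - 1) * A2 := mul_le_mul_of_nonneg_right hP2 hA20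
  have hY3 : 0 ≤ s * (max (-W) 0 * (V ^ (2 * m) * om γ r₀ x ^ 2)) := by
    have : 0 ≤ s := by linarith
    positivity
  have e1 : V ^ (2 * m) * (W * (rdr (fun y => om γ r₀ y ^ 2) x - 4 * m * om γ r₀ x ^ 2) +
        (lap (fun y => om γ r₀ y ^ 2) x - 2 / rsq x * rdr (fun y => om γ r₀ y ^ 2) x) -
        (4 - 2 / (m : ℝ)) * (om γ r₀ x * lap (om γ r₀) x)) =
      V ^ (2 * m) * ((lap (fun y => om γ r₀ y ^ 2) x - 2 / rsq x * rdr (fun y => om γ r₀ y ^ 2) x) -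
        (4 - 2 / (m : ℝ)) * (om γ r₀ x * lap (om γ r₀) x) +
        (2 * s - s ^ 2 / (2 * m)) * (rsq x ^ (γ - 1) * chi r₀ x ^ 2)) +
      V ^ (2 * m) * (W * (rdr (fun y => om γ r₀ y ^ 2) x - 4 * m * om γ r₀ x ^ 2)) +
      -(2 * s - s ^ 2 / (2 * m)) * (V ^ (2 * m) * (rsq x ^ (γ - 1) * chi r₀ x ^ 2)) := by ring
  have e2 : 4 / r₀ ^ 2 * ((V0 ^ 2) ^ (m - 1) * A1 + V0 ^ (2 * m - 1) * A2) * ‖v x‖ ^ 2 =
      4 / r₀ ^ 2 * ‖v x‖ ^ 2 * (V0 ^ 2) ^ (m - 1) * A1 + 4 / r₀ ^ 2 * ‖v x‖ ^ 2 * V0 ^ (2 * m - 1) * A2 := by ring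
  rw [e1, e2]
  linarith

private theorem RGe_pd_cd {f : E3 → ℝ} (hf : ContDiff ℝ 2 f) (i : Fin 3) : ContDiff ℝ 1 (pd i f) := by
  unfold pd
  exact (hf.fderiv_right (m := 1) (by norm_num)).clm_apply contDiff_const

private theorem RGe_lap_cont {f : E3 → ℝ} (hf : ContDiff ℝ 2 f) : Continuous (lap f) := by
  unfold lap
  exact continuous_finsetSum _ fun i _ => pd_cont (RGe_pd_cd hf i) i

private theorem RGe_rdr_cont {f : E3 → ℝ} (hf : ContDiff ℝ 2 f) : Continuous (rdr f) := by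
  have h0 := (RGe_pd_cd hf 0).continuous
  have h1 := (RGe_pd_cd hf 1).continuous
  unfold rdr
  fun_prop

/-- an integrable function times a bounded one -/
private theorem RGe_jb {F Θ : E3 → ℝ} {K c : ℝ} (hF : Integrable F) (hK : ∫ x, |F x| ≤ K)
    (hΘ : AEStronglyMeasurable Θ volume) (hc : ∀ x, |Θ x| ≤ c) :
    Integrable (fun x => F x * Θ x) ∧ ∫ x, |F x * Θ x| ≤ K * c := by
  have hc0 : 0 ≤ c := (abs_nonneg _).trans (hc 0)
  have hpt : ∀ x, |F x * Θ x| ≤ |F x| * c := fun x => by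
    rw [abs_mul]
    exact mul_le_mul_of_nonneg_left (hc x) (abs_nonneg _)
  have hb : Integrable (fun x => |F x| * c) := hF.abs.mul_const c
  have hi : Integrable (fun x => F x * Θ x) := by
    refine hb.mono' (hF.aestronglyMeasurable.mul hΘ) (Filter.Eventually.of_forall fun x => ?_)
    rw [Real.norm_eq_abs]
    exact hpt x
  refine ⟨hi, (integral_mono hi.abs hb hpt).trans ?_⟩
  rw [integral_mul_const]
  exact mul_le_mul_of_nonneg_right hK hc0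

private theorem RGe_am {T : ℝ} {Φ : ℝ → E3 → ℝ} (hΦ : JC T Φ) {a b : ℝ} (ha : 0 ≤ a) (hb : b < T) :
    AEStronglyMeasurable (fun q : ℝ × E3 => Φ q.1 q.2) ((volume.restrict (Icc a b)).prod volume) := by
  have hsub : Icc a b ×ˢ (univ : Set E3) ⊆ Ico 0 T ×ˢ univ :=
    Set.prod_mono (fun t ht => ⟨ha.trans ht.1, ht.2.trans_lt hb⟩) (le_refl _)
  have h1 : AEStronglyMeasurable (fun q : ℝ × E3 => Φ q.1 q.2)
      ((volume : Measure (ℝ × E3)).restrict (Icc a b ×ˢ univ)) :=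
    (ContinuousOn.mono hΦ hsub).aestronglyMeasurable (measurableSet_Icc.prod MeasurableSet.univ)
  rw [Measure.volume_eq_prod, ← Measure.prod_restrict, Measure.restrict_univ] at h1
  exact h1

private theorem RGe_ti {Φ : ℝ → E3 → ℝ} {a b K : ℝ} (hab : a ≤ b)
    (hΦ : AEStronglyMeasurable (fun q : ℝ × E3 => Φ q.1 q.2) ((volume.restrict (Icc a b)).prod volume))
    (h : ∀ t ∈ Icc a b, ∫ x, |Φ t x| ≤ K) :
    IntervalIntegrable (fun t => ∫ x, Φ t x) volume a b := by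
  rw [intervalIntegrable_iff_integrableOn_Icc_of_le hab]
  have hm : AEStronglyMeasurable (fun t => ∫ x, Φ t x) (volume.restrict (Icc a b)) :=
    AEStronglyMeasurable.integral_prod_right' hΦ
  refine Integrable.of_bound hm K ?_
  refine ae_restrict_of_forall_mem measurableSet_Icc fun t ht => ?_
  refine (norm_integral_le_integral_norm _).trans ?_
  simp only [Real.norm_eq_abs]
  exact h t ht

/-- bounds and integrability -/
private theorem RGe_int {T : ℝ} {u : ℝ → E3 → E3} {p : ℝ → E3 → ℝ} (h : IsHInfAxisymNS T u p) {m : ℕ} (hm : 4 ≤ m)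
    {γ r₀ : ℝ} (hγ : 4 ≤ γ) (hr : 0 < r₀) {a b : ℝ} (ha : 0 ≤ a) (hab : a ≤ b) (hb : b < T) :
    (∀ t ∈ Icc a b, Integrable (fun x => om γ r₀ x ^ 2 * gsq (fun y => sV (u t) y ^ m) x) ∧
      Integrable (fun x => sV (u t) x ^ (2 * m) * (sW (u t) x * (rdr (fun y => om γ r₀ y ^ 2) x -
        4 * m * om γ r₀ x ^ 2) + (lap (fun y => om γ r₀ y ^ 2) x - 2 / rsq x * rdr (fun y => om γ r₀ y ^ 2) x))) ∧
      Integrable (fun x => sV (u t) x ^ (2 * m) * (om γ r₀ x * lap (om γ r₀) x)) ∧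
      ∃ K' : ℝ, DB 1 K' (fun y => sV (u t) y ^ m)) ∧
    IntervalIntegrable (fun t => ∫ x, om γ r₀ x ^ 2 * gsq (fun y => sV (u t) y ^ m) x) volume a b ∧
    IntervalIntegrable (fun t => ∫ x, sV (u t) x ^ (2 * m) * (sW (u t) x * (rdr (fun y => om γ r₀ y ^ 2) x -
        4 * m * om γ r₀ x ^ 2) + (lap (fun y => om γ r₀ y ^ 2) x - 2 / rsq x * rdr (fun y => om γ r₀ y ^ 2) x)))
      volume a b := by
  have F := flow_of h
  have hjf : JFun (fun s : ℝ => s ^ (2 * m)) := pow_jfun (m := m) (by omega)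
  obtain ⟨C, hC0, hC⟩ := om_bd hγ hr
  have hocd := om_cd hγ hr
  have hwcd := RGe_om_pow_cd hγ hr
  obtain ⟨K, hK⟩ := svwDB h hb
  obtain ⟨K1, hK1⟩ := evo_bd F.evV hjf hb
  obtain ⟨K', hK'⟩ := comp_DB (H := fun s : ℝ => s ^ m) (contDiff_id.pow m) (zero_pow (by omega)) K
  obtain ⟨hJ1, -, -, hJ4⟩ := evo_jc F.evV hjf
  have hIco : ∀ t ∈ Icc a b, t ∈ Ico 0 T := fun t ht => ⟨ha.trans ht.1, ht.2.trans_lt hb⟩
  have hI0 : ∀ t ∈ Icc a b, t ∈ Icc 0 b := fun t ht => ⟨ha.trans ht.1, ht.2⟩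
  have hVs : ∀ t ∈ Icc a b, ContDiff ℝ 1 (sV (u t)) := fun t ht =>
    (svw_smooth h.ns (hIco t ht)).1.of_le (by exact_mod_cast le_top)
  have hgs : ∀ t ∈ Icc a b, ∀ x, gsq (fun y => sV (u t) y ^ m) x =
      ((m : ℝ) * sV (u t) x ^ (m - 1)) ^ 2 * gsq (sV (u t)) x := by
    intro t ht x
    have h1 := comp_gsq (hVs t ht) (H := fun s : ℝ => s ^ m) (contDiff_id.pow m) x
    rw [(hasDerivAt_pow m (sV (u t) x)).deriv] at h1
    exact h1
  have hom2 : ∀ x, |om γ r₀ x ^ 2| ≤ C ^ 2 := fun x => by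
    rw [abs_pow]
    exact pow_le_pow_left₀ (abs_nonneg _) (hC x).1 2
  have hDB : ∀ t ∈ Icc a b, DB 1 K' (fun y => sV (u t) y ^ m) := fun t ht =>
    hK' (sV (u t)) (hVs t ht) (DB_mono (hK t (hI0 t ht)).1 (by norm_num) le_rfl)
  -- first term
  have hA : ∀ t ∈ Icc a b, Integrable (fun x => gsq (fun y => sV (u t) y ^ m) x * om γ r₀ x ^ 2) ∧
      ∫ x, |gsq (fun y => sV (u t) y ^ m) x * om γ r₀ x ^ 2| ≤ 3 * K' * C ^ 2 := by
    intro t ht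
    have h1 := gsq_int (hDB t ht)
    refine RGe_jb h1.1 ?_ (hocd.continuous.pow 2).aestronglyMeasurable hom2
    have h2 : (fun x => |gsq (fun y => sV (u t) y ^ m) x|) = gsq (fun y => sV (u t) y ^ m) :=
      funext fun x => abs_of_nonneg (gsq_nonneg _ x)
    rw [h2]
    exact h1.2
  have hA' : ∀ t, (fun x => om γ r₀ x ^ 2 * gsq (fun y => sV (u t) y ^ m) x) =
      fun x => gsq (fun y => sV (u t) y ^ m) x * om γ r₀ x ^ 2 := fun t => funext fun x => mul_comm _ _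
  -- the bound of the second factor
  obtain ⟨A2, hA2⟩ : ∃ A2 : ℝ, A2 = C * (r₀ ^ 2 / 2) + 4 * m * C ^ 2 := ⟨_, rfl⟩
  have hA20 : 0 ≤ A2 := by
    rw [hA2]
    positivity
  have hD : ∀ x, |rdr (fun y => om γ r₀ y ^ 2) x - 4 * m * om γ r₀ x ^ 2| ≤ A2 := by
    intro x
    obtain ⟨b1, b2, b3, b4, b5, b6⟩ := hC x
    rcases le_or_gt (r₀ ^ 2 / 2) (rsq x) with h2 | h2
    · obtain ⟨o1, o2, o3, o4⟩ := b6 h2
      rw [o1, o4]
      simpa using hA20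
    · have k2 : |rdr (fun y => om γ r₀ y ^ 2) x| ≤ C * (r₀ ^ 2 / 2) :=
        b5.trans (mul_le_mul_of_nonneg_left h2.le hC0)
      have k3 : |4 * m * om γ r₀ x ^ 2| ≤ 4 * m * C ^ 2 := by
        rw [abs_mul, abs_of_nonneg (show (0 : ℝ) ≤ 4 * m by positivity)]
        exact mul_le_mul_of_nonneg_left (hom2 x) (by positivity)
      rw [hA2]
      exact (abs_sub _ _).trans (add_le_add k2 k3)
  have hNm : Measurable (fun x => lap (fun y => om γ r₀ y ^ 2) x - 2 / rsq x * rdr (fun y => om γ r₀ y ^ 2) x) :=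
    (RGe_lap_cont hwcd).measurable.sub
      ((measurable_const.div RGe_rsq_cont.measurable).mul (RGe_rdr_cont hwcd).measurable)
  have hDc : Continuous (fun x => rdr (fun y => om γ r₀ y ^ 2) x - 4 * m * om γ r₀ x ^ 2) :=
    (RGe_rdr_cont hwcd).sub (continuous_const.mul (hocd.continuous.pow 2))
  have hB : ∀ t ∈ Icc a b, Integrable (fun x => sV (u t) x ^ (2 * m) * (sW (u t) x * (rdr (fun y => om γ r₀ y ^ 2) x -
        4 * m * om γ r₀ x ^ 2) + (lap (fun y => om γ r₀ y ^ 2) x - 2 / rsq x * rdr (fun y => om γ r₀ y ^ 2) x))) ∧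
      ∫ x, |sV (u t) x ^ (2 * m) * (sW (u t) x * (rdr (fun y => om γ r₀ y ^ 2) x -
        4 * m * om γ r₀ x ^ 2) + (lap (fun y => om γ r₀ y ^ 2) x - 2 / rsq x * rdr (fun y => om γ r₀ y ^ 2) x))| ≤
        K1 * (K * A2 + C) := by
    intro t ht
    have h1 := (hK1 t (hI0 t ht)).1
    have hWc := (svw_smooth h.ns (hIco t ht)).2.1.continuous
    refine RGe_jb h1.1 h1.2 ?_ fun x => ?_
    · exact (hWc.mul hDc).aestronglyMeasurable.add hNm.aestronglyMeasurable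
    · refine (abs_add_le _ _).trans (add_le_add ?_ (hC x).2.2.2.1)
      rw [abs_mul]
      exact mul_le_mul ((DB_BL (hK t (hI0 t ht)).2.1).1 x) (hD x) (abs_nonneg _)
        ((abs_nonneg _).trans ((DB_BL (hK t (hI0 t ht)).2.1).1 x))
  refine ⟨fun t ht => ⟨?_, (hB t ht).1, ?_, K', hDB t ht⟩, ?_, ?_⟩
  · rw [hA']
    exact (hA t ht).1
  · have h1 := (hK1 t (hI0 t ht)).1
    refine (RGe_jb (c := C * C) h1.1 h1.2 (hocd.continuous.mul (RGe_lap_cont hocd)).aestronglyMeasurable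
      fun x => ?_).1
    rw [Pi.mul_apply, abs_mul]
    exact mul_le_mul (hC x).1 (hC x).2.2.1 (abs_nonneg _) hC0
  · have hJ : JC T (fun t x => ((m : ℝ) * sV (u t) x ^ (m - 1)) ^ 2 * gsq (sV (u t)) x * om γ r₀ x ^ 2) := by
      refine JC_mul (JC_mul ?_ hJ4) (JC_const (hocd.continuous.pow 2))
      exact JC_comp F.evV.cont (H := fun s : ℝ => ((m : ℝ) * s ^ (m - 1)) ^ 2) (by fun_prop)
    have h1 := RGe_ti (K := 3 * K' * C ^ 2) hab (RGe_am hJ ha hb) fun t ht => by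
      have h2 := (hA t ht).2
      simp only [hgs t ht] at h2
      exact h2
    refine h1.congr ?_
    intro t ht
    rw [uIoc_of_le hab] at ht
    have ht' : t ∈ Icc a b := ⟨ht.1.le, ht.2⟩
    show ∫ x, ((m : ℝ) * sV (u t) x ^ (m - 1)) ^ 2 * gsq (sV (u t)) x * om γ r₀ x ^ 2 =
      ∫ x, om γ r₀ x ^ 2 * gsq (fun y => sV (u t) y ^ m) x
    rw [hA']
    simp only [hgs t ht']
  · refine RGe_ti (K := K1 * (K * A2 + C)) hab ?_ fun t ht => (hB t ht).2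
    have e1 : AEStronglyMeasurable (fun q : ℝ × E3 => sV (u q.1) q.2 ^ (2 * m))
        ((volume.restrict (Icc a b)).prod volume) := RGe_am (Φ := fun t x => sV (u t) x ^ (2 * m)) hJ1 ha hb
    have e2 : AEStronglyMeasurable (fun q : ℝ × E3 => sW (u q.1) q.2)
        ((volume.restrict (Icc a b)).prod volume) := RGe_am (Φ := fun t x => sW (u t) x) F.wcont ha hb
    have e3 : AEStronglyMeasurable (fun q : ℝ × E3 => rdr (fun y => om γ r₀ y ^ 2) q.2 - 4 * m * om γ r₀ q.2 ^ 2)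
        ((volume.restrict (Icc a b)).prod volume) := (hDc.measurable.comp measurable_snd).aestronglyMeasurable
    have e4 : AEStronglyMeasurable (fun q : ℝ × E3 => lap (fun y => om γ r₀ y ^ 2) q.2 -
        2 / rsq q.2 * rdr (fun y => om γ r₀ y ^ 2) q.2)
        ((volume.restrict (Icc a b)).prod volume) := (hNm.comp measurable_snd).aestronglyMeasurable
    exact e1.mul ((e2.mul e3).add e4)

theorem ev_G {T : ℝ} {u : ℝ → E3 → E3} {p : ℝ → E3 → ℝ} (h : IsHInfAxisymNS T u p) {m : ℕ} (hm : 4 ≤ m) {s r₀ M : ℝ}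
    (hs : 3 ≤ s) (hs4 : s ≤ 4) (hr : 0 < r₀) (hM : ∀ x, |circ (u 0) x| ≤ M) : ∃ C : ℝ, 0 ≤ C ∧ ∀ a b : ℝ, 0 ≤ a → a ≤ b → b < T →
    (∫ x, Gm m s r₀ (u b) x ^ 2) + (∫ t in a..b, ((4 - 2 / m) * (∫ x, gsq (Gm m s r₀ (u t)) x)
      + (2 * s - s ^ 2 / (2 * m)) * ∫ x, Hm m s r₀ (u t) x)) ≤
    (∫ x, Gm m s r₀ (u a) x ^ 2) + s * (∫ t in a..b, ∫ x, max (- sW (u t) x) 0 * Gm m s r₀ (u t) x ^ 2) + C * (b - a) := by
  have hM0 : 0 ≤ M := (abs_nonneg _).trans (hM 0)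
  have hm4 : (4 : ℝ) ≤ m := by exact_mod_cast hm
  have hγ : 4 ≤ 2 * (m : ℝ) - s / 2 := by linarith
  obtain ⟨C', hC'0, hC'⟩ := RGe_pt hm hs hs4 hr hM0
  have hE0 : 0 ≤ ∫ x, ‖u 0 x‖ ^ 2 := integral_nonneg fun _ => sq_nonneg _
  refine ⟨C' * ∫ x, ‖u 0 x‖ ^ 2, mul_nonneg hC'0 hE0, fun a b ha hab hb => ?_⟩
  obtain ⟨C, hC0, hC⟩ := om_bd hγ hr
  have hocd := om_cd hγ hr
  obtain ⟨hint, hi1, hi2⟩ := RGe_int h hm hγ hr ha hab hb
  obtain ⟨K, hK⟩ := gm_int h hm hs hs4 hr hb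
  obtain ⟨hg1, hg2, hg3, hg4⟩ := gm_ii h hm hs hs4 hr ha hab hb
  have hIco : ∀ t ∈ Icc a b, t ∈ Ico 0 T := fun t ht => ⟨ha.trans ht.1, ht.2.trans_lt hb⟩
  have hI0 : ∀ t ∈ Icc a b, t ∈ Icc 0 b := fun t ht => ⟨ha.trans ht.1, ht.2⟩
  have hev := ev_om h hm hs hs4 hr ha hab hb
  have hGsq : ∀ t, (∫ x, sV (u t) x ^ (2 * m) * om (2 * m - s / 2) r₀ x ^ 2) = ∫ x, Gm m s r₀ (u t) x ^ 2 := by
    intro t
    refine integral_congr_ae (ae_of_all _ fun x => ?_)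
    show sV (u t) x ^ (2 * m) * om (2 * m - s / 2) r₀ x ^ 2 = (sV (u t) x ^ m * om (2 * m - s / 2) r₀ x) ^ 2
    rw [mul_pow, RGe_pow_sq]
  rw [hGsq, hGsq] at hev
  -- the space integral
  have hevJ : ∀ t ∈ Icc a b, (∫ x, evJ (fun s => s ^ (2 * m)) (u t) (sV (u t))
      (fun y => -2 * sW (u t) y * sV (u t) y) (fun y => om (2 * m - s / 2) r₀ y ^ 2) x) =
      -(4 - 2 / (m : ℝ)) * (∫ x, om (2 * m - s / 2) r₀ x ^ 2 * gsq (fun y => sV (u t) y ^ m) x) +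
      ∫ x, sV (u t) x ^ (2 * m) * (sW (u t) x * (rdr (fun y => om (2 * m - s / 2) r₀ y ^ 2) x -
        4 * m * om (2 * m - s / 2) r₀ x ^ 2) + (lap (fun y => om (2 * m - s / 2) r₀ y ^ 2) x -
        2 / rsq x * rdr (fun y => om (2 * m - s / 2) r₀ y ^ 2) x)) := by
    intro t ht
    obtain ⟨k1, k2, -, -⟩ := hint t ht
    have hv := axF_of h.ns (hIco t ht)
    rw [integral_congr_ae (ae_of_all _ fun x => RGe_evJ hv hm hγ x),
      integral_add (k1.const_mul _) k2, integral_const_mul]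
  have hslice : ∀ t ∈ Icc a b, (∫ x, evJ (fun s => s ^ (2 * m)) (u t) (sV (u t))
      (fun y => -2 * sW (u t) y * sV (u t) y) (fun y => om (2 * m - s / 2) r₀ y ^ 2) x) ≤
      -((4 - 2 / (m : ℝ)) * (∫ x, gsq (Gm m s r₀ (u t)) x) + (2 * s - s ^ 2 / (2 * m)) * ∫ x, Hm m s r₀ (u t) x) +
      s * (∫ x, max (- sW (u t) x) 0 * Gm m s r₀ (u t) x ^ 2) + C' * ∫ x, ‖u 0 x‖ ^ 2 := by
    intro t ht
    obtain ⟨k1, k2, k3, K', k4⟩ := hint t ht
    obtain ⟨g1, g2, g3, g4, g5, g6⟩ := hK t (hI0 t ht)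
    have hv := axF_of h.ns (hIco t ht)
    have hVs := (svw_smooth h.ns (hIco t ht)).1
    have hWs := (svw_smooth h.ns (hIco t ht)).2.1
    have hcirc : ∀ x, |circ (u t) x| ≤ M := h.ns.circ_max hM t (hIco t ht)
    have hK0 : 0 ≤ K := (abs_nonneg _).trans (g6 0)
    rw [hevJ t ht]
    have hrg := rg_id (f := fun y => sV (u t) y ^ m) (hVs.pow m) k4 hocd (C := C)
      (fun x => ⟨(hC x).1, (hC x).2.1, (hC x).2.2.1⟩)
    have hG : (fun y => (fun y => sV (u t) y ^ m) y * om (2 * m - s / 2) r₀ y) = Gm m s r₀ (u t) := rfl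
    rw [hG] at hrg
    have hsq : (∫ x, (fun y => sV (u t) y ^ m) x ^ 2 * (om (2 * m - s / 2) r₀ x * lap (om (2 * m - s / 2) r₀) x)) =
        ∫ x, sV (u t) x ^ (2 * m) * (om (2 * m - s / 2) r₀ x * lap (om (2 * m - s / 2) r₀) x) := by
      refine integral_congr_ae (ae_of_all _ fun x => ?_)
      show (sV (u t) x ^ m) ^ 2 * _ = _
      rw [RGe_pow_sq]
    rw [hsq] at hrg
    rw [hrg]
    -- the remaining integral
    have hSint : Integrable (fun x => sV (u t) x ^ (2 * m) * (sW (u t) x * (rdr (fun y => om (2 * m - s / 2) r₀ y ^ 2) x -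
          4 * m * om (2 * m - s / 2) r₀ x ^ 2) +
        (lap (fun y => om (2 * m - s / 2) r₀ y ^ 2) x - 2 / rsq x * rdr (fun y => om (2 * m - s / 2) r₀ y ^ 2) x) -
        (4 - 2 / (m : ℝ)) * (om (2 * m - s / 2) r₀ x * lap (om (2 * m - s / 2) r₀) x))) := by
      refine (k2.sub (k3.const_mul (4 - 2 / (m : ℝ)))).congr (ae_of_all _ fun x => ?_)
      simp only [Pi.sub_apply]
      ring
    have hS : (∫ x, sV (u t) x ^ (2 * m) * (sW (u t) x * (rdr (fun y => om (2 * m - s / 2) r₀ y ^ 2) x -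
          4 * m * om (2 * m - s / 2) r₀ x ^ 2) +
        (lap (fun y => om (2 * m - s / 2) r₀ y ^ 2) x - 2 / rsq x * rdr (fun y => om (2 * m - s / 2) r₀ y ^ 2) x) -
        (4 - 2 / (m : ℝ)) * (om (2 * m - s / 2) r₀ x * lap (om (2 * m - s / 2) r₀) x))) =
        (∫ x, sV (u t) x ^ (2 * m) * (sW (u t) x * (rdr (fun y => om (2 * m - s / 2) r₀ y ^ 2) x -
          4 * m * om (2 * m - s / 2) r₀ x ^ 2) +
        (lap (fun y => om (2 * m - s / 2) r₀ y ^ 2) x - 2 / rsq x * rdr (fun y => om (2 * m - s / 2) r₀ y ^ 2) x))) -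
        (4 - 2 / (m : ℝ)) * ∫ x, sV (u t) x ^ (2 * m) * (om (2 * m - s / 2) r₀ x * lap (om (2 * m - s / 2) r₀) x) := by
      rw [← integral_const_mul, ← integral_sub k2 (k3.const_mul (4 - 2 / (m : ℝ)))]
      refine integral_congr_ae (ae_of_all _ fun x => ?_)
      beta_reduce
      ring
    have hWG : Integrable (fun x => max (- sW (u t) x) 0 * Gm m s r₀ (u t) x ^ 2) := by
      have hV2 : Integrable (fun x => sV (u t) x ^ 2) := by
        obtain ⟨K2, hK2⟩ := svwDB h (hIco t ht).2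
        exact (DB_BL (hK2 t ⟨(hIco t ht).1, le_rfl⟩).1).2.1
      have hcont : Continuous (fun x => max (- sW (u t) x) 0 * Gm m s r₀ (u t) x ^ 2) :=
        (hWs.continuous.neg.max continuous_const).mul (g1.continuous.pow 2)
      refine (hV2.const_mul (K * K)).mono' hcont.aestronglyMeasurable (ae_of_all _ fun x => ?_)
      have h1 : 0 ≤ max (- sW (u t) x) 0 := le_max_right _ _
      have h2 : max (- sW (u t) x) 0 ≤ K := max_le (by have := (abs_le.1 (g6 x)).1; linarith) hK0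
      rw [Real.norm_eq_abs, abs_of_nonneg (mul_nonneg h1 (sq_nonneg _))]
      calc max (- sW (u t) x) 0 * Gm m s r₀ (u t) x ^ 2 ≤ K * (K * sV (u t) x ^ 2) :=
            mul_le_mul h2 (g5 x) (sq_nonneg _) hK0
        _ = K * K * sV (u t) x ^ 2 := by ring
    have hU := (dsq_int h (hIco t ht)).2
    have hmono : (∫ x, sV (u t) x ^ (2 * m) * (sW (u t) x * (rdr (fun y => om (2 * m - s / 2) r₀ y ^ 2) x -
          4 * m * om (2 * m - s / 2) r₀ x ^ 2) +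
        (lap (fun y => om (2 * m - s / 2) r₀ y ^ 2) x - 2 / rsq x * rdr (fun y => om (2 * m - s / 2) r₀ y ^ 2) x) -
        (4 - 2 / (m : ℝ)) * (om (2 * m - s / 2) r₀ x * lap (om (2 * m - s / 2) r₀) x))) ≤
        -(2 * s - s ^ 2 / (2 * m)) * (∫ x, Hm m s r₀ (u t) x) +
          s * (∫ x, max (- sW (u t) x) 0 * Gm m s r₀ (u t) x ^ 2) + C' * ∫ x, ‖u t x‖ ^ 2 := by
      have i1 : Integrable (fun x => -(2 * s - s ^ 2 / (2 * m)) * Hm m s r₀ (u t) x) := g3.const_mul _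
      have i2 : Integrable (fun x => s * (max (- sW (u t) x) 0 * Gm m s r₀ (u t) x ^ 2)) := hWG.const_mul _
      have i3 : Integrable (fun x => C' * ‖u t x‖ ^ 2) := hU.const_mul _
      have i12 : Integrable (fun x => -(2 * s - s ^ 2 / (2 * m)) * Hm m s r₀ (u t) x +
        s * (max (- sW (u t) x) 0 * Gm m s r₀ (u t) x ^ 2)) := i1.add i2
      rw [← integral_const_mul, ← integral_const_mul, ← integral_const_mul, ← integral_add i1 i2,
        ← integral_add i12 i3]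
      refine integral_mono_ae hSint (i12.add i3) ?_
      filter_upwards [axis_null] with x hx
      exact hC' (u t) hv hcirc x hx
    rw [hS] at hmono
    have hen : C' * (∫ x, ‖u t x‖ ^ 2) ≤ C' * ∫ x, ‖u 0 x‖ ^ 2 :=
      mul_le_mul_of_nonneg_left (energy1 h (hIco t ht)).2 hC'0
    linarith
  -- integration in time
  have hL : IntervalIntegrable (fun t => ∫ x, evJ (fun s => s ^ (2 * m)) (u t) (sV (u t))
      (fun y => -2 * sW (u t) y * sV (u t) y) (fun y => om (2 * m - s / 2) r₀ y ^ 2) x) volume a b := by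
    refine ((hi1.const_mul (-(4 - 2 / (m : ℝ)))).add hi2).congr fun t ht => ?_
    rw [uIoc_of_le hab] at ht
    exact (hevJ t ⟨ht.1.le, ht.2⟩).symm
  have hAH : IntervalIntegrable (fun t => (4 - 2 / (m : ℝ)) * (∫ x, gsq (Gm m s r₀ (u t)) x) +
      (2 * s - s ^ 2 / (2 * m)) * ∫ x, Hm m s r₀ (u t) x) volume a b :=
    (hg2.const_mul _).add (hg3.const_mul _)
  have j1 : IntervalIntegrable (fun t => -((4 - 2 / (m : ℝ)) * (∫ x, gsq (Gm m s r₀ (u t)) x) +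
      (2 * s - s ^ 2 / (2 * m)) * ∫ x, Hm m s r₀ (u t) x)) volume a b := hAH.neg
  have j2 : IntervalIntegrable (fun t => s * ∫ x, max (- sW (u t) x) 0 * Gm m s r₀ (u t) x ^ 2) volume a b :=
    hg4.const_mul s
  have j12 : IntervalIntegrable (fun t => -((4 - 2 / (m : ℝ)) * (∫ x, gsq (Gm m s r₀ (u t)) x) +
      (2 * s - s ^ 2 / (2 * m)) * ∫ x, Hm m s r₀ (u t) x) +
      s * ∫ x, max (- sW (u t) x) 0 * Gm m s r₀ (u t) x ^ 2) volume a b := j1.add j2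
  have hR : IntervalIntegrable (fun t => -((4 - 2 / (m : ℝ)) * (∫ x, gsq (Gm m s r₀ (u t)) x) +
      (2 * s - s ^ 2 / (2 * m)) * ∫ x, Hm m s r₀ (u t) x) +
      s * (∫ x, max (- sW (u t) x) 0 * Gm m s r₀ (u t) x ^ 2) + C' * ∫ x, ‖u 0 x‖ ^ 2) volume a b :=
    j12.add intervalIntegrable_const
  have hfin := intervalIntegral.integral_mono_on hab hL hR hslice
  have hcomp : (∫ t in a..b, (-((4 - 2 / (m : ℝ)) * (∫ x, gsq (Gm m s r₀ (u t)) x) +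
      (2 * s - s ^ 2 / (2 * m)) * ∫ x, Hm m s r₀ (u t) x) +
      s * (∫ x, max (- sW (u t) x) 0 * Gm m s r₀ (u t) x ^ 2) + C' * ∫ x, ‖u 0 x‖ ^ 2)) =
      -(∫ t in a..b, ((4 - 2 / (m : ℝ)) * (∫ x, gsq (Gm m s r₀ (u t)) x) +
      (2 * s - s ^ 2 / (2 * m)) * ∫ x, Hm m s r₀ (u t) x)) +
      s * (∫ t in a..b, ∫ x, max (- sW (u t) x) 0 * Gm m s r₀ (u t) x ^ 2) + C' * (∫ x, ‖u 0 x‖ ^ 2) * (b - a) := by
    rw [intervalIntegral.integral_add j12 intervalIntegrable_const,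
      intervalIntegral.integral_add j1 j2, intervalIntegral.integral_neg,
      intervalIntegral.integral_const_mul, intervalIntegral.integral_const, smul_eq_mul]
    ring
  rw [hcomp] at hfin
  linarith

end Pool.Agent.H87.NS
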