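/-
ROW RH. The hypothesis for `ψ = G`. PROOF. Let `ζ_n(x) = smoothTransition(n² rsq x - 1)` (`0` for `rsq ≤ 1/n²`, `1` for `rsq ≥ 2/n²`, `|pd i ζ_n| ≤ C n`, zero for `rsq ≥ 2/n²`), `φ_n(x) = smoothTransition(2 - (x 2)²/n²)` (`|pd 2 φ_n| ≤ C/n`),
`ψ_n = G ζ_n φ_n`. It is smooth: near points with `rsq > 0` all factors are smooth (`rsq^(γ/2)` is smooth there), near points with `rsq < 1/n²` it is `0`. Its support is compact and contained in `{1/n² ≤ rsq ≤ r₀²/2}`. So the hypothesis applies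
to `ψ_n`. As `n → ∞`: `ψ_n² → G²` off the axis, `ψ_n² ≤ G²`; `ψ_n²/rsq ≤ G²/rsq = Hm`; the left side converges (dominated by `Wm G²`). `gsq ψ_n ≤ (1+ε) gsq G + (1+1/ε) G² gsq (ζ_n φ_n)` and
`∫ G² gsq (ζ_n φ_n) ≤ C ∫ G² (n² 1_{rsq ≤ 2/n²} + 1/n²) → 0`, since `G² ≤ C rsq^γ V²`, `γ ≥ 6`. Let `n → ∞`, then `ε → 0` (`a ≥ 0`).
-/
import Pool.Agent.H87.NB.RG

set_option autoImplicit false

open Set Filter Topology MeasureTheory
open scoped ContDiff

namespace Pool.Agent.H87.NS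

open Pool.Agent.H16

/-- The form bound of the function `Wm` on the set `S`, for test functions near the axis. -/
def FormB (r₀ a b k : ℝ) (S : Set E3) (Wm : E3 → ℝ) : Prop :=
  ∀ ψ : E3 → ℝ, ContDiff ℝ ∞ ψ → HasCompactSupport ψ → (∀ x ∈ tsupport ψ, 0 < rad x ∧ rad x < r₀) →
    ∫ x in S, Wm x * ψ x ^ 2 ≤ a * (∫ x, gsq ψ x) + b * (∫ x, ψ x ^ 2 / rsq x) + k * ∫ x, ψ x ^ 2

private noncomputable def RH_p (N : ℝ) (x : E3) : ℝ := 1 - EVe_th (x 2 ^ 2 / N ^ 2)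

private theorem RH_p_smooth (N : ℝ) : ContDiff ℝ ∞ (RH_p N) := by
  have h : ContDiff ℝ ∞ (fun x : E3 => x 2 ^ 2 / N ^ 2) := by fun_prop
  exact contDiff_const.sub (EVe_th_smooth.comp h)

private theorem RH_p_bd (N : ℝ) (x : E3) : 0 ≤ RH_p N x ∧ RH_p N x ≤ 1 := by
  unfold RH_p
  have h1 := EVe_thn (x 2 ^ 2 / N ^ 2)
  have h2 := EVe_thl (x 2 ^ 2 / N ^ 2)
  constructor <;> linarith

private theorem RH_pd_x2 (i : Fin 3) (x : E3) : pd i (fun y : E3 => y 2) x = e i 2 := by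
  have h0 : HasFDerivAt (fun y : E3 => y 2) (EuclideanSpace.proj (2 : Fin 3) : E3 →L[ℝ] ℝ) x :=
    (EuclideanSpace.proj (2 : Fin 3) : E3 →L[ℝ] ℝ).hasFDerivAt
  have h1 : pd i (fun y : E3 => y 2) x = _ := congrArg (fun A : E3 →L[ℝ] ℝ => A (e i)) h0.fderiv
  rw [h1]
  simp

private theorem RH_p_pd (N : ℝ) (i : Fin 3) (x : E3) :
    pd i (RH_p N) x = - (deriv EVe_th (x 2 ^ 2 / N ^ 2) * (2 * x 2 / N ^ 2)) * e i 2 := by
  have hf : ContDiff ℝ 1 (fun y : E3 => y 2) := by fun_prop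
  have hH : ContDiff ℝ 1 (fun z : ℝ => 1 - EVe_th (z ^ 2 / N ^ 2)) := by
    have h2 : ContDiff ℝ ∞ (fun z : ℝ => z ^ 2 / N ^ 2) := by fun_prop
    exact (contDiff_const.sub (EVe_th_smooth.comp h2)).of_le (by simp)
  have h := comp_pd hf hH i x
  have h1 : HasDerivAt EVe_th (deriv EVe_th (x 2 ^ 2 / N ^ 2)) (x 2 ^ 2 / N ^ 2) :=
    (EVe_th_smooth.differentiable (by simp)).differentiableAt.hasDerivAt
  have h2 : HasDerivAt (fun z : ℝ => z ^ 2 / N ^ 2) (2 * x 2 / N ^ 2) (x 2) := by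
    have h3 := ((hasDerivAt_id (x 2)).pow 2).div_const (N ^ 2)
    simpa using h3
  have h4 : HasDerivAt (fun z : ℝ => 1 - EVe_th (z ^ 2 / N ^ 2))
      (- (deriv EVe_th (x 2 ^ 2 / N ^ 2) * (2 * x 2 / N ^ 2))) (x 2) :=
    (HasDerivAt.comp (h₂ := EVe_th) (h := fun z : ℝ => z ^ 2 / N ^ 2) (x 2) h1 h2).const_sub 1
  rw [h4.deriv, RH_pd_x2] at h
  exact h

private theorem RH_e2 (i : Fin 3) : |(e i : E3) 2| ≤ 1 := by
  rw [e_apply]
  split_ifs <;> simp

private theorem RH_p_pdb {C : ℝ} (hC : ∀ y, |deriv EVe_th y| ≤ C) {N : ℝ} (hN : 1 ≤ N) (i : Fin 3)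
    (x : E3) : |pd i (RH_p N) x| ≤ 4 * C := by
  have hC0 : 0 ≤ C := (abs_nonneg _).trans (hC 0)
  have hN0 : 0 < N := by linarith
  rw [RH_p_pd, abs_mul, abs_neg, abs_mul]
  have h5 := RH_e2 i
  rcases lt_or_ge (2 * N ^ 2) (x 2 ^ 2) with h | h
  · have h1 : 2 < x 2 ^ 2 / N ^ 2 := by rw [lt_div_iff₀ (by positivity)]; exact h
    rw [EVe_dth1 h1, abs_zero, zero_mul, zero_mul]
    positivity
  · have h2 : |x 2| ≤ 2 * N := by
      apply abs_le_of_sq_le_sq _ (by positivity)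
      nlinarith [sq_nonneg N]
    have h3 : |2 * x 2 / N ^ 2| ≤ 4 := by
      rw [abs_div, abs_of_pos (by positivity : 0 < N ^ 2), div_le_iff₀ (by positivity), abs_mul]
      rw [abs_of_pos (by norm_num : (0:ℝ) < 2)]
      nlinarith
    calc |deriv EVe_th (x 2 ^ 2 / N ^ 2)| * |2 * x 2 / N ^ 2| * |(e i : E3) 2| ≤ C * 4 * 1 := by
          gcongr
          exact hC _
      _ = 4 * C := by ring

private theorem RH_et_pdb {C : ℝ} (hC : ∀ y, |deriv EVe_th y| ≤ C) {s : ℝ} (hs : 0 < s) (i : Fin 3)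
    {x : E3} (hx : 0 < rsq x) : pd i (EVe_et s) x ^ 2 ≤ 32 * C ^ 2 / rsq x := by
  rcases lt_or_ge (2 * s ^ 2) (rsq x) with h | h
  · have h1 : 2 < rsq x / s ^ 2 := by rw [lt_div_iff₀ (by positivity)]; exact h
    rw [EVe_pd_et, EVe_dth1 h1, zero_div, zero_mul, zero_pow two_ne_zero]
    positivity
  · have h1 := EVe_pd_et_bd hC hs i x
    have h2 := pow_le_pow_left₀ (abs_nonneg _) h1 2
    rw [sq_abs] at h2
    refine h2.trans ?_
    rw [le_div_iff₀ hx, div_pow, div_mul_eq_mul_div, div_le_iff₀ (by positivity)]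
    nlinarith [sq_nonneg C]

private noncomputable def RH_xi (s N : ℝ) (x : E3) : ℝ := EVe_et s x * RH_p N x

private theorem RH_xi_smooth (s N : ℝ) : ContDiff ℝ ∞ (RH_xi s N) :=
  (EVe_et_smooth s).mul (RH_p_smooth N)

private theorem RH_pd_mul {f g : E3 → ℝ} (hf : ContDiff ℝ 1 f) (hg : ContDiff ℝ 1 g) (i : Fin 3) (x : E3) :
    pd i (fun y => f y * g y) x = f x * pd i g x + g x * pd i f x := by
  unfold pd
  rw [fderiv_fun_mul (hf.differentiable one_ne_zero x) (hg.differentiable one_ne_zero x)]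
  rfl

private theorem RH_xi_bd (s N : ℝ) (x : E3) : 0 ≤ RH_xi s N x ∧ RH_xi s N x ≤ 1 := by
  have h1 := RH_p_bd N x
  have h2 : 0 ≤ EVe_et s x := EVe_thn _
  have h3 : EVe_et s x ≤ 1 := EVe_thl _
  exact ⟨mul_nonneg h2 h1.1, mul_le_one₀ h3 h1.1 h1.2⟩

private theorem RH_xi_pdb {C : ℝ} (hC : ∀ y, |deriv EVe_th y| ≤ C) {s : ℝ} (hs : 0 < s) {N : ℝ} (hN : 1 ≤ N)
    (i : Fin 3) {x : E3} (hx : 0 < rsq x) : pd i (RH_xi s N) x ^ 2 ≤ 64 * C ^ 2 * (1 + 1 / rsq x) := by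
  have hC0 : 0 ≤ C := (abs_nonneg _).trans (hC 0)
  have h1 : pd i (RH_xi s N) x = EVe_et s x * pd i (RH_p N) x + RH_p N x * pd i (EVe_et s) x :=
    RH_pd_mul ((EVe_et_smooth s).of_le (by simp)) ((RH_p_smooth N).of_le (by simp)) i x
  have h2 := RH_et_pdb hC hs i hx
  have h3 := pow_le_pow_left₀ (abs_nonneg _) (RH_p_pdb hC hN i x) 2
  rw [sq_abs] at h3
  have h4 := RH_p_bd N x
  have h5 : 0 ≤ EVe_et s x := EVe_thn _
  have h6 : EVe_et s x ≤ 1 := EVe_thl _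
  have h7 : (EVe_et s x * pd i (RH_p N) x) ^ 2 ≤ pd i (RH_p N) x ^ 2 := by
    rw [mul_pow]
    have : EVe_et s x ^ 2 ≤ 1 := pow_le_one₀ h5 h6
    nlinarith [sq_nonneg (pd i (RH_p N) x)]
  have h8 : (RH_p N x * pd i (EVe_et s) x) ^ 2 ≤ pd i (EVe_et s) x ^ 2 := by
    rw [mul_pow]
    have : RH_p N x ^ 2 ≤ 1 := pow_le_one₀ h4.1 h4.2
    nlinarith [sq_nonneg (pd i (EVe_et s) x)]
  rw [h1]
  have h9 : 64 * C ^ 2 * (1 + 1 / rsq x) = 64 * C ^ 2 + 2 * (32 * C ^ 2 / rsq x) := by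
    field_simp
    ring
  rw [h9]
  nlinarith [sq_nonneg (EVe_et s x * pd i (RH_p N) x - RH_p N x * pd i (EVe_et s) x)]

/-- the gradient of the product -/
private theorem RH_gsq {C : ℝ} (hC : ∀ y, |deriv EVe_th y| ≤ C) {s : ℝ} (hs : 0 < s) {N : ℝ} (hN : 1 ≤ N)
    {G : E3 → ℝ} (hG : ContDiff ℝ 1 G) {x : E3} (hx : 0 < rsq x) :
    gsq (fun y => G y * RH_xi s N y) x ≤ 2 * gsq G x + 384 * C ^ 2 * (G x ^ 2 + G x ^ 2 / rsq x) := by
  have h1 : ∀ i : Fin 3, pd i (fun y => G y * RH_xi s N y) x ^ 2 ≤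
      2 * pd i G x ^ 2 + 128 * C ^ 2 * (G x ^ 2 + G x ^ 2 / rsq x) := by
    intro i
    rw [RH_pd_mul hG ((RH_xi_smooth s N).of_le (by simp)) i x]
    have h2 := RH_xi_pdb hC hs hN i hx
    have h3 := RH_xi_bd s N x
    have h4 : (RH_xi s N x * pd i G x) ^ 2 ≤ pd i G x ^ 2 := by
      rw [mul_pow]
      have : RH_xi s N x ^ 2 ≤ 1 := pow_le_one₀ h3.1 h3.2
      nlinarith [sq_nonneg (pd i G x)]
    have h5 : (G x * pd i (RH_xi s N) x) ^ 2 ≤ 64 * C ^ 2 * (G x ^ 2 + G x ^ 2 / rsq x) := by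
      rw [mul_pow]
      have h6 := mul_le_mul_of_nonneg_left h2 (sq_nonneg (G x))
      have h7 : G x ^ 2 * (64 * C ^ 2 * (1 + 1 / rsq x)) = 64 * C ^ 2 * (G x ^ 2 + G x ^ 2 / rsq x) := by
        field_simp
      linarith
    nlinarith [sq_nonneg (G x * pd i (RH_xi s N) x - RH_xi s N x * pd i G x)]
  unfold gsq
  have h2 := Finset.sum_le_sum (s := Finset.univ) fun i _ => h1 i
  refine h2.trans (le_of_eq ?_)
  rw [Finset.sum_add_distrib, ← Finset.mul_sum, Finset.sum_const, Finset.card_univ, Fintype.card_fin]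
  simp only [nsmul_eq_mul]
  push_cast
  ring

/-- the product is smooth -/
private theorem RH_pow_smooth {γ s : ℝ} (hs : 0 < s) : ContDiff ℝ ∞ (fun ρ : ℝ => ρ ^ γ * EVe_th (ρ / s ^ 2)) := by
  rw [contDiff_iff_contDiffAt]
  intro ρ
  rcases eq_or_ne ρ 0 with h | h
  · subst h
    have h1 : (fun ρ : ℝ => ρ ^ γ * EVe_th (ρ / s ^ 2)) =ᶠ[𝓝 0] fun _ => (0 : ℝ) := by
      filter_upwards [gt_mem_nhds (show (0:ℝ) < s ^ 2 by positivity)] with y hy
      rw [EVe_th0 (by rw [div_le_one (by positivity)]; exact hy.le), mul_zero]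
    exact contDiffAt_const.congr_of_eventuallyEq h1
  · exact (Real.contDiffAt_rpow_const_of_ne h).mul
      (EVe_th_smooth.comp (contDiff_id.div_const (s ^ 2))).contDiffAt

private theorem RH_psi_smooth {V : E3 → ℝ} (hV : ContDiff ℝ ∞ V) (m : ℕ) (γ r₀ : ℝ) {s : ℝ} (hs : 0 < s) (N : ℝ) :
    ContDiff ℝ ∞ (fun x => (V x ^ m * om γ r₀ x) * RH_xi s N x) := by
  have h1 : (fun x => (V x ^ m * om γ r₀ x) * RH_xi s N x) =
      fun x => (V x ^ m * chi r₀ x * RH_p N x) * ((fun ρ : ℝ => ρ ^ (γ / 2) * EVe_th (ρ / s ^ 2)) (rsq x)) := by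
    funext x
    unfold om RH_xi EVe_et
    ring
  rw [h1]
  have h2 : ContDiff ℝ ∞ (chi r₀) := hc_smooth.comp (EVe_rsq_smooth.div_const _)
  exact (((hV.pow m).mul h2).mul (RH_p_smooth N)).mul ((RH_pow_smooth hs).comp EVe_rsq_smooth)

private theorem RH_supp {V : E3 → ℝ} {m : ℕ} {γ r₀ : ℝ} (hr : 0 < r₀) {s : ℝ} (hs : 0 < s) {N : ℝ} (hN : 1 ≤ N) {x : E3}
    (hx : (V x ^ m * om γ r₀ x) * RH_xi s N x ≠ 0) : s ^ 2 ≤ rsq x ∧ rsq x ≤ r₀ ^ 2 / 2 ∧ x 2 ^ 2 ≤ 2 * N ^ 2 := by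
  have hN0 : 0 < N := by linarith
  refine ⟨?_, ?_, ?_⟩
  · by_contra h
    push Not at h
    apply hx
    have : EVe_et s x = 0 := EVe_th0 (by rw [div_le_one (by positivity)]; exact h.le)
    unfold RH_xi
    rw [this, zero_mul, mul_zero]
  · by_contra h
    push Not at h
    apply hx
    have : chi r₀ x = 0 := by
      unfold chi
      refine (hc_bd _).2.2.2 ?_
      rw [le_div_iff₀ (by positivity)]
      linarith
    unfold om
    rw [this, mul_zero, mul_zero, zero_mul]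
  · by_contra h
    push Not at h
    apply hx
    have : RH_p N x = 0 := by
      unfold RH_p
      rw [EVe_th1 (by rw [le_div_iff₀ (by positivity)]; exact h.le), sub_self]
    unfold RH_xi
    rw [this, mul_zero, mul_zero]

private theorem RH_comp {V : E3 → ℝ} {m : ℕ} {γ r₀ : ℝ} (hr : 0 < r₀) {s : ℝ} (hs : 0 < s) {N : ℝ} (hN : 1 ≤ N) :
    HasCompactSupport (fun x => (V x ^ m * om γ r₀ x) * RH_xi s N x) ∧
    ∀ x ∈ tsupport (fun x => (V x ^ m * om γ r₀ x) * RH_xi s N x), 0 < rad x ∧ rad x < r₀ := by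
  constructor
  · refine HasCompactSupport.of_support_subset_isCompact
      (isCompact_closedBall (0 : E3) (√(r₀ ^ 2 / 2 + 2 * N ^ 2))) ?_
    intro x hx
    have h1 := RH_supp hr hs hN (Function.mem_support.1 hx)
    rw [mem_closedBall_zero_iff]
    apply Real.le_sqrt_of_sq_le
    rw [EuclideanSpace.norm_sq_eq, Fin.sum_univ_three]
    simp only [Real.norm_eq_abs, sq_abs]
    have h2 : rsq x = x 0 ^ 2 + x 1 ^ 2 := rfl
    linarith [h1.2.1, h1.2.2]
  · have hcl : IsClosed {x : E3 | s ^ 2 ≤ rsq x ∧ rsq x ≤ r₀ ^ 2 / 2} :=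
      (isClosed_le continuous_const EVe_rsq_smooth.continuous).inter
        (isClosed_le EVe_rsq_smooth.continuous continuous_const)
    have hsub : tsupport (fun x => (V x ^ m * om γ r₀ x) * RH_xi s N x) ⊆
        {x : E3 | s ^ 2 ≤ rsq x ∧ rsq x ≤ r₀ ^ 2 / 2} := by
      refine closure_minimal ?_ hcl
      intro x hx
      have h1 := RH_supp hr hs hN (Function.mem_support.1 hx)
      exact ⟨h1.1, h1.2.1⟩
    intro x hx
    obtain ⟨h1, h2⟩ := hsub hx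
    rw [← rad_sq'] at h1 h2
    have h3 : 0 ≤ rad x := Real.sqrt_nonneg _
    have h4 : 0 < s ^ 2 := by positivity
    constructor
    · rcases h3.lt_or_eq with h5 | h5
      · exact h5
      · rw [← h5] at h1
        norm_num at h1
        linarith
    · have h5 : 0 < r₀ ^ 2 := by positivity
      nlinarith

/-- near a point off the axis the cut-off is one -/
private theorem RH_ev {x : E3} (hx : 0 < rsq x) :
    ∀ᶠ n : ℕ in atTop, ∀ᶠ y in 𝓝 x, RH_xi (1 / ((n : ℝ) + 1)) ((n : ℝ) + 1) y = 1 := by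
  have h1 : Tendsto (fun n : ℕ => 2 * (1 / ((n : ℝ) + 1)) ^ 2) atTop (𝓝 (2 * 0 ^ 2)) :=
    (tendsto_one_div_add_atTop_nhds_zero_nat.pow 2).const_mul 2
  have h2 : ∀ᶠ n : ℕ in atTop, 2 * (1 / ((n : ℝ) + 1)) ^ 2 < rsq x :=
    h1.eventually (gt_mem_nhds (by simpa using hx))
  have h3 : ∀ᶠ n : ℕ in atTop, x 2 ^ 2 < (n : ℝ) := tendsto_natCast_atTop_atTop.eventually (eventually_gt_atTop _)
  filter_upwards [h2, h3] with n hn hn3
  have h4 : ∀ᶠ y in 𝓝 x, 2 * (1 / ((n : ℝ) + 1)) ^ 2 < rsq y :=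
    EVe_rsq_smooth.continuous.continuousAt.eventually (lt_mem_nhds hn)
  have h5c : Continuous (fun y : E3 => y 2 ^ 2) := by fun_prop
  have h5 : ∀ᶠ y in 𝓝 x, y 2 ^ 2 < (n : ℝ) := h5c.continuousAt.eventually (gt_mem_nhds hn3)
  filter_upwards [h4, h5] with y hy hy5
  have hn0 : (0 : ℝ) ≤ n := Nat.cast_nonneg n
  have e1 : EVe_et (1 / ((n : ℝ) + 1)) y = 1 := EVe_th1 (by rw [le_div_iff₀ (by positivity)]; exact hy.le)
  have e2 : RH_p ((n : ℝ) + 1) y = 1 := by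
    unfold RH_p
    rw [EVe_th0, sub_zero]
    rw [div_le_one (by positivity)]
    nlinarith
  unfold RH_xi
  rw [e1, e2, mul_one]

private theorem RH_H {m : ℕ} (hm : 4 ≤ m) {s : ℝ} (hs4 : s ≤ 4) {r₀ : ℝ} {v : E3 → E3} {x : E3} (hx : 0 < rsq x) :
    Hm m s r₀ v x = Gm m s r₀ v x ^ 2 / rsq x := by
  have hm' : (4 : ℝ) ≤ m := by exact_mod_cast hm
  unfold Hm Gm
  rw [mul_pow, om_sq (by linarith), ← pow_mul, mul_comm m 2, Real.rpow_sub_one hx.ne']
  field_simp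

theorem form_G {T : ℝ} {u : ℝ → E3 → E3} {p : ℝ → E3 → ℝ} (h : IsHInfAxisymNS T u p) {m : ℕ} (hm : 4 ≤ m) {s r₀ : ℝ}
    (hs : 3 ≤ s) (hs4 : s ≤ 4) (hr : 0 < r₀) {t : ℝ} (ht : t ∈ Ico 0 T) {a b k : ℝ} (ha : 0 ≤ a) (hb : 0 ≤ b) (hk : 0 ≤ k)
    {S : Set E3} (hS : MeasurableSet S) (hF : FormB r₀ a b k S (fun x => max (- sW (u t) x) 0)) :
    ∫ x in S, max (- sW (u t) x) 0 * Gm m s r₀ (u t) x ^ 2 ≤
      a * (∫ x, gsq (Gm m s r₀ (u t)) x) + b * (∫ x, Hm m s r₀ (u t) x) + k * ∫ x, Gm m s r₀ (u t) x ^ 2 := by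
  obtain ⟨K, hK⟩ := gm_int h hm hs hs4 hr ht.2
  obtain ⟨hG, hD, hHi, -, -, hW⟩ := hK t ⟨ht.1, le_rfl⟩
  obtain ⟨C, hC0, hC⟩ := EVe_dthb
  obtain ⟨hVs, hWs, -⟩ := svw_smooth h.ns ht
  set G : E3 → ℝ := Gm m s r₀ (u t) with hGd
  set H : E3 → ℝ := Hm m s r₀ (u t) with hHd
  have hae : ∀ᵐ x : E3, 0 < rsq x := by
    filter_upwards [axis_null] with x hx
    rw [← rad_sq']
    positivity
  have hGH : ∀ x, 0 < rsq x → H x = G x ^ 2 / rsq x := fun x hx => RH_H hm hs4 hx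
  have hG2 : Integrable (fun x => G x ^ 2) := (DB_BL hD).2.1
  have hgG : Integrable (gsq G) := (gsq_int hD).1
  have hGc : Continuous G := hG.continuous
  set ψ : ℕ → E3 → ℝ := fun n x => G x * RH_xi (1 / ((n : ℝ) + 1)) ((n : ℝ) + 1) x with hψ
  have hs0 : ∀ n : ℕ, 0 < 1 / ((n : ℝ) + 1) := fun n => by positivity
  have hN1 : ∀ n : ℕ, 1 ≤ (n : ℝ) + 1 := fun n => by
    have := Nat.cast_nonneg (α := ℝ) n
    linarith
  have hψs : ∀ n, ContDiff ℝ ∞ (ψ n) := fun n => RH_psi_smooth hVs m (2 * m - s / 2) r₀ (hs0 n) _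
  have hψc := fun n : ℕ => RH_comp (V := sV (u t)) (m := m) (γ := 2 * m - s / 2) hr (hs0 n) (hN1 n)
  have hle : ∀ n x, ψ n x ^ 2 ≤ G x ^ 2 := by
    intro n x
    have h3 := RH_xi_bd (1 / ((n : ℝ) + 1)) ((n : ℝ) + 1) x
    have h4 := pow_le_one₀ (n := 2) h3.1 h3.2
    simp only [hψ]
    rw [mul_pow]
    nlinarith [sq_nonneg (G x)]
  have hevn : ∀ x, 0 < rsq x → ∀ᶠ n : ℕ in atTop, ψ n =ᶠ[𝓝 x] G := by
    intro x hx
    filter_upwards [RH_ev hx] with n hn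
    filter_upwards [hn] with y hy
    simp only [hψ]
    rw [hy, mul_one]
  have hev1 : ∀ x, 0 < rsq x → ∀ᶠ n : ℕ in atTop, ψ n x = G x := fun x hx =>
    (hevn x hx).mono fun n hn => hn.self_of_nhds
  have hev2 : ∀ x, 0 < rsq x → ∀ᶠ n : ℕ in atTop, gsq (ψ n) x = gsq G x := fun x hx =>
    (hevn x hx).mono fun n hn => by
      unfold gsq pd
      rw [hn.fderiv_eq]
  have hWc : Continuous (fun x => max (- sW (u t) x) 0) := hWs.continuous.neg.max continuous_const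
  have hWb : ∀ x, |max (- sW (u t) x) 0| ≤ |K| := by
    intro x
    have h1 := (hW x).trans (le_abs_self K)
    rw [abs_of_nonneg (le_max_right _ _)]
    exact max_le ((neg_le_abs _).trans h1) (abs_nonneg _)
  -- the four limits
  have L1 : Tendsto (fun n => ∫ x in S, max (- sW (u t) x) 0 * ψ n x ^ 2) atTop
      (𝓝 (∫ x in S, max (- sW (u t) x) 0 * G x ^ 2)) := by
    refine tendsto_integral_of_dominated_convergence (fun x => |K| * G x ^ 2) ?_ ?_ ?_ ?_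
    · exact fun n => (hWc.mul ((hψs n).continuous.pow 2)).aestronglyMeasurable
    · exact (hG2.const_mul |K|).restrict
    · intro n
      refine Eventually.of_forall fun x => ?_
      rw [Real.norm_eq_abs, abs_mul, abs_of_nonneg (sq_nonneg (ψ n x))]
      exact mul_le_mul (hWb x) (hle n x) (sq_nonneg _) (abs_nonneg _)
    · refine ae_restrict_of_ae ?_
      filter_upwards [hae] with x hx
      refine tendsto_const_nhds.congr' ?_
      filter_upwards [hev1 x hx] with n hn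
      rw [hn]
  have L2 : Tendsto (fun n => ∫ x, gsq (ψ n) x) atTop (𝓝 (∫ x, gsq G x)) := by
    refine tendsto_integral_of_dominated_convergence
      (fun x => 2 * gsq G x + 384 * C ^ 2 * (G x ^ 2 + H x)) ?_ ?_ ?_ ?_
    · intro n
      have : Continuous (gsq (ψ n)) := by
        unfold gsq
        exact continuous_finsetSum _ fun i _ => (pd_cont ((hψs n).of_le (by simp)) i).pow 2
      exact this.aestronglyMeasurable
    · exact (hgG.const_mul 2).add ((hG2.add hHi).const_mul _)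
    · intro n
      filter_upwards [hae] with x hx
      rw [Real.norm_eq_abs, abs_of_nonneg (gsq_nonneg _ _), hGH x hx]
      exact RH_gsq hC (hs0 n) (hN1 n) hG hx
    · filter_upwards [hae] with x hx
      refine tendsto_const_nhds.congr' ?_
      filter_upwards [hev2 x hx] with n hn
      rw [hn]
  have L3 : Tendsto (fun n => ∫ x, ψ n x ^ 2 / rsq x) atTop (𝓝 (∫ x, H x)) := by
    refine tendsto_integral_of_dominated_convergence H ?_ hHi ?_ ?_
    · intro n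
      exact (((hψs n).continuous.pow 2).measurable.div EVe_rsq_smooth.continuous.measurable).aestronglyMeasurable
    · intro n
      filter_upwards [hae] with x hx
      rw [Real.norm_eq_abs, abs_of_nonneg (div_nonneg (sq_nonneg _) hx.le), hGH x hx]
      exact div_le_div_of_nonneg_right (hle n x) hx.le
    · filter_upwards [hae] with x hx
      refine tendsto_const_nhds.congr' ?_
      filter_upwards [hev1 x hx] with n hn
      rw [hn, hGH x hx]
  have L4 : Tendsto (fun n => ∫ x, ψ n x ^ 2) atTop (𝓝 (∫ x, G x ^ 2)) := by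
    refine tendsto_integral_of_dominated_convergence (fun x => G x ^ 2) ?_ hG2 ?_ ?_
    · exact fun n => ((hψs n).continuous.pow 2).aestronglyMeasurable
    · intro n
      refine Eventually.of_forall fun x => ?_
      rw [Real.norm_eq_abs, abs_of_nonneg (sq_nonneg (ψ n x))]
      exact hle n x
    · filter_upwards [hae] with x hx
      refine tendsto_const_nhds.congr' ?_
      filter_upwards [hev1 x hx] with n hn
      rw [hn]
  exact le_of_tendsto_of_tendsto' L1 (((L2.const_mul a).add (L3.const_mul b)).add (L4.const_mul k))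
    fun n => hF (ψ n) (hψs n) (hψc n).1 (hψc n).2

end Pool.Agent.H87.NS
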