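/-
ROW FC. The one-sided form-bound criterion. PROOF. If `T ≤ 0` nothing to prove. Replace `a, b` by `max a 0`, `max b 0` (the integrals are nonnegative). `ε = min 1 ((4 - 3a)/(2(a+1)))`, `s = 3 + ε ∈ (3, 4]`, `s a < 4`; choose `m ≥ 4` with
`2/m ≤ 4 - s a`, `8/m ≤ 3 (2 - b)`, `β (2m - 2) ≥ 4`. Then `s a ≤ 4 - 2/m`, `s b ≤ 2s - s²/(2m)`. The set `S = {x | rad x ^ β ≤ |circ (u t) x|}` is closed. Outside `S`: `G² = circ^(2m) rad^(-s) chi² ≤ circ² rad^(β(2m-2) - s) ≤ C circ²` on the support of `chi`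
(`rad < r₀`, nonnegative exponent), and `W⁻ circ² ≤ (‖u‖/rad) M rad ‖u‖ = M ‖u‖²` (radFlux_le, circ_le, circ_max). So at each `t ∈ [t₀, T)` by form_G:
`∫ W⁻ G² ≤ a ∫ gsq G + b ∫ Hm + k(t) ∫ G² + C'`, `C'` independent of `t`. Insert into ev_G: `y(b') ≤ y(a') + s ∫_{a'}^{b'} k y + C'' (b' - a')`, `y = ∫ G²`. With `Y(t) = y(t) + C'' (T - t)`: `Y(b') ≤ Y(a') + s ∫ k Y`; gron (NS/Wb.lean, `l = s`, `w = k`,
`Q = ∫_{Ico t₀ T} k`; `k Y` is interval integrable because `Y` is measurable and bounded on compact intervals): `Y(t) ≤ Y(t₀) exp(2 s Q + 1) =: M₁` for `t ∈ [t₀, T)`. For `rad x < r₀/2`: `chi = 1`, `G² = circ^(2m) rad^(-s)` (`circ = rsq V`,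
`rsq^(2m) = rad^(4m)`), so gam_crit with `r₂ = r₀/2`, `a = t₀`. Finally `|circ| = rsq |V| ≤ C rad²` (circ_eq, rad_sq').
-/
import Pool.Agent.H87.NB.RH
import Pool.Agent.H87.NB.RGe
import Pool.Agent.H87.NB.GCl

set_option autoImplicit false

open Set Filter Topology MeasureTheory
open scoped ContDiff

namespace Pool.Agent.H87.NS

open Pool.Agent.H16

theorem FC_param {a b β : ℝ} (ha0 : 0 ≤ a) (ha : a < 4 / 3) (hb : b < 2) (hβ : 0 < β) :
    ∃ (m : ℕ) (s : ℝ), 4 ≤ m ∧ 3 < s ∧ s ≤ 4 ∧ s * a ≤ 4 - 2 / m ∧ s * b ≤ 2 * s - s ^ 2 / (2 * m) ∧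
      s ≤ β * (2 * m - 2) := by
  obtain ⟨s, hs⟩ : ∃ s : ℝ, s = 3 + min 1 ((4 - 3 * a) / (2 * (a + 1))) := ⟨_, rfl⟩
  have h1 : 0 < (4 - 3 * a) / (2 * (a + 1)) := div_pos (by linarith) (by linarith)
  have hs3 : 3 < s := by
    have := lt_min one_pos h1
    rw [hs]
    linarith
  have hs4 : s ≤ 4 := by
    have := min_le_left (1 : ℝ) ((4 - 3 * a) / (2 * (a + 1)))
    rw [hs]
    linarith
  have hsa : s * a < 4 := by
    have h2 := min_le_right (1 : ℝ) ((4 - 3 * a) / (2 * (a + 1)))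
    have h3 : (4 - 3 * a) / (2 * (a + 1)) * a < 4 - 3 * a := by
      rw [div_mul_eq_mul_div, div_lt_iff₀ (by linarith)]
      nlinarith
    have h4 := mul_le_mul_of_nonneg_right h2 ha0
    rw [hs, add_mul]
    linarith
  obtain ⟨m, hm⟩ := exists_nat_ge (max 4 (max (2 / (4 - s * a)) (max (2 / (2 - b)) (1 + 2 / β))))
  have hm4 : (4 : ℝ) ≤ m := (le_max_left _ _).trans hm
  have hm1 : 2 / (4 - s * a) ≤ m := ((le_max_left _ _).trans (le_max_right _ _)).trans hm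
  have hm2 : 2 / (2 - b) ≤ m :=
    ((le_max_left _ _).trans ((le_max_right _ _).trans (le_max_right _ _))).trans hm
  have hm3 : 1 + 2 / β ≤ m :=
    ((le_max_right _ _).trans ((le_max_right _ _).trans (le_max_right _ _))).trans hm
  have hm0 : (0 : ℝ) < m := by linarith
  refine ⟨m, s, by exact_mod_cast hm4, hs3, hs4, ?_, ?_, ?_⟩
  · rw [div_le_iff₀ (by linarith)] at hm1
    have : 2 / (m : ℝ) ≤ 4 - s * a := by
      rw [div_le_iff₀ hm0]
      linarith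
    linarith
  · rw [div_le_iff₀ (by linarith)] at hm2
    have h5 : s ^ 2 / (2 * m) ≤ s * (2 - b) := by
      rw [div_le_iff₀ (by linarith)]
      nlinarith
    linarith
  · have h6 : β * (1 + 2 / β) ≤ β * m := mul_le_mul_of_nonneg_left hm3 hβ.le
    have h7 : β * (1 + 2 / β) = β + 2 := by
      field_simp
    linarith

theorem FC_G2 {v : E3 → E3} (hv : AxF v) {m : ℕ} {s r₀ : ℝ} (hm : 4 ≤ m) (hs4 : s ≤ 4) {x : E3} (hx : 0 < rad x) :
    Gm m s r₀ v x ^ 2 = circ v x ^ (2 * m) * rad x ^ (-s) * chi r₀ x ^ 2 := by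
  have hmr : (4 : ℝ) ≤ m := by exact_mod_cast hm
  unfold Gm
  rw [mul_pow, om_sq (by linarith), circ_eq hv x, ← rad_sq' x, mul_pow (rad x ^ 2)]
  have e1 : (rad x ^ 2 : ℝ) ^ (2 * (m : ℝ) - s / 2) = (rad x ^ 2) ^ (2 * m) * rad x ^ (-s) := by
    rw [← pow_mul (rad x) 2 (2 * m), ← Real.rpow_natCast (rad x) (2 * (2 * m)), ← Real.rpow_add hx,
      ← Real.rpow_natCast (rad x) 2, ← Real.rpow_mul hx.le]
    congr 1
    push_cast
    ring
  rw [e1, ← pow_mul (sV v x) m 2, mul_comm m 2]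
  ring

theorem FC_chi {r₀ : ℝ} (hr : 0 < r₀) {x : E3} (hx : r₀ ≤ rad x) : chi r₀ x = 0 := by
  refine (hc_bd _).2.2.2 ?_
  have h1 : r₀ ^ 2 ≤ rsq x := by
    rw [← rad_sq' x]
    exact pow_le_pow_left₀ hr.le hx 2
  have h2 : 1 ≤ rsq x / r₀ ^ 2 := by
    rw [le_div_iff₀ (by positivity), one_mul]
    exact h1
  linarith

theorem FC_chi1 {r₀ : ℝ} (hr : 0 < r₀) {x : E3} (hx : rad x < r₀ / 2) : chi r₀ x = 1 := by
  refine (hc_bd _).2.2.1 ?_
  have h1 : rsq x ≤ (r₀ / 2) ^ 2 := by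
    rw [← rad_sq' x]
    exact pow_le_pow_left₀ (rad_nonneg x) hx.le 2
  rw [div_le_iff₀ (by positivity)]
  linarith

theorem FC_pt {v : E3 → E3} (hv : AxF v) {m : ℕ} {s r₀ β M : ℝ} (hm : 4 ≤ m) (hs4 : s ≤ 4) (hr : 0 < r₀)
    (hβ : s ≤ β * (2 * m - 2)) (hM : ∀ x, |circ v x| ≤ M) {x : E3} (hx : 0 < rad x)
    (hS : |circ v x| < rad x ^ β) :
    max (- sW v x) 0 * Gm m s r₀ v x ^ 2 ≤ r₀ ^ (β * (2 * m - 2) - s) * M * ‖v x‖ ^ 2 := by
  have hM0 : 0 ≤ M := (abs_nonneg _).trans (hM 0)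
  have hR : 0 ≤ r₀ ^ (β * (2 * m - 2) - s) * M * ‖v x‖ ^ 2 := by positivity
  rw [FC_G2 hv hm hs4 hx]
  rcases le_or_gt r₀ (rad x) with h0 | h0
  · rw [FC_chi hr h0, zero_pow (by norm_num), mul_zero, mul_zero]
    exact hR
  have hchi : chi r₀ x ^ 2 ≤ 1 := pow_le_one₀ (hc_bd _).1 (hc_bd _).2.1
  have h1 : circ v x ^ (2 * m) * rad x ^ (-s) ≤ circ v x ^ 2 * r₀ ^ (β * (2 * m - 2) - s) := by
    have e1 : circ v x ^ (2 * m) = circ v x ^ 2 * |circ v x| ^ (2 * m - 2) := by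
      rw [← sq_abs (circ v x), ← pow_add, ← Even.pow_abs ⟨m, by ring⟩]
      congr 1
      omega
    have e2 : |circ v x| ^ (2 * m - 2) ≤ rad x ^ (β * (2 * m - 2)) := by
      have e3 : rad x ^ (β * (2 * m - 2)) = (rad x ^ β) ^ (2 * m - 2) := by
        rw [← Real.rpow_natCast, ← Real.rpow_mul hx.le, Nat.cast_sub (by omega)]
        push_cast
        rfl
      rw [e3]
      exact pow_le_pow_left₀ (abs_nonneg _) hS.le _
    have e4 : rad x ^ (β * (2 * m - 2)) * rad x ^ (-s) ≤ r₀ ^ (β * (2 * m - 2) - s) := by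
      rw [← Real.rpow_add hx, ← sub_eq_add_neg]
      exact Real.rpow_le_rpow hx.le h0.le (by linarith)
    rw [e1, mul_assoc]
    refine mul_le_mul_of_nonneg_left ?_ (sq_nonneg _)
    exact (mul_le_mul_of_nonneg_right e2 (Real.rpow_nonneg hx.le _)).trans e4
  have h2 : circ v x ^ (2 * m) * rad x ^ (-s) * chi r₀ x ^ 2 ≤ circ v x ^ 2 * r₀ ^ (β * (2 * m - 2) - s) := by
    have h3 : 0 ≤ circ v x ^ (2 * m) * rad x ^ (-s) := by
      rw [pow_mul]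
      positivity
    calc circ v x ^ (2 * m) * rad x ^ (-s) * chi r₀ x ^ 2 ≤ circ v x ^ (2 * m) * rad x ^ (-s) * 1 :=
          mul_le_mul_of_nonneg_left hchi h3
      _ ≤ _ := by rw [mul_one]; exact h1
  have h4 : max (- sW v x) 0 ≤ |sW v x| := max_le (neg_le_abs _) (abs_nonneg _)
  have h5 : |sW v x| * circ v x ^ 2 ≤ M * ‖v x‖ ^ 2 := by
    have h6 : |sW v x| * rad x ≤ ‖v x‖ := by
      have h7 := radFlux_le v x
      rw [flux_eq hv x, abs_mul, ← rad_sq' x, abs_of_pos (by positivity : 0 < rad x ^ 2)] at h7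
      refine le_of_mul_le_mul_left ?_ hx
      linarith
    have h8 : circ v x ^ 2 ≤ M * (rad x * ‖v x‖) := by
      rw [← sq_abs, pow_two]
      exact mul_le_mul (hM x) (circ_le v x) (abs_nonneg _) hM0
    calc |sW v x| * circ v x ^ 2 ≤ |sW v x| * (M * (rad x * ‖v x‖)) :=
          mul_le_mul_of_nonneg_left h8 (abs_nonneg _)
      _ = M * ((|sW v x| * rad x) * ‖v x‖) := by ring
      _ ≤ M * (‖v x‖ * ‖v x‖) :=
          mul_le_mul_of_nonneg_left (mul_le_mul_of_nonneg_right h6 (norm_nonneg _)) hM0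
      _ = M * ‖v x‖ ^ 2 := by ring
  calc max (- sW v x) 0 * (circ v x ^ (2 * m) * rad x ^ (-s) * chi r₀ x ^ 2)
      ≤ |sW v x| * (circ v x ^ 2 * r₀ ^ (β * (2 * m - 2) - s)) :=
        mul_le_mul h4 h2 (by rw [pow_mul]; positivity) (abs_nonneg _)
    _ = r₀ ^ (β * (2 * m - 2) - s) * (|sW v x| * circ v x ^ 2) := by ring
    _ ≤ r₀ ^ (β * (2 * m - 2) - s) * (M * ‖v x‖ ^ 2) :=
        mul_le_mul_of_nonneg_left h5 (Real.rpow_nonneg hr.le _)
    _ = _ := by ring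

variable {T : ℝ} {u : ℝ → E3 → E3} {p : ℝ → E3 → ℝ}

theorem FC_uint (h : IsHInfAxisymNS T u p) {t : ℝ} (ht : t ∈ Ico 0 T) : Integrable (fun x => ‖u t x‖ ^ 2) := by
  obtain ⟨K, hK⟩ := h.reg t ht.2 0
  have h1 := (hK t ⟨ht.1, le_rfl⟩).2.1
  simpa only [norm_iteratedFDeriv_zero] using h1

theorem FC_wint (h : IsHInfAxisymNS T u p) {m : ℕ} (hm : 4 ≤ m) {s r₀ : ℝ} (hs : 3 ≤ s) (hs4 : s ≤ 4) (hr : 0 < r₀)
    {t : ℝ} (ht : t ∈ Ico 0 T) :
    Integrable (fun x => max (- sW (u t) x) 0 * Gm m s r₀ (u t) x ^ 2) := by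
  obtain ⟨K, hK⟩ := gm_int h hm hs hs4 hr ht.2
  obtain ⟨h1, h2, -, -, -, h6⟩ := hK t ⟨ht.1, le_rfl⟩
  have hK0 : 0 ≤ K := BL_nonneg (DB_BL h2)
  refine Integrable.mono' ((DB_BL h2).2.1.const_mul K) ?_ (Eventually.of_forall fun x => ?_)
  · exact ((((svw_smooth h.ns ht).2.1.continuous.neg).max continuous_const).mul
      (h1.continuous.pow 2)).aestronglyMeasurable
  · have h7 : 0 ≤ max (- sW (u t) x) 0 := le_max_right _ _
    rw [Real.norm_of_nonneg (mul_nonneg h7 (sq_nonneg _))]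
    exact mul_le_mul_of_nonneg_right (max_le ((neg_le_abs _).trans (h6 x)) hK0) (sq_nonneg _)

theorem FC_step (h : IsHInfAxisymNS T u p) {M : ℝ} (hM : ∀ x, |circ (u 0) x| ≤ M) {m : ℕ} {s r₀ β a b k : ℝ} (hm : 4 ≤ m)
    (hs3 : 3 < s) (hs4 : s ≤ 4) (hr : 0 < r₀) (hβ : s ≤ β * (2 * m - 2)) (ha : 0 ≤ a) (hb : 0 ≤ b) (hk : 0 ≤ k)
    {t : ℝ} (ht : t ∈ Ico 0 T) (hF : FormB r₀ a b k {x | rad x ^ β ≤ |circ (u t) x|} (fun x => max (- sW (u t) x) 0)) :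
    ∫ x, max (- sW (u t) x) 0 * Gm m s r₀ (u t) x ^ 2 ≤
      a * (∫ x, gsq (Gm m s r₀ (u t)) x) + b * (∫ x, Hm m s r₀ (u t) x) + k * (∫ x, Gm m s r₀ (u t) x ^ 2) +
        r₀ ^ (β * (2 * m - 2) - s) * M * ∫ x, ‖u 0 x‖ ^ 2 := by
  have hM0 : 0 ≤ M := (abs_nonneg _).trans (hM 0)
  have hcm := h.ns.circ_max hM t ht
  have hS : MeasurableSet {x | rad x ^ β ≤ |circ (u t) x|} :=
    measurableSet_le (Init_rad_cont.measurable.pow_const β) (GCl_circ_cont h ht).abs.measurable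
  have h1 := form_G h hm hs3.le hs4 hr ht ha hb hk hS hF
  have hint := FC_wint h hm hs3.le hs4 hr ht
  have hui := FC_uint h ht
  have hc0 : 0 ≤ r₀ ^ (β * (2 * m - 2) - s) * M := by positivity
  rw [← integral_add_compl hS hint]
  have h2 : ∫ x in {x | rad x ^ β ≤ |circ (u t) x|}ᶜ, max (- sW (u t) x) 0 * Gm m s r₀ (u t) x ^ 2 ≤
      ∫ x in {x | rad x ^ β ≤ |circ (u t) x|}ᶜ, r₀ ^ (β * (2 * m - 2) - s) * M * ‖u t x‖ ^ 2 := by
    refine setIntegral_mono_ae_restrict hint.integrableOn (hui.const_mul _).integrableOn ?_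
    rw [EventuallyLE, ae_restrict_iff' hS.compl]
    filter_upwards [axis_null] with x hx hxS
    exact FC_pt (axF_of h.ns ht) hm hs4 hr hβ hcm hx (not_le.1 hxS)
  have h3 : ∫ x in {x | rad x ^ β ≤ |circ (u t) x|}ᶜ, r₀ ^ (β * (2 * m - 2) - s) * M * ‖u t x‖ ^ 2 ≤
      ∫ x, r₀ ^ (β * (2 * m - 2) - s) * M * ‖u t x‖ ^ 2 :=
    setIntegral_le_integral (hui.const_mul _) (Eventually.of_forall fun x => by
      show 0 ≤ r₀ ^ (β * (2 * m - 2) - s) * M * ‖u t x‖ ^ 2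
      positivity)
  rw [integral_const_mul, integral_const_mul] at h3
  rw [integral_const_mul] at h2
  have h4 := mul_le_mul_of_nonneg_left (energy1 h ht).2 hc0
  linarith

theorem FC_ineq (h : IsHInfAxisymNS T u p) {M : ℝ} (hM : ∀ x, |circ (u 0) x| ≤ M) {m : ℕ} {t₀ s r₀ β a b : ℝ}
    {k : ℝ → ℝ} (ht₀ : 0 ≤ t₀) (hm : 4 ≤ m)
    (hs3 : 3 < s) (hs4 : s ≤ 4) (hr : 0 < r₀) (hβ : s ≤ β * (2 * m - 2)) (ha : 0 ≤ a) (hb : 0 ≤ b)
    (hsa : s * a ≤ 4 - 2 / m) (hsb : s * b ≤ 2 * s - s ^ 2 / (2 * m))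
    (hk : IntegrableOn k (Ico t₀ T)) (hk0 : ∀ t ∈ Ico t₀ T, 0 ≤ k t)
    (hF : ∀ t ∈ Ico t₀ T, FormB r₀ a b (k t) {x | rad x ^ β ≤ |circ (u t) x|} (fun x => max (- sW (u t) x) 0)) :
    ∃ C : ℝ, 0 ≤ C ∧ ∀ a' b' : ℝ, t₀ ≤ a' → a' ≤ b' → b' < T →
      IntervalIntegrable (fun t => k t * ∫ x, Gm m s r₀ (u t) x ^ 2) volume a' b' ∧
      ∫ x, Gm m s r₀ (u b') x ^ 2 ≤ (∫ x, Gm m s r₀ (u a') x ^ 2) +
        s * (∫ t in a'..b', k t * ∫ x, Gm m s r₀ (u t) x ^ 2) + C * (b' - a') := by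
  have hM0 : 0 ≤ M := (abs_nonneg _).trans (hM 0)
  obtain ⟨C, hC0, hC⟩ := ev_G h hm hs3.le hs4 hr hM
  obtain ⟨C', hC'⟩ : ∃ C' : ℝ, C' = r₀ ^ (β * (2 * m - 2) - s) * M * ∫ x, ‖u 0 x‖ ^ 2 := ⟨_, rfl⟩
  have hC'0 : 0 ≤ C' := by
    rw [hC']
    have : 0 ≤ ∫ x, ‖u 0 x‖ ^ 2 := integral_nonneg fun x => sq_nonneg _
    positivity
  refine ⟨C + s * C', by positivity, fun a' b' ha' hab hb' => ?_⟩
  obtain ⟨i1, i2, i3, i4⟩ := gm_ii h hm hs3.le hs4 hr (ht₀.trans ha') hab hb'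
  have hki : IntervalIntegrable k volume a' b' := by
    rw [intervalIntegrable_iff_integrableOn_Icc_of_le hab]
    exact hk.mono_set fun t ht => ⟨ha'.trans ht.1, ht.2.trans_lt hb'⟩
  have hky : IntervalIntegrable (fun t => k t * ∫ x, Gm m s r₀ (u t) x ^ 2) volume a' b' := by
    obtain ⟨K, hK⟩ := gm_int h hm hs3.le hs4 hr hb'
    rw [intervalIntegrable_iff_integrableOn_Icc_of_le hab] at hki i1 ⊢
    refine Integrable.mul_bdd (c := K) hki i1.aestronglyMeasurable ?_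
    refine ae_restrict_of_forall_mem measurableSet_Icc fun t ht => ?_
    have h1 := (DB_BL (hK t ⟨(ht₀.trans ha').trans ht.1, ht.2⟩).2.1).2.2
    have h2 : 0 ≤ ∫ x, Gm m s r₀ (u t) x ^ 2 := integral_nonneg fun x => sq_nonneg _
    rw [Real.norm_of_nonneg h2]
    exact h1
  refine ⟨hky, ?_⟩
  have h1 := hC a' b' (ht₀.trans ha') hab hb'
  have h2 : s * (∫ t in a'..b', ∫ x, max (- sW (u t) x) 0 * Gm m s r₀ (u t) x ^ 2) ≤
      ∫ t in a'..b', (((4 - 2 / m) * (∫ x, gsq (Gm m s r₀ (u t)) x)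
      + (2 * s - s ^ 2 / (2 * m)) * ∫ x, Hm m s r₀ (u t) x) +
        (s * (k t * ∫ x, Gm m s r₀ (u t) x ^ 2) + s * C')) := by
    rw [← intervalIntegral.integral_const_mul]
    refine intervalIntegral.integral_mono_on hab (i4.const_mul s)
      (((i2.const_mul _).add (i3.const_mul _)).add ((hky.const_mul s).add intervalIntegrable_const)) fun t ht => ?_
    have ht' : t ∈ Ico t₀ T := ⟨ha'.trans ht.1, ht.2.trans_lt hb'⟩
    have h3 := FC_step h hM hm hs3 hs4 hr hβ ha hb (hk0 t ht') ⟨ht₀.trans ht'.1, ht'.2⟩ (hF t ht')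
    rw [← hC'] at h3
    have h4 : 0 ≤ ∫ x, gsq (Gm m s r₀ (u t)) x := integral_nonneg fun x => gsq_nonneg _ x
    have h5 : 0 ≤ ∫ x, Hm m s r₀ (u t) x := integral_nonneg fun x => by
      unfold Hm
      have := EVe_rsq_nonneg x
      show 0 ≤ sV (u t) x ^ (2 * m) * (rsq x ^ (2 * m - s / 2 - 1 : ℝ) * chi r₀ x ^ 2)
      rw [pow_mul]
      positivity
    have h6 := mul_le_mul_of_nonneg_right hsa h4
    have h7 := mul_le_mul_of_nonneg_right hsb h5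
    have h8 := mul_le_mul_of_nonneg_left h3 (by linarith : 0 ≤ s)
    linarith
  rw [intervalIntegral.integral_add ((i2.const_mul _).add (i3.const_mul _))
    ((hky.const_mul s).add intervalIntegrable_const),
    intervalIntegral.integral_add (hky.const_mul s) intervalIntegrable_const,
    intervalIntegral.integral_const_mul, intervalIntegral.integral_const, smul_eq_mul] at h2
  linarith

theorem form_crit {T : ℝ} {u : ℝ → E3 → E3} {p : ℝ → E3 → ℝ} (h : IsHInfAxisymNS T u p) {M : ℝ} (hM : ∀ x, |circ (u 0) x| ≤ M)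
    {t₀ r₀ β a b : ℝ} {k : ℝ → ℝ} (ht₀ : 0 ≤ t₀) (htT : t₀ < T) (hr : 0 < r₀) (hβ : 0 < β) (ha : a < 4 / 3) (hb : b < 2)
    (hk : IntegrableOn k (Ico t₀ T)) (hk0 : ∀ t ∈ Ico t₀ T, 0 ≤ k t)
    (hF : ∀ t ∈ Ico t₀ T, FormB r₀ a b (k t) {x | rad x ^ β ≤ |circ (u t) x|} (fun x => max (- sW (u t) x) 0)) :
    ∃ C : ℝ, ∀ t ∈ Ico 0 T, ∀ x, |circ (u t) x| ≤ C * rad x ^ 2 := by
  obtain ⟨m, s, hm, hs3, hs4, hsa, hsb, hsβ⟩ := FC_param (a := max a 0) (b := max b 0) (β := β) (le_max_right _ _)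
    (max_lt ha (by norm_num)) (max_lt hb (by norm_num)) hβ
  have hF' : ∀ t ∈ Ico t₀ T, FormB r₀ (max a 0) (max b 0) (k t) {x | rad x ^ β ≤ |circ (u t) x|}
      (fun x => max (- sW (u t) x) 0) := by
    intro t ht ψ h1 h2 h3
    refine (hF t ht ψ h1 h2 h3).trans ?_
    have h4 : 0 ≤ ∫ x, gsq ψ x := integral_nonneg fun x => gsq_nonneg _ x
    have h5 : 0 ≤ ∫ x, ψ x ^ 2 / rsq x := integral_nonneg fun x => div_nonneg (sq_nonneg _) (EVe_rsq_nonneg x)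
    have h6 := mul_le_mul_of_nonneg_right (le_max_left a 0) h4
    have h7 := mul_le_mul_of_nonneg_right (le_max_left b 0) h5
    linarith
  obtain ⟨C, hC0, hC⟩ := FC_ineq h hM ht₀ hm hs3 hs4 hr hsβ (le_max_right _ _) (le_max_right _ _) hsa hsb hk hk0 hF'
  obtain ⟨Q, hQ⟩ : ∃ Q : ℝ, Q = ∫ t in Ico t₀ T, k t := ⟨_, rfl⟩
  obtain ⟨Y, hY⟩ : ∃ Y : ℝ → ℝ, Y = fun t => (∫ x, Gm m s r₀ (u t) x ^ 2) + C * (T - t) := ⟨_, rfl⟩
  have hy0 : ∀ t, 0 ≤ ∫ x, Gm m s r₀ (u t) x ^ 2 := fun t => integral_nonneg fun x => sq_nonneg _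
  have hs0 : 0 ≤ s := by linarith
  have hbd : ∀ b' ∈ Ico t₀ T, ∫ x, Gm m s r₀ (u b') x ^ 2 ≤ Y t₀ * Real.exp (2 * s * Q + 1) := by
    intro b' hb'
    obtain ⟨K, hK⟩ := gm_int h hm hs3.le hs4 hr hb'.2
    have hki : IntervalIntegrable k volume t₀ b' := by
      rw [intervalIntegrable_iff_integrableOn_Icc_of_le hb'.1]
      exact hk.mono_set fun t ht => ⟨ht.1, ht.2.trans_lt hb'.2⟩
    have hkY : ∀ s' t', t₀ ≤ s' → s' ≤ t' → t' ≤ b' → IntervalIntegrable (fun t => k t * Y t) volume s' t' := by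
      intro s' t' h1 h2 h3
      have h4 := (hC s' t' h1 h2 (h3.trans_lt hb'.2)).1
      have h5 : IntervalIntegrable k volume s' t' := by
        refine hki.mono_set ?_
        rw [uIcc_of_le h2, uIcc_of_le hb'.1]
        exact Icc_subset_Icc h1 h3
      have h6 : IntervalIntegrable (fun t => k t * (C * (T - t))) volume s' t' :=
        h5.mul_continuousOn (by fun_prop)
      refine (h4.add h6).congr fun t _ => ?_
      rw [hY]
      simp only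
      ring
    have hYb : Y b' ≤ Y t₀ * Real.exp (2 * s * Q + 1) := by
      refine gron (y := Y) (w := k) (l := s) (Q := Q) (Y := K + C * (T - t₀)) hb'.1 hki
        (fun t ht => hk0 t ⟨ht.1, ht.2.trans_lt hb'.2⟩) ?_ (fun t ht => ?_) (fun t ht => ?_)
        (hkY t₀ b' le_rfl hb'.1 le_rfl) hs0 ?_
      · rw [hQ, intervalIntegral.integral_of_le hb'.1]
        refine setIntegral_mono_set hk ?_ (Eventually.of_forall fun t ht => ⟨ht.1.le, ht.2.trans_lt hb'.2⟩)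
        exact ae_restrict_of_forall_mem measurableSet_Ico fun t ht => hk0 t ht
      · rw [hY]
        exact add_nonneg (hy0 t) (mul_nonneg hC0 (by linarith [ht.2, hb'.2]))
      · rw [hY]
        refine add_le_add (DB_BL (hK t ⟨ht₀.trans ht.1, ht.2⟩).2.1).2.2 (mul_le_mul_of_nonneg_left ?_ hC0)
        linarith [ht.1]
      · intro s' t' h1 h2 h3
        have ht'T : t' < T := h3.trans_lt hb'.2
        obtain ⟨h4, h5⟩ := hC s' t' h1 h2 ht'T
        have h6 : ∫ t in s'..t', k t * ∫ x, Gm m s r₀ (u t) x ^ 2 ≤ ∫ t in s'..t', k t * Y t := by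
          refine intervalIntegral.integral_mono_on h2 h4 (hkY s' t' h1 h2 h3) fun t ht => ?_
          have ht' : t ∈ Ico t₀ T := ⟨h1.trans ht.1, ht.2.trans_lt ht'T⟩
          refine mul_le_mul_of_nonneg_left ?_ (hk0 t ht')
          rw [hY]
          have : 0 ≤ C * (T - t) := mul_nonneg hC0 (by linarith [ht'.2])
          simp only
          linarith
        have h7 := mul_le_mul_of_nonneg_left h6 hs0
        have e1 : Y t' = (∫ x, Gm m s r₀ (u t') x ^ 2) + C * (T - t') := by rw [hY]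
        have e2 : Y s' = (∫ x, Gm m s r₀ (u s') x ^ 2) + C * (T - s') := by rw [hY]
        rw [e1, e2]
        linarith
    have e1 : Y b' = (∫ x, Gm m s r₀ (u b') x ^ 2) + C * (T - b') := by rw [hY]
    have h8 : 0 ≤ C * (T - b') := mul_nonneg hC0 (by linarith [hb'.2])
    linarith
  obtain ⟨C₁, hC₁⟩ := gam_crit h (r₂ := r₀ / 2) (M₁ := Y t₀ * Real.exp (2 * s * Q + 1)) hm hs3 hs4 hM (by positivity)
    ht₀ htT (fun t ht => by
      have ht' : t ∈ Ico 0 T := ⟨ht₀.trans ht.1, ht.2⟩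
      have hms : MeasurableSet {x : E3 | rad x < r₀ / 2} :=
        measurableSet_lt Init_rad_cont.measurable measurable_const
      obtain ⟨K, hK⟩ := gm_int h hm hs3.le hs4 hr ht.2
      have hGi := (DB_BL (hK t ⟨ht'.1, le_rfl⟩).2.1).2.1
      have h1 : ∫ x in {x | rad x < r₀ / 2}, circ (u t) x ^ (2 * m) * rad x ^ (-s) =
          ∫ x in {x | rad x < r₀ / 2}, Gm m s r₀ (u t) x ^ 2 := by
        refine setIntegral_congr_ae hms ?_
        filter_upwards [axis_null] with x hx hx2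
        rw [FC_G2 (axF_of h.ns ht') hm hs4 hx, FC_chi1 hr hx2, one_pow, mul_one]
      rw [h1]
      exact (setIntegral_le_integral hGi (Eventually.of_forall fun x => sq_nonneg _)).trans (hbd t ht))
  refine ⟨C₁, fun t ht x => ?_⟩
  rw [circ_eq (axF_of h.ns ht) x, abs_mul, abs_of_nonneg (EVe_rsq_nonneg x), rad_sq' x, mul_comm]
  exact mul_le_mul_of_nonneg_right (hC₁ t ht x) (EVe_rsq_nonneg x)

end Pool.Agent.H87.NS
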